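import Pool.Agent.Helper19.TS.OL1ArB
import Pool.Agent.Helper78.TS.PieceC
import Pool.Agent.Helper78.TS.MNeg
import Pool.Agent.Helper74.TS.KindB
import Pool.Agent.Helper8.TS.OL1ArHi

/-!
# The case `OL1Ar` from its lists of polynomial inequalities
-/

set_option autoImplicit false
set_option linter.all false

namespace Pool.Agent.Helper19.TS.OL1Ar

open Pool.Agent.Helper83.Cert Pool.Agent.Helper83.TS Pool.Agent.Helper36.CK
open Pool.Agent.Helper8.TS.OL1Ar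

/-! ### Side conditions -/

theorem side_pr {y z : ℝ} (y0 : 0 ≤ y) (y1 : y ≤ 3 / 5) (z0 : 0 ≤ z) (z1 : z ≤ 3 / 5) :
    53 / 500 + 6 / 25 * y ≤ nr y - krs y z := by
  exact fin (y := yv y z 0 0 0 0 0 0 0) (n := 9999)
    (rsc 20 (radd (rq 53 500) (rsc 20 (rmul (rq 6 25) rv2))))
    (rsub (r_nr rv2) (r_krs rv2 rv3))
    (yv_nonneg y0 z0 (le_refl 0) (le_refl 0) (le_refl 0) (le_refl 0) (le_refl 0) (le_refl 0) (le_refl 0))
    (gcons rv2 y0
      (gcons rv3 z0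
      (gcons (rsub (rq 3 5) (rsc 5 rv2)) (sub_nonneg.2 y1)
      (gcons (rsub (rq 3 5) (rsc 5 rv3)) (sub_nonneg.2 z1) gnil))))
    249 (q := (.add (.add (.mul (.g 2) (.add (.pp [(1, 19978)]) (.add (.mul (.g 0) (.pp [(1, 185955)])) (.mul (.g 1) (.pp [(1, 706755)]))))) (.mul (.g 3) (.add (.pp [(1, 139811)]) (.mul (.g 1) (.pp [(1, 5)]))))) (.pp [(1, 420133), (2, 25), (3, 25), (4, 25), (6, 25), (9, 25)]))) (by decide +kernel)

theorem side_ps {y z : ℝ} (y0 : 0 ≤ y) (y1 : y ≤ 3 / 5) (z0 : 0 ≤ z) (z1 : z ≤ 3 / 5) :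
    53 / 500 + 6 / 25 * z ≤ ns z - krs y z := by
  exact fin (y := yv y z 0 0 0 0 0 0 0) (n := 9999)
    (rsc 20 (radd (rq 53 500) (rsc 20 (rmul (rq 6 25) rv3))))
    (rsub (r_ns rv3) (r_krs rv2 rv3))
    (yv_nonneg y0 z0 (le_refl 0) (le_refl 0) (le_refl 0) (le_refl 0) (le_refl 0) (le_refl 0) (le_refl 0))
    (gcons rv2 y0
      (gcons rv3 z0
      (gcons (rsub (rq 3 5) (rsc 5 rv2)) (sub_nonneg.2 y1)
      (gcons (rsub (rq 3 5) (rsc 5 rv3)) (sub_nonneg.2 z1) gnil))))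
    249 (q := (.add (.add (.mul (.g 3) (.add (.pp [(1, 12498)]) (.add (.mul (.g 0) (.pp [(1, 706755)])) (.mul (.g 1) (.pp [(1, 122655)]))))) (.mul (.g 2) (.add (.pp [(1, 139811)]) (.mul (.g 0) (.pp [(1, 5)]))))) (.pp [(1, 464573), (2, 25), (3, 25), (4, 25), (6, 25), (9, 25)]))) (by decide +kernel)

theorem side_rp {x z : ℝ} (x0 : 0 ≤ x) (x1 : x ≤ 3 / 5) (z0 : 0 ≤ z) (z1 : z ≤ 3 / 5) :
    53 / 500 + 6 / 25 * x ≤ np x - kps x z := by
  exact fin (y := yv x z 0 0 0 0 0 0 0) (n := 9999)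
    (rsc 20 (radd (rq 53 500) (rsc 20 (rmul (rq 6 25) rv2))))
    (rsub (r_np rv2) (r_kps rv2 rv3))
    (yv_nonneg x0 z0 (le_refl 0) (le_refl 0) (le_refl 0) (le_refl 0) (le_refl 0) (le_refl 0) (le_refl 0))
    (gcons rv2 x0
      (gcons rv3 z0
      (gcons (rsub (rq 3 5) (rsc 5 rv2)) (sub_nonneg.2 x1)
      (gcons (rsub (rq 3 5) (rsc 5 rv3)) (sub_nonneg.2 z1) gnil))))
    49 (q := (.add (.add (.mul (.g 1) (.add (.pp [(1, 45069)]) (.add (.mul (.g 2) (.pp [(1, 58191)])) (.mul (.g 3) (.pp [(1, 1)]))))) (.mul (.g 0) (.add (.pp [(1, 26472)]) (.mul (.g 2) (.pp [(1, 57591)]))))) (.pp [(1, 24300), (2, 5), (3, 5), (4, 5), (6, 5), (9, 5)]))) (by decide +kernel)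

theorem side_rs {z : ℝ} (z0 : 0 ≤ z) (z1 : z ≤ 3 / 5) :
    53 / 500 + 6 / 25 * z ≤ ns z := by
  exact fin (y := yv z 0 0 0 0 0 0 0 0) (n := 9999)
    (rsc 20 (radd (rq 53 500) (rsc 20 (rmul (rq 6 25) rv2))))
    (r_ns rv2)
    (yv_nonneg z0 (le_refl 0) (le_refl 0) (le_refl 0) (le_refl 0) (le_refl 0) (le_refl 0) (le_refl 0) (le_refl 0))
    (gcons rv2 z0
      (gcons (rsub (rq 3 5) (rsc 5 rv2)) (sub_nonneg.2 z1) gnil))
    249 (q := (.add (.mul (.g 1) (.add (.pp [(1, 296748)]) (.mul (.g 0) (.pp [(1, 122655)])))) (.pp [(1, 886506), (2, 25), (4, 25)]))) (by decide +kernel)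

theorem side_sp {x y : ℝ} (x0 : 0 ≤ x) (x1 : x ≤ 3 / 5) (y0 : 0 ≤ y) (y1 : y ≤ 3 / 5) :
    53 / 500 + 6 / 25 * x ≤ np x - kpr x y := by
  exact fin (y := yv x y 0 0 0 0 0 0 0) (n := 9999)
    (rsc 20 (radd (rq 53 500) (rsc 20 (rmul (rq 6 25) rv2))))
    (rsub (r_np rv2) (r_kpr rv2 rv3))
    (yv_nonneg x0 y0 (le_refl 0) (le_refl 0) (le_refl 0) (le_refl 0) (le_refl 0) (le_refl 0) (le_refl 0))
    (gcons rv2 x0
      (gcons rv3 y0
      (gcons (rsub (rq 3 5) (rsc 5 rv2)) (sub_nonneg.2 x1)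
      (gcons (rsub (rq 3 5) (rsc 5 rv3)) (sub_nonneg.2 y1) gnil))))
    49 (q := (.add (.add (.mul (.g 1) (.add (.pp [(1, 48369)]) (.add (.mul (.g 2) (.pp [(1, 70991)])) (.mul (.g 3) (.pp [(1, 1)]))))) (.mul (.g 0) (.add (.pp [(1, 50222)]) (.mul (.g 2) (.pp [(1, 57591)]))))) (.pp [(1, 28700), (2, 5), (3, 5), (4, 5), (6, 5), (9, 5)]))) (by decide +kernel)

theorem side_sr {y : ℝ} (y0 : 0 ≤ y) (y1 : y ≤ 3 / 5) :
    53 / 500 + 6 / 25 * y ≤ nr y := by
  exact fin (y := yv y 0 0 0 0 0 0 0 0) (n := 9999)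
    (rsc 20 (radd (rq 53 500) (rsc 20 (rmul (rq 6 25) rv2))))
    (r_nr rv2)
    (yv_nonneg y0 (le_refl 0) (le_refl 0) (le_refl 0) (le_refl 0) (le_refl 0) (le_refl 0) (le_refl 0) (le_refl 0))
    (gcons rv2 y0
      (gcons (rsub (rq 3 5) (rsc 5 rv2)) (sub_nonneg.2 y1) gnil))
    249 (q := (.add (.mul (.g 1) (.add (.pp [(1, 304228)]) (.mul (.g 0) (.pp [(1, 185955)])))) (.pp [(1, 842066), (2, 25), (4, 25)]))) (by decide +kernel)

theorem sg0 {x : ℝ} (x0 : 0 ≤ x) (x1 : x ≤ 3 / 5) :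
    0 ≤ sg x := by
  exact fin (y := yv x 0 0 0 0 0 0 0 0) (n := 9999)
    (rsc 10000 rz)
    (r_sg rv2)
    (yv_nonneg x0 (le_refl 0) (le_refl 0) (le_refl 0) (le_refl 0) (le_refl 0) (le_refl 0) (le_refl 0) (le_refl 0))
    (gcons rv2 x0
      (gcons (rsub (rq 3 5) (rsc 5 rv2)) (sub_nonneg.2 x1) gnil))
    249 (q := (.add (.mul (.g 1) (.add (.pp [(1, 128308)]) (.mul (.g 0) (.pp [(1, 5)])))) (.pp [(1, 458326), (2, 25), (4, 25)]))) (by decide +kernel)

theorem kps0 {x z : ℝ} (x0 : 0 ≤ x) (x1 : x ≤ 3 / 5) (z0 : 0 ≤ z) (z1 : z ≤ 3 / 5) :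
    0 ≤ kps x z := by
  exact fin (y := yv x z 0 0 0 0 0 0 0) (n := 9999)
    (rsc 10000 rz)
    (r_kps rv2 rv3)
    (yv_nonneg x0 z0 (le_refl 0) (le_refl 0) (le_refl 0) (le_refl 0) (le_refl 0) (le_refl 0) (le_refl 0))
    (gcons rv2 x0
      (gcons rv3 z0
      (gcons (rsub (rq 3 5) (rsc 5 rv2)) (sub_nonneg.2 x1)
      (gcons (rsub (rq 3 5) (rsc 5 rv3)) (sub_nonneg.2 z1) gnil))))
    249 (q := (.add (.add (.mul (.g 2) (.add (.pp [(1, 78041)]) (.add (.mul (.g 0) (.pp [(1, 5)])) (.mul (.g 3) (.pp [(1, 58189)]))))) (.mul (.g 3) (.add (.pp [(1, 45091)]) (.mul (.g 1) (.pp [(1, 5)]))))) (.pp [(1, 441403), (2, 25), (3, 25), (4, 25), (6, 25), (9, 25)]))) (by decide +kernel)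

theorem kpr0 {x y : ℝ} (x0 : 0 ≤ x) (x1 : x ≤ 3 / 5) (y0 : 0 ≤ y) (y1 : y ≤ 3 / 5) :
    0 ≤ kpr x y := by
  exact fin (y := yv x y 0 0 0 0 0 0 0) (n := 9999)
    (rsc 10000 rz)
    (r_kpr rv2 rv3)
    (yv_nonneg x0 y0 (le_refl 0) (le_refl 0) (le_refl 0) (le_refl 0) (le_refl 0) (le_refl 0) (le_refl 0))
    (gcons rv2 x0
      (gcons rv3 y0
      (gcons (rsub (rq 3 5) (rsc 5 rv2)) (sub_nonneg.2 x1)
      (gcons (rsub (rq 3 5) (rsc 5 rv3)) (sub_nonneg.2 y1) gnil))))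
    249 (q := (.add (.add (.mul (.g 2) (.add (.pp [(1, 63391)]) (.add (.mul (.g 0) (.pp [(1, 5)])) (.mul (.g 3) (.pp [(1, 70989)]))))) (.mul (.g 3) (.add (.pp [(1, 48391)]) (.mul (.g 1) (.pp [(1, 5)]))))) (.pp [(1, 338253), (2, 25), (3, 25), (4, 25), (6, 25), (9, 25)]))) (by decide +kernel)

end Pool.Agent.Helper19.TS.OL1Ar

namespace Pool.Agent.Helper19.TS.OL1Ar

open Pool.Agent.Helper84.TS Pool.Agent.Helper36.TS Pool.Agent.Helper74.TS Pool.Agent.Helper5.TS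
open Pool.Agent.Helper78.TS Pool.Agent.Helper8.TS.OL1Ar

/-! ### The lists -/

/-- the column `p` with the rows `r`, `s` -/
def HMp : Prop := ∀ x y z : ℝ, 0 ≤ x → x < 3 / 5 → 0 ≤ y → y < 3 / 5 → 0 ≤ z → z < 3 / 5 →
  x + y + z < 9 / 10 →
  ModesC (nr y) (ns z) (krs y z) y z (Wp0 y z) (Wp y z) 0 (gg x y z) 0
    (fun _ _ _ _ _ => True) flA fp fr fs Bpr Bps Brs Bsr

/-- the column `r` with the rows `p`, `s`, the witness is of kind B on `p` -/
def HMr : Prop := ∀ x y z : ℝ, 0 ≤ x → x < 3 / 5 → 0 ≤ y → y < 3 / 5 → 0 ≤ z → z < 3 / 5 →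
  x + y + z < 9 / 10 →
  ModesC (np x - kps x z) (ns z) 0 x z (Wr x z) (Wr x z) (sg x) (gg x y z) 0
    (fun _ A _ u _ => 1 - A + x < u) flB fr fp fs Brp Brs Bps Bsp

/-- the column `s` with the rows `p`, `r` -/
def HMs : Prop := ∀ x y z : ℝ, 0 ≤ x → x < 3 / 5 → 0 ≤ y → y < 3 / 5 → 0 ≤ z → z < 3 / 5 →
  x + y + z < 9 / 10 →
  ModesC (np x - kpr x y) (nr y) 0 x y (Ws0 x y) (Ws x y) 0 (gg x y z) 0
    (fun _ _ _ _ _ => True) flA fs fp fr Bsp Bsr Bpr Brp

/-- the column `a` -/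
def HA : Prop := ∀ x y z : ℝ, 0 ≤ x → x ≤ 3 / 5 → 0 ≤ y → y ≤ 3 / 5 → 0 ≤ z → z ≤ 3 / 5 →
  x + y + z ≤ 9 / 10 →
  Neg.ColN (np x + sg x) (nr y) (ns z) (kpr x y) (kps x z) (krs y z) (kpr x y - mpr x y)
    (kps x z) (krs y z - mrs y z) (Wa x y z) x y z

private theorem ups_true (X : ℝ) : Ups (fun _ _ => True) X :=
  ⟨fun _ _ _ _ => trivial, fun _ _ _ _ => trivial⟩

/-- the height of a row -/
private theorem ht0 {A : Fin 4 → Fin 4 → Option (Fin 4 → ℝ)} {P : Fin 4 → Fin 4 → ℝ}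
    {a x y z : Fin 4} (h : OLB A P a) (hn : [a, x, y, z].Nodup) : 0 ≤ P x x - 1 := by
  have hx := (nodup_ne hn).1
  have hn' : [x, a, y, z].Nodup := by
    clear * - hn; revert hn; revert a x y z; decide
  obtain ⟨c1, c2, c3, c4, -⟩ := cell_lin (h.of.cell x x _ (h.mn x hx)) hn'
  linarith

/-- the order of the entries is known: the multiplier of the pair goes to the row `x` -/
theorem gz_ord {A : Fin 4 → Fin 4 → Option (Fin 4 → ℝ)} {P : Fin 4 → Fin 4 → ℝ}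
    {a z x y : Fin 4} {nx ny k K W s : ℝ} (h : -P x z ≤ -P y z) :
    gz A P a z x y (nx - k) ny 0 K W s = gz A P a z x y nx ny k K W s := by
  unfold gz cv
  rw [min_eq_left h, sx_sub]
  ring

/-- one multiplier of a row is shifted to the bound -/
theorem colI_shift {A : Fin 4 → Fin 4 → Option (Fin 4 → ℝ)} {P : Fin 4 → Fin 4 → ℝ}
    {m a b c : Fin 4} {na nb nc kab kac kbc Lab Lac Lbc W s : ℝ}
    (h : ColI A P m a b c (na + s) nb nc kab kac kbc Lab Lac Lbc W) :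
    ColI A P m a b c na nb nc kab kac kbc Lab Lac Lbc (W - s * -P a m) := by
  unfold ColI at *
  have e : sx (na + s) (P a a - 1) (-P a m) = sx na (P a a - 1) (-P a m) + s * -P a m := by
    have := sx_sub na (-s) (P a a - 1) (-P a m)
    rw [sub_neg_eq_add] at this
    rw [this]
    ring
  rw [e] at h
  linarith

/-- **The case `OL1Ar`.** -/
theorem ol1Ar_of (hMp : HMp) (hMr : HMr) (hMs : HMs) (hA : HA) : OL1Ar := by
  intro A P a p r s C h hn hs hk hr' hs' _ ho1 ho2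
  have n1 : [a, r, p, s].Nodup := by
    clear * - hn; revert hn; revert a p r s; decide
  have n2 : [a, s, p, r].Nodup := by
    clear * - hn; revert hn; revert a p r s; decide
  have n3 : [a, p, s, r].Nodup := by
    clear * - hn; revert hn; revert a p r s; decide
  have n4 : [a, r, s, p].Nodup := by
    clear * - hn; revert hn; revert a p r s; decide
  have n5 : [a, s, r, p].Nodup := by
    clear * - hn; revert hn; revert a p r s; decide
  have ne := nodup_ne hn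
  have hpr : p ≠ r := by
    clear * - hn; revert hn; revert a p r s; decide
  have hps : p ≠ s := by
    clear * - hn; revert hn; revert a p r s; decide
  have hrs : r ≠ s := by
    clear * - hn; revert hn; revert a p r s; decide
  unfold Hsm at hs
  have p0 := ht0 h hn
  have r0 := ht0 h n1
  have s0 := ht0 h n2
  have p1 := h.hd p ne.1
  have r1 := h.hd r ne.2.1
  have s1 := h.hd s ne.2.2
  have Mp := hMp _ _ _ p0 p1 r0 r1 s0 s1 hs
  have Mr := hMr _ _ _ p0 p1 r0 r1 s0 s1 hs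
  have Ms := hMs _ _ _ p0 p1 r0 r1 s0 s1 hs
  have tot' := tot p0 p1.le r0 r1.le s0 s1.le hs.le
  have ca := Neg.multi ⟨h.of, hn, h.mn p ne.1, h.mn r ne.2.1, h.mn s ne.2.2, p1, r1, s1,
    fun q F hq hF => h.hw q a F hq hq.symm hF⟩ (hA _ _ _ p0 p1.le r0 r1.le s0 s1.le hs.le)
  have gge := gg_ge p0 r0 s0
  clear hMp hMr hMs hA
  -- the column `p`
  have Ep : ColE A P a p r s (nr (P r r - 1)) (ns (P s s - 1)) (krs (P r r - 1) (P s s - 1))
      (mrs (P r r - 1) (P s s - 1)) (Wp0 (P r r - 1) (P s s - 1)) (Wp (P r r - 1) (P s s - 1))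
      (fun _ _ => True) (fun _ _ _ _ _ => True) flA := by
    have k0 := (sg_p r0 r1.le s0 s1.le).k0
    have K0 := (sg_p r0 r1.le s0 s1.le).K0
    have sx := side_pr r0 r1.le s0 s1.le
    have sy := side_ps r0 r1.le s0 s1.le
    refine ⟨k0, K0, sx, sy, fun _ => ⟨⟨k0, K0, sx, sy, ups_true _, ups_true _,
      base_p r0 r1.le s0 s1.le _, base_pm r0 r1.le s0 s1.le _⟩, trivial, ?_⟩,
      fun t => absurd trivial t, fun _ _ _ => ups_true _, fun _ _ _ => ups_true _,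
      fun _ _ _ => trivial, ?_, ?_, fun _ _ t => t.elim, fun _ _ t => t.elim⟩
    · unfold Wp0
      linarith
    · intro D hD hd _
      exact notInS hr' hn hD hd
    · intro D hD hd _
      exact notInS hs' n3 hD hd
  -- the column `r`
  have Er : ColE A P a r p s (np (P p p - 1) - kps (P p p - 1) (P s s - 1)) (ns (P s s - 1)) 0
      0 (Wr (P p p - 1) (P s s - 1)) (Wr (P p p - 1) (P s s - 1))
      (fun _ _ => True) (fun _ α _ u _ => 1 - α + (P p p - 1) < u) flB := by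
    have sx := side_rp p0 p1.le s0 s1.le
    have sy := side_rs s0 s1.le
    refine ⟨le_rfl, le_rfl, by unfold SideW; linarith, by unfold SideW; linarith, fun t => t.elim,
      fun _ => ⟨C, hk.hC, hk.hd⟩, fun _ _ _ => ⟨?_, ?_⟩, fun _ _ _ => ⟨?_, ?_⟩, ?_,
      fun _ _ _ t => t.elim, ?_, fun _ _ t => t.elim, ?_⟩
    · intro u v h1 h2
      linarith
    · intro u v h1 h2
      linarith
    · intro u v h1 _
      exact h1
    · intro u v h1 _
      exact h1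
    · intro D hD _
      have e : D = C := by
        have := hk.hC
        rw [this] at hD
        exact (Option.some.inj hD).symm
      subst e
      have := hk.cap
      linarith
    · intro D hD hd _
      exact notInS hs' n4 hD hd
    · intro D hD _
      have e : D = C := by
        have := hk.hC
        rw [this] at hD
        exact (Option.some.inj hD).symm
      subst e
      exact hk.vb.row h
  -- the column `s`
  have Es : ColE A P a s p r (np (P p p - 1) - kpr (P p p - 1) (P r r - 1)) (nr (P r r - 1)) 0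
      (mpr (P p p - 1) (P r r - 1)) (Ws0 (P p p - 1) (P r r - 1)) (Ws (P p p - 1) (P r r - 1))
      (fun _ _ => True) (fun _ _ _ _ _ => True) flA := by
    have K0 := (sg_s p0 p1.le r0 r1.le).K0
    have sx := side_sp p0 p1.le r0 r1.le
    have sy := side_sr r0 r1.le
    have sx' : SideW (np (P p p - 1) - kpr (P p p - 1) (P r r - 1) - 0) (P p p - 1) := by
      unfold SideW; linarith
    have sy' : SideW (nr (P r r - 1) - 0) (P r r - 1) := by
      unfold SideW; linarith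
    refine ⟨le_rfl, K0, sx', sy', fun _ => ⟨⟨le_rfl, K0, sx', sy', ups_true _, ups_true _,
      base_s p0 p1.le r0 r1.le _, base_sm p0 p1.le r0 r1.le _⟩, trivial, ?_⟩,
      fun t => absurd trivial t, fun _ _ _ => ups_true _, fun _ _ _ => ups_true _,
      fun _ _ _ => trivial, ?_, ?_, fun _ _ t => t.elim, fun _ _ t => t.elim⟩
    · unfold Ws0
      linarith
    · intro D hD hd _
      exact hk.vb.other h hD
    · intro D hD hd _
      exact notInS hr' n5 hD hd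
  obtain ⟨φ, B, V⟩ := exists_vals hpr hps hrs
  have Gp := colG_ofC (φ := φ) (B := B) (s := 0) (g := gg (P p p - 1) (P r r - 1) (P s s - 1))
    (τ := 0) h hn Ep (by rw [V.hp, V.hr, V.hs, V.pr, V.ps, V.rs, V.sr]; exact Mp)
  have Gr := colG_ofC (φ := φ) (B := B) (s := sg (P p p - 1))
    (g := gg (P p p - 1) (P r r - 1) (P s s - 1)) (τ := 0) h n1 Er
    (by rw [V.hp, V.hr, V.hs, V.rp, V.rs, V.ps, V.sp]; exact Mr)
  have Gs := colG_ofC (φ := φ) (B := B) (s := 0) (g := gg (P p p - 1) (P r r - 1) (P s s - 1))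
    (τ := 0) h n2 Es (by rw [V.hp, V.hr, V.hs, V.sp, V.sr, V.pr, V.rp]; exact Ms)
  rw [gz_ord ho2] at Gr
  rw [gz_ord ho1] at Gs
  have K0 : (1943 : ℝ) / 2500 ≤ gg (P p p - 1) (P r r - 1) (P s s - 1) + 0 := by linarith
  have ca' := colI_shift ca
  have out := hk.out h
  have sg0' := sg0 p0 p1.le
  refine pieceC (lpr := kpr (P p p - 1) (P r r - 1) - mpr (P p p - 1) (P r r - 1))
    (lps := kps (P p p - 1) (P s s - 1))
    (lrs := krs (P r r - 1) (P s s - 1) - mrs (P r r - 1) (P s s - 1))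
    (Wa := Wa (P p p - 1) (P r r - 1) (P s s - 1)) (tp := 0)
    (tr := sg (P p p - 1) * -P p a) (ts := 0) h hn Gp Gr Gs le_rfl (by linarith)
    (bmono hn V) (cyc hn V K0) n1 (hiP hn V K0) (by simp) ?_ (by simp) ?_ (by linarith)
    (by linarith) (by linarith) ?_
  · rw [hk.hC]
    simp only [rd]
    exact mul_le_mul_of_nonneg_left (by linarith) sg0'
  · have e : Wa (P p p - 1) (P r r - 1) (P s s - 1) - 0 - sg (P p p - 1) * -P p a - 0 =
        Wa (P p p - 1) (P r r - 1) (P s s - 1) - sg (P p p - 1) * -P p a := by ring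
    rw [e]
    exact ca'
  · linarith

end Pool.Agent.Helper19.TS.OL1Ar
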