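import Pool.Agent.Helper19.TS.BrBase
import Pool.Agent.Helper19.TS.OL1ArAsm
import Pool.Agent.Helper8.TS.OL1BrHi

/-!
# The case `OL1Br` from its lists of polynomial inequalities
-/

set_option autoImplicit false
set_option linter.all false

namespace Pool.Agent.Helper19.TS.Br

open Pool.Agent.Helper83.Cert Pool.Agent.Helper83.TS Pool.Agent.Helper36.CK
open Pool.Agent.Helper83.OL

/-! ### Side conditions -/

theorem side_pr {x y : ℝ} (x0 : 0 ≤ x) (x1 : x ≤ 3 / 5) (y0 : 0 ≤ y) (y1 : y ≤ 3 / 5) :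
    53 / 500 + 6 / 25 * x ≤ nr x - krs x y := by
  exact fin (y := yv x y 0 0 0 0 0 0 0) (n := 99999)
    (rsc 200 (radd (rq 53 500) (rsc 20 (rmul (rq 6 25) rv2))))
    (rsub (r_nr rv2) (r_krs rv2 rv3))
    (yv_nonneg x0 y0 (le_refl 0) (le_refl 0) (le_refl 0) (le_refl 0) (le_refl 0) (le_refl 0) (le_refl 0))
    (gcons rv2 x0
      (gcons rv3 y0
      (gcons (rsub (rq 3 5) (rsc 5 rv2)) (sub_nonneg.2 x1)
      (gcons (rsub (rq 3 5) (rsc 5 rv3)) (sub_nonneg.2 y1) gnil))))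
    24 (q := (.add (.add (.mul (.g 1) (.add (.pp [(1, 417080)]) (.add (.mul (.g 2) (.pp [(1, 163585)])) (.mul (.g 3) (.pp [(1, 5)]))))) (.mul (.g 2) (.add (.pp [(1, 109149)]) (.mul (.g 0) (.pp [(1, 83340)]))))) (.pp [(1, 461728), (2, 25), (3, 25), (4, 25), (6, 25), (9, 25)]))) (by decide +kernel)

theorem side_ps {x y : ℝ} (x0 : 0 ≤ x) (x1 : x ≤ 3 / 5) (y0 : 0 ≤ y) (y1 : y ≤ 3 / 5) :
    53 / 500 + 6 / 25 * y ≤ ns y - krs x y := by
  exact fin (y := yv x y 0 0 0 0 0 0 0) (n := 99999)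
    (rsc 200 (radd (rq 53 500) (rsc 20 (rmul (rq 6 25) rv3))))
    (rsub (rsc 2 (r_ns rv3)) (r_krs rv2 rv3))
    (yv_nonneg x0 y0 (le_refl 0) (le_refl 0) (le_refl 0) (le_refl 0) (le_refl 0) (le_refl 0) (le_refl 0))
    (gcons rv2 x0
      (gcons rv3 y0
      (gcons (rsub (rq 3 5) (rsc 5 rv2)) (sub_nonneg.2 x1)
      (gcons (rsub (rq 3 5) (rsc 5 rv3)) (sub_nonneg.2 y1) gnil))))
    24 (q := (.add (.add (.mul (.g 0) (.add (.pp [(1, 390080)]) (.add (.mul (.g 2) (.pp [(1, 5)])) (.mul (.g 3) (.pp [(1, 163585)]))))) (.mul (.g 3) (.add (.pp [(1, 109291)]) (.mul (.g 1) (.pp [(1, 83335)]))))) (.pp [(1, 436602), (2, 25), (3, 25), (4, 25), (6, 25), (9, 25)]))) (by decide +kernel)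

theorem side_rp {x y : ℝ} (x0 : 0 ≤ x) (x1 : x ≤ 3 / 5) (y0 : 0 ≤ y) (y1 : y ≤ 3 / 5) :
    53 / 500 + 6 / 25 * x ≤ np x - kps x y := by
  exact fin (y := yv x y 0 0 0 0 0 0 0) (n := 99999)
    (rsc 200 (radd (rq 53 500) (rsc 20 (rmul (rq 6 25) rv2))))
    (rsub (r_np rv2) (r_kps rv2 rv3))
    (yv_nonneg x0 y0 (le_refl 0) (le_refl 0) (le_refl 0) (le_refl 0) (le_refl 0) (le_refl 0) (le_refl 0))
    (gcons rv2 x0
      (gcons rv3 y0
      (gcons (rsub (rq 3 5) (rsc 5 rv2)) (sub_nonneg.2 x1)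
      (gcons (rsub (rq 3 5) (rsc 5 rv3)) (sub_nonneg.2 y1) gnil))))
    24 (q := (.add (.add (.mul (.g 1) (.add (.pp [(1, 428740)]) (.add (.mul (.g 2) (.pp [(1, 150565)])) (.mul (.g 3) (.pp [(1, 5)]))))) (.mul (.g 2) (.add (.pp [(1, 3616)]) (.mul (.g 0) (.pp [(1, 157910)]))))) (.pp [(1, 2477), (2, 25), (3, 25), (4, 25), (6, 25), (9, 25)]))) (by decide +kernel)

theorem side_rs {x y : ℝ} (x0 : 0 ≤ x) (x1 : x ≤ 3 / 5) (y0 : 0 ≤ y) (y1 : y ≤ 3 / 5) :
    53 / 500 + 6 / 25 * y ≤ ns y - kps x y := by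
  exact fin (y := yv x y 0 0 0 0 0 0 0) (n := 99999)
    (rsc 200 (radd (rq 53 500) (rsc 20 (rmul (rq 6 25) rv3))))
    (rsub (rsc 2 (r_ns rv3)) (r_kps rv2 rv3))
    (yv_nonneg x0 y0 (le_refl 0) (le_refl 0) (le_refl 0) (le_refl 0) (le_refl 0) (le_refl 0) (le_refl 0))
    (gcons rv2 x0
      (gcons rv3 y0
      (gcons (rsub (rq 3 5) (rsc 5 rv2)) (sub_nonneg.2 x1)
      (gcons (rsub (rq 3 5) (rsc 5 rv3)) (sub_nonneg.2 y1) gnil))))
    24 (q := (.add (.add (.mul (.g 0) (.add (.pp [(1, 423140)]) (.add (.mul (.g 2) (.pp [(1, 5)])) (.mul (.g 3) (.pp [(1, 150565)]))))) (.mul (.g 3) (.add (.pp [(1, 114771)]) (.mul (.g 1) (.pp [(1, 83335)]))))) (.pp [(1, 436587), (2, 25), (3, 25), (4, 25), (6, 25), (9, 25)]))) (by decide +kernel)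

theorem side_sp {x : ℝ} (x0 : 0 ≤ x) (x1 : x ≤ 3 / 5) :
    53 / 500 + 6 / 25 * x ≤ np x := by
  exact fin (y := yv x 0 0 0 0 0 0 0 0) (n := 99999)
    (rsc 200 (radd (rq 53 500) (rsc 20 (rmul (rq 6 25) rv2))))
    (r_np rv2)
    (yv_nonneg x0 (le_refl 0) (le_refl 0) (le_refl 0) (le_refl 0) (le_refl 0) (le_refl 0) (le_refl 0) (le_refl 0))
    (gcons rv2 x0
      (gcons (rsub (rq 3 5) (rsc 5 rv2)) (sub_nonneg.2 x1) gnil))
    24 (q := (.add (.mul (.g 1) (.add (.pp [(1, 178591)]) (.mul (.g 0) (.pp [(1, 157910)])))) (.pp [(1, 502352), (2, 25), (4, 25)]))) (by decide +kernel)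

theorem side_sr {x y : ℝ} (x0 : 0 ≤ x) (x1 : x ≤ 3 / 5) (y0 : 0 ≤ y) (y1 : y ≤ 3 / 5) :
    53 / 500 + 6 / 25 * y ≤ nr y - kpr x y := by
  exact fin (y := yv x y 0 0 0 0 0 0 0) (n := 99999)
    (rsc 200 (radd (rq 53 500) (rsc 20 (rmul (rq 6 25) rv3))))
    (rsub (r_nr rv3) (r_kpr rv2 rv3))
    (yv_nonneg x0 y0 (le_refl 0) (le_refl 0) (le_refl 0) (le_refl 0) (le_refl 0) (le_refl 0) (le_refl 0))
    (gcons rv2 x0
      (gcons rv3 y0
      (gcons (rsub (rq 3 5) (rsc 5 rv2)) (sub_nonneg.2 x1)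
      (gcons (rsub (rq 3 5) (rsc 5 rv3)) (sub_nonneg.2 y1) gnil))))
    24 (q := (.add (.add (.mul (.g 0) (.add (.pp [(1, 831650)]) (.add (.mul (.g 2) (.pp [(1, 5)])) (.mul (.g 3) (.pp [(1, 14395)]))))) (.mul (.g 3) (.add (.pp [(1, 116214)]) (.mul (.g 1) (.pp [(1, 83340)]))))) (.pp [(1, 432233), (2, 25), (3, 25), (4, 25), (6, 25), (9, 25)]))) (by decide +kernel)

theorem sr0 {x : ℝ} (x0 : 0 ≤ x) (x1 : x ≤ 3 / 5) :
    0 ≤ sr x := by
  exact fin (y := yv x 0 0 0 0 0 0 0 0) (n := 99999)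
    (rsc 100000 rz)
    (r_sr rv2)
    (yv_nonneg x0 (le_refl 0) (le_refl 0) (le_refl 0) (le_refl 0) (le_refl 0) (le_refl 0) (le_refl 0) (le_refl 0))
    (gcons rv2 x0
      (gcons (rsub (rq 3 5) (rsc 5 rv2)) (sub_nonneg.2 x1) gnil))
    24 (q := (.add (.mul (.g 1) (.add (.pp [(1, 156523)]) (.mul (.g 0) (.pp [(1, 5)])))) (.pp [(1, 322706), (2, 25), (4, 25)]))) (by decide +kernel)

theorem kps0 {x y : ℝ} (x0 : 0 ≤ x) (x1 : x ≤ 3 / 5) (y0 : 0 ≤ y) (y1 : y ≤ 3 / 5) :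
    0 ≤ kps x y := by
  exact fin (y := yv x y 0 0 0 0 0 0 0) (n := 99999)
    (rsc 100000 rz)
    (r_kps rv2 rv3)
    (yv_nonneg x0 y0 (le_refl 0) (le_refl 0) (le_refl 0) (le_refl 0) (le_refl 0) (le_refl 0) (le_refl 0))
    (gcons rv2 x0
      (gcons rv3 y0
      (gcons (rsub (rq 3 5) (rsc 5 rv2)) (sub_nonneg.2 x1)
      (gcons (rsub (rq 3 5) (rsc 5 rv3)) (sub_nonneg.2 y1) gnil))))
    24 (q := (.add (.add (.mul (.g 2) (.add (.pp [(1, 84650)]) (.add (.mul (.g 0) (.pp [(1, 5)])) (.mul (.g 3) (.pp [(1, 30111)]))))) (.mul (.g 3) (.add (.pp [(1, 85770)]) (.mul (.g 1) (.pp [(1, 5)]))))) (.pp [(1, 242541), (2, 25), (3, 25), (4, 25), (6, 25), (9, 25)]))) (by decide +kernel)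

theorem mps0 {x y : ℝ} (x0 : 0 ≤ x) (x1 : x ≤ 3 / 5) (y0 : 0 ≤ y) (y1 : y ≤ 3 / 5) :
    0 ≤ mps x y := by
  exact fin (y := yv x y 0 0 0 0 0 0 0) (n := 99999)
    (rsc 100000 rz)
    (r_mps rv2 rv3)
    (yv_nonneg x0 y0 (le_refl 0) (le_refl 0) (le_refl 0) (le_refl 0) (le_refl 0) (le_refl 0) (le_refl 0))
    (gcons rv2 x0
      (gcons rv3 y0
      (gcons (rsub (rq 3 5) (rsc 5 rv2)) (sub_nonneg.2 x1)
      (gcons (rsub (rq 3 5) (rsc 5 rv3)) (sub_nonneg.2 y1) gnil))))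
    24 (q := (.add (.add (.mul (.g 2) (.add (.pp [(1, 60633)]) (.add (.mul (.g 0) (.pp [(1, 5)])) (.mul (.g 3) (.pp [(1, 4805)]))))) (.mul (.g 3) (.add (.pp [(1, 42088)]) (.mul (.g 1) (.pp [(1, 5)]))))) (.pp [(1, 63642), (2, 25), (3, 25), (4, 25), (6, 25), (9, 25)]))) (by decide +kernel)

end Pool.Agent.Helper19.TS.Br

namespace Pool.Agent.Helper19.TS.Br

open Pool.Agent.Helper84.TS Pool.Agent.Helper36.TS Pool.Agent.Helper74.TS Pool.Agent.Helper5.TS
open Pool.Agent.Helper78.TS Pool.Agent.Helper8.TS.OL1Br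
open Pool.Agent.Helper83.OL (np nr ns kpr kps krs mpr mps mrs lpr lps lrs wp wr ws wa sr fp fr fs gg
  bpr bps brp brs bsp bsr)

/-! ### The lists -/

/-- the column `p` with the rows `r`, `s` -/
def HMp : Prop := ∀ x y : ℝ, 0 ≤ x → x < 3 / 5 → 0 ≤ y → y < 3 / 5 →
  ModesC (nr x) (ns y) (krs x y) x y (wp x y) (wp x y) 0 gg 0
    (fun _ _ _ _ _ => True) flA fp fr fs bpr bps brs bsr

/-- the column `r` with the rows `p`, `s`, the witness is of kind B on `p` -/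
def HMr : Prop := ∀ x y : ℝ, 0 ≤ x → x < 3 / 5 → 0 ≤ y → y < 3 / 5 →
  ModesC (np x) (ns y) (kps x y) x y (wr x y) (wr x y) (sr x) gg 0
    (fun _ A _ u _ => 1 - A + x < u) flB fr fp fs brp brs bps bsp

/-- the column `s` with the rows `p`, `r` -/
def HMs : Prop := ∀ x y : ℝ, 0 ≤ x → x < 3 / 5 → 0 ≤ y → y < 3 / 5 →
  ModesC (np x) (nr y - kpr x y) 0 x y (ws x y) (ws x y) 0 gg 0
    (fun _ _ _ _ _ => True) flA fs fp fr bsp bsr bpr brp

/-- the column `a` -/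
def HA : Prop := ∀ (A : Fin 4 → Fin 4 → Option (Fin 4 → ℝ)) (P : Fin 4 → Fin 4 → ℝ)
  (a p r s : Fin 4), Rows3 A P a p r s → 0 ≤ P p p - 1 → 0 ≤ P r r - 1 → 0 ≤ P s s - 1 →
  (P p p - 1) + (P r r - 1) + (P s s - 1) < 9 / 10 →
  ColI A P a p r s (np (P p p - 1) + sr (P p p - 1)) (nr (P r r - 1)) (ns (P s s - 1))
    (kpr (P p p - 1) (P r r - 1)) (kps (P p p - 1) (P s s - 1)) (krs (P r r - 1) (P s s - 1))
    (lpr (P p p - 1) (P r r - 1)) (lps (P p p - 1) (P s s - 1)) (lrs (P r r - 1) (P s s - 1))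
    (wa (P p p - 1) (P r r - 1) (P s s - 1))

private theorem ups_true (X : ℝ) : Ups (fun _ _ => True) X :=
  ⟨fun _ _ _ _ => trivial, fun _ _ _ _ => trivial⟩

/-- the height of a row -/
private theorem ht0 {A : Fin 4 → Fin 4 → Option (Fin 4 → ℝ)} {P : Fin 4 → Fin 4 → ℝ}
    {a x y z : Fin 4} (h : OLB A P a) (hn : [a, x, y, z].Nodup) : 0 ≤ P x x - 1 := by
  have hx := (nodup_ne hn).1
  have hn' : [x, a, y, z].Nodup := by
    clear * - hn; revert hn; revert a x y z; decide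
  obtain ⟨c1, c2, c3, c4, -⟩ := cell_lin (h.of.cell x x _ (h.mn x hx)) hn'
  linarith

/-- the order of the entries is known: the multiplier of the pair goes to the row `y` -/
theorem gz_ord' {A : Fin 4 → Fin 4 → Option (Fin 4 → ℝ)} {P : Fin 4 → Fin 4 → ℝ}
    {a z x y : Fin 4} {nx ny k K W s : ℝ} (h : -P y z ≤ -P x z) :
    gz A P a z x y nx (ny - k) 0 K W s = gz A P a z x y nx ny k K W s := by
  unfold gz cv
  rw [min_eq_right h, sx_sub]
  ring

/-- **The case `OL1Br`.** -/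
theorem ol1Br_of (hMp : HMp) (hMr : HMr) (hMs : HMs) (hA : HA) : OL1Br := by
  intro A P a p r s C h hn hs hk hr' hs' _ ho
  have n1 : [a, r, p, s].Nodup := by
    clear * - hn; revert hn; revert a p r s; decide
  have n2 : [a, s, p, r].Nodup := by
    clear * - hn; revert hn; revert a p r s; decide
  have n3 : [a, p, s, r].Nodup := by
    clear * - hn; revert hn; revert a p r s; decide
  have n4 : [a, r, s, p].Nodup := by
    clear * - hn; revert hn; revert a p r s; decide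
  have n5 : [a, s, r, p].Nodup := by
    clear * - hn; revert hn; revert a p r s; decide
  have ne := nodup_ne hn
  have hpr : p ≠ r := by
    clear * - hn; revert hn; revert a p r s; decide
  have hps : p ≠ s := by
    clear * - hn; revert hn; revert a p r s; decide
  have hrs : r ≠ s := by
    clear * - hn; revert hn; revert a p r s; decide
  unfold Hsm at hs
  have p0 := ht0 h hn
  have r0 := ht0 h n1
  have s0 := ht0 h n2
  have p1 := h.hd p ne.1
  have r1 := h.hd r ne.2.1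
  have s1 := h.hd s ne.2.2
  have Mp := hMp _ _ r0 r1 s0 s1
  have Mr := hMr _ _ p0 p1 s0 s1
  have Ms := hMs _ _ p0 p1 r0 r1
  have tot' := tot p0 p1.le r0 r1.le s0 s1.le
  have ca := hA A P a p r s ⟨h.of, hn, h.mn p ne.1, h.mn r ne.2.1, h.mn s ne.2.2, p1, r1, s1,
    fun q F hq hF => h.hw q a F hq hq.symm hF⟩ p0 r0 s0 hs
  clear hMp hMr hMs hA
  -- the column `p`
  have Ep : ColE A P a p r s (nr (P r r - 1)) (ns (P s s - 1)) (krs (P r r - 1) (P s s - 1))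
      (mrs (P r r - 1) (P s s - 1)) (wp (P r r - 1) (P s s - 1)) (wp (P r r - 1) (P s s - 1))
      (fun _ _ => True) (fun _ _ _ _ _ => True) flA := by
    have k0 := (sg_p r0 r1.le s0 s1.le).k0
    have K0 := (sg_p r0 r1.le s0 s1.le).K0
    have sx := side_pr r0 r1.le s0 s1.le
    have sy := side_ps r0 r1.le s0 s1.le
    refine ⟨k0, K0, sx, sy, fun _ => ⟨⟨k0, K0, sx, sy, ups_true _, ups_true _,
      base_p r0 r1.le s0 s1.le _, base_pm r0 r1.le s0 s1.le _⟩, trivial, le_rfl⟩,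
      fun t => absurd trivial t, fun _ _ _ => ups_true _, fun _ _ _ => ups_true _,
      fun _ _ _ => trivial, ?_, ?_, fun _ _ t => t.elim, fun _ _ t => t.elim⟩
    · intro D hD hd _
      exact notInS hr' hn hD hd
    · intro D hD hd _
      exact notInS hs' n3 hD hd
  -- the column `r`
  have Er : ColE A P a r p s (np (P p p - 1)) (ns (P s s - 1)) (kps (P p p - 1) (P s s - 1))
      (mps (P p p - 1) (P s s - 1)) (wr (P p p - 1) (P s s - 1)) (wr (P p p - 1) (P s s - 1))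
      (fun _ _ => True) (fun _ α _ u _ => 1 - α + (P p p - 1) < u) flB := by
    have k0 := kps0 p0 p1.le s0 s1.le
    have K0 := mps0 p0 p1.le s0 s1.le
    have sx := side_rp p0 p1.le s0 s1.le
    have sy := side_rs p0 p1.le s0 s1.le
    refine ⟨k0, K0, sx, sy, fun t => t.elim,
      fun _ => ⟨C, hk.hC, hk.hd⟩, fun _ _ _ => ⟨?_, ?_⟩, fun _ _ _ => ⟨?_, ?_⟩, ?_,
      fun _ _ _ t => t.elim, ?_, fun _ _ t => t.elim, ?_⟩
    · intro u v h1 h2
      linarith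
    · intro u v h1 h2
      linarith
    · intro u v h1 _
      exact h1
    · intro u v h1 _
      exact h1
    · intro D hD _
      have e : D = C := by
        have := hk.hC
        rw [this] at hD
        exact (Option.some.inj hD).symm
      subst e
      have := hk.cap
      linarith
    · intro D hD hd _
      exact notInS hs' n4 hD hd
    · intro D hD _
      have e : D = C := by
        have := hk.hC
        rw [this] at hD
        exact (Option.some.inj hD).symm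
      subst e
      exact hk.vb.row h
  -- the column `s`
  have Es : ColE A P a s p r (np (P p p - 1)) (nr (P r r - 1) - kpr (P p p - 1) (P r r - 1)) 0
      (mpr (P p p - 1) (P r r - 1)) (ws (P p p - 1) (P r r - 1)) (ws (P p p - 1) (P r r - 1))
      (fun _ _ => True) (fun _ _ _ _ _ => True) flA := by
    have K0 := (sg_s p0 p1.le r0 r1.le).K0
    have sx := side_sp p0 p1.le
    have sy := side_sr p0 p1.le r0 r1.le
    have sx' : SideW (np (P p p - 1) - 0) (P p p - 1) := by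
      unfold SideW; linarith
    have sy' : SideW (nr (P r r - 1) - kpr (P p p - 1) (P r r - 1) - 0) (P r r - 1) := by
      unfold SideW; linarith
    refine ⟨le_rfl, K0, sx', sy', fun _ => ⟨⟨le_rfl, K0, sx', sy', ups_true _, ups_true _,
      base_s p0 p1.le r0 r1.le _, base_sm p0 p1.le r0 r1.le _⟩, trivial, le_rfl⟩,
      fun t => absurd trivial t, fun _ _ _ => ups_true _, fun _ _ _ => ups_true _,
      fun _ _ _ => trivial, ?_, ?_, fun _ _ t => t.elim, fun _ _ t => t.elim⟩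
    · intro D hD hd _
      exact hk.vb.other h hD
    · intro D hD hd _
      exact notInS hr' n5 hD hd
  obtain ⟨φ, B, V⟩ := exists_vals hpr hps hrs
  have Gp := colG_ofC (φ := φ) (B := B) (s := 0) (g := gg) (τ := 0) h hn Ep
    (by rw [V.hp, V.hr, V.hs, V.pr, V.ps, V.rs, V.sr]; exact Mp)
  have Gr := colG_ofC (φ := φ) (B := B) (s := sr (P p p - 1)) (g := gg) (τ := 0) h n1 Er
    (by rw [V.hp, V.hr, V.hs, V.rp, V.rs, V.ps, V.sp]; exact Mr)
  have Gs := colG_ofC (φ := φ) (B := B) (s := 0) (g := gg) (τ := 0) h n2 Es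
    (by rw [V.hp, V.hr, V.hs, V.sp, V.sr, V.pr, V.rp]; exact Ms)
  rw [gz_ord' ho] at Gs
  have K0 : gg ≤ gg + 0 := by linarith
  have ca' := OL1Ar.colI_shift ca
  have out := hk.out h
  have sr0' := sr0 p0 p1.le
  refine pieceC (lpr := lpr (P p p - 1) (P r r - 1)) (lps := lps (P p p - 1) (P s s - 1))
    (lrs := lrs (P r r - 1) (P s s - 1)) (Wa := wa (P p p - 1) (P r r - 1) (P s s - 1)) (tp := 0)
    (tr := sr (P p p - 1) * -P p a) (ts := 0) h hn Gp Gr Gs le_rfl (by unfold gg; norm_num)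
    (bmono hn V) (cyc hn V K0) n4 (hiP hn V K0) (by simp) ?_ (by simp) ?_
    (by unfold lpr; linarith) (by unfold lps; linarith) (by unfold lrs; linarith) ?_
  · rw [hk.hC]
    simp only [rd]
    exact mul_le_mul_of_nonneg_left (by linarith) sr0'
  · have e : wa (P p p - 1) (P r r - 1) (P s s - 1) - 0 - sr (P p p - 1) * -P p a - 0 =
        wa (P p p - 1) (P r r - 1) (P s s - 1) - sr (P p p - 1) * -P p a := by ring
    rw [e]
    exact ca'
  · linarith

end Pool.Agent.Helper19.TS.Br
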