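import Pool.Agent.Helper36.CK.Val
import Pool.Agent.Helper83.OL.Dig
import Pool.Agent.Helper70.OL.Lst

/-!
# The numbers of `OL1Br` (digits of helper83) as expressions

For every number `f`: `fE` with `r_f` (method of helper36, `Helper36/CK/Val.lean`).
-/

set_option autoImplicit false
set_option linter.all false

namespace Pool.Agent.Helper19.TS.Br

open Pool.Agent.Helper83.Cert Pool.Agent.Helper83.TS Pool.Agent.Helper36.CK
open Pool.Agent.Helper83.OL

/-- `100000` times `np` -/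
noncomputable def npE (a : Ex) : Ex :=
  .sub (.add (.mul (.c 125) (.c (417))) (.mul (.c 32) (.mul (.c (226)) a))) (.mul (.c (31581)) (.mul a a))

theorem r_np {y : ℕ → ℝ} {a : Ex} {u : ℝ} (h0 : R y a 1 u) :
    R y (npE a) 100000 (np u) := by
  unfold R at *
  simp only [Nat.cast_one, one_mul] at *
  simp only [npE, exadd, exsub, exmul, exc, h0, np]
  push_cast
  ring

/-- `100000` times `nr` -/
noncomputable def nrE (a : Ex) : Ex :=
  .sub (.sub (.mul (.c 8) (.c (10477))) (.mul (.c (23063)) a)) (.mul (.c (16667)) (.mul a a))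

theorem r_nr {y : ℕ → ℝ} {a : Ex} {u : ℝ} (h0 : R y a 1 u) :
    R y (nrE a) 100000 (nr u) := by
  unfold R at *
  simp only [Nat.cast_one, one_mul] at *
  simp only [nrE, exadd, exsub, exmul, exc, h0, nr]
  push_cast
  ring

/-- `50000` times `ns` -/
noncomputable def nsE (a : Ex) : Ex :=
  .sub (.mul (.c 2) (.sub (.c (20707)) (.mul (.c (6043)) a))) (.mul (.c (8333)) (.mul a a))

theorem r_ns {y : ℕ → ℝ} {a : Ex} {u : ℝ} (h0 : R y a 1 u) :
    R y (nsE a) 50000 (ns u) := by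
  unfold R at *
  simp only [Nat.cast_one, one_mul] at *
  simp only [nsE, exadd, exsub, exmul, exc, h0, ns]
  push_cast
  ring

/-- `100000` times `kpr` -/
noncomputable def kprE (a b : Ex) : Ex :=
  .add (.sub (.sub (.c (41981)) (.mul (.c 5) (.mul (.c (6999)) a))) (.mul (.c 2) (.mul (.c (16911)) b))) (.mul (.c 2) (.mul (.mul (.c (1439)) a) b))

theorem r_kpr {y : ℕ → ℝ} {a b : Ex} {u v : ℝ} (h0 : R y a 1 u) (h1 : R y b 1 v) :
    R y (kprE a b) 100000 (kpr u v) := by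
  unfold R at *
  simp only [Nat.cast_one, one_mul] at *
  simp only [kprE, exadd, exsub, exmul, exc, h0, h1, kpr]
  push_cast
  ring

/-- `100000` times `kps` -/
noncomputable def kpsE (a b : Ex) : Ex :=
  .add (.sub (.sub (.mul (.c 32) (.c (1281))) (.mul (.c 5) (.mul (.c (6999)) a))) (.mul (.c (35219)) b)) (.mul (.c 32) (.mul (.mul (.c (941)) a) b))

theorem r_kps {y : ℕ → ℝ} {a b : Ex} {u v : ℝ} (h0 : R y a 1 u) (h1 : R y b 1 v) :
    R y (kpsE a b) 100000 (kps u v) := by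
  unfold R at *
  simp only [Nat.cast_one, one_mul] at *
  simp only [kpsE, exadd, exsub, exmul, exc, h0, h1, kps]
  push_cast
  ring

/-- `100000` times `krs` -/
noncomputable def krsE (a b : Ex) : Ex :=
  .add (.sub (.sub (.c (41649)) (.mul (.c 5) (.mul (.c (7047)) a))) (.mul (.c 5) (.mul (.c (7263)) b))) (.mul (.c 4) (.mul (.mul (.c (8179)) a) b))

theorem r_krs {y : ℕ → ℝ} {a b : Ex} {u v : ℝ} (h0 : R y a 1 u) (h1 : R y b 1 v) :
    R y (krsE a b) 100000 (krs u v) := by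
  unfold R at *
  simp only [Nat.cast_one, one_mul] at *
  simp only [krsE, exadd, exsub, exmul, exc, h0, h1, krs]
  push_cast
  ring

/-- `100000` times `mpr` -/
noncomputable def mprE (a b : Ex) : Ex :=
  .add (.mul (.c 2) (.sub (.sub (.mul (.c 4) (.c (2803))) (.mul (.c (10643)) a)) (.mul (.c 5) (.mul (.c (2423)) b)))) (.mul (.mul (.c (13573)) a) b)

theorem r_mpr {y : ℕ → ℝ} {a b : Ex} {u v : ℝ} (h0 : R y a 1 u) (h1 : R y b 1 v) :
    R y (mprE a b) 100000 (mpr u v) := by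
  unfold R at *
  simp only [Nat.cast_one, one_mul] at *
  simp only [mprE, exadd, exsub, exmul, exc, h0, h1, mpr]
  push_cast
  ring

/-- `100000` times `lpr` -/
noncomputable def lprE (a b : Ex) : Ex :=
  .sub (.add (.sub (.sub (.c (41981)) (.mul (.c 5) (.mul (.c (6999)) a))) (.mul (.c 2) (.mul (.c (16911)) b))) (.mul (.c 2) (.mul (.mul (.c (1439)) a) b))) (.add (.mul (.c 2) (.sub (.sub (.mul (.c 4) (.c (2803))) (.mul (.c (10643)) a)) (.mul (.c 5) (.mul (.c (2423)) b)))) (.mul (.mul (.c (13573)) a) b))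

theorem r_lpr {y : ℕ → ℝ} {a b : Ex} {u v : ℝ} (h0 : R y a 1 u) (h1 : R y b 1 v) :
    R y (lprE a b) 100000 (lpr u v) := by
  unfold R at *
  simp only [Nat.cast_one, one_mul] at *
  simp only [lprE, exadd, exsub, exmul, exc, h0, h1, lpr, kpr, mpr]
  push_cast
  ring

/-- `100000` times `mps` -/
noncomputable def mpsE (a b : Ex) : Ex :=
  .add (.sub (.mul (.c 2) (.sub (.c (8301)) (.mul (.c 16) (.mul (.c (469)) a)))) (.mul (.c (11299)) b)) (.mul (.c 2) (.mul (.mul (.c (2403)) a) b))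

theorem r_mps {y : ℕ → ℝ} {a b : Ex} {u v : ℝ} (h0 : R y a 1 u) (h1 : R y b 1 v) :
    R y (mpsE a b) 100000 (mps u v) := by
  unfold R at *
  simp only [Nat.cast_one, one_mul] at *
  simp only [mpsE, exadd, exsub, exmul, exc, h0, h1, mps]
  push_cast
  ring

/-- `100000` times `lps` -/
noncomputable def lpsE (a b : Ex) : Ex :=
  .sub (.add (.sub (.sub (.mul (.c 32) (.c (1281))) (.mul (.c 5) (.mul (.c (6999)) a))) (.mul (.c (35219)) b)) (.mul (.c 32) (.mul (.mul (.c (941)) a) b))) (.add (.sub (.mul (.c 2) (.sub (.c (8301)) (.mul (.c 16) (.mul (.c (469)) a)))) (.mul (.c (11299)) b)) (.mul (.c 2) (.mul (.mul (.c (2403)) a) b)))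

theorem r_lps {y : ℕ → ℝ} {a b : Ex} {u v : ℝ} (h0 : R y a 1 u) (h1 : R y b 1 v) :
    R y (lpsE a b) 100000 (lps u v) := by
  unfold R at *
  simp only [Nat.cast_one, one_mul] at *
  simp only [lpsE, exadd, exsub, exmul, exc, h0, h1, lps, kps, mps]
  push_cast
  ring

/-- `100000` times `mrs` -/
noncomputable def mrsE (a b : Ex) : Ex :=
  .sub (.sub (.sub (.c (16249)) (.mul (.c 40) (.mul (.c (163)) a))) (.mul (.c (7753)) b)) (.mul (.c 160) (.mul (.mul (.c (32)) a) b))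

theorem r_mrs {y : ℕ → ℝ} {a b : Ex} {u v : ℝ} (h0 : R y a 1 u) (h1 : R y b 1 v) :
    R y (mrsE a b) 100000 (mrs u v) := by
  unfold R at *
  simp only [Nat.cast_one, one_mul] at *
  simp only [mrsE, exadd, exsub, exmul, exc, h0, h1, mrs]
  push_cast
  ring

/-- `100000` times `lrs` -/
noncomputable def lrsE (a b : Ex) : Ex :=
  .sub (.add (.sub (.sub (.c (41649)) (.mul (.c 5) (.mul (.c (7047)) a))) (.mul (.c 5) (.mul (.c (7263)) b))) (.mul (.c 4) (.mul (.mul (.c (8179)) a) b))) (.sub (.sub (.sub (.c (16249)) (.mul (.c 40) (.mul (.c (163)) a))) (.mul (.c (7753)) b)) (.mul (.c 160) (.mul (.mul (.c (32)) a) b)))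

theorem r_lrs {y : ℕ → ℝ} {a b : Ex} {u v : ℝ} (h0 : R y a 1 u) (h1 : R y b 1 v) :
    R y (lrsE a b) 100000 (lrs u v) := by
  unfold R at *
  simp only [Nat.cast_one, one_mul] at *
  simp only [lrsE, exadd, exsub, exmul, exc, h0, h1, lrs, krs, mrs]
  push_cast
  ring

/-- `100000` times `wp` -/
noncomputable def wpE (a b : Ex) : Ex :=
  .add (.sub (.mul (.c 2) (.sub (.add (.add (.c (22413)) (.mul (.c 25) (.mul (.c (981)) a))) (.mul (.c 16) (.mul (.c (1597)) b))) (.mul (.c 4) (.mul (.c (1673)) (.mul a a))))) (.mul (.c (12311)) (.mul b b))) (.mul (.c 2) (.mul (.mul (.c (13111)) a) b))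

theorem r_wp {y : ℕ → ℝ} {a b : Ex} {u v : ℝ} (h0 : R y a 1 u) (h1 : R y b 1 v) :
    R y (wpE a b) 100000 (wp u v) := by
  unfold R at *
  simp only [Nat.cast_one, one_mul] at *
  simp only [wpE, exadd, exsub, exmul, exc, h0, h1, wp]
  push_cast
  ring

/-- `100000` times `wr` -/
noncomputable def wrE (a b : Ex) : Ex :=
  .add (.sub (.sub (.add (.add (.mul (.c 2) (.c (4351))) (.mul (.c (54769)) a)) (.mul (.c 4) (.mul (.c (10789)) b))) (.mul (.c 2) (.mul (.c (1973)) (.mul a a)))) (.mul (.c 8) (.mul (.c (1411)) (.mul b b)))) (.mul (.mul (.c (4297)) a) b)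

theorem r_wr {y : ℕ → ℝ} {a b : Ex} {u v : ℝ} (h0 : R y a 1 u) (h1 : R y b 1 v) :
    R y (wrE a b) 100000 (wr u v) := by
  unfold R at *
  simp only [Nat.cast_one, one_mul] at *
  simp only [wrE, exadd, exsub, exmul, exc, h0, h1, wr]
  push_cast
  ring

/-- `100000` times `ws` -/
noncomputable def wsE (a b : Ex) : Ex :=
  .add (.sub (.add (.add (.add (.mul (.c 50) (.c (463))) (.mul (.c (38821)) a)) (.mul (.c 4) (.mul (.c (11581)) b))) (.mul (.c 10) (.mul (.c (253)) (.mul a a)))) (.mul (.c (13403)) (.mul b b))) (.mul (.c 4) (.mul (.mul (.c (10803)) a) b))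

theorem r_ws {y : ℕ → ℝ} {a b : Ex} {u v : ℝ} (h0 : R y a 1 u) (h1 : R y b 1 v) :
    R y (wsE a b) 100000 (ws u v) := by
  unfold R at *
  simp only [Nat.cast_one, one_mul] at *
  simp only [wsE, exadd, exsub, exmul, exc, h0, h1, ws]
  push_cast
  ring

/-- `100000` times `wa` -/
noncomputable def waE (a b c : Ex) : Ex :=
  .add (.add (.add (.add (.add (.add (.sub (.add (.add (.c (45211)) (.mul (.c 4) (.mul (.c (8401)) a))) (.mul (.c 250) (.mul (.c (127)) b))) (.mul (.c (13239)) (.mul a a))) (.mul (.c 5) (.mul (.c (1223)) (.mul b b)))) (.mul (.c 8) (.mul (.mul (.c (2769)) a) b))) (.mul (.c 8) (.mul (.c (3969)) c))) (.mul (.c 100) (.mul (.c (43)) (.mul c c)))) (.mul (.c 4) (.mul (.mul (.c (4977)) a) c))) (.mul (.mul (.c (3567)) b) c)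

theorem r_wa {y : ℕ → ℝ} {a b c : Ex} {u v w : ℝ} (h0 : R y a 1 u) (h1 : R y b 1 v) (h2 : R y c 1 w) :
    R y (waE a b c) 100000 (wa u v w) := by
  unfold R at *
  simp only [Nat.cast_one, one_mul] at *
  simp only [waE, exadd, exsub, exmul, exc, h0, h1, h2, wa]
  push_cast
  ring

/-- `100000` times `sr` -/
noncomputable def srE (a : Ex) : Ex :=
  .sub (.c (31691)) (.mul (.c (31303)) a)

theorem r_sr {y : ℕ → ℝ} {a : Ex} {u : ℝ} (h0 : R y a 1 u) :
    R y (srE a) 100000 (sr u) := by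
  unfold R at *
  simp only [Nat.cast_one, one_mul] at *
  simp only [srE, exadd, exsub, exmul, exc, h0, sr]
  push_cast
  ring

/-- `50000` times `fp` -/
noncomputable def fpE (a : Ex) : Ex :=
  .add (.add (.mul (.c (10993)) a) (.mul (.c 16) (.mul (.c (173)) (.mul a a)))) (.mul (.c (1403)) (.mul (.mul a a) a))

theorem r_fp {y : ℕ → ℝ} {a : Ex} {u : ℝ} (h0 : R y a 1 u) :
    R y (fpE a) 50000 (fp u) := by
  unfold R at *
  simp only [Nat.cast_one, one_mul] at *
  simp only [fpE, exadd, exsub, exmul, exc, h0, fp]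
  push_cast
  ring

/-- `100000` times `fr` -/
noncomputable def frE (a : Ex) : Ex :=
  .add (.add (.mul (.c 4) (.add (.mul (.c 1250) (.c (1))) (.mul (.c (6441)) a))) (.mul (.c (59)) (.mul a a))) (.mul (.c 25) (.mul (.c (713)) (.mul (.mul a a) a)))

theorem r_fr {y : ℕ → ℝ} {a : Ex} {u : ℝ} (h0 : R y a 1 u) :
    R y (frE a) 100000 (fr u) := by
  unfold R at *
  simp only [Nat.cast_one, one_mul] at *
  simp only [frE, exadd, exsub, exmul, exc, h0, fr]
  push_cast
  ring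

/-- `100000` times `fs` -/
noncomputable def fsE (a : Ex) : Ex :=
  .add (.add (.mul (.c (44653)) a) (.mul (.c 32) (.mul (.c (13)) (.mul a a)))) (.mul (.c 25) (.mul (.c (117)) (.mul (.mul a a) a)))

theorem r_fs {y : ℕ → ℝ} {a : Ex} {u : ℝ} (h0 : R y a 1 u) :
    R y (fsE a) 100000 (fs u) := by
  unfold R at *
  simp only [Nat.cast_one, one_mul] at *
  simp only [fsE, exadd, exsub, exmul, exc, h0, fs]
  push_cast
  ring

/-- `100000` times `bpr` -/
noncomputable def bprE (a b : Ex) : Ex :=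
  .sub (.add (.sub (.sub (.sub (.sub (.add (.add (.mul (.c 8) (.c (109))) (.mul (.c (28923)) a)) (.mul (.c 8) (.mul (.c (451)) (.mul a a)))) (.mul (.c 5) (.mul (.c (223)) (.mul (.mul a a) a)))) (.mul (.c 4) (.mul (.c (113)) b))) (.mul (.c 2) (.mul (.c (117)) (.mul b b)))) (.mul (.mul (.c (10013)) a) b)) (.mul (.mul (.c (361)) (.mul a a)) b)) (.mul (.mul (.c (18859)) a) (.mul b b))

theorem r_bpr {y : ℕ → ℝ} {a b : Ex} {u v : ℝ} (h0 : R y a 1 u) (h1 : R y b 1 v) :
    R y (bprE a b) 100000 (bpr u v) := by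
  unfold R at *
  simp only [Nat.cast_one, one_mul] at *
  simp only [bprE, exadd, exsub, exmul, exc, h0, h1, bpr]
  push_cast
  ring

/-- `100000` times `bps` -/
noncomputable def bpsE (a b : Ex) : Ex :=
  .sub (.sub (.add (.sub (.add (.add (.add (.mul (.c 5) (.c (47))) (.mul (.c (19509)) a)) (.mul (.c (10089)) (.mul a a))) (.mul (.c (307)) (.mul (.mul a a) a))) (.mul (.c 50) (.mul (.c (1)) b))) (.mul (.c 2) (.mul (.mul (.c (437)) a) b))) (.mul (.c 5) (.mul (.mul (.c (2193)) (.mul a a)) b))) (.mul (.c 16) (.mul (.mul (.c (1219)) a) (.mul b b)))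

theorem r_bps {y : ℕ → ℝ} {a b : Ex} {u v : ℝ} (h0 : R y a 1 u) (h1 : R y b 1 v) :
    R y (bpsE a b) 100000 (bps u v) := by
  unfold R at *
  simp only [Nat.cast_one, one_mul] at *
  simp only [bpsE, exadd, exsub, exmul, exc, h0, h1, bps]
  push_cast
  ring

/-- `100000` times `brp` -/
noncomputable def brpE (a b : Ex) : Ex :=
  .sub (.sub (.add (.add (.sub (.sub (.add (.add (.c (6679)) (.mul (.c (16001)) a)) (.mul (.c 2) (.mul (.c (15399)) (.mul a a)))) (.mul (.c 2) (.mul (.c (417)) (.mul (.mul a a) a)))) (.mul (.c 4) (.mul (.c (827)) b))) (.mul (.c (1629)) (.mul b b))) (.mul (.c 5) (.mul (.mul (.c (4473)) a) b))) (.mul (.mul (.c (38349)) (.mul a a)) b)) (.mul (.c 2) (.mul (.mul (.c (6107)) a) (.mul b b)))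

theorem r_brp {y : ℕ → ℝ} {a b : Ex} {u v : ℝ} (h0 : R y a 1 u) (h1 : R y b 1 v) :
    R y (brpE a b) 100000 (brp u v) := by
  unfold R at *
  simp only [Nat.cast_one, one_mul] at *
  simp only [brpE, exadd, exsub, exmul, exc, h0, h1, brp]
  push_cast
  ring

/-- `100000` times `brs` -/
noncomputable def brsE (a b : Ex) : Ex :=
  .sub (.sub (.sub (.sub (.sub (.mul (.c 2) (.sub (.add (.add (.c (5251)) (.mul (.c (11873)) a)) (.mul (.c (7529)) (.mul a a))) (.mul (.c 5) (.mul (.c (189)) (.mul (.mul a a) a))))) (.mul (.c (51)) b)) (.mul (.c (18123)) (.mul b b))) (.mul (.c 2) (.mul (.mul (.c (4251)) a) b))) (.mul (.mul (.c (19003)) (.mul a a)) b)) (.mul (.c 5) (.mul (.mul (.c (327)) a) (.mul b b)))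

theorem r_brs {y : ℕ → ℝ} {a b : Ex} {u v : ℝ} (h0 : R y a 1 u) (h1 : R y b 1 v) :
    R y (brsE a b) 100000 (brs u v) := by
  unfold R at *
  simp only [Nat.cast_one, one_mul] at *
  simp only [brsE, exadd, exsub, exmul, exc, h0, h1, brs]
  push_cast
  ring

/-- `100000` times `bsp` -/
noncomputable def bspE (a b : Ex) : Ex :=
  .sub (.sub (.add (.sub (.sub (.sub (.add (.add (.mul (.c 16) (.c (343))) (.mul (.c (25533)) a)) (.mul (.c 32) (.mul (.c (916)) (.mul a a)))) (.mul (.c (11231)) (.mul (.mul a a) a))) (.mul (.c (1157)) b)) (.mul (.c 5) (.mul (.c (349)) (.mul b b)))) (.mul (.mul (.c (6457)) a) b)) (.mul (.c 25) (.mul (.mul (.c (369)) (.mul a a)) b))) (.mul (.mul (.c (17877)) a) (.mul b b))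

theorem r_bsp {y : ℕ → ℝ} {a b : Ex} {u v : ℝ} (h0 : R y a 1 u) (h1 : R y b 1 v) :
    R y (bspE a b) 100000 (bsp u v) := by
  unfold R at *
  simp only [Nat.cast_one, one_mul] at *
  simp only [bspE, exadd, exsub, exmul, exc, h0, h1, bsp]
  push_cast
  ring

/-- `100000` times `bsr` -/
noncomputable def bsrE (a b : Ex) : Ex :=
  .sub (.sub (.sub (.sub (.sub (.add (.add (.mul (.c 2) (.c (2067))) (.mul (.c (37113)) a)) (.mul (.c (4983)) (.mul a a))) (.mul (.c 50) (.mul (.c (1)) b))) (.mul (.c 2) (.mul (.c (1949)) (.mul b b)))) (.mul (.mul (.c (11521)) a) b)) (.mul (.mul (.c (4983)) (.mul a a)) b)) (.mul (.c 2) (.mul (.mul (.c (12771)) a) (.mul b b)))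

theorem r_bsr {y : ℕ → ℝ} {a b : Ex} {u v : ℝ} (h0 : R y a 1 u) (h1 : R y b 1 v) :
    R y (bsrE a b) 100000 (bsr u v) := by
  unfold R at *
  simp only [Nat.cast_one, one_mul] at *
  simp only [bsrE, exadd, exsub, exmul, exc, h0, h1, bsr]
  push_cast
  ring

/-- `100000` times `qp` -/
noncomputable def qpE (a b c d : Ex) : Ex :=
  .add (.sub (.sub (.add (.add (.sub (.add (.sub (.add (.add (.add (.sub (.add (.sub (.sub (.add (.add (.add (.add (.sub (.sub (.c (39269)) (.mul (.c 10) (.mul (.c (6713)) a))) (.mul (.c 3125) (.mul (.c (21)) b))) (.mul (.c (26081)) (.mul a a))) (.mul (.c 5) (.mul (.mul (.c (18209)) a) b))) (.mul (.c (24087)) (.mul b b))) (.mul (.c (2019)) (.mul (.mul a a) a))) (.mul (.mul (.c (26129)) (.mul a a)) b)) (.mul (.c 16) (.mul (.mul (.c (1433)) a) (.mul b b)))) (.mul (.c 2) (.mul (.c (1209)) (.mul (.mul b b) b)))) (.mul (.c 16) (.mul (.c (243)) c))) (.mul (.mul (.c (22971)) c) a)) (.mul (.c 10) (.mul (.mul (.c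 (247)) c) b))) (.mul (.mul (.c (147)) c) (.mul a a))) (.mul (.c 2) (.mul (.mul (.mul (.c (11413)) c) a) b))) (.mul (.c 8) (.mul (.mul (.c (177)) c) (.mul b b)))) (.mul (.c (257)) d)) (.mul (.c 2) (.mul (.mul (.c (1497)) d) a))) (.mul (.mul (.c (6413)) d) b)) (.mul (.c 20) (.mul (.mul (.c (143)) d) (.mul a a)))) (.mul (.mul (.mul (.c (1377)) d) a) b)) (.mul (.c 2) (.mul (.mul (.c (2777)) d) (.mul b b)))

theorem r_qp {y : ℕ → ℝ} {a b c d : Ex} {u v w x : ℝ} (h0 : R y a 1 u) (h1 : R y b 1 v) (h2 : R y c 1 w) (h3 : R y d 1 x) :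
    R y (qpE a b c d) 100000 (qp u v w x) := by
  unfold R at *
  simp only [Nat.cast_one, one_mul] at *
  simp only [qpE, exadd, exsub, exmul, exc, h0, h1, h2, h3, qp]
  push_cast
  ring

/-- `100000` times `qr` -/
noncomputable def qrE (a b c d : Ex) : Ex :=
  .add (.add (.add (.sub (.sub (.add (.sub (.sub (.sub (.add (.add (.add (.sub (.sub (.sub (.add (.add (.mul (.c 2) (.add (.add (.sub (.sub (.mul (.c 2) (.sub (.c 0) (.c (1471)))) (.mul (.c 5) (.mul (.c (2091)) a))) (.mul (.c 16) (.mul (.c (1868)) b))) (.mul (.c (11173)) (.mul a a))) (.mul (.c 2) (.mul (.mul (.c (16477)) a) b)))) (.mul (.c (35999)) (.mul b b))) (.mul (.c (1463)) (.mul (.mul a a) a))) (.mul (.c 4) (.mul (.mul (.c (3511)) (.mul a a)) b))) (.mul (.c 4) (.mul (.mul (.c (7089)) a) (.mul b b)))) (.mul (.c (1239)) (.mul (.mul b b) b))) (.mul (.c (21613)) c)) (.mul (.c 2) (.mul (.mul (.c (2239)) c) a))) (.mul (.c 10) (.mul (.mul (.c (4093)) c) b))) (.mul (.c 2) (.mul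 (.mul (.c (2849)) c) (.mul a a)))) (.mul (.c 4) (.mul (.mul (.mul (.c (3991)) c) a) b))) (.mul (.mul (.c (39819)) c) (.mul b b))) (.mul (.c (557)) d)) (.mul (.c 8) (.mul (.mul (.c (2407)) d) a))) (.mul (.c 4) (.mul (.mul (.c (3569)) d) b))) (.mul (.c 4) (.mul (.mul (.c (2313)) d) (.mul a a)))) (.mul (.c 1250) (.mul (.mul (.mul (.c (17)) d) a) b))) (.mul (.mul (.c (16421)) d) (.mul b b))

theorem r_qr {y : ℕ → ℝ} {a b c d : Ex} {u v w x : ℝ} (h0 : R y a 1 u) (h1 : R y b 1 v) (h2 : R y c 1 w) (h3 : R y d 1 x) :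
    R y (qrE a b c d) 100000 (qr u v w x) := by
  unfold R at *
  simp only [Nat.cast_one, one_mul] at *
  simp only [qrE, exadd, exsub, exmul, exc, h0, h1, h2, h3, qr]
  push_cast
  ring

/-- `100000` times `qs` -/
noncomputable def qsE (a b c d : Ex) : Ex :=
  .add (.add (.add (.sub (.sub (.add (.add (.sub (.add (.sub (.add (.sub (.add (.sub (.sub (.add (.add (.add (.add (.sub (.sub (.c (21299)) (.mul (.c (42159)) a)) (.mul (.c 5) (.mul (.c (9913)) b))) (.mul (.c 25) (.mul (.c (807)) (.mul a a)))) (.mul (.c 16) (.mul (.mul (.c (4299)) a) b))) (.mul (.c (21281)) (.mul b b))) (.mul (.c 4) (.mul (.c (461)) (.mul (.mul a a) a)))) (.mul (.c 2) (.mul (.mul (.c (11219)) (.mul a a)) b))) (.mul (.c 4) (.mul (.mul (.c (5283)) a) (.mul b b)))) (.mul (.c (4577)) (.mul (.mul b b) b))) (.mul (.c 2) (.mul (.c (173)) c))) (.mul (.c 4) (.mul (.mul (.c (2767)) c) a))) (.mul (.mul (.c (19227)) c) b)) (.mul (.c 2) (.mul (.mul (.c (681)) c) (.mul a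 a)))) (.mul (.c 8) (.mul (.mul (.mul (.c (1241)) c) a) b))) (.mul (.c 4) (.mul (.mul (.c (5327)) c) (.mul b b)))) (.mul (.c 5) (.mul (.c (293)) d))) (.mul (.c 8) (.mul (.mul (.c (823)) d) a))) (.mul (.c 8) (.mul (.mul (.c (633)) d) b))) (.mul (.c 2) (.mul (.mul (.c (1653)) d) (.mul a a)))) (.mul (.mul (.mul (.c (8947)) d) a) b)) (.mul (.c 2) (.mul (.mul (.c (2849)) d) (.mul b b)))

theorem r_qs {y : ℕ → ℝ} {a b c d : Ex} {u v w x : ℝ} (h0 : R y a 1 u) (h1 : R y b 1 v) (h2 : R y c 1 w) (h3 : R y d 1 x) :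
    R y (qsE a b c d) 100000 (qs u v w x) := by
  unfold R at *
  simp only [Nat.cast_one, one_mul] at *
  simp only [qsE, exadd, exsub, exmul, exc, h0, h1, h2, h3, qs]
  push_cast
  ring

end Pool.Agent.Helper19.TS.Br
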