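import Pool.Agent.Helper36.CK.Val
import Pool.Agent.Helper11.TS.OL1BsD
import Pool.Agent.Helper70.OL.Lst

/-!
# The numbers of `OL1Bs` as expressions

For every number `f`: `fE` with `r_f` (method of helper36, `Helper36/CK/Val.lean`).
-/

set_option autoImplicit false
set_option linter.all false

namespace Pool.Agent.Helper19.TS.Bs

open Pool.Agent.Helper83.Cert Pool.Agent.Helper83.TS Pool.Agent.Helper36.CK
open Pool.Agent.Helper11.TS.OL1Bs

/-- `10000` times `np` -/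
noncomputable def npE (a : Ex) : Ex :=
  .sub (.mul (.c 5) (.add (.mul (.c 2) (.c (481))) (.mul (.c 5) (.mul (.c (9)) a)))) (.mul (.c (3483)) (.mul a a))

theorem r_np {y : ℕ → ℝ} {a : Ex} {u : ℝ} (h0 : R y a 1 u) :
    R y (npE a) 10000 (np u) := by
  unfold R at *
  simp only [Nat.cast_one, one_mul] at *
  simp only [npE, exadd, exsub, exmul, exc, h0, np]
  push_cast
  ring

/-- `10000` times `nr` -/
noncomputable def nrE (a : Ex) : Ex :=
  .sub (.sub (.c (9031)) (.mul (.c 16) (.mul (.c (236)) a))) (.mul (.c 500) (.mul (.c (1)) (.mul a a)))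

theorem r_nr {y : ℕ → ℝ} {a : Ex} {u : ℝ} (h0 : R y a 1 u) :
    R y (nrE a) 10000 (nr u) := by
  unfold R at *
  simp only [Nat.cast_one, one_mul] at *
  simp only [nrE, exadd, exsub, exmul, exc, h0, nr]
  push_cast
  ring

/-- `10000` times `ns` -/
noncomputable def nsE (a : Ex) : Ex :=
  .sub (.sub (.mul (.c 10) (.c (747))) (.mul (.c (791)) a)) (.mul (.c 2) (.mul (.c (2053)) (.mul a a)))

theorem r_ns {y : ℕ → ℝ} {a : Ex} {u : ℝ} (h0 : R y a 1 u) :
    R y (nsE a) 10000 (ns u) := by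
  unfold R at *
  simp only [Nat.cast_one, one_mul] at *
  simp only [nsE, exadd, exsub, exmul, exc, h0, ns]
  push_cast
  ring

/-- `10000` times `kpr` -/
noncomputable def kprE (a b : Ex) : Ex :=
  .add (.sub (.sub (.mul (.c 4) (.c (1247))) (.mul (.c (4831)) a)) (.mul (.c 4) (.mul (.c (987)) b))) (.mul (.c (3841)) (.mul a b))

theorem r_kpr {y : ℕ → ℝ} {a b : Ex} {u v : ℝ} (h0 : R y a 1 u) (h1 : R y b 1 v) :
    R y (kprE a b) 10000 (kpr u v) := by
  unfold R at *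
  simp only [Nat.cast_one, one_mul] at *
  simp only [kprE, exadd, exsub, exmul, exc, h0, h1, kpr]
  push_cast
  ring

/-- `10000` times `kps` -/
noncomputable def kpsE (a b : Ex) : Ex :=
  .add (.sub (.mul (.c 4) (.sub (.c (723)) (.mul (.c 4) (.mul (.c (234)) a)))) (.mul (.c 5) (.mul (.c (517)) b))) (.mul (.c (5187)) (.mul a b))

theorem r_kps {y : ℕ → ℝ} {a b : Ex} {u v : ℝ} (h0 : R y a 1 u) (h1 : R y b 1 v) :
    R y (kpsE a b) 10000 (kps u v) := by
  unfold R at *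
  simp only [Nat.cast_one, one_mul] at *
  simp only [kpsE, exadd, exsub, exmul, exc, h0, h1, kps]
  push_cast
  ring

/-- `10000` times `krs` -/
noncomputable def krsE (a b : Ex) : Ex :=
  .add (.sub (.sub (.mul (.c 5) (.c (963))) (.mul (.c (5787)) a)) (.mul (.c 10) (.mul (.c (597)) b))) (.mul (.c (9629)) (.mul a b))

theorem r_krs {y : ℕ → ℝ} {a b : Ex} {u v : ℝ} (h0 : R y a 1 u) (h1 : R y b 1 v) :
    R y (krsE a b) 10000 (krs u v) := by
  unfold R at *
  simp only [Nat.cast_one, one_mul] at *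
  simp only [krsE, exadd, exsub, exmul, exc, h0, h1, krs]
  push_cast
  ring

/-- `10000` times `mps` -/
noncomputable def mpsE (a b : Ex) : Ex :=
  .add (.sub (.sub (.c (1061)) (.mul (.c (709)) a)) (.mul (.c 4) (.mul (.c (183)) b))) (.mul (.c 5) (.mul (.c (233)) (.mul a b)))

theorem r_mps {y : ℕ → ℝ} {a b : Ex} {u v : ℝ} (h0 : R y a 1 u) (h1 : R y b 1 v) :
    R y (mpsE a b) 10000 (mps u v) := by
  unfold R at *
  simp only [Nat.cast_one, one_mul] at *
  simp only [mpsE, exadd, exsub, exmul, exc, h0, h1, mps]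
  push_cast
  ring

/-- `10000` times `mrs` -/
noncomputable def mrsE (a b : Ex) : Ex :=
  .add (.sub (.sub (.c (1811)) (.mul (.c (2087)) a)) (.mul (.c 5) (.mul (.c (391)) b))) (.mul (.c (4113)) (.mul a b))

theorem r_mrs {y : ℕ → ℝ} {a b : Ex} {u v : ℝ} (h0 : R y a 1 u) (h1 : R y b 1 v) :
    R y (mrsE a b) 10000 (mrs u v) := by
  unfold R at *
  simp only [Nat.cast_one, one_mul] at *
  simp only [mrsE, exadd, exsub, exmul, exc, h0, h1, mrs]
  push_cast
  ring

/-- `10000` times `Wp` -/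
noncomputable def WpE (a b : Ex) : Ex :=
  .add (.sub (.sub (.add (.mul (.c 2) (.add (.c (2231)) (.mul (.c (2821)) a))) (.mul (.c 5) (.mul (.c (971)) b))) (.mul (.c 2) (.mul (.c (1117)) (.mul a a)))) (.mul (.c 5) (.mul (.c (293)) (.mul b b)))) (.mul (.c 8) (.mul (.c (243)) (.mul a b)))

theorem r_Wp {y : ℕ → ℝ} {a b : Ex} {u v : ℝ} (h0 : R y a 1 u) (h1 : R y b 1 v) :
    R y (WpE a b) 10000 (Wp u v) := by
  unfold R at *
  simp only [Nat.cast_one, one_mul] at *
  simp only [WpE, exadd, exsub, exmul, exc, h0, h1, Wp]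
  push_cast
  ring

/-- `10000` times `Wr` -/
noncomputable def WrE (a b : Ex) : Ex :=
  .sub (.sub (.sub (.add (.add (.c (3009)) (.mul (.c 8) (.mul (.c (589)) a))) (.mul (.c 2) (.mul (.c (3393)) b))) (.mul (.c 2) (.mul (.c (709)) (.mul a a)))) (.mul (.c 5) (.mul (.c (821)) (.mul b b)))) (.mul (.c 4) (.mul (.c (599)) (.mul a b)))

theorem r_Wr {y : ℕ → ℝ} {a b : Ex} {u v : ℝ} (h0 : R y a 1 u) (h1 : R y b 1 v) :
    R y (WrE a b) 10000 (Wr u v) := by
  unfold R at *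
  simp only [Nat.cast_one, one_mul] at *
  simp only [WrE, exadd, exsub, exmul, exc, h0, h1, Wr]
  push_cast
  ring

/-- `5000` times `Ws` -/
noncomputable def WsE (a b : Ex) : Ex :=
  .add (.add (.sub (.add (.add (.mul (.c 5) (.sub (.c 0) (.c (319)))) (.mul (.c (2477)) a)) (.mul (.c (1501)) b)) (.mul (.c 8) (.mul (.c (2)) (.mul a a)))) (.mul (.c (341)) (.mul b b))) (.mul (.c (1061)) (.mul a b))

theorem r_Ws {y : ℕ → ℝ} {a b : Ex} {u v : ℝ} (h0 : R y a 1 u) (h1 : R y b 1 v) :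
    R y (WsE a b) 5000 (Ws u v) := by
  unfold R at *
  simp only [Nat.cast_one, one_mul] at *
  simp only [WsE, exadd, exsub, exmul, exc, h0, h1, Ws]
  push_cast
  ring

/-- `10000` times `Wp0` -/
noncomputable def Wp0E (a b : Ex) : Ex :=
  .sub (.add (.sub (.sub (.add (.mul (.c 2) (.add (.c (2231)) (.mul (.c (2821)) a))) (.mul (.c 5) (.mul (.c (971)) b))) (.mul (.c 2) (.mul (.c (1117)) (.mul a a)))) (.mul (.c 5) (.mul (.c (293)) (.mul b b)))) (.mul (.c 8) (.mul (.c (243)) (.mul a b)))) (.c (13))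

theorem r_Wp0 {y : ℕ → ℝ} {a b : Ex} {u v : ℝ} (h0 : R y a 1 u) (h1 : R y b 1 v) :
    R y (Wp0E a b) 10000 (Wp0 u v) := by
  unfold R at *
  simp only [Nat.cast_one, one_mul] at *
  simp only [Wp0E, exadd, exsub, exmul, exc, h0, h1, Wp0, Wp]
  push_cast
  ring

/-- `10000` times `Wr0` -/
noncomputable def Wr0E (a b : Ex) : Ex :=
  .sub (.sub (.sub (.sub (.add (.add (.c (3009)) (.mul (.c 8) (.mul (.c (589)) a))) (.mul (.c 2) (.mul (.c (3393)) b))) (.mul (.c 2) (.mul (.c (709)) (.mul a a)))) (.mul (.c 5) (.mul (.c (821)) (.mul b b)))) (.mul (.c 4) (.mul (.c (599)) (.mul a b)))) (.mul (.c 16) (.c (1)))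

theorem r_Wr0 {y : ℕ → ℝ} {a b : Ex} {u v : ℝ} (h0 : R y a 1 u) (h1 : R y b 1 v) :
    R y (Wr0E a b) 10000 (Wr0 u v) := by
  unfold R at *
  simp only [Nat.cast_one, one_mul] at *
  simp only [Wr0E, exadd, exsub, exmul, exc, h0, h1, Wr0, Wr]
  push_cast
  ring

/-- `10000` times `Wa` -/
noncomputable def WaE (a b c : Ex) : Ex :=
  .add (.add (.add (.add (.add (.add (.add (.add (.add (.mul (.c 2) (.c (2589))) (.mul (.c 5) (.mul (.c (547)) a))) (.mul (.c 2) (.mul (.c (753)) b))) (.mul (.c 2) (.mul (.c (1173)) c))) (.mul (.c 2) (.mul (.c (149)) (.mul a a)))) (.mul (.c (2959)) (.mul b b))) (.mul (.c (2363)) (.mul c c))) (.mul (.c 5) (.mul (.c (537)) (.mul a b)))) (.mul (.c 8) (.mul (.c (367)) (.mul a c)))) (.mul (.c 16) (.mul (.c (49)) (.mul b c)))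

theorem r_Wa {y : ℕ → ℝ} {a b c : Ex} {u v w : ℝ} (h0 : R y a 1 u) (h1 : R y b 1 v) (h2 : R y c 1 w) :
    R y (WaE a b c) 10000 (Wa u v w) := by
  unfold R at *
  simp only [Nat.cast_one, one_mul] at *
  simp only [WaE, exadd, exsub, exmul, exc, h0, h1, h2, Wa]
  push_cast
  ring

/-- `10000` times `sg` -/
noncomputable def sgE (a : Ex) : Ex :=
  .sub (.c (4083)) (.mul (.c 4) (.mul (.c (679)) a))

theorem r_sg {y : ℕ → ℝ} {a : Ex} {u : ℝ} (h0 : R y a 1 u) :
    R y (sgE a) 10000 (sg u) := by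
  unfold R at *
  simp only [Nat.cast_one, one_mul] at *
  simp only [sgE, exadd, exsub, exmul, exc, h0, sg]
  push_cast
  ring

/-- `10000` times `gg` -/
noncomputable def ggE (a b c : Ex) : Ex :=
  .add (.add (.c (7479)) (.mul (.c (131)) b)) (.mul (.c 80) (.mul (.c (3)) c))

theorem r_gg {y : ℕ → ℝ} {a b c : Ex} {u v w : ℝ} (h0 : R y a 1 u) (h1 : R y b 1 v) (h2 : R y c 1 w) :
    R y (ggE a b c) 10000 (gg u v w) := by
  unfold R at *
  simp only [Nat.cast_one, one_mul] at *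
  simp only [ggE, exadd, exsub, exmul, exc, h0, h1, h2, gg]
  push_cast
  ring

/-- `10000` times `fp` -/
noncomputable def fpE (a : Ex) : Ex :=
  .add (.add (.add (.c (23)) (.mul (.c (711)) a)) (.mul (.c 4) (.mul (.c (529)) (.mul a a)))) (.mul (.c (307)) (.mul (.mul a a) a))

theorem r_fp {y : ℕ → ℝ} {a : Ex} {u : ℝ} (h0 : R y a 1 u) :
    R y (fpE a) 10000 (fp u) := by
  unfold R at *
  simp only [Nat.cast_one, one_mul] at *
  simp only [fpE, exadd, exsub, exmul, exc, h0, fp]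
  push_cast
  ring

/-- `10000` times `fr` -/
noncomputable def frE (a : Ex) : Ex :=
  .sub (.add (.add (.c (43)) (.mul (.c (2059)) a)) (.mul (.c (2869)) (.mul a a))) (.mul (.c (871)) (.mul (.mul a a) a))

theorem r_fr {y : ℕ → ℝ} {a : Ex} {u : ℝ} (h0 : R y a 1 u) :
    R y (frE a) 10000 (fr u) := by
  unfold R at *
  simp only [Nat.cast_one, one_mul] at *
  simp only [frE, exadd, exsub, exmul, exc, h0, fr]
  push_cast
  ring

/-- `10000` times `fs` -/
noncomputable def fsE (a : Ex) : Ex :=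
  .add (.add (.add (.c (3337)) (.mul (.c (1681)) a)) (.mul (.c 4) (.mul (.c (253)) (.mul a a)))) (.mul (.c 8) (.mul (.c (153)) (.mul (.mul a a) a)))

theorem r_fs {y : ℕ → ℝ} {a : Ex} {u : ℝ} (h0 : R y a 1 u) :
    R y (fsE a) 10000 (fs u) := by
  unfold R at *
  simp only [Nat.cast_one, one_mul] at *
  simp only [fsE, exadd, exsub, exmul, exc, h0, fs]
  push_cast
  ring

/-- `10000` times `Bpr` -/
noncomputable def BprE (a b : Ex) : Ex :=
  .sub (.sub (.add (.add (.sub (.add (.add (.add (.mul (.c 4) (.c (7))) (.mul (.c 25) (.mul (.c (21)) a))) (.mul (.c (2531)) (.mul a a))) (.mul (.c 16) (.mul (.c (8)) (.mul (.mul a a) a)))) (.mul (.c 5) (.mul (.c (23)) b))) (.mul (.c 4) (.mul (.c (37)) (.mul b b)))) (.mul (.c (1827)) (.mul a b))) (.mul (.c 5) (.mul (.c (593)) (.mul (.mul a a) b)))) (.mul (.c 16) (.mul (.c (116)) (.mul a (.mul b b))))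

theorem r_Bpr {y : ℕ → ℝ} {a b : Ex} {u v : ℝ} (h0 : R y a 1 u) (h1 : R y b 1 v) :
    R y (BprE a b) 10000 (Bpr u v) := by
  unfold R at *
  simp only [Nat.cast_one, one_mul] at *
  simp only [BprE, exadd, exsub, exmul, exc, h0, h1, Bpr]
  push_cast
  ring

/-- `10000` times `Bps` -/
noncomputable def BpsE (a b : Ex) : Ex :=
  .sub (.sub (.sub (.sub (.add (.add (.add (.add (.c (21)) (.mul (.c (1983)) a)) (.mul (.c 20) (.mul (.c (61)) (.mul a a)))) (.mul (.c (47)) (.mul (.mul a a) a))) (.mul (.c 5) (.mul (.c (201)) b))) (.mul (.c 2) (.mul (.c (493)) (.mul b b)))) (.mul (.c 2) (.mul (.c (571)) (.mul a b)))) (.mul (.c 8) (.mul (.c (161)) (.mul (.mul a a) b)))) (.mul (.c (657)) (.mul a (.mul b b)))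

theorem r_Bps {y : ℕ → ℝ} {a b : Ex} {u v : ℝ} (h0 : R y a 1 u) (h1 : R y b 1 v) :
    R y (BpsE a b) 10000 (Bps u v) := by
  unfold R at *
  simp only [Nat.cast_one, one_mul] at *
  simp only [BpsE, exadd, exsub, exmul, exc, h0, h1, Bps]
  push_cast
  ring

/-- `10000` times `Brp` -/
noncomputable def BrpE (a b : Ex) : Ex :=
  .sub (.sub (.add (.sub (.add (.add (.add (.mul (.c 2) (.add (.mul (.c 2) (.c (39))) (.mul (.c (1471)) a))) (.mul (.c (943)) (.mul a a))) (.mul (.c 5) (.mul (.c (67)) (.mul (.mul a a) a)))) (.mul (.c 2) (.mul (.c (119)) b))) (.mul (.c 2) (.mul (.c (109)) (.mul b b)))) (.mul (.c (1091)) (.mul a b))) (.mul (.c 20) (.mul (.c (57)) (.mul (.mul a a) b)))) (.mul (.c 2) (.mul (.c (1719)) (.mul a (.mul b b))))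

theorem r_Brp {y : ℕ → ℝ} {a b : Ex} {u v : ℝ} (h0 : R y a 1 u) (h1 : R y b 1 v) :
    R y (BrpE a b) 10000 (Brp u v) := by
  unfold R at *
  simp only [Nat.cast_one, one_mul] at *
  simp only [BrpE, exadd, exsub, exmul, exc, h0, h1, Brp]
  push_cast
  ring

/-- `10000` times `Brs` -/
noncomputable def BrsE (a b : Ex) : Ex :=
  .sub (.sub (.sub (.add (.sub (.mul (.c 2) (.add (.add (.c (251)) (.mul (.c 2) (.mul (.c (569)) a))) (.mul (.c (537)) (.mul a a)))) (.mul (.c (827)) b)) (.mul (.c (327)) (.mul b b))) (.mul (.c (379)) (.mul a b))) (.mul (.c 2) (.mul (.c (537)) (.mul (.mul a a) b)))) (.mul (.c (1887)) (.mul a (.mul b b)))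

theorem r_Brs {y : ℕ → ℝ} {a b : Ex} {u v : ℝ} (h0 : R y a 1 u) (h1 : R y b 1 v) :
    R y (BrsE a b) 10000 (Brs u v) := by
  unfold R at *
  simp only [Nat.cast_one, one_mul] at *
  simp only [BrsE, exadd, exsub, exmul, exc, h0, h1, Brs]
  push_cast
  ring

/-- `10000` times `Bsp` -/
noncomputable def BspE (a b : Ex) : Ex :=
  .sub (.sub (.add (.sub (.add (.add (.add (.add (.mul (.c 5) (.c (667))) (.mul (.c (953)) a)) (.mul (.c (2331)) (.mul a a))) (.mul (.c 2) (.mul (.c (383)) (.mul (.mul a a) a)))) (.mul (.c (81)) b)) (.mul (.c 2) (.mul (.c (41)) (.mul b b)))) (.mul (.c (3363)) (.mul a b))) (.mul (.c 2) (.mul (.c (1917)) (.mul (.mul a a) b)))) (.mul (.c (2667)) (.mul a (.mul b b)))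

theorem r_Bsp {y : ℕ → ℝ} {a b : Ex} {u v : ℝ} (h0 : R y a 1 u) (h1 : R y b 1 v) :
    R y (BspE a b) 10000 (Bsp u v) := by
  unfold R at *
  simp only [Nat.cast_one, one_mul] at *
  simp only [BspE, exadd, exsub, exmul, exc, h0, h1, Bsp]
  push_cast
  ring

/-- `10000` times `Bsr` -/
noncomputable def BsrE (a b : Ex) : Ex :=
  .add (.sub (.sub (.sub (.add (.add (.add (.add (.mul (.c 16) (.c (227))) (.mul (.c (1927)) a)) (.mul (.c 10) (.mul (.c (123)) (.mul a a)))) (.mul (.c (269)) (.mul (.mul a a) a))) (.mul (.c 2) (.mul (.c (707)) b))) (.mul (.c (2849)) (.mul b b))) (.mul (.c 20) (.mul (.c (103)) (.mul a b)))) (.mul (.c 2) (.mul (.c (933)) (.mul (.mul a a) b)))) (.mul (.c 2) (.mul (.c (591)) (.mul a (.mul b b))))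

theorem r_Bsr {y : ℕ → ℝ} {a b : Ex} {u v : ℝ} (h0 : R y a 1 u) (h1 : R y b 1 v) :
    R y (BsrE a b) 10000 (Bsr u v) := by
  unfold R at *
  simp only [Nat.cast_one, one_mul] at *
  simp only [BsrE, exadd, exsub, exmul, exc, h0, h1, Bsr]
  push_cast
  ring

end Pool.Agent.Helper19.TS.Bs
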