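import Pool.Agent.Helper19.TS.BsS1
import Pool.Agent.Helper19.TS.BsS2
import Pool.Agent.Helper19.TS.BsM1
import Pool.Agent.Helper19.TS.BsM2
import Pool.Agent.Helper78.OD.BsOf

/-!
# Case `OL1Bs`: the column `s`

All the values of the gain of the witness column `s`: the hypothesis `HMs` of helper78's `ol1Bs_of`.
-/

set_option autoImplicit false
set_option maxRecDepth 100000

namespace Pool.Agent.Helper19.TS.Bs

open Pool.Agent.Helper83.Cert Pool.Agent.Helper83.TS Pool.Agent.Helper36.CK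
open Pool.Agent.Helper11.TS.OL1Bs
open Pool.Agent.Helper74.TS (vl)
open Pool.Agent.Helper78.TS (Cl St2 Bd ModesC flB Side)

theorem zs_kx {x y : ℝ} (x0 : 0 ≤ x) (x1 : x ≤ 3 / 5) (y0 : 0 ≤ y) (y1 : y ≤ 3 / 5) :
    0 ≤ np x := by
  exact fin (y := yv x y 0 0 0 0 0 0 0) (n := 9999)
    (rsc 10000 rz)
    (r_np rv2)
    (yv_nonneg x0 y0 (le_refl 0) (le_refl 0) (le_refl 0) (le_refl 0) (le_refl 0) (le_refl 0) (le_refl 0))
    (gcons rv2 x0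
      (gcons rv3 y0
      (gcons (rsub (rq 3 5) (rsc 5 rv2)) (sub_nonneg.2 x1)
      (gcons (rsub (rq 3 5) (rsc 5 rv3)) (sub_nonneg.2 y1) gnil))))
    249 (q := (.add (.add (.mul (.g 3) (.add (.pp [(1, 8)]) (.add (.mul (.g 0) (.pp [(1, 5)])) (.mul (.g 1) (.pp [(1, 5)]))))) (.mul (.g 2) (.add (.pp [(1, 93251)]) (.mul (.g 0) (.pp [(1, 174155)]))))) (.pp [(1, 922723), (2, 25), (3, 25), (4, 25), (6, 25), (9, 25)]))) (by decide +kernel)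

theorem zs_u4 {x y : ℝ} (x0 : 0 ≤ x) (x1 : x ≤ 3 / 5) (y0 : 0 ≤ y) (y1 : y ≤ 3 / 5) :
    1 / 4 ≤ nr y - kpr x y := by
  exact fin (y := yv x y 0 0 0 0 0 0 0) (n := 9999)
    (rsc 2500 (rq1 4))
    (rsub (r_nr rv3) (r_kpr rv2 rv3))
    (yv_nonneg x0 y0 (le_refl 0) (le_refl 0) (le_refl 0) (le_refl 0) (le_refl 0) (le_refl 0) (le_refl 0))
    (gcons rv2 x0
      (gcons rv3 y0
      (gcons (rsub (rq 3 5) (rsc 5 rv2)) (sub_nonneg.2 x1)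
      (gcons (rsub (rq 3 5) (rsc 5 rv3)) (sub_nonneg.2 y1) gnil))))
    249 (q := (.add (.add (.mul (.g 0) (.add (.pp [(1, 631545)]) (.add (.mul (.g 2) (.pp [(1, 5)])) (.mul (.g 3) (.pp [(1, 192055)]))))) (.mul (.g 3) (.add (.pp [(1, 6408)]) (.mul (.g 1) (.pp [(1, 25005)]))))) (.pp [(1, 366526), (2, 25), (3, 25), (4, 25), (6, 25), (9, 25)]))) (by decide +kernel)

theorem zs_u3 {x y : ℝ} (x0 : 0 ≤ x) (x1 : x ≤ 3 / 5) (y0 : 0 ≤ y) (y1 : y ≤ 3 / 5) (g0 : 3 / 10 ≤ y) :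
    1 / 3 ≤ nr y - kpr x y := by
  exact fin (y := yv x y 0 0 0 0 0 0 0) (n := 29999)
    (rsc 10000 (rq1 3))
    (rsc 3 (rsub (r_nr rv3) (r_kpr rv2 rv3)))
    (yv_nonneg x0 y0 (le_refl 0) (le_refl 0) (le_refl 0) (le_refl 0) (le_refl 0) (le_refl 0) (le_refl 0))
    (gcons rv2 x0
      (gcons rv3 y0
      (gcons (rsub (rq 3 5) (rsc 5 rv2)) (sub_nonneg.2 x1)
      (gcons (rsub (rq 3 5) (rsc 5 rv3)) (sub_nonneg.2 y1)
      (gcons (rsub (rsc 10 rv3) (rq 3 10)) (sub_nonneg.2 g0) gnil)))))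
    249 (q := (.add (.add (.mul (.g 0) (.add (.pp [(1, 1894635)]) (.add (.mul (.g 2) (.pp [(1, 15)])) (.mul (.g 3) (.pp [(1, 576165)]))))) (.mul (.g 3) (.add (.pp [(1, 19224)]) (.mul (.g 1) (.pp [(1, 75015)]))))) (.pp [(1, 474578), (2, 75), (3, 75), (4, 75), (6, 75), (9, 75)]))) (by decide +kernel)

theorem zs_u2 {x y : ℝ} (x0 : 0 ≤ x) (x1 : x ≤ 3 / 5) (y0 : 0 ≤ y) (y1 : y ≤ 3 / 5) (g0 : y ≤ 7 / 20) :
    (1 - y) ^ 2 / 4 + 169 / 1600 ≤ nr y - kpr x y := by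
  exact fin (y := yv x y 0 0 0 0 0 0 0) (n := 39999)
    (rsc 25 (radd (rsc 400 (rdiv 4 (rp2 (rsub r1 rv3)))) (rq 169 1600)))
    (rsc 4 (rsub (r_nr rv3) (r_kpr rv2 rv3)))
    (yv_nonneg x0 y0 (le_refl 0) (le_refl 0) (le_refl 0) (le_refl 0) (le_refl 0) (le_refl 0) (le_refl 0))
    (gcons rv2 x0
      (gcons rv3 y0
      (gcons (rsub (rq 3 5) (rsc 5 rv2)) (sub_nonneg.2 x1)
      (gcons (rsub (rq 3 5) (rsc 5 rv3)) (sub_nonneg.2 y1)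
      (gcons (rsub (rq 7 20) (rsc 20 rv3)) (sub_nonneg.2 g0) gnil)))))
    24 (q := (.add (.add (.mul (.g 0) (.add (.pp [(1, 252618)]) (.add (.mul (.g 2) (.pp [(1, 2)])) (.mul (.g 3) (.pp [(1, 76822)]))))) (.mul (.g 1) (.add (.pp [(1, 337184)]) (.mul (.g 3) (.pp [(1, 60002)]))))) (.pp [(1, 48675), (2, 10), (3, 10), (4, 10), (6, 10), (9, 10)]))) (by decide +kernel)

section

variable {x y w A B φ : ℝ}

theorem szs (x0 : 0 ≤ x) (x1 : x ≤ 3 / 5) (y0 : 0 ≤ y) (y1 : y ≤ 3 / 5) :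
    Sz (np x) (nr y - kpr x y) x y :=
  ⟨zs_kx x0 x1 y0 y1, zs_u4 x0 x1 y0 y1, x0, x1, y0, y1⟩

theorem sdr (x0 : 0 ≤ x) (x1 : x ≤ 3 / 5) (y0 : 0 ≤ y) (y1 : y ≤ 3 / 5) :
    Side (nr y - kpr x y) y :=
  ⟨zs_u4 x0 x1 y0 y1, zs_u3 x0 x1 y0 y1, zs_u2 x0 x1 y0 y1⟩

/-- a value of the gain -/
theorem bd (x0 : 0 ≤ x) (x1 : x ≤ 3 / 5) (y0 : 0 ≤ y) (y1 : y ≤ 3 / 5) (c : Cl w A B)
    (h1 : w + 9 / 20 ≤ A + B → A ≤ 1 → vl w A B ≤ φ + l1 (1 - A) (1 - B) x y)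
    (h2 : w + 9 / 20 ≤ A + B → 1 < A → vl w A B ≤ φ + l2 (1 - A) (1 - B) x y) :
    Bd (np x) (nr y - kpr x y) 0 x y (Ws x y) (Ws x y) (fun u _ => 1 - A + x < u) flB w A B φ := by
  refine Bd.wit (fun t => t) fun lo => ?_
  have e1 := c.w0
  have e2 := c.w1
  have e3 := c.hi
  rcases le_or_gt A 1 with h | h
  · exact (st2_witz (szs x0 x1 y0 y1) (sdr x0 x1 y0 y1)
      (lz1 x0 x1 y0 y1 c.A0 c.B0 (by linarith) (by linarith) h) c.w1 c.A0 c.B0 lo c.hi).mono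
      (by linarith [h1 lo.le h])
  · exact (st2_witz (szs x0 x1 y0 y1) (sdr x0 x1 y0 y1)
      (lz2 x0 x1 y0 y1 c.A0 c.B0 (by linarith) (by linarith) h.le) c.w1 c.A0 c.B0 lo c.hi).mono
      (by linarith [h2 lo.le h])

theorem fr0 {t : ℝ} (h0 : 0 ≤ t) (h1 : t ≤ 1) : 0 ≤ fr t := by
  unfold fr
  nlinarith [mul_nonneg h0 h0, mul_nonneg (mul_nonneg h0 h0) (by linarith : 0 ≤ 1 - t)]

theorem fp0 {t : ℝ} (h0 : 0 ≤ t) : 0 ≤ fp t := by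
  unfold fp
  positivity

end

/-- **The column `s` of `OL1Bs`.** -/
theorem modes_s {x y z : ℝ} (x0 : 0 ≤ x) (x1 : x ≤ 3 / 5) (y0 : 0 ≤ y) (y1 : y ≤ 3 / 5)
    (z0 : 0 ≤ z) :
    ModesC (np x) (nr y - kpr x y) 0 x y (Ws x y) (Ws x y) (sg x) (gg x y z) 0
      (fun _ A _ u _ => 1 - A + x < u) flB fs fp fr Bsp Bsr Bpr Brp := by
  have hg : gg x y 0 ≤ gg x y z := by
    unfold gg
    linarith
  refine ⟨?_, ?_, ?_, ?_, ?_, ?_, ?_, ?_⟩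
  · intro w A B c
    refine bd x0 x1 y0 y1 c (fun lo h => ?_) (fun lo h => ?_)
    · exact v1_one x0 x1 y0 y1 c.w0.le c.w1 c.A0 c.B0 c.hi lo h
    · exact v2_one x0 x1 y0 y1 c.w0.le c.w1 c.A0 c.B0 c.hi lo h.le
  · intro w A B c
    have e1 := c.A0
    have e2 := c.w1
    have e3 := c.hi
    have e4 := c.B0
    refine bd x0 x1 y0 y1 c (fun lo h => ?_) (fun lo h => ?_)
    · have := v1_twoy x0 x1 y0 y1 c.w0.le c.w1 c.A0 c.B0 c.hi lo h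
      have := fr0 (t := 1 - A) (by linarith) (by linarith)
      linarith
    · have := v2_twox x0 x1 y0 y1 c.w0.le c.w1 c.A0 c.B0 c.hi lo h.le (by linarith)
      have := fp0 (t := 1 - B) (by linarith)
      linarith
  · intro w A B c hA
    refine bd x0 x1 y0 y1 c (fun lo h => ?_) (fun lo h => absurd hA (not_le.2 h))
    have := v1_twoy x0 x1 y0 y1 c.w0.le c.w1 c.A0 c.B0 c.hi lo h
    linarith
  · intro w A B c hB
    refine bd x0 x1 y0 y1 c (fun lo h => ?_) (fun lo h => ?_)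
    · have := v1_twox x0 x1 y0 y1 c.w0.le c.w1 c.A0 c.B0 c.hi lo h hB
      linarith
    · have := v2_twox x0 x1 y0 y1 c.w0.le c.w1 c.A0 c.B0 c.hi lo h.le hB
      linarith
  · intro w A B t c hA t0 t1
    refine bd x0 x1 y0 y1 c (fun lo h => ?_) (fun lo h => absurd hA (not_le.2 h))
    have := v1_chy x0 x1 y0 y1 c.w0.le c.w1 c.A0 c.B0 c.hi lo h t0 t1
    linarith
  · intro w A B t c hB t0 t1
    refine bd x0 x1 y0 y1 c (fun lo h => ?_) (fun lo h => absurd t1 (by linarith))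
    have := v1_chx x0 x1 y0 y1 c.w0.le c.w1 c.A0 c.B0 c.hi lo h hB t0 t1
    linarith
  · intro w A B d c d0 d1
    refine bd x0 x1 y0 y1 c (fun lo h => ?_) (fun lo h => absurd d1 (by linarith))
    exact v1_capy x0 x1 y0 y1 c.w0.le c.w1 c.A0 c.B0 c.hi lo h d0 d1
  · intro w A B d c d0 d1
    have hB : B ≤ 1 := by linarith
    refine bd x0 x1 y0 y1 c (fun lo h => ?_) (fun lo h => ?_)
    · exact v1_capx x0 x1 y0 y1 c.w0.le c.w1 c.A0 c.B0 c.hi lo h hB d0 d1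
    · exact v2_capx x0 x1 y0 y1 c.w0.le c.w1 c.A0 c.B0 c.hi lo h.le hB d0 d1

/-- **The hypothesis `HMs` of `ol1Bs_of`.** -/
theorem hms : Pool.Agent.Helper78.OD.HMs :=
  fun _ _ _ x0 x1 y0 y1 z0 _ _ => modes_s x0 x1.le y0 y1.le z0

end Pool.Agent.Helper19.TS.Bs
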