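import Mathlib

/-!
# Case `OL1Bs`, column `s`: two losses

`l1` (for `A ≤ 1`) and `l2` (for `1 < A`) do not depend on `w`; `a = 1 - A`, `b = 1 - B` are the caps on
the rows `p`, `r` of heights `x`, `y`. The states are at most `Ws - l`, the volume of the cell is at
most each value of the gain plus `l`.
-/

set_option autoImplicit false

namespace Pool.Agent.Helper19.TS.Bs

/-- the loss for `A ≤ 1` -/
noncomputable def l1 (a b x y : ℝ) : ℝ :=
  -(11091 / 25000) - 42459 / 100000 * b + 1923 / 5000 * b ^ 2 - 7211 / 100000 * b ^ 3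
    - 1453 / 20000 * a + 1587 / 2500 * (a * b) - 37631 / 100000 * (a * b ^ 2)
    - 21411 / 100000 * a ^ 2 - 139 / 800 * (a ^ 2 * b) + 1329 / 4000 * a ^ 3 + 1589 / 5000 * x
    - 2591 / 10000 * (x * b) + 1937 / 20000 * (x * b ^ 2) - 19007 / 50000 * (x * a)
    + 11817 / 50000 * (x * a * b) + 12843 / 50000 * (x * a ^ 2) + 603 / 100000 * y
    + 4927 / 100000 * (y * b) + 1 / 3125 * (y * b ^ 2) - 622 / 3125 * (y * a)
    + 7237 / 50000 * (y * a * b) + 5751 / 25000 * (y * a ^ 2)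

/-- the loss for `1 < A` -/
noncomputable def l2 (a b x y : ℝ) : ℝ :=
  -(22283 / 50000) - 13079 / 50000 * b - 21611 / 100000 * b ^ 2 + 40309 / 100000 * b ^ 3
    + 5427 / 100000 * a - 49929 / 100000 * (a * b) + 2533 / 4000 * (a * b ^ 2)
    + 5629 / 100000 * a ^ 2 + 10501 / 50000 * (a ^ 2 * b) + 10599 / 50000 * a ^ 3
    + 33743 / 100000 * x - 22797 / 100000 * (x * b) + 1003 / 20000 * (x * b ^ 2)
    + 12123 / 100000 * (x * a) + 15541 / 100000 * (x * a * b) + 108 / 625 * (x * a ^ 2)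
    - 173 / 50000 * y + 3063 / 25000 * (y * b) - 2867 / 100000 * (y * b ^ 2)
    + 6953 / 100000 * (y * a) + 20733 / 50000 * (y * a * b) + 4491 / 20000 * (y * a ^ 2)
    - 6257 / 50000 * (x * y) + 42829 / 100000 * (x * y * b) - 6899 / 25000 * (x * y * a)
    + 787 / 20000 * x ^ 2 - 9623 / 100000 * (x ^ 2 * b) - 4743 / 50000 * (x ^ 2 * a)
    + 4813 / 50000 * y ^ 2 - 67 / 500 * (y ^ 2 * b) - 35019 / 100000 * (y ^ 2 * a)

end Pool.Agent.Helper19.TS.Bs
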