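import Pool.Agent.Helper19.TS.BsNum
import Pool.Agent.Helper19.TS.BsSD

/-!
# The losses of the column `s` of `OL1Bs` as expressions
-/

set_option autoImplicit false
set_option linter.all false

namespace Pool.Agent.Helper19.TS.Bs

open Pool.Agent.Helper83.Cert Pool.Agent.Helper83.TS Pool.Agent.Helper36.CK

/-- `100000` times `l1` -/
noncomputable def l1E (a b c d : Ex) : Ex :=
  .add (.add (.sub (.add (.add (.add (.add (.add (.sub (.add (.sub (.add (.add (.sub (.sub (.sub (.add (.sub (.sub (.add (.sub (.mul (.c 4) (.sub (.c 0) (.c (11091)))) (.mul (.c (42459)) b)) (.mul (.c 20) (.mul (.c (1923)) (.mul b b)))) (.mul (.c (7211)) (.mul (.mul b b) b))) (.mul (.c 5) (.mul (.c (1453)) a))) (.mul (.c 40) (.mul (.c (1587)) (.mul a b)))) (.mul (.c (37631)) (.mul a (.mul b b)))) (.mul (.c (21411)) (.mul a a))) (.mul (.c 125) (.mul (.c (139)) (.mul (.mul a a) b)))) (.mul (.c 25) (.mul (.c (1329)) (.mul (.mul a a) a)))) (.mul (.c 20) (.mul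 (.c (1589)) c))) (.mul (.c 10) (.mul (.c (2591)) (.mul c b)))) (.mul (.c 5) (.mul (.c (1937)) (.mul c (.mul b b))))) (.mul (.c 2) (.mul (.c (19007)) (.mul c a)))) (.mul (.c 2) (.mul (.c (11817)) (.mul (.mul c a) b)))) (.mul (.c 2) (.mul (.c (12843)) (.mul c (.mul a a))))) (.mul (.c (603)) d)) (.mul (.c (4927)) (.mul d b))) (.mul (.c 32) (.mul (.c (1)) (.mul d (.mul b b))))) (.mul (.c 32) (.mul (.c (622)) (.mul d a)))) (.mul (.c 2) (.mul (.c (7237)) (.mul (.mul d a) b)))) (.mul (.c 4) (.mul (.c (5751)) (.mul d (.mul a a))))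

theorem r_l1 {y : ℕ → ℝ} {a b c d : Ex} {u v w x : ℝ} (h0 : R y a 1 u) (h1 : R y b 1 v) (h2 : R y c 1 w) (h3 : R y d 1 x) :
    R y (l1E a b c d) 100000 (l1 u v w x) := by
  unfold R at *
  simp only [Nat.cast_one, one_mul] at *
  simp only [l1E, exadd, exsub, exmul, exc, h0, h1, h2, h3, l1]
  push_cast
  ring

/-- `100000` times `l2` -/
noncomputable def l2E (a b c d : Ex) : Ex :=
  .sub (.sub (.add (.sub (.sub (.add (.sub (.add (.sub (.add (.add (.add (.sub (.add (.sub (.add (.add (.add (.add (.sub (.add (.add (.add (.add (.add (.sub (.add (.add (.sub (.mul (.c 2) (.sub (.sub (.c 0) (.c (22283))) (.mul (.c (13079)) b))) (.mul (.c (21611)) (.mul b b))) (.mul (.c (40309)) (.mul (.mul b b) b))) (.mul (.c (5427)) a)) (.mul (.c (49929)) (.mul a b))) (.mul (.c 25) (.mul (.c (2533)) (.mul a (.mul b b))))) (.mul (.c (5629)) (.mul a a))) (.mul (.c 2) (.mul (.c (10501)) (.mul (.mul a a) b)))) (.mul (.c 2) (.mul (.c (10599)) (.mul (.mul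 a a) a)))) (.mul (.c (33743)) c)) (.mul (.c (22797)) (.mul c b))) (.mul (.c 5) (.mul (.c (1003)) (.mul c (.mul b b))))) (.mul (.c (12123)) (.mul c a))) (.mul (.c (15541)) (.mul (.mul c a) b))) (.mul (.c 160) (.mul (.c (108)) (.mul c (.mul a a))))) (.mul (.c 2) (.mul (.c (173)) d))) (.mul (.c 4) (.mul (.c (3063)) (.mul d b)))) (.mul (.c (2867)) (.mul d (.mul b b)))) (.mul (.c (6953)) (.mul d a))) (.mul (.c 2) (.mul (.c (20733)) (.mul (.mul d a) b)))) (.mul (.c 5) (.mul (.c (4491)) (.mul d (.mul a a))))) (.mul (.c 2) (.mul (.c (6257)) (.mul c d)))) (.mul (.c (42829)) (.mul (.mul c d) b))) (.mul (.c 4) (.mul (.c (6899)) (.mul (.mul c d) a)))) (.mul (.c 5) (.mul (.c (787)) (.mul c c)))) (.mul (.c (9623)) (.mul (.mul c c) b))) (.mul (.c 2) (.mul (.c (4743)) (.mul (.mul c c) a)))) (.mul (.c 2) (.mul (.c (4813)) (.mul d d)))) (.mul (.c 200) (.mul (.c (67)) (.mul (.mul d d) b)))) (.mul (.c (35019)) (.mul (.mul d d) a))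

theorem r_l2 {y : ℕ → ℝ} {a b c d : Ex} {u v w x : ℝ} (h0 : R y a 1 u) (h1 : R y b 1 v) (h2 : R y c 1 w) (h3 : R y d 1 x) :
    R y (l2E a b c d) 100000 (l2 u v w x) := by
  unfold R at *
  simp only [Nat.cast_one, one_mul] at *
  simp only [l2E, exadd, exsub, exmul, exc, h0, h1, h2, h3, l2]
  push_cast
  ring

end Pool.Agent.Helper19.TS.Bs
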