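import Pool.Agent.Helper83.Cert.Check

/-!
# Certificates for the columns of the type `(2,1,4,3)`
-/

set_option autoImplicit false
set_option maxRecDepth 100000
set_option linter.unusedSimpArgs false
set_option linter.unusedVariables false

namespace Pool.Agent.Helper19.TS

open Pool.Agent.Helper83.Cert

theorem colN {ua ub ue da db de : ℝ} (h1 : 0 ≤ ua) (h2 : 0 ≤ ub) (h3 : 0 ≤ ue) (h4 : 0 ≤ da) (h5 : 0 ≤ db) (h6 : 0 ≤ de) (kua : 0 ≤ 1 - ua) (kub : 0 ≤ 1 - ub) (kue : 0 ≤ 1 - ue) (kda : 0 ≤ 3 / 5 - da) (kdb : 0 ≤ 3 / 5 - db) (kde : 0 ≤ 3 / 5 - de) (s1 : 0 ≤ ua - ue) (s2 : 0 ≤ ub - ue) :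
    0 ≤ 333 / 1000 - 153 / 200 * ua - 1 / 40 * ub - 173 / 1000 * ue + 39 / 125 * da + 39 / 125 * db + 299 / 1000 * de + 1 / 2 * ua ^ 2 + 7 / 50 * ua * da + 1 / 2 * ub ^ 2 - 493 / 1000 * ub * da - 353 / 1000 * ub * db + 1 / 2 * ue ^ 2 - 123 / 500 * ue * da - 123 / 500 * ue * db - 44 / 125 * ue * de + 297 / 1000 * da ^ 2 + 167 / 1000 * da * db - 27 / 250 * da * de + 297 / 1000 * db ^ 2 - 27 / 250 * db * de + 99 / 500 * de ^ 2 - 1 / 2 * ua ^ 2 * da - 1 / 2 * ub ^ 2 * db + 99 / 500 * ub * da * db - 1 / 2 * ue ^ 2 * de - 107 / 500 * ue * da ^ 2 + 273 / 500 * ue * da * de - 107 / 500 * ue * db ^ 2 + 273 / 500 * ue * db * de - 107 / 250 * ue * de ^ 2 := by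
  have h := cert (y := yv ua ub ue da db de 0 0 0)
    (gs := [(.v 2),
      (.v 3),
      (.v 5),
      (.v 7),
      (.v 11),
      (.v 13),
      (.add (.c (1)) (.mul (.c (-1)) (.v 2))),
      (.add (.c (1)) (.mul (.c (-1)) (.v 3))),
      (.add (.c (1)) (.mul (.c (-1)) (.v 5))),
      (.add (.c (3)) (.mul (.c (-5)) (.v 7))),
      (.add (.c (3)) (.mul (.c (-5)) (.v 11))),
      (.add (.c (3)) (.mul (.c (-5)) (.v 13))),
      (.add (.v 2) (.mul (.c (-1)) (.v 5))),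
      (.add (.v 3) (.mul (.c (-1)) (.v 5)))])
    (p := .mul (.c 50000000) (.add (.add (.add (.add (.c (333)) (.add (.mul (.c (-765)) (.v 2)) (.mul (.c (-25)) (.v 3)))) (.add (.add (.mul (.c (500)) (.mul (.v 2) (.v 2))) (.mul (.c (-173)) (.v 5))) (.add (.mul (.c (312)) (.v 7)) (.mul (.c (500)) (.mul (.v 3) (.v 3)))))) (.add (.add (.add (.mul (.c (312)) (.v 11)) (.mul (.c (299)) (.v 13))) (.add (.mul (.c (140)) (.mul (.v 2) (.v 7))) (.mul (.c (-493)) (.mul (.v 3) (.v 7))))) (.add (.add (.mul (.c (500)) (.mul (.v 5) (.v 5))) (.mul (.c (-500)) (.mul (.mul (.v 2) (.v 2)) (.v 7)))) (.add (.mul (.c (-353)) (.mul (.v 3) (.v 11))) (.mul (.c (-246)) (.mul (.v 5) (.v 7))))))) (.add (.add (.add (.add (.mul (.c (297)) (.mul (.v 7) (.v 7))) (.mul (.c (-246)) (.mul (.v 5) (.v 11)))) (.add (.mul (.c (-352)) (.mul (.v 5) (.v 13))) (.mul (.c (167)) (.mul (.v 7) (.v 11))))) (.add (.add (.mul (.c (-108)) (.mul (.v 7) (.v 13))) (.mul (.c (-500)) (.mul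 (.mul (.v 3) (.v 3)) (.v 11)))) (.add (.mul (.c (297)) (.mul (.v 11) (.v 11))) (.mul (.c (-108)) (.mul (.v 11) (.v 13)))))) (.add (.add (.add (.mul (.c (198)) (.mul (.v 13) (.v 13))) (.mul (.c (198)) (.mul (.mul (.v 3) (.v 7)) (.v 11)))) (.add (.mul (.c (-214)) (.mul (.mul (.v 5) (.v 7)) (.v 7))) (.mul (.c (-500)) (.mul (.mul (.v 5) (.v 5)) (.v 13))))) (.add (.add (.mul (.c (546)) (.mul (.mul (.v 5) (.v 7)) (.v 13))) (.mul (.c (-214)) (.mul (.mul (.v 5) (.v 11)) (.v 11)))) (.add (.mul (.c (546)) (.mul (.mul (.v 5) (.v 11)) (.v 13))) (.mul (.c (-428)) (.mul (.mul (.v 5) (.v 13)) (.v 13)))))))))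
    (e := (.add (.add (.add (.add (.add (.mul (.pp [(1, 9400)]) (.sq [(1, -26), (2, -26), (3, 80), (5, 85), (7, -53), (11, -53), (13, -100)])) (.mul (.pp [(1, 201580)]) (.sq [(1, -26), (2, -26), (3, 100), (5, 100), (7, -95), (11, -95), (13, -4)]))) (.add (.mul (.pp [(1, 796815)]) (.sq [(1, -66), (2, 100), (3, 47), (5, 16), (7, -87), (11, -42), (13, -27)])) (.mul (.g 5) (.add (.add (.mul (.g 10) (.add (.add (.mul (.g 3) (.pp [(1, 356040000)])) (.mul (.g 4) (.pp [(1, 568090000)]))) (.add (.mul (.g 5) (.pp [(1, 757530000)])) (.add (.mul (.g 12) (.pp [(1, 10390000)])) (.mul (.g 13) (.pp [(1, 3056920000)])))))) (.add (.mul (.g 6) (.add (.add (.mul (.g 6) (.pp [(1, 4761250000)])) (.mul (.g 11) (.pp [(1, 584480000)]))) (.add (.mul (.g 12) (.pp [(1, 3493400000)])) (.mul (.g 13) (.pp [(1, 4750500000)]))))) (.mul (.g 11) (.add (.mul (.g 3) (.pp [(1, 491440000)])) (.add (.mul (.g 4) (.pp [(1, 27450000)])) (.mul (.g 11) (.pp [(1, 174592000)])))))))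 (.add (.add (.mul (.g 12) (.add (.pp [(1, 2064950000)]) (.add (.mul (.g 9) (.pp [(1, 1633760000)])) (.mul (.g 12) (.pp [(1, 2201900000)]))))) (.mul (.g 13) (.add (.mul (.g 1) (.pp [(1, 8200000)])) (.add (.mul (.g 2) (.pp [(1, 11164700000)])) (.mul (.g 5) (.pp [(1, 5947850000)])))))) (.add (.mul (.g 7) (.add (.pp [(1, 3663800000)]) (.mul (.g 7) (.pp [(1, 3990100000)])))) (.mul (.g 4) (.mul (.g 8) (.pp [(1, 5230250000)]))))))))) (.add (.add (.mul (.g 6) (.add (.add (.mul (.pp [(1, 68270)]) (.sq [(1, -91), (2, 93), (3, 93), (5, 93), (7, -100), (11, -100), (13, -79)])) (.mul (.g 3) (.add (.add (.pp [(1, 8681500000)]) (.add (.mul (.g 0) (.pp [(1, 8396000000)])) (.mul (.g 2) (.pp [(1, 7703200000)])))) (.add (.add (.mul (.g 3) (.pp [(1, 1113850000)])) (.mul (.g 7) (.pp [(1, 1845500000)]))) (.add (.mul (.g 10) (.pp [(1, 413900000)])) (.mul (.g 11) (.pp [(1, 335920000)]))))))) (.add (.mul (.g 6) (.add (.add (.mul (.g 1) (.pp [(1, 2271350000)]))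 (.mul (.g 2) (.pp [(1, 3684400000)]))) (.add (.mul (.g 6) (.pp [(1, 1541350000)])) (.add (.mul (.g 9) (.pp [(1, 2761940000)])) (.mul (.g 10) (.pp [(1, 254710000)])))))) (.add (.mul (.g 13) (.add (.mul (.g 8) (.pp [(1, 2220100000)])) (.add (.mul (.g 10) (.pp [(1, 469930000)])) (.mul (.g 13) (.pp [(1, 1306450000)]))))) (.mul (.g 2) (.mul (.g 10) (.pp [(1, 466870000)]))))))) (.mul (.g 4) (.add (.add (.mul (.pp [(1, 116505)]) (.sq [(2, 73), (3, -81), (5, -100), (7, 5), (11, 63), (13, 71)])) (.add (.mul (.pp [(1, 91315)]) (.sq [(1, -10), (2, -46), (3, -17), (5, 40), (7, 100), (11, -31), (13, 9)])) (.mul (.pp [(1, 459335)]) (.sq [(1, -9), (2, 25), (3, -1), (5, 99), (7, -56), (11, -100), (13, -55)])))) (.add (.add (.mul (.g 7) (.add (.add (.pp [(1, 2751600000)]) (.mul (.g 0) (.pp [(1, 8815050000)]))) (.add (.mul (.g 10) (.pp [(1, 807650000)])) (.mul (.g 13) (.pp [(1, 1697050000)]))))) (.mul (.g 9) (.add (.add (.mul (.g 3) (.pp [(1, 574370000)]))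 (.mul (.g 4) (.pp [(1, 865090000)]))) (.add (.mul (.g 11) (.pp [(1, 198800000)])) (.mul (.g 13) (.pp [(1, 1947330000)])))))) (.add (.mul (.g 10) (.add (.mul (.g 3) (.pp [(1, 9770000)])) (.mul (.g 4) (.pp [(1, 1028800000)])))) (.mul (.g 12) (.mul (.g 12) (.pp [(1, 739400000)])))))))) (.add (.mul (.g 9) (.add (.add (.mul (.pp [(1, 942)]) (.sq [(1, 3), (2, -61), (3, 14), (5, 61), (7, 84), (13, -100)])) (.add (.mul (.pp [(1, 411050000)]) (.sq [(3, -1), (5, 1), (11, 1), (13, -1)])) (.mul (.pp [(1, 88262)]) (.sq [(1, -26), (2, 9), (3, 100), (5, -22), (7, 6), (11, 11), (13, -55)])))) (.add (.add (.mul (.pp [(1, 63964)]) (.sq [(2, 2), (3, 66), (5, -17), (7, -51), (11, -72), (13, 100)])) (.mul (.g 3) (.add (.mul (.g 1) (.pp [(1, 444090000)])) (.add (.mul (.g 3) (.pp [(1, 816470000)])) (.mul (.g 11) (.pp [(1, 92904000)])))))) (.add (.mul (.g 13) (.add (.mul (.g 7) (.pp [(1, 749380000)])) (.mul (.g 12) (.pp [(1, 37930000)])))) (.mul (.g 2)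 (.mul (.g 2) (.pp [(1, 543670000)]))))))) (.mul (.g 13) (.add (.mul (.pp [(1, 85110)]) (.sq [(1, -7), (2, 10), (3, -19), (5, 100), (7, -43), (11, -69), (13, 48)])) (.add (.mul (.g 10) (.add (.mul (.g 2) (.pp [(1, 3759090000)])) (.mul (.g 13) (.pp [(1, 3852230000)])))) (.mul (.g 7) (.mul (.g 13) (.pp [(1, 41200000)]))))))))) (.add (.add (.add (.mul (.g 3) (.add (.mul (.pp [(1, 56455)]) (.sq [(1, -34), (2, 9), (3, 19), (5, 100), (7, 5), (11, -77), (13, -15)])) (.add (.mul (.pp [(1, 315775)]) (.sq [(1, -11), (2, -17), (3, 100), (5, -21), (7, -40), (11, -27), (13, 6)])) (.mul (.pp [(1, 445615)]) (.sq [(1, -40), (2, -8), (3, 36), (5, -98), (7, 100), (11, 81)]))))) (.mul (.g 0) (.add (.mul (.pp [(1, 145020)]) (.sq [(2, 4), (3, -73), (5, 100), (11, -1)])) (.mul (.pp [(1, 332455)]) (.sq [(1, -5), (2, 3), (3, 52), (5, -100), (7, -5), (11, 60), (13, 31)]))))) (.add (.mul (.g 2) (.add (.mul (.pp [(1, 102185)]) (.sq [(1, 2), (2, -79), (3,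 100), (5, 96), (7, 26), (11, -95), (13, -56)])) (.mul (.pp [(1, 5115)]) (.sq [(2, -48), (3, -48), (5, -48), (7, 65), (11, 65), (13, 100)])))) (.mul (.g 7) (.add (.mul (.pp [(1, 8745)]) (.sq [(1, 91), (2, -80), (3, -22), (5, -100), (7, 47), (11, 58), (13, 3)])) (.mul (.pp [(1, 417690)]) (.sq [(1, 19), (2, -45), (3, 5), (5, 97), (7, -27), (11, 100), (13, -7)])))))) (.add (.add (.mul (.g 11) (.add (.mul (.pp [(1, 95549)]) (.sq [(1, 4), (2, -53), (3, 87), (5, 100), (7, -14), (11, -68), (13, 52)])) (.mul (.pp [(1, 182727)]) (.sq [(1, -50), (2, 52), (3, 17), (5, 100), (7, -79), (11, -33), (13, 58)])))) (.mul (.g 1) (.mul (.pp [(1, 96365)]) (.sq [(1, 27), (2, -29), (3, -16), (5, 100), (7, -29), (11, -89), (13, -2)])))) (.add (.mul (.g 10) (.mul (.pp [(1, 987160000)]) (.sq [(3, 1), (5, 1), (7, -1), (13, -1)]))) (.mul (.g 12) (.mul (.pp [(1, 212600)]) (.sq [(1, 41), (2, -100), (3, 7), (5, 22), (7, 97), (11, 46), (13, 17)]))))))) (.pp [(1,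 102544453), (2, 463747), (3, 406324), (4, 522043), (5, 434110), (6, 681856), (7, 576837), (8, 504815), (9, 518925), (10, 687684), (11, 556445), (12, 426465), (13, 513118), (14, 378896), (15, 469520), (18, 466910), (20, 420915), (21, 497140), (22, 363634), (25, 466522), (26, 436082), (27, 480680), (28, 491760), (30, 432240), (33, 478634), (35, 461738), (39, 523492), (42, 574200), (44, 562300), (45, 530450), (49, 503193), (50, 520990), (52, 548735), (55, 510698), (63, 504365), (65, 466960), (66, 561770), (70, 590170), (75, 486090), (77, 485288), (78, 512350), (91, 513956), (98, 484395), (99, 528145), (105, 475960), (110, 492500), (117, 473060), (121, 515689), (125, 476480), (130, 480540), (143, 507102), (147, 519590), (154, 471390), (165, 520150), (169, 544898), (175, 545575), (182, 474720), (195, 576140), (231, 475770), (242, 487010), (245, 460975), (273, 473570), (275, 560065), (286, 456880), (325, 477920), (338, 458295), (343,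 521365), (363, 489325), (385, 425980), (429, 418700), (455, 529940), (507, 541595), (539, 557165), (605, 497010), (637, 517705), (715, 553710), (845, 496680), (847, 496555), (1001, 537170), (1183, 494615), (1331, 487940), (1573, 506435), (1859, 505985), (2197, 490620)])))
    (by decide +kernel) (yv_nonneg h1 h2 h3 h4 h5 h6 (le_refl 0) (le_refl 0) (le_refl 0))
    (by
      simp only [List.forall_mem_cons, exadd, exsub, exmul, exc, exv2, exv3, exv5, exv7, exv11, exv13]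
      push_cast
      refine ⟨?_, ?_, ?_, ?_, ?_, ?_, ?_, ?_, ?_, ?_, ?_, ?_, ?_, ?_, fun _ hh => absurd hh List.not_mem_nil⟩
      · linarith [h1]
      · linarith [h2]
      · linarith [h3]
      · linarith [h4]
      · linarith [h5]
      · linarith [h6]
      · linarith [kua]
      · linarith [kub]
      · linarith [kue]
      · linarith [kda]
      · linarith [kdb]
      · linarith [kde]
      · linarith [s1]
      · linarith [s2]
    )
  simp only [exadd, exsub, exmul, exc, exv2, exv3, exv5, exv7, exv11, exv13] at h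
  push_cast at h
  linarith [h]

theorem colZp {w f ub da db de : ℝ} (h1 : 0 ≤ w) (h2 : 0 ≤ f) (h3 : 0 ≤ ub) (h4 : 0 ≤ da) (h5 : 0 ≤ db) (h6 : 0 ≤ de) (kw : 0 ≤ 13 / 20 - w) (kf : 0 ≤ 9 / 25 - f) (kub : 0 ≤ 1 - ub) (kda : 0 ≤ 3 / 5 - da) (kdb : 0 ≤ 3 / 5 - db) (kde : 0 ≤ 3 / 5 - de) (s1 : 0 ≤ -w + de) (s2 : 0 ≤ 1 / 4 * w - f + 1 / 2 * w ^ 2 - 1 / 12 * w ^ 3) :
    0 ≤ 333 / 1000 + 173 / 1000 * w - f - 1 / 40 * ub + 39 / 125 * da + 39 / 125 * db + 63 / 500 * de + 1 / 2 * w ^ 2 + 123 / 500 * w * da + 123 / 500 * w * db - 81 / 125 * w * de + 1 / 2 * ub ^ 2 - 493 / 1000 * ub * da - 353 / 1000 * ub * db + 297 / 1000 * da ^ 2 + 167 / 1000 * da * db - 177 / 500 * da * de + 297 / 1000 * db ^ 2 - 177 / 500 * db * de + 173 / 500 * de ^ 2 - 1 / 2 * w ^ 2 * de + 107 / 500 * w * da ^ 2 - 273 / 500 * w * da * de + 107 / 500 * w * db ^ 2 - 273 / 500 * w * db * de + 357 / 250 * w * de ^ 2 - 1 / 2 * ub ^ 2 * db + 99 / 500 * ub * da * db - 107 /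 500 * da ^ 2 * de + 273 / 500 * da * de ^ 2 - 107 / 500 * db ^ 2 * de + 273 / 500 * db * de ^ 2 - 116 / 125 * de ^ 3 := by
  have h := cert (y := yv w f ub da db de 0 0 0)
    (gs := [(.v 2),
      (.v 3),
      (.v 5),
      (.v 7),
      (.v 11),
      (.v 13),
      (.add (.c (13)) (.mul (.c (-20)) (.v 2))),
      (.add (.c (9)) (.mul (.c (-25)) (.v 3))),
      (.add (.c (1)) (.mul (.c (-1)) (.v 5))),
      (.add (.c (3)) (.mul (.c (-5)) (.v 7))),
      (.add (.c (3)) (.mul (.c (-5)) (.v 11))),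
      (.add (.c (3)) (.mul (.c (-5)) (.v 13))),
      (.add (.mul (.c (-1)) (.v 2)) (.v 13)),
      (.add (.add (.mul (.c (3)) (.v 2)) (.mul (.c (-12)) (.v 3))) (.add (.mul (.c (6)) (.mul (.v 2) (.v 2))) (.mul (.c (-1)) (.mul (.mul (.v 2) (.v 2)) (.v 2)))))])
    (p := .mul (.c 1500000) (.add (.add (.add (.add (.add (.c (333)) (.mul (.c (173)) (.v 2))) (.add (.mul (.c (-1000)) (.v 3)) (.mul (.c (500)) (.mul (.v 2) (.v 2))))) (.add (.add (.mul (.c (-25)) (.v 5)) (.mul (.c (312)) (.v 7))) (.add (.mul (.c (312)) (.v 11)) (.mul (.c (126)) (.v 13))))) (.add (.add (.add (.mul (.c (246)) (.mul (.v 2) (.v 7))) (.mul (.c (246)) (.mul (.v 2) (.v 11)))) (.add (.mul (.c (500)) (.mul (.v 5) (.v 5))) (.mul (.c (-648)) (.mul (.v 2) (.v 13))))) (.add (.add (.mul (.c (-493)) (.mul (.v 5) (.v 7))) (.mul (.c (297)) (.mul (.v 7) (.v 7)))) (.add (.mul (.c (-500)) (.mul (.mul (.v 2) (.v 2)) (.v 13))) (.mul (.c (-353)) (.mul (.v 5) (.v 11))))))) (.add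 (.add (.add (.add (.mul (.c (167)) (.mul (.v 7) (.v 11))) (.mul (.c (-354)) (.mul (.v 7) (.v 13)))) (.add (.mul (.c (214)) (.mul (.mul (.v 2) (.v 7)) (.v 7))) (.mul (.c (297)) (.mul (.v 11) (.v 11))))) (.add (.add (.mul (.c (-354)) (.mul (.v 11) (.v 13))) (.mul (.c (346)) (.mul (.v 13) (.v 13)))) (.add (.mul (.c (-546)) (.mul (.mul (.v 2) (.v 7)) (.v 13))) (.mul (.c (214)) (.mul (.mul (.v 2) (.v 11)) (.v 11)))))) (.add (.add (.add (.mul (.c (-500)) (.mul (.mul (.v 5) (.v 5)) (.v 11))) (.mul (.c (-546)) (.mul (.mul (.v 2) (.v 11)) (.v 13)))) (.add (.mul (.c (1428)) (.mul (.mul (.v 2) (.v 13)) (.v 13))) (.mul (.c (198)) (.mul (.mul (.v 5) (.v 7)) (.v 11))))) (.add (.add (.mul (.c (-214)) (.mul (.mul (.v 7) (.v 7)) (.v 13))) (.mul (.c (546)) (.mul (.mul (.v 7) (.v 13)) (.v 13)))) (.add (.mul (.c (-214)) (.mul (.mul (.v 11) (.v 11)) (.v 13))) (.add (.mul (.c (546)) (.mul (.mul (.v 11) (.v 13)) (.v 13))) (.mul (.c (-928)) (.mul (.mul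 (.v 13) (.v 13)) (.v 13))))))))))
    (e := (.add (.add (.add (.add (.mul (.g 4) (.add (.add (.mul (.g 4) (.add (.add (.mul (.g 0) (.pp [(1, 320985000)])) (.add (.mul (.g 2) (.pp [(1, 147483000)])) (.mul (.g 4) (.pp [(1, 58521000)])))) (.add (.add (.mul (.g 7) (.pp [(1, 600)])) (.mul (.g 8) (.pp [(1, 147498000)]))) (.add (.mul (.g 9) (.pp [(1, 3000)])) (.mul (.g 11) (.pp [(1, 64203000)])))))) (.add (.mul (.g 3) (.add (.add (.mul (.g 2) (.pp [(1, 547446000)])) (.mul (.g 6) (.pp [(1, 750)]))) (.add (.mul (.g 7) (.pp [(1, 600)])) (.add (.mul (.g 8) (.pp [(1, 250461000)])) (.mul (.g 11) (.pp [(1, 3000)])))))) (.mul (.g 7) (.add (.add (.pp [(1, 840)]) (.mul (.g 0) (.pp [(1, 1200)]))) (.add (.mul (.g 1) (.pp [(1, 600)])) (.mul (.g 2) (.pp [(1, 600)]))))))) (.add (.mul (.g 8) (.add (.pp [(1, 333864000)]) (.add (.mul (.g 6) (.pp [(1, 4507800)])) (.mul (.g 8) (.pp [(1, 95583000)]))))) (.add (.mul (.g 11) (.add (.mul (.g 0) (.pp [(1, 23979600)]))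 (.add (.mul (.g 2) (.pp [(1, 18037200)])) (.mul (.g 11) (.pp [(1, 4794120)]))))) (.mul (.g 12) (.add (.pp [(1, 122458500)]) (.mul (.g 0) (.pp [(1, 15000)])))))))) (.mul (.g 3) (.add (.add (.mul (.g 3) (.add (.add (.mul (.g 0) (.pp [(1, 320985000)])) (.add (.mul (.g 2) (.pp [(1, 252837000)])) (.mul (.g 7) (.pp [(1, 600)])))) (.add (.add (.mul (.g 8) (.pp [(1, 252852000)])) (.mul (.g 9) (.pp [(1, 3000)]))) (.add (.mul (.g 10) (.pp [(1, 3000)])) (.mul (.g 11) (.pp [(1, 64203000)])))))) (.mul (.g 8) (.add (.add (.pp [(1, 1921500)]) (.mul (.g 0) (.pp [(1, 15000)]))) (.add (.mul (.g 1) (.pp [(1, 15000)])) (.add (.mul (.g 8) (.pp [(1, 368802000)])) (.mul (.g 11) (.pp [(1, 32421900)]))))))) (.add (.mul (.g 12) (.add (.pp [(1, 122448000)]) (.add (.mul (.g 0) (.pp [(1, 15000)])) (.mul (.g 1) (.pp [(1, 15000)]))))) (.add (.mul (.g 7) (.add (.pp [(1, 2160)]) (.mul (.g 1) (.pp [(1, 600)])))) (.mul (.g 2) (.mul (.g 11) (.pp [(1, 32424900)]))))))))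 (.add (.mul (.g 11) (.add (.add (.add (.pp [(1, 7569900)]) (.mul (.g 0) (.add (.pp [(1, 94701600)]) (.add (.mul (.g 2) (.pp [(1, 9000)])) (.mul (.g 6) (.pp [(1, 4459695)])))))) (.add (.mul (.g 9) (.add (.mul (.g 7) (.pp [(1, 48)])) (.add (.mul (.g 11) (.pp [(1, 360)])) (.mul (.g 12) (.pp [(1, 32761200)]))))) (.mul (.g 1) (.add (.pp [(1, 22500)]) (.mul (.g 2) (.pp [(1, 6000)])))))) (.add (.add (.mul (.g 11) (.add (.mul (.g 7) (.pp [(1, 72)])) (.mul (.g 11) (.pp [(1, 2568180)])))) (.mul (.g 12) (.add (.mul (.g 10) (.pp [(1, 27965280)])) (.mul (.g 12) (.pp [(1, 214198500)]))))) (.add (.mul (.g 2) (.mul (.g 2) (.pp [(1, 11700)]))) (.mul (.g 8) (.mul (.g 8) (.pp [(1, 5408700)]))))))) (.mul (.g 1) (.add (.mul (.g 7) (.add (.add (.pp [(1, 840)]) (.mul (.g 0) (.pp [(1, 600)]))) (.add (.mul (.g 1) (.pp [(1, 600)])) (.add (.mul (.g 2) (.pp [(1, 600)])) (.mul (.g 5) (.pp [(1, 600)])))))) (.add (.mul (.g 12) (.add (.add (.mul (.g 0) (.pp [(1,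 45000)])) (.mul (.g 2) (.pp [(1, 27000)]))) (.add (.mul (.g 8) (.pp [(1, 12000)])) (.add (.mul (.g 10) (.pp [(1, 3000)])) (.mul (.g 12) (.pp [(1, 30000)])))))) (.mul (.g 8) (.mul (.g 8) (.pp [(1, 19500)])))))))) (.add (.add (.mul (.g 2) (.add (.mul (.g 2) (.add (.add (.mul (.g 2) (.pp [(1, 1672500)])) (.mul (.g 7) (.pp [(1, 1380)]))) (.add (.mul (.g 9) (.pp [(1, 73763400)])) (.add (.mul (.g 10) (.pp [(1, 169119600)])) (.mul (.g 12) (.pp [(1, 27087000)])))))) (.mul (.g 12) (.mul (.g 12) (.pp [(1, 209388000)]))))) (.mul (.g 8) (.add (.mul (.g 8) (.add (.mul (.g 0) (.pp [(1, 27072000)])) (.mul (.g 8) (.pp [(1, 1687500)])))) (.mul (.g 12) (.add (.mul (.g 10) (.pp [(1, 18034200)])) (.mul (.g 12) (.pp [(1, 209403000)]))))))) (.add (.mul (.g 0) (.mul (.g 12) (.add (.pp [(1, 503227500)]) (.mul (.g 6) (.pp [(1, 6249600)]))))) (.add (.mul (.g 10) (.mul (.g 10) (.mul (.g 10) (.pp [(1, 468288)])))) (.mul (.g 13) (.pp [(1, 125006875)]))))))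 (.pp [(1, 376872624), (2, 15390), (3, 14940), (4, 14250), (5, 14700), (6, 15600), (7, 14040), (8, 14875), (9, 15600), (10, 14400), (11, 15840), (12, 15000), (13, 14700), (14, 15000), (15, 15600), (18, 15000), (20, 15000), (21, 15600), (22, 14700), (25, 14880), (26, 15675), (27, 15000), (28, 15000), (30, 15000), (33, 15600), (35, 16500), (39, 14100), (42, 15000), (44, 15000), (45, 15000), (49, 15600), (50, 15000), (52, 15000), (55, 14400), (63, 15000), (65, 15600), (66, 15000), (70, 15000), (75, 15000), (77, 14850), (78, 15000), (91, 14700), (98, 15000), (99, 15000), (105, 15000), (110, 15000), (117, 15000), (121, 13800), (125, 15000), (130, 15000), (143, 15300), (147, 15000), (154, 15000), (165, 15000), (169, 15000), (175, 15000), (182, 15000), (195, 15000), (231, 15000), (242, 15000), (245, 15000), (273, 15000), (275, 15000), (286, 15000), (325, 15000), (338, 15000), (343, 15000), (363, 15000), (385, 15000), (429, 15000), (455,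 15000), (507, 15000), (539, 15000), (605, 15000), (637, 15000), (715, 15000), (845, 15000), (847, 15000), (1001, 15000), (1183, 15000), (1331, 15000), (1573, 15000), (1859, 15000), (2197, 15000)])))
    (by decide +kernel) (yv_nonneg h1 h2 h3 h4 h5 h6 (le_refl 0) (le_refl 0) (le_refl 0))
    (by
      simp only [List.forall_mem_cons, exadd, exsub, exmul, exc, exv2, exv3, exv5, exv7, exv11, exv13]
      push_cast
      refine ⟨?_, ?_, ?_, ?_, ?_, ?_, ?_, ?_, ?_, ?_, ?_, ?_, ?_, ?_, fun _ hh => absurd hh List.not_mem_nil⟩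
      · linarith [h1]
      · linarith [h2]
      · linarith [h3]
      · linarith [h4]
      · linarith [h5]
      · linarith [h6]
      · linarith [kw]
      · linarith [kf]
      · linarith [kub]
      · linarith [kda]
      · linarith [kdb]
      · linarith [kde]
      · linarith [s1]
      · linarith [s2]
    )
  simp only [exadd, exsub, exmul, exc, exv2, exv3, exv5, exv7, exv11, exv13] at h
  push_cast at h
  linarith [h]

theorem colZm {w f ub da db de : ℝ} (h1 : 0 ≤ w) (h2 : 0 ≤ f) (h3 : 0 ≤ ub) (h4 : 0 ≤ da) (h5 : 0 ≤ db) (h6 : 0 ≤ de) (kw : 0 ≤ 13 / 20 - w) (kf : 0 ≤ 9 / 25 - f) (kub : 0 ≤ 1 - ub) (kda : 0 ≤ 3 / 5 - da) (kdb : 0 ≤ 3 / 5 - db) (kde : 0 ≤ 3 / 5 - de) (s1 : 0 ≤ w - de) (s2 : 0 ≤ 1 / 4 * w - f + 1 / 2 * w ^ 2 - 1 / 12 * w ^ 3) :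
    0 ≤ 333 / 1000 + 173 / 1000 * w - f - 1 / 40 * ub + 39 / 125 * da + 39 / 125 * db + 63 / 500 * de + 1 / 2 * w ^ 2 + 123 / 500 * w * da + 123 / 500 * w * db - 81 / 125 * w * de + 1 / 2 * ub ^ 2 - 493 / 1000 * ub * da - 353 / 1000 * ub * db + 297 / 1000 * da ^ 2 + 167 / 1000 * da * db - 177 / 500 * da * de + 297 / 1000 * db ^ 2 - 177 / 500 * db * de + 173 / 500 * de ^ 2 - 1 / 3 * w ^ 3 + 1 / 2 * w ^ 2 * de + 107 / 500 * w * da ^ 2 - 273 / 500 * w * da * de + 107 / 500 * w * db ^ 2 - 273 / 500 * w * db * de + 107 / 250 * w * de ^ 2 - 1 / 2 * ub ^ 2 * db + 99 / 500 * ub * da * db - 107 / 500 * da ^ 2 * de + 273 / 500 * da * de ^ 2 - 107 / 500 * db ^ 2 * de + 273 / 500 * db * de ^ 2 - 223 / 375 * de ^ 3 := by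
  have h := cert (y := yv w f ub da db de 0 0 0)
    (gs := [(.v 2),
      (.v 3),
      (.v 5),
      (.v 7),
      (.v 11),
      (.v 13),
      (.add (.c (13)) (.mul (.c (-20)) (.v 2))),
      (.add (.c (9)) (.mul (.c (-25)) (.v 3))),
      (.add (.c (1)) (.mul (.c (-1)) (.v 5))),
      (.add (.c (3)) (.mul (.c (-5)) (.v 7))),
      (.add (.c (3)) (.mul (.c (-5)) (.v 11))),
      (.add (.c (3)) (.mul (.c (-5)) (.v 13))),
      (.add (.v 2) (.mul (.c (-1)) (.v 13))),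
      (.add (.add (.mul (.c (3)) (.v 2)) (.mul (.c (-12)) (.v 3))) (.add (.mul (.c (6)) (.mul (.v 2) (.v 2))) (.mul (.c (-1)) (.mul (.mul (.v 2) (.v 2)) (.v 2)))))])
    (p := .mul (.c 500000) (.add (.add (.add (.add (.add (.c (999)) (.mul (.c (519)) (.v 2))) (.add (.mul (.c (-3000)) (.v 3)) (.mul (.c (1500)) (.mul (.v 2) (.v 2))))) (.add (.add (.mul (.c (-75)) (.v 5)) (.mul (.c (936)) (.v 7))) (.add (.mul (.c (-1000)) (.mul (.mul (.v 2) (.v 2)) (.v 2))) (.mul (.c (936)) (.v 11))))) (.add (.add (.add (.mul (.c (378)) (.v 13)) (.mul (.c (738)) (.mul (.v 2) (.v 7)))) (.add (.mul (.c (738)) (.mul (.v 2) (.v 11))) (.mul (.c (1500)) (.mul (.v 5) (.v 5))))) (.add (.add (.mul (.c (-1944)) (.mul (.v 2) (.v 13))) (.mul (.c (-1479)) (.mul (.v 5) (.v 7)))) (.add (.mul (.c (891)) (.mul (.v 7) (.v 7))) (.add (.mul (.c (1500)) (.mul (.mul (.v 2) (.v 2)) (.v 13))) (.mul (.c (-1059)) (.mul (.v 5) (.v 11)))))))) (.add (.add (.add (.add (.mul (.c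 (501)) (.mul (.v 7) (.v 11))) (.mul (.c (-1062)) (.mul (.v 7) (.v 13)))) (.add (.mul (.c (642)) (.mul (.mul (.v 2) (.v 7)) (.v 7))) (.mul (.c (891)) (.mul (.v 11) (.v 11))))) (.add (.add (.mul (.c (-1062)) (.mul (.v 11) (.v 13))) (.mul (.c (1038)) (.mul (.v 13) (.v 13)))) (.add (.mul (.c (-1638)) (.mul (.mul (.v 2) (.v 7)) (.v 13))) (.mul (.c (642)) (.mul (.mul (.v 2) (.v 11)) (.v 11)))))) (.add (.add (.add (.mul (.c (-1500)) (.mul (.mul (.v 5) (.v 5)) (.v 11))) (.mul (.c (-1638)) (.mul (.mul (.v 2) (.v 11)) (.v 13)))) (.add (.mul (.c (1284)) (.mul (.mul (.v 2) (.v 13)) (.v 13))) (.mul (.c (594)) (.mul (.mul (.v 5) (.v 7)) (.v 11))))) (.add (.add (.mul (.c (-642)) (.mul (.mul (.v 7) (.v 7)) (.v 13))) (.mul (.c (1638)) (.mul (.mul (.v 7) (.v 13)) (.v 13)))) (.add (.mul (.c (-642)) (.mul (.mul (.v 11) (.v 11)) (.v 13))) (.add (.mul (.c (1638)) (.mul (.mul (.v 11) (.v 13)) (.v 13))) (.mul (.c (-1784)) (.mul (.mul (.v 13) (.v 13))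 (.v 13))))))))))
    (e := (.add (.add (.add (.add (.mul (.g 3) (.add (.add (.mul (.g 3) (.add (.add (.mul (.g 0) (.pp [(1, 482242500)])) (.add (.mul (.g 2) (.pp [(1, 148020000)])) (.mul (.g 7) (.pp [(1, 600)])))) (.add (.add (.mul (.g 8) (.pp [(1, 148035000)])) (.mul (.g 9) (.pp [(1, 3000)]))) (.add (.mul (.g 10) (.pp [(1, 3000)])) (.mul (.g 11) (.pp [(1, 64203000)])))))) (.add (.mul (.g 4) (.add (.add (.mul (.g 2) (.pp [(1, 547435500)])) (.add (.mul (.g 6) (.pp [(1, 1500)])) (.mul (.g 7) (.pp [(1, 600)])))) (.add (.mul (.g 8) (.pp [(1, 250450500)])) (.add (.mul (.g 10) (.pp [(1, 3000)])) (.mul (.g 12) (.pp [(1, 15000)])))))) (.mul (.g 7) (.add (.add (.pp [(1, 1200)]) (.mul (.g 1) (.pp [(1, 600)]))) (.add (.mul (.g 2) (.pp [(1, 600)])) (.mul (.g 5) (.pp [(1, 600)]))))))) (.add (.mul (.g 8) (.add (.add (.pp [(1, 38038500)]) (.mul (.g 0) (.pp [(1, 15000)]))) (.add (.mul (.g 5) (.pp [(1, 15000)])) (.mul (.g 8) (.pp [(1, 350740500)])))))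 (.add (.mul (.g 6) (.add (.mul (.g 0) (.pp [(1, 20317425)])) (.add (.mul (.g 1) (.pp [(1, 750)])) (.mul (.g 5) (.pp [(1, 6013050)]))))) (.mul (.g 11) (.mul (.g 11) (.pp [(1, 35446500)]))))))) (.mul (.g 4) (.add (.add (.mul (.g 4) (.add (.add (.mul (.g 0) (.pp [(1, 307437000)])) (.add (.mul (.g 2) (.pp [(1, 207426000)])) (.mul (.g 4) (.pp [(1, 21199500)])))) (.add (.mul (.g 7) (.pp [(1, 600)])) (.add (.mul (.g 8) (.pp [(1, 207441000)])) (.mul (.g 12) (.pp [(1, 321015000)])))))) (.mul (.g 8) (.add (.add (.pp [(1, 293856000)]) (.mul (.g 1) (.pp [(1, 15000)]))) (.add (.mul (.g 5) (.pp [(1, 30000)])) (.add (.mul (.g 8) (.pp [(1, 117829500)])) (.mul (.g 12) (.pp [(1, 15000)]))))))) (.add (.mul (.g 6) (.add (.mul (.g 0) (.pp [(1, 750)])) (.add (.mul (.g 1) (.pp [(1, 750)])) (.mul (.g 5) (.pp [(1, 40950750)]))))) (.add (.mul (.g 7) (.add (.pp [(1, 1800)]) (.add (.mul (.g 1) (.pp [(1, 600)])) (.mul (.g 5) (.pp [(1, 600)]))))) (.mul (.g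 11) (.mul (.g 11) (.pp [(1, 35446500)])))))))) (.add (.mul (.g 6) (.add (.add (.mul (.g 1) (.add (.add (.pp [(1, 1500)]) (.mul (.g 0) (.pp [(1, 750)]))) (.add (.mul (.g 2) (.pp [(1, 750)])) (.mul (.g 5) (.pp [(1, 750)]))))) (.add (.mul (.g 2) (.add (.mul (.g 0) (.pp [(1, 750)])) (.add (.mul (.g 2) (.pp [(1, 1350)])) (.mul (.g 5) (.pp [(1, 750)]))))) (.mul (.g 9) (.add (.mul (.g 9) (.pp [(1, 322515)])) (.add (.mul (.g 11) (.pp [(1, 584841)])) (.mul (.g 12) (.pp [(1, 4063335)]))))))) (.add (.add (.mul (.g 5) (.add (.pp [(1, 23007975)]) (.mul (.g 11) (.pp [(1, 7393620)])))) (.mul (.g 0) (.mul (.g 0) (.pp [(1, 900)])))) (.add (.mul (.g 10) (.mul (.g 10) (.pp [(1, 614934)]))) (.mul (.g 12) (.mul (.g 12) (.pp [(1, 18749625)]))))))) (.add (.mul (.g 5) (.add (.add (.mul (.g 5) (.add (.add (.mul (.g 0) (.pp [(1, 277615500)])) (.add (.mul (.g 7) (.pp [(1, 600)])) (.mul (.g 8) (.pp [(1, 15000)])))) (.add (.mul (.g 9) (.pp [(1, 13435500)]))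 (.add (.mul (.g 10) (.pp [(1, 13435500)])) (.mul (.g 11) (.pp [(1, 155072400)])))))) (.mul (.g 1) (.add (.mul (.g 7) (.pp [(1, 600)])) (.mul (.g 8) (.pp [(1, 15000)]))))) (.add (.mul (.g 7) (.pp [(1, 1800)])) (.mul (.g 8) (.mul (.g 8) (.pp [(1, 25500)])))))) (.mul (.g 2) (.add (.mul (.g 2) (.add (.add (.mul (.g 7) (.pp [(1, 1200)])) (.mul (.g 9) (.pp [(1, 70151100)]))) (.add (.mul (.g 10) (.pp [(1, 173568900)])) (.mul (.g 11) (.pp [(1, 5400)]))))) (.add (.mul (.g 1) (.mul (.g 7) (.pp [(1, 600)]))) (.mul (.g 8) (.mul (.g 8) (.pp [(1, 18735000)]))))))))) (.add (.add (.mul (.g 1) (.add (.mul (.g 7) (.add (.pp [(1, 840)]) (.add (.mul (.g 0) (.pp [(1, 600)])) (.mul (.g 1) (.pp [(1, 600)]))))) (.mul (.g 8) (.mul (.g 8) (.pp [(1, 15000)]))))) (.mul (.g 8) (.mul (.g 8) (.add (.mul (.g 8) (.pp [(1, 18750000)])) (.mul (.g 12) (.pp [(1, 12000)])))))) (.add (.mul (.g 10) (.mul (.g 10) (.mul (.g 10) (.pp [(1, 169716)])))) (.add (.mul (.g 11)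 (.mul (.g 11) (.mul (.g 11) (.pp [(1, 933216)])))) (.mul (.g 13) (.pp [(1, 125004750)])))))) (.pp [(1, 272862906), (2, 15885), (3, 14940), (4, 14775), (5, 15000), (6, 14850), (7, 16545), (8, 15250), (9, 15600), (10, 14250), (11, 15720), (12, 15000), (13, 13665), (14, 13950), (15, 14850), (18, 15000), (20, 15000), (21, 14850), (22, 14850), (25, 15450), (26, 14550), (27, 15000), (28, 15000), (30, 15000), (33, 14850), (35, 14100), (39, 14850), (42, 15000), (44, 15000), (45, 15000), (49, 15225), (50, 15000), (52, 15000), (55, 15000), (63, 15000), (65, 17250), (66, 15000), (70, 15000), (75, 15000), (77, 15600), (78, 15000), (91, 14850), (98, 15000), (99, 15000), (105, 15000), (110, 15000), (117, 15000), (121, 13950), (125, 15000), (130, 15000), (143, 14850), (147, 15000), (154, 15000), (165, 15000), (169, 15975), (175, 15000), (182, 15000), (195, 15000), (231, 15000), (242, 15000), (245, 15000), (273, 15000), (275, 15000), (286, 15000),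 (325, 13500), (338, 15000), (343, 15000), (363, 15000), (385, 15000), (429, 15000), (455, 15000), (507, 15000), (539, 15000), (605, 15000), (637, 15000), (715, 15000), (845, 15000), (847, 15000), (1001, 15000), (1183, 15000), (1331, 15000), (1573, 15000), (1859, 15000), (2197, 14000)])))
    (by decide +kernel) (yv_nonneg h1 h2 h3 h4 h5 h6 (le_refl 0) (le_refl 0) (le_refl 0))
    (by
      simp only [List.forall_mem_cons, exadd, exsub, exmul, exc, exv2, exv3, exv5, exv7, exv11, exv13]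
      push_cast
      refine ⟨?_, ?_, ?_, ?_, ?_, ?_, ?_, ?_, ?_, ?_, ?_, ?_, ?_, ?_, fun _ hh => absurd hh List.not_mem_nil⟩
      · linarith [h1]
      · linarith [h2]
      · linarith [h3]
      · linarith [h4]
      · linarith [h5]
      · linarith [h6]
      · linarith [kw]
      · linarith [kf]
      · linarith [kub]
      · linarith [kda]
      · linarith [kdb]
      · linarith [kde]
      · linarith [s1]
      · linarith [s2]
    )
  simp only [exadd, exsub, exmul, exc, exv2, exv3, exv5, exv7, exv11, exv13] at h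
  push_cast at h
  linarith [h]

theorem colA0p {w al f ua ub da db de : ℝ} (h1 : 0 ≤ w) (h2 : 0 ≤ al) (h3 : 0 ≤ f) (h4 : 0 ≤ ua) (h5 : 0 ≤ ub) (h6 : 0 ≤ da) (h7 : 0 ≤ db) (h8 : 0 ≤ de) (kw : 0 ≤ 13 / 20 - w) (kal : 0 ≤ 1 - al) (kf : 0 ≤ 9 / 25 - f) (kua : 0 ≤ 1 - ua) (kub : 0 ≤ 1 - ub) (kda : 0 ≤ 3 / 5 - da) (kdb : 0 ≤ 3 / 5 - db) (kde : 0 ≤ 3 / 5 - de) (s1 : 0 ≤ -w + de) (s3 : 0 ≤ 1 - w - al) (s2 : 0 ≤ -f + w ^ 2 + w * al - 1 / 3 * w ^ 3 - w ^ 2 * al - w * al ^ 2) (s4 : 0 ≤ al - ua + da) :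
    0 ≤ 333 / 1000 + 173 / 1000 * w - f - 153 / 200 * ua - 1 / 40 * ub + 39 / 125 * da + 39 / 125 * db + 63 / 500 * de + 1 / 2 * w ^ 2 + 123 / 500 * w * da + 123 / 500 * w * db - 81 / 125 * w * de + 1 / 2 * ua ^ 2 + 7 / 50 * ua * da + 1 / 2 * ub ^ 2 - 493 / 1000 * ub * da - 353 / 1000 * ub * db + 297 / 1000 * da ^ 2 + 167 / 1000 * da * db - 177 / 500 * da * de + 297 / 1000 * db ^ 2 - 177 / 500 * db * de + 173 / 500 * de ^ 2 - 1 / 2 * w ^ 2 * de + 107 / 500 * w * da ^ 2 - 273 / 500 * w * da * de + 107 / 500 * w * db ^ 2 - 273 / 500 * w * db * de + 357 / 250 * w * de ^ 2 - 1 / 2 * ua ^ 2 * da - 1 / 2 * ub ^ 2 * db + 99 / 500 * ub * da * db - 107 / 500 * da ^ 2 * de + 273 / 500 * da * de ^ 2 - 107 / 500 * db ^ 2 * de + 273 / 500 * db * de ^ 2 - 116 / 125 * de ^ 3 := by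
  have h := cert (y := yv w al f ua ub da db de 0)
    (gs := [(.v 2),
      (.v 3),
      (.v 5),
      (.v 7),
      (.v 11),
      (.v 13),
      (.v 17),
      (.v 19),
      (.add (.c (13)) (.mul (.c (-20)) (.v 2))),
      (.add (.c (1)) (.mul (.c (-1)) (.v 3))),
      (.add (.c (9)) (.mul (.c (-25)) (.v 5))),
      (.add (.c (1)) (.mul (.c (-1)) (.v 7))),
      (.add (.c (1)) (.mul (.c (-1)) (.v 11))),
      (.add (.c (3)) (.mul (.c (-5)) (.v 13))),
      (.add (.c (3)) (.mul (.c (-5)) (.v 17))),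
      (.add (.c (3)) (.mul (.c (-5)) (.v 19))),
      (.add (.mul (.c (-1)) (.v 2)) (.v 19)),
      (.add (.c (1)) (.add (.mul (.c (-1)) (.v 2)) (.mul (.c (-1)) (.v 3)))),
      (.add (.add (.mul (.c (3)) (.mul (.v 2) (.v 2))) (.add (.mul (.c (-3)) (.v 5)) (.mul (.c (3)) (.mul (.v 2) (.v 3))))) (.add (.mul (.c (-1)) (.mul (.mul (.v 2) (.v 2)) (.v 2))) (.add (.mul (.c (-3)) (.mul (.mul (.v 2) (.v 2)) (.v 3))) (.mul (.c (-3)) (.mul (.mul (.v 2) (.v 3)) (.v 3)))))),
      (.add (.v 3) (.add (.mul (.c (-1)) (.v 7)) (.v 13)))])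
    (p := .mul (.c 50000000) (.add (.add (.add (.add (.add (.c (333)) (.mul (.c (173)) (.v 2))) (.add (.mul (.c (500)) (.mul (.v 2) (.v 2))) (.mul (.c (-1000)) (.v 5)))) (.add (.add (.mul (.c (-765)) (.v 7)) (.mul (.c (-25)) (.v 11))) (.add (.mul (.c (312)) (.v 13)) (.add (.mul (.c (312)) (.v 17)) (.mul (.c (126)) (.v 19)))))) (.add (.add (.add (.mul (.c (246)) (.mul (.v 2) (.v 13))) (.mul (.c (246)) (.mul (.v 2) (.v 17)))) (.add (.mul (.c (-648)) (.mul (.v 2) (.v 19))) (.mul (.c (500)) (.mul (.v 7) (.v 7))))) (.add (.add (.mul (.c (-500)) (.mul (.mul (.v 2) (.v 2)) (.v 19))) (.mul (.c (140)) (.mul (.v 7) (.v 13)))) (.add (.mul (.c (500)) (.mul (.v 11) (.v 11))) (.add (.mul (.c (-493)) (.mul (.v 11) (.v 13))) (.mul (.c (297)) (.mul (.v 13) (.v 13)))))))) (.add (.add (.add (.add (.mul (.c (-353)) (.mul (.v 11) (.v 17))) (.mul (.c (167)) (.mul (.v 13) (.v 17)))) (.add (.mul (.c (-354)) (.mul (.v 13) (.v 19))) (.mul (.c (297)) (.mul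 (.v 17) (.v 17))))) (.add (.add (.mul (.c (-354)) (.mul (.v 17) (.v 19))) (.mul (.c (214)) (.mul (.mul (.v 2) (.v 13)) (.v 13)))) (.add (.mul (.c (346)) (.mul (.v 19) (.v 19))) (.add (.mul (.c (-546)) (.mul (.mul (.v 2) (.v 13)) (.v 19))) (.mul (.c (214)) (.mul (.mul (.v 2) (.v 17)) (.v 17))))))) (.add (.add (.add (.mul (.c (-500)) (.mul (.mul (.v 7) (.v 7)) (.v 13))) (.mul (.c (-546)) (.mul (.mul (.v 2) (.v 17)) (.v 19)))) (.add (.mul (.c (1428)) (.mul (.mul (.v 2) (.v 19)) (.v 19))) (.add (.mul (.c (-500)) (.mul (.mul (.v 11) (.v 11)) (.v 17))) (.mul (.c (198)) (.mul (.mul (.v 11) (.v 13)) (.v 17)))))) (.add (.add (.mul (.c (-214)) (.mul (.mul (.v 13) (.v 13)) (.v 19))) (.mul (.c (546)) (.mul (.mul (.v 13) (.v 19)) (.v 19)))) (.add (.mul (.c (-214)) (.mul (.mul (.v 17) (.v 17)) (.v 19))) (.add (.mul (.c (546)) (.mul (.mul (.v 17) (.v 19)) (.v 19))) (.mul (.c (-928)) (.mul (.mul (.v 19) (.v 19)) (.v 19))))))))))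
    (e := (.add (.add (.add (.add (.add (.mul (.pp [(1, 173530)]) (.sq [(1, -45), (2, 13), (3, -12), (5, -33), (7, 100), (11, -64), (13, -29), (17, 57), (19, -3)])) (.mul (.pp [(1, 149550)]) (.sq [(1, -34), (2, -18), (3, 9), (5, -14), (7, 35), (11, 100), (13, -25), (17, -38), (19, -30)]))) (.add (.mul (.pp [(1, 18600)]) (.sq [(1, 65), (2, -100), (3, -53), (5, -53), (7, -66), (11, 35), (13, 1), (17, -45), (19, 89)])) (.add (.mul (.pp [(1, 759665)]) (.sq [(1, -48), (2, 45), (3, 23), (5, -22), (7, 37), (11, 100), (13, -79), (17, -48), (19, 7)])) (.mul (.g 6) (.add (.add (.add (.mul (.pp [(1, 56070)]) (.sq [(1, 8), (2, 27), (3, -47), (5, 14), (7, 1), (11, 100), (13, -77), (17, -31), (19, -97)])) (.add (.mul (.pp [(1, 202355)]) (.sq [(2, -100), (11, 56), (13, 56), (17, -100), (19, 87)])) (.mul (.pp [(1, 38290)]) (.sq [(1, 21), (2, 39), (3, -14), (5, 7), (7, 47), (11, -82), (13, 100), (17, 27), (19, -40)])))) (.add (.add (.mul (.pp [(1,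 10870500)]) (.sq [(2, -1), (11, 6), (13, 6), (17, -1), (19, -10)])) (.mul (.pp [(1, 102565)]) (.sq [(1, 18), (2, 100), (3, -1), (5, -4), (7, 69), (11, -21), (13, -88), (17, -50), (19, 66)]))) (.add (.mul (.g 12) (.add (.add (.mul (.g 3) (.pp [(1, 3975400000)])) (.add (.mul (.g 4) (.pp [(1, 10489950000)])) (.mul (.g 6) (.pp [(1, 8420350000)])))) (.add (.mul (.g 7) (.pp [(1, 3806450000)])) (.add (.mul (.g 9) (.pp [(1, 769450000)])) (.mul (.g 10) (.pp [(1, 99450000)])))))) (.mul (.g 14) (.add (.add (.mul (.g 2) (.pp [(1, 991020000)])) (.add (.mul (.g 4) (.pp [(1, 59740000)])) (.mul (.g 11) (.pp [(1, 673390000)])))) (.add (.mul (.g 13) (.pp [(1, 246296000)])) (.add (.mul (.g 14) (.pp [(1, 50416000)])) (.mul (.g 16) (.pp [(1, 659250000)]))))))))) (.add (.add (.add (.mul (.g 0) (.add (.add (.mul (.g 3) (.pp [(1, 366650000)])) (.mul (.g 6) (.pp [(1, 6613650000)]))) (.add (.mul (.g 15) (.pp [(1, 3326920000)])) (.add (.mul (.g 17) (.pp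 [(1, 2364950000)])) (.mul (.g 19) (.pp [(1, 5958150000)])))))) (.mul (.g 11) (.add (.mul (.g 1) (.pp [(1, 984650000)])) (.add (.mul (.g 5) (.pp [(1, 698200000)])) (.mul (.g 8) (.pp [(1, 76177500)])))))) (.add (.mul (.g 16) (.add (.mul (.g 7) (.pp [(1, 265050000)])) (.add (.mul (.g 10) (.pp [(1, 4792000)])) (.mul (.g 16) (.pp [(1, 2520400000)]))))) (.mul (.g 17) (.add (.mul (.g 1) (.pp [(1, 1589150000)])) (.add (.mul (.g 4) (.pp [(1, 1692350000)])) (.mul (.g 7) (.pp [(1, 819800000)]))))))) (.add (.add (.mul (.g 2) (.add (.mul (.g 4) (.pp [(1, 3714050000)])) (.mul (.g 13) (.pp [(1, 86300000)])))) (.mul (.g 19) (.add (.mul (.g 6) (.pp [(1, 1136550000)])) (.mul (.g 19) (.pp [(1, 1130550000)]))))) (.add (.mul (.g 9) (.mul (.g 10) (.pp [(1, 32312000)]))) (.mul (.g 15) (.mul (.g 15) (.pp [(1, 724550000)]))))))))))) (.add (.add (.mul (.g 17) (.add (.add (.add (.mul (.pp [(1, 149500)]) (.sq [(1, 5), (2, 100), (3, -8), (5, -37), (7, -27),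 (11, -76), (13, 47), (17, 15), (19, -11)])) (.mul (.pp [(1, 234780)]) (.sq [(2, -33), (3, 50), (5, -5), (7, -5), (11, -5), (13, -2), (17, -2), (19, -2)]))) (.add (.mul (.g 11) (.add (.add (.mul (.g 0) (.pp [(1, 4114100000)])) (.add (.mul (.g 4) (.pp [(1, 3267550000)])) (.mul (.g 10) (.pp [(1, 5898000)])))) (.add (.add (.mul (.g 11) (.pp [(1, 376950000)])) (.mul (.g 13) (.pp [(1, 1274750000)]))) (.add (.mul (.g 14) (.pp [(1, 272020000)])) (.mul (.g 15) (.pp [(1, 25900000)])))))) (.add (.mul (.g 17) (.add (.add (.mul (.g 0) (.pp [(1, 22383800000)])) (.mul (.g 1) (.pp [(1, 1347750000)]))) (.add (.mul (.g 10) (.pp [(1, 25062000)])) (.add (.mul (.g 12) (.pp [(1, 57350000)])) (.mul (.g 13) (.pp [(1, 584740000)])))))) (.mul (.g 4) (.add (.add (.mul (.g 0) (.pp [(1, 1998850000)])) (.mul (.g 2) (.pp [(1, 1362500000)]))) (.add (.mul (.g 7) (.pp [(1, 137800000)])) (.mul (.g 13) (.pp [(1, 180090000)])))))))) (.add (.add (.mul (.g 10) (.add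 (.mul (.g 0) (.pp [(1, 28148000)])) (.add (.mul (.g 2) (.pp [(1, 19162000)])) (.mul (.g 3) (.pp [(1, 36712000)]))))) (.mul (.g 19) (.add (.pp [(1, 3570400000)]) (.add (.mul (.g 12) (.pp [(1, 796700000)])) (.mul (.g 15) (.pp [(1, 592300000)])))))) (.add (.mul (.g 13) (.add (.mul (.g 5) (.pp [(1, 382660000)])) (.mul (.g 16) (.pp [(1, 208910000)])))) (.add (.mul (.g 0) (.mul (.g 9) (.pp [(1, 2508250000)]))) (.mul (.g 15) (.mul (.g 16) (.pp [(1, 141040000)])))))))) (.add (.mul (.g 15) (.add (.add (.add (.mul (.pp [(1, 23482)]) (.sq [(1, 100), (2, 52), (3, -59), (5, -20), (7, -35), (11, -34), (13, 64), (17, 71), (19, -67)])) (.mul (.pp [(1, 27575)]) (.sq [(1, -4), (2, 34), (3, 13), (5, 33), (7, -29), (11, 28), (13, 60), (17, 75), (19, -100)]))) (.add (.mul (.pp [(1, 5395)]) (.sq [(5, -100), (7, 14), (11, 13), (13, -15), (17, -100), (19, -1)])) (.add (.mul (.pp [(1, 1499)]) (.sq [(2, -59), (3, -3), (5, -16), (7, -14), (11, 100), (13,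 7), (17, 12), (19, -41)])) (.mul (.g 5) (.add (.add (.mul (.g 0) (.pp [(1, 511350000)])) (.mul (.g 10) (.pp [(1, 21352400)]))) (.add (.mul (.g 11) (.pp [(1, 1170480000)])) (.add (.mul (.g 12) (.pp [(1, 640870000)])) (.mul (.g 15) (.pp [(1, 143018000)]))))))))) (.add (.add (.mul (.g 7) (.add (.add (.mul (.g 2) (.pp [(1, 76070000)])) (.mul (.g 4) (.pp [(1, 80450000)]))) (.add (.mul (.g 7) (.pp [(1, 1041710000)])) (.mul (.g 16) (.pp [(1, 2399680000)]))))) (.mul (.g 0) (.add (.mul (.g 1) (.pp [(1, 1966130000)])) (.add (.mul (.g 4) (.pp [(1, 282420000)])) (.mul (.g 19) (.pp [(1, 110730000)])))))) (.add (.mul (.g 16) (.add (.mul (.g 11) (.pp [(1, 89630000)])) (.add (.mul (.g 13) (.pp [(1, 790550000)])) (.mul (.g 16) (.pp [(1, 5458420000)]))))) (.add (.mul (.g 4) (.mul (.g 13) (.pp [(1, 3918000)]))) (.mul (.g 19) (.mul (.g 19) (.pp [(1, 566640000)])))))))) (.mul (.g 11) (.add (.add (.add (.mul (.pp [(1, 299190)]) (.sq [(2, 1), (3, -75),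 (5, -42), (7, 100), (11, 11), (13, 99), (17, -9), (19, 1)])) (.mul (.pp [(1, 94235)]) (.sq [(1, -28), (2, -34), (3, -27), (5, -37), (7, 67), (11, 32), (13, 96), (17, -100), (19, 8)]))) (.add (.mul (.pp [(1, 63225)]) (.sq [(2, -24), (3, -72), (5, 52), (7, 100), (11, -20), (13, 74), (17, -3), (19, -15)])) (.mul (.pp [(1, 138555)]) (.sq [(1, -55), (2, -16), (3, 7), (5, -7), (7, 100), (11, -90), (13, 50), (17, -14), (19, -31)])))) (.add (.add (.mul (.g 19) (.add (.add (.pp [(1, 171500000)]) (.add (.mul (.g 3) (.pp [(1, 7031950000)])) (.mul (.g 4) (.pp [(1, 2154700000)])))) (.add (.mul (.g 10) (.pp [(1, 59980000)])) (.add (.mul (.g 14) (.pp [(1, 610990000)])) (.mul (.g 16) (.pp [(1, 2173550000)])))))) (.mul (.g 16) (.add (.mul (.g 0) (.pp [(1, 1113850000)])) (.add (.mul (.g 2) (.pp [(1, 482000000)])) (.mul (.g 5) (.pp [(1, 11283800000)])))))) (.add (.mul (.g 10) (.add (.mul (.g 2) (.pp [(1, 3926000)])) (.mul (.g 11) (.pp [(1, 124904000)]))))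 (.mul (.g 11) (.mul (.g 11) (.pp [(1, 3179200000)]))))))))) (.add (.mul (.g 0) (.add (.add (.mul (.pp [(1, 92050)]) (.sq [(2, -59), (3, 100), (5, 6), (7, -2), (11, 4), (13, 8), (17, 7), (19, 9)])) (.add (.mul (.pp [(1, 352700)]) (.sq [(1, -45), (2, -50), (3, 78), (5, -27), (7, 79), (11, -23), (13, -100), (17, 16), (19, 77)])) (.mul (.pp [(1, 327655)]) (.sq [(1, -39), (2, 25), (3, 100), (5, 36), (7, -10), (11, 43), (13, -57), (17, -14), (19, 39)])))) (.add (.mul (.g 19) (.add (.add (.pp [(1, 5109000000)]) (.mul (.g 0) (.pp [(1, 5089900000)]))) (.add (.mul (.g 1) (.pp [(1, 16268200000)])) (.add (.mul (.g 3) (.pp [(1, 1610050000)])) (.mul (.g 12) (.pp [(1, 2930200000)])))))) (.add (.mul (.g 2) (.add (.mul (.g 8) (.pp [(1, 102495000)])) (.mul (.g 10) (.pp [(1, 13400000)])))) (.mul (.g 16) (.add (.mul (.g 0) (.pp [(1, 5033550000)])) (.mul (.g 4) (.pp [(1, 1625300000)])))))))) (.add (.mul (.g 2) (.add (.add (.mul (.pp [(1, 410)]) (.sq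 [(1, -23), (2, 15), (3, 9), (5, 91), (7, 12), (11, 15), (13, 35), (17, -100), (19, -55)])) (.mul (.pp [(1, 20710)]) (.sq [(1, 5), (2, -70), (3, 94), (5, 44), (7, 91), (11, -100), (13, -80), (17, -89), (19, -17)]))) (.add (.mul (.pp [(1, 136360)]) (.sq [(1, -9), (2, -15), (3, 12), (5, -17), (7, 38), (11, -34), (13, -7), (17, 100), (19, -7)])) (.add (.mul (.g 10) (.add (.add (.pp [(1, 85092000)]) (.mul (.g 2) (.pp [(1, 3336000)]))) (.add (.mul (.g 12) (.pp [(1, 4700000)])) (.add (.mul (.g 13) (.pp [(1, 5242400)])) (.mul (.g 14) (.pp [(1, 14250800)])))))) (.mul (.g 4) (.add (.mul (.g 13) (.pp [(1, 118530000)])) (.mul (.g 19) (.pp [(1, 345500000)])))))))) (.mul (.g 5) (.add (.add (.mul (.pp [(1, 176880)]) (.sq [(1, -13), (2, 29), (3, -3), (5, 45), (7, -37), (11, 54), (13, 100), (17, -32), (19, -69)])) (.add (.mul (.pp [(1, 102675)]) (.sq [(1, 4), (2, -5), (3, 93), (5, -12), (7, 5), (11, -100), (13, -37), (17, 24), (19, 44)])) (.mul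 (.pp [(1, 104745)]) (.sq [(2, 29), (3, 100), (5, -43), (7, -48), (11, 3), (13, -64), (17, 36), (19, 50)])))) (.add (.mul (.pp [(1, 99315)]) (.sq [(1, -15), (2, -36), (3, -26), (5, -26), (7, 12), (11, 100), (13, -3), (17, -68), (19, -6)])) (.add (.mul (.pp [(1, 164780)]) (.sq [(1, -10), (2, 17), (3, 100), (5, 1), (7, -15), (11, 74), (13, -47), (17, -98), (19, -24)])) (.mul (.g 13) (.add (.mul (.g 10) (.pp [(1, 3451600)])) (.add (.mul (.g 13) (.pp [(1, 77224000)])) (.mul (.g 16) (.pp [(1, 478020000)]))))))))))))) (.add (.add (.add (.mul (.g 3) (.add (.add (.mul (.pp [(1, 61995)]) (.sq [(1, 3), (2, -3), (3, -91), (5, 93), (7, 100), (11, -59), (13, -40), (17, -47), (19, -22)])) (.mul (.pp [(1, 127280)]) (.sq [(1, -100), (2, 75), (3, 81), (5, 41), (7, 77), (11, -12), (13, -83), (17, -12), (19, 52)]))) (.add (.mul (.pp [(1, 142415)]) (.sq [(1, 8), (2, -96), (3, -41), (5, 9), (7, -23), (11, 99), (13, 4), (17, -100), (19, 54)])) (.add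 (.mul (.pp [(1, 39920)]) (.sq [(1, -52), (2, 37), (3, 46), (5, -15), (7, 69), (11, 100), (13, -51), (17, -21), (19, -78)])) (.mul (.g 4) (.mul (.g 16) (.pp [(1, 333350000)]))))))) (.add (.mul (.g 12) (.add (.add (.mul (.pp [(1, 224065)]) (.sq [(1, -29), (2, 8), (3, -29), (5, -15), (7, 88), (11, -25), (13, -72), (17, -100), (19, 11)])) (.mul (.pp [(1, 180780)]) (.sq [(1, -33), (2, -20), (3, -23), (5, -24), (7, 100), (11, -5), (13, -45), (17, 41), (19, -6)]))) (.add (.mul (.g 4) (.mul (.g 16) (.pp [(1, 54200000)]))) (.mul (.g 10) (.mul (.g 19) (.pp [(1, 30360000)])))))) (.mul (.g 13) (.add (.add (.mul (.pp [(1, 40076)]) (.sq [(1, -59), (2, 50), (3, -39), (5, 74), (7, 100), (11, 26), (13, 84), (17, 8), (19, 9)])) (.mul (.pp [(1, 42365)]) (.sq [(2, 41), (11, 100), (13, -41), (17, -100)]))) (.add (.mul (.pp [(1, 37150)]) (.sq [(1, 17), (2, -100), (3, -31), (5, -18), (7, 9), (11, 81), (13, 28), (17, -85), (19, 33)])) (.mul (.pp [(1,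 375176)]) (.sq [(1, -14), (2, 14), (3, -8), (5, -5), (7, 46), (11, 21), (13, -50), (17, 6), (19, -4)]))))))) (.add (.mul (.g 14) (.add (.add (.mul (.pp [(1, 57344)]) (.sq [(1, -15), (2, -43), (3, -3), (5, -10), (7, 2), (11, 100), (13, 10), (17, -14), (19, -6)])) (.mul (.pp [(1, 81015)]) (.sq [(2, 41), (11, 100), (13, -100), (17, -41)]))) (.add (.mul (.pp [(1, 1062)]) (.sq [(1, -33), (2, 60), (3, -43), (5, 8), (7, 100), (11, -62), (13, -22), (17, 49), (19, -65)])) (.mul (.pp [(1, 165679)]) (.sq [(1, 27), (2, -26), (3, -9), (5, 37), (7, -21), (11, 100), (13, -21), (17, -59), (19, -21)]))))) (.add (.mul (.g 9) (.add (.mul (.pp [(1, 4635)]) (.sq [(1, 8), (2, 14), (3, -100), (5, -46), (7, -17), (11, -95), (13, 56), (17, 32), (19, 67)])) (.add (.mul (.pp [(1, 145425)]) (.sq [(2, -17), (3, 18), (5, -64), (7, 18), (11, 100), (13, -32), (17, -67), (19, -5)])) (.mul (.g 1) (.mul (.g 19) (.pp [(1, 672350000)])))))) (.mul (.g 4) (.add (.mul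 (.pp [(1, 23085)]) (.sq [(1, -96), (2, 30), (3, 100), (5, 51), (7, 49), (11, 79), (13, -95), (17, -36), (19, 71)])) (.mul (.g 4) (.mul (.g 10) (.pp [(1, 10766000)])))))))) (.add (.add (.mul (.g 1) (.mul (.pp [(1, 100590)]) (.sq [(1, -42), (2, 9), (3, -11), (5, -44), (7, 100), (11, -52), (13, -20), (17, 40), (19, -10)]))) (.add (.mul (.g 8) (.mul (.pp [(1, 6262)]) (.sq [(1, -12), (2, -1), (3, -38), (5, -27), (7, 100), (11, 33), (13, -94), (17, -79), (19, -19)]))) (.mul (.g 10) (.mul (.pp [(1, 465)]) (.sq [(2, 28), (3, -28), (7, 7), (11, -78), (13, -56), (17, 100), (19, 55)]))))) (.add (.mul (.g 16) (.mul (.pp [(1, 47090)]) (.sq [(1, -9), (2, 69), (3, 62), (5, 100), (7, -23), (11, -11), (13, -74), (17, 24), (19, -19)]))) (.add (.mul (.g 18) (.pp [(1, 16782700000)])) (.mul (.g 19) (.mul (.pp [(1, 209470)]) (.sq [(1, 19), (2, -9), (3, -3), (5, -11), (7, -17), (11, 100), (13, -97), (17, -25), (19, 7)])))))))) (.pp [(1, 132662453), (2,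 489835), (3, 597824), (4, 537245), (5, 491010), (6, 482592), (7, 451312), (8, 485725), (9, 424663), (10, 451508), (11, 506603), (12, 518125), (13, 498231), (14, 545832), (15, 491602), (17, 456281), (18, 505060), (19, 502712), (20, 496510), (21, 480888), (22, 493358), (25, 477219), (26, 458084), (27, 529080), (28, 483965), (30, 557920), (33, 533156), (34, 516012), (35, 564362), (38, 492524), (39, 434950), (42, 473530), (44, 483950), (45, 502050), (49, 504120), (50, 522680), (51, 472230), (52, 501025), (55, 585120), (57, 532514), (63, 509340), (65, 480186), (66, 476900), (68, 505515), (70, 514810), (75, 515530), (76, 504695), (77, 525244), (78, 586230), (85, 453118), (91, 553888), (95, 519862), (98, 503210), (99, 475325), (102, 549730), (105, 439440), (110, 503040), (114, 439940), (117, 497145), (119, 622012), (121, 488095), (125, 502190), (130, 475830), (133, 430742), (143, 536254), (147, 497525), (153, 466230), (154, 449370), (165,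 466790), (169, 467401), (170, 498240), (171, 497020), (175, 490290), (182, 470710), (187, 529424), (190, 516160), (195, 507420), (209, 584888), (221, 451652), (231, 439390), (238, 435430), (242, 487655), (245, 540175), (247, 602252), (255, 543270), (266, 532760), (273, 459970), (275, 496360), (285, 516050), (286, 569560), (289, 489885), (323, 501560), (325, 505605), (338, 483625), (343, 517970), (357, 565930), (361, 494138), (363, 497665), (374, 512580), (385, 470090), (399, 515450), (418, 447590), (425, 514345), (429, 587340), (442, 554640), (455, 446740), (475, 511175), (494, 485020), (507, 548860), (539, 458305), (561, 508470), (578, 520100), (595, 502980), (605, 469110), (627, 449940), (637, 523445), (646, 514060), (663, 488910), (665, 481570), (715, 499400), (722, 530055), (741, 504270), (833, 433530), (845, 481590), (847, 451730), (867, 489325), (931, 541195), (935, 523560), (969, 500810), (1001, 546790), (1045, 503860),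 (1083, 504000), (1105, 548190), (1183, 488590), (1235, 522540), (1309, 491640), (1331, 486640), (1445, 447300), (1463, 528210), (1547, 530270), (1573, 506495), (1615, 468320), (1729, 401600), (1805, 462785), (1859, 438935), (2023, 538260), (2057, 457915), (2197, 493425), (2261, 498090), (2299, 474365), (2431, 548100), (2527, 515320), (2717, 515120), (2873, 460665), (3179, 535080), (3211, 488750), (3553, 584060), (3757, 439550), (3971, 474450), (4199, 493410), (4693, 488860), (4913, 490820), (5491, 470615), (6137, 406360), (6859, 480070)])))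
    (by decide +kernel) (yv_nonneg h1 h2 h3 h4 h5 h6 h7 h8 (le_refl 0))
    (by
      simp only [List.forall_mem_cons, exadd, exsub, exmul, exc, exv2, exv3, exv5, exv7, exv11, exv13, exv17, exv19]
      push_cast
      refine ⟨?_, ?_, ?_, ?_, ?_, ?_, ?_, ?_, ?_, ?_, ?_, ?_, ?_, ?_, ?_, ?_, ?_, ?_, ?_, ?_, fun _ hh => absurd hh List.not_mem_nil⟩
      · linarith [h1]
      · linarith [h2]
      · linarith [h3]
      · linarith [h4]
      · linarith [h5]
      · linarith [h6]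
      · linarith [h7]
      · linarith [h8]
      · linarith [kw]
      · linarith [kal]
      · linarith [kf]
      · linarith [kua]
      · linarith [kub]
      · linarith [kda]
      · linarith [kdb]
      · linarith [kde]
      · linarith [s1]
      · linarith [s3]
      · linarith [s2]
      · linarith [s4]
    )
  simp only [exadd, exsub, exmul, exc, exv2, exv3, exv5, exv7, exv11, exv13, exv17, exv19] at h
  push_cast at h
  linarith [h]

theorem colA0m {w al f ua ub da db de : ℝ} (h1 : 0 ≤ w) (h2 : 0 ≤ al) (h3 : 0 ≤ f) (h4 : 0 ≤ ua) (h5 : 0 ≤ ub) (h6 : 0 ≤ da) (h7 : 0 ≤ db) (h8 : 0 ≤ de) (kw : 0 ≤ 13 / 20 - w) (kal : 0 ≤ 1 - al) (kf : 0 ≤ 9 / 25 - f) (kua : 0 ≤ 1 - ua) (kub : 0 ≤ 1 - ub) (kda : 0 ≤ 3 / 5 - da) (kdb : 0 ≤ 3 / 5 - db) (kde : 0 ≤ 3 / 5 - de) (s1 : 0 ≤ w - de) (s3 : 0 ≤ 1 - w - al) (s2 : 0 ≤ -f + w ^ 2 + w * al - 1 / 3 * w ^ 3 - w ^ 2 * al - w * al ^ 2) (s4 : 0 ≤ al - ua + da) :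
    0 ≤ 333 / 1000 + 173 / 1000 * w - f - 153 / 200 * ua - 1 / 40 * ub + 39 / 125 * da + 39 / 125 * db + 63 / 500 * de + 1 / 2 * w ^ 2 + 123 / 500 * w * da + 123 / 500 * w * db - 81 / 125 * w * de + 1 / 2 * ua ^ 2 + 7 / 50 * ua * da + 1 / 2 * ub ^ 2 - 493 / 1000 * ub * da - 353 / 1000 * ub * db + 297 / 1000 * da ^ 2 + 167 / 1000 * da * db - 177 / 500 * da * de + 297 / 1000 * db ^ 2 - 177 / 500 * db * de + 173 / 500 * de ^ 2 - 1 / 3 * w ^ 3 + 1 / 2 * w ^ 2 * de + 107 / 500 * w * da ^ 2 - 273 / 500 * w * da * de + 107 / 500 * w * db ^ 2 - 273 / 500 * w * db * de + 107 / 250 * w * de ^ 2 - 1 / 2 * ua ^ 2 * da - 1 / 2 * ub ^ 2 * db + 99 / 500 * ub * da * db - 107 / 500 * da ^ 2 * de + 273 / 500 * da * de ^ 2 - 107 / 500 * db ^ 2 * de + 273 / 500 * db * de ^ 2 - 223 / 375 * de ^ 3 := by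
  have h := cert (y := yv w al f ua ub da db de 0)
    (gs := [(.v 2),
      (.v 3),
      (.v 5),
      (.v 7),
      (.v 11),
      (.v 13),
      (.v 17),
      (.v 19),
      (.add (.c (13)) (.mul (.c (-20)) (.v 2))),
      (.add (.c (1)) (.mul (.c (-1)) (.v 3))),
      (.add (.c (9)) (.mul (.c (-25)) (.v 5))),
      (.add (.c (1)) (.mul (.c (-1)) (.v 7))),
      (.add (.c (1)) (.mul (.c (-1)) (.v 11))),
      (.add (.c (3)) (.mul (.c (-5)) (.v 13))),
      (.add (.c (3)) (.mul (.c (-5)) (.v 17))),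
      (.add (.c (3)) (.mul (.c (-5)) (.v 19))),
      (.add (.v 2) (.mul (.c (-1)) (.v 19))),
      (.add (.c (1)) (.add (.mul (.c (-1)) (.v 2)) (.mul (.c (-1)) (.v 3)))),
      (.add (.add (.mul (.c (3)) (.mul (.v 2) (.v 2))) (.add (.mul (.c (-3)) (.v 5)) (.mul (.c (3)) (.mul (.v 2) (.v 3))))) (.add (.mul (.c (-1)) (.mul (.mul (.v 2) (.v 2)) (.v 2))) (.add (.mul (.c (-3)) (.mul (.mul (.v 2) (.v 2)) (.v 3))) (.mul (.c (-3)) (.mul (.mul (.v 2) (.v 3)) (.v 3)))))),
      (.add (.v 3) (.add (.mul (.c (-1)) (.v 7)) (.v 13)))])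
    (p := .mul (.c 1000000000) (.add (.add (.add (.add (.add (.c (999)) (.mul (.c (519)) (.v 2))) (.add (.mul (.c (1500)) (.mul (.v 2) (.v 2))) (.mul (.c (-3000)) (.v 5)))) (.add (.add (.mul (.c (-2295)) (.v 7)) (.mul (.c (-1000)) (.mul (.mul (.v 2) (.v 2)) (.v 2)))) (.add (.mul (.c (-75)) (.v 11)) (.add (.mul (.c (936)) (.v 13)) (.mul (.c (936)) (.v 17)))))) (.add (.add (.add (.mul (.c (378)) (.v 19)) (.mul (.c (738)) (.mul (.v 2) (.v 13)))) (.add (.mul (.c (738)) (.mul (.v 2) (.v 17))) (.add (.mul (.c (-1944)) (.mul (.v 2) (.v 19))) (.mul (.c (1500)) (.mul (.v 7) (.v 7)))))) (.add (.add (.mul (.c (1500)) (.mul (.mul (.v 2) (.v 2)) (.v 19))) (.mul (.c (420)) (.mul (.v 7) (.v 13)))) (.add (.mul (.c (1500)) (.mul (.v 11) (.v 11))) (.add (.mul (.c (-1479)) (.mul (.v 11) (.v 13))) (.mul (.c (891)) (.mul (.v 13) (.v 13)))))))) (.add (.add (.add (.add (.mul (.c (-1059)) (.mul (.v 11) (.v 17))) (.mul (.c (501)) (.mul (.v 13) (.v 17))))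 (.add (.mul (.c (-1062)) (.mul (.v 13) (.v 19))) (.mul (.c (891)) (.mul (.v 17) (.v 17))))) (.add (.add (.mul (.c (-1062)) (.mul (.v 17) (.v 19))) (.mul (.c (642)) (.mul (.mul (.v 2) (.v 13)) (.v 13)))) (.add (.mul (.c (1038)) (.mul (.v 19) (.v 19))) (.add (.mul (.c (-1638)) (.mul (.mul (.v 2) (.v 13)) (.v 19))) (.mul (.c (642)) (.mul (.mul (.v 2) (.v 17)) (.v 17))))))) (.add (.add (.add (.mul (.c (-1500)) (.mul (.mul (.v 7) (.v 7)) (.v 13))) (.mul (.c (-1638)) (.mul (.mul (.v 2) (.v 17)) (.v 19)))) (.add (.mul (.c (1284)) (.mul (.mul (.v 2) (.v 19)) (.v 19))) (.add (.mul (.c (-1500)) (.mul (.mul (.v 11) (.v 11)) (.v 17))) (.mul (.c (594)) (.mul (.mul (.v 11) (.v 13)) (.v 17)))))) (.add (.add (.mul (.c (-642)) (.mul (.mul (.v 13) (.v 13)) (.v 19))) (.mul (.c (1638)) (.mul (.mul (.v 13) (.v 19)) (.v 19)))) (.add (.mul (.c (-642)) (.mul (.mul (.v 17) (.v 17)) (.v 19))) (.add (.mul (.c (1638)) (.mul (.mul (.v 17) (.v 19)) (.v 19)))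 (.mul (.c (-1784)) (.mul (.mul (.v 19) (.v 19)) (.v 19))))))))))
    (e := (.add (.add (.add (.add (.add (.mul (.pp [(1, 12582900)]) (.sq [(1, -92), (2, 83), (3, 45), (5, -13), (7, 100), (11, 16), (13, -24), (17, 6), (19, -83)])) (.mul (.pp [(1, 15737700)]) (.sq [(1, -73), (2, 24), (3, 33), (5, 30), (7, 61), (11, 100), (13, -82), (17, -38), (19, 2)]))) (.add (.mul (.g 6) (.add (.add (.add (.mul (.pp [(1, 246000)]) (.sq [(1, -15), (2, -7), (3, -27), (5, 27), (7, -15), (11, -68), (13, 64), (17, 57), (19, 100)])) (.add (.mul (.pp [(1, 12045600)]) (.sq [(2, -64), (3, 66), (7, 100), (11, -34), (13, 13), (17, -13), (19, 32)])) (.mul (.pp [(1, 3208800)]) (.sq [(1, -39), (2, -40), (3, -14), (5, 13), (7, 100), (11, -10), (13, 2), (17, -19), (19, 57)])))) (.add (.add (.mul (.pp [(1, 1274700)]) (.sq [(2, -77), (3, 100), (5, 100), (7, 100), (11, -77), (13, -77), (17, -77), (19, -77)])) (.mul (.pp [(1, 20728500)]) (.sq [(1, 9), (2, 1), (3,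 17), (5, 7), (7, 21), (11, -81), (13, 15), (17, 100), (19, -10)]))) (.add (.mul (.g 12) (.add (.add (.add (.pp [(1, 170088000000)]) (.mul (.g 3) (.pp [(1, 44472000000)]))) (.add (.mul (.g 4) (.pp [(1, 560178000000)])) (.mul (.g 6) (.pp [(1, 175749000000)])))) (.add (.add (.mul (.g 8) (.pp [(1, 16189200000)])) (.mul (.g 9) (.pp [(1, 295674000000)]))) (.add (.mul (.g 10) (.pp [(1, 1225560000)])) (.add (.mul (.g 16) (.pp [(1, 1246080000000)])) (.mul (.g 19) (.pp [(1, 222363000000)]))))))) (.mul (.g 14) (.add (.add (.mul (.g 6) (.pp [(1, 15022800000)])) (.mul (.g 8) (.pp [(1, 492150000)]))) (.add (.mul (.g 13) (.pp [(1, 10598280000)])) (.add (.mul (.g 17) (.pp [(1, 8196600000)])) (.mul (.g 19) (.pp [(1, 28625400000)]))))))))) (.add (.add (.mul (.g 0) (.add (.add (.mul (.g 1) (.pp [(1, 77241000000)])) (.mul (.g 3) (.pp [(1, 22173000000)]))) (.add (.mul (.g 17) (.pp [(1, 3567000000)])) (.mul (.g 19) (.pp [(1, 497055000000)]))))) (.add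 (.mul (.g 2) (.add (.add (.mul (.g 3) (.pp [(1, 30264000000)])) (.mul (.g 5) (.pp [(1, 48036000000)]))) (.add (.mul (.g 6) (.pp [(1, 80271000000)])) (.mul (.g 16) (.pp [(1, 136482000000)]))))) (.mul (.g 7) (.add (.add (.mul (.g 3) (.pp [(1, 155454000000)])) (.mul (.g 7) (.pp [(1, 3093000000)]))) (.add (.mul (.g 10) (.pp [(1, 12293160000)])) (.mul (.g 17) (.pp [(1, 682566000000)]))))))) (.add (.add (.mul (.g 5) (.add (.mul (.g 6) (.pp [(1, 30834000000)])) (.add (.mul (.g 11) (.pp [(1, 83418000000)])) (.mul (.g 17) (.pp [(1, 459819000000)]))))) (.mul (.g 16) (.add (.mul (.g 6) (.pp [(1, 107313000000)])) (.mul (.g 15) (.pp [(1, 55272000000)]))))) (.add (.mul (.g 10) (.mul (.g 13) (.pp [(1, 1753704000)]))) (.mul (.g 19) (.mul (.g 19) (.pp [(1, 139365000000)])))))))) (.add (.mul (.g 19) (.add (.add (.add (.mul (.pp [(1, 4461300)]) (.sq [(2, 11), (3, -16), (5, -42), (7, 29), (11, -97), (13, -4), (17, 100), (19, 77)])) (.add (.mul (.pp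 [(1, 2348700)]) (.sq [(1, -1), (2, 12), (3, -24), (5, 100), (7, 18), (11, 33), (13, -21)])) (.mul (.pp [(1, 1925100)]) (.sq [(1, -28), (2, -100), (3, -7), (5, -62), (7, 55), (11, 51), (13, 42), (17, 25), (19, -55)])))) (.add (.add (.mul (.pp [(1, 1950000)]) (.sq [(2, 36), (3, -41), (5, 77), (7, 85), (11, -43), (13, 4), (17, 100), (19, -32)])) (.mul (.pp [(1, 11719800)]) (.sq [(1, -11), (3, -24), (5, -11), (7, 86), (11, -59), (13, 100), (17, -1), (19, 2)]))) (.add (.mul (.g 16) (.add (.add (.pp [(1, 226413000000)]) (.add (.mul (.g 0) (.pp [(1, 188412000000)])) (.mul (.g 1) (.pp [(1, 41538000000)])))) (.add (.mul (.g 13) (.pp [(1, 63572400000)])) (.add (.mul (.g 14) (.pp [(1, 106699800000)])) (.mul (.g 19) (.pp [(1, 332241000000)])))))) (.mul (.g 7) (.add (.add (.mul (.g 2) (.pp [(1, 50097000000)])) (.mul (.g 3) (.pp [(1, 479637000000)]))) (.add (.mul (.g 11) (.pp [(1, 461727000000)])) (.add (.mul (.g 13) (.pp [(1, 9197400000)]))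 (.mul (.g 19) (.pp [(1, 290658000000)]))))))))) (.add (.add (.add (.mul (.g 9) (.add (.add (.pp [(1, 89028000000)]) (.mul (.g 1) (.pp [(1, 445380000000)]))) (.add (.mul (.g 2) (.pp [(1, 51921000000)])) (.add (.mul (.g 12) (.pp [(1, 69834000000)])) (.mul (.g 13) (.pp [(1, 25969800000)])))))) (.mul (.g 19) (.add (.add (.mul (.g 3) (.pp [(1, 10710000000)])) (.mul (.g 10) (.pp [(1, 73200000)]))) (.add (.mul (.g 13) (.pp [(1, 13628400000)])) (.mul (.g 19) (.pp [(1, 193281000000)])))))) (.add (.mul (.g 11) (.add (.pp [(1, 73185000000)]) (.add (.mul (.g 3) (.pp [(1, 423318000000)])) (.mul (.g 14) (.pp [(1, 52068000000)]))))) (.mul (.g 4) (.add (.mul (.g 5) (.pp [(1, 330144000000)])) (.mul (.g 17) (.pp [(1, 115725000000)])))))) (.add (.add (.mul (.g 0) (.mul (.g 15) (.pp [(1, 66013800000)]))) (.mul (.g 5) (.mul (.g 13) (.pp [(1, 18802800000)])))) (.add (.mul (.g 10) (.mul (.g 10) (.pp [(1, 67392000)]))) (.mul (.g 14) (.mul (.g 17) (.pp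 [(1, 24831000000)])))))))) (.mul (.g 17) (.add (.add (.add (.mul (.pp [(1, 3615600)]) (.sq [(1, 32), (2, 100), (3, -79), (5, 100), (7, -33), (11, -4), (13, 50), (17, -15), (19, -45)])) (.mul (.pp [(1, 4469400)]) (.sq [(1, 1), (2, 9), (3, 100), (5, -28), (7, -66), (11, 27), (13, 12), (17, 93), (19, -16)]))) (.add (.mul (.pp [(1, 645600)]) (.sq [(1, 55), (2, 74), (3, 14), (7, -100), (11, -53), (13, 31), (17, -37), (19, 100)])) (.add (.mul (.pp [(1, 5541300)]) (.sq [(2, -84), (3, 100), (5, -17), (7, -17), (11, -17), (13, -8), (17, -8), (19, 38)])) (.mul (.pp [(1, 1935600)]) (.sq [(1, 1), (2, -54), (3, -46), (5, 40), (7, 29), (11, -65), (13, 59), (17, 100), (19, 6)]))))) (.add (.add (.mul (.pp [(1, 13200)]) (.sq [(2, 1), (3, 100), (5, 67), (7, -62), (11, 9), (13, -49), (17, -36), (19, -38)])) (.add (.mul (.g 4) (.add (.add (.mul (.g 1) (.pp [(1, 1236000000)])) (.add (.mul (.g 2) (.pp [(1, 16290000000)])) (.mul (.g 3) (.pp [(1, 69792000000)]))))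 (.add (.add (.mul (.g 4) (.pp [(1, 73719000000)])) (.mul (.g 8) (.pp [(1, 7064400000)]))) (.add (.mul (.g 12) (.pp [(1, 44853000000)])) (.mul (.g 16) (.pp [(1, 126435000000)])))))) (.mul (.g 17) (.add (.add (.mul (.g 0) (.pp [(1, 1639053000000)])) (.add (.mul (.g 1) (.pp [(1, 360303000000)])) (.mul (.g 3) (.pp [(1, 147435000000)])))) (.add (.mul (.g 7) (.pp [(1, 61173000000)])) (.add (.mul (.g 10) (.pp [(1, 1239000000)])) (.mul (.g 14) (.pp [(1, 32292600000)])))))))) (.add (.mul (.g 16) (.add (.mul (.g 0) (.pp [(1, 624315000000)])) (.add (.mul (.g 7) (.pp [(1, 61314000000)])) (.mul (.g 11) (.pp [(1, 119712000000)]))))) (.add (.mul (.g 2) (.add (.mul (.g 3) (.pp [(1, 34332000000)])) (.mul (.g 7) (.pp [(1, 46695000000)])))) (.mul (.g 11) (.mul (.g 11) (.pp [(1, 405042000000)]))))))))))) (.add (.add (.mul (.g 10) (.add (.add (.mul (.pp [(1, 14532)]) (.sq [(1, -51), (2, -30), (3, -5), (5, -37), (7, 90), (11, -56), (13, 100), (17, -20),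 (19, -6)])) (.mul (.g 2) (.add (.add (.pp [(1, 3395760000)]) (.add (.mul (.g 1) (.pp [(1, 2300520000)])) (.mul (.g 4) (.pp [(1, 385680000)])))) (.add (.add (.mul (.g 8) (.pp [(1, 217476000)])) (.mul (.g 10) (.pp [(1, 748800)]))) (.add (.mul (.g 11) (.pp [(1, 3982800000)])) (.mul (.g 14) (.pp [(1, 105672000)]))))))) (.add (.mul (.g 4) (.add (.mul (.g 13) (.pp [(1, 888792000)])) (.mul (.g 16) (.pp [(1, 1012920000)])))) (.mul (.g 5) (.add (.mul (.g 13) (.pp [(1, 96408000)])) (.mul (.g 15) (.pp [(1, 814152000)]))))))) (.mul (.g 5) (.add (.add (.mul (.pp [(1, 18533100)]) (.sq [(1, -36), (2, -33), (3, -1), (5, 20), (7, -8), (11, 100), (13, 3), (17, -26), (19, 20)])) (.add (.mul (.pp [(1, 6724800)]) (.sq [(1, -39), (2, 38), (3, 80), (5, 69), (7, 1), (11, 14), (13, -100), (17, 53), (19, 71)])) (.mul (.pp [(1, 7308900)]) (.sq [(1, -68), (2, 36), (3, 18), (5, -9), (7, -2), (11, 100), (13, -16), (17, -66), (19, 46)])))) (.add (.add (.mul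 (.pp [(1, 13092750000)]) (.sq [(2, -1), (13, -1), (19, 2)])) (.mul (.g 8) (.add (.mul (.g 11) (.pp [(1, 21030000000)])) (.mul (.g 16) (.pp [(1, 11566200000)]))))) (.add (.mul (.g 13) (.add (.mul (.g 1) (.pp [(1, 1728000000)])) (.mul (.g 3) (.pp [(1, 47017200000)])))) (.mul (.g 5) (.mul (.g 11) (.pp [(1, 71100000000)])))))))) (.add (.mul (.g 7) (.add (.add (.mul (.pp [(1, 1753200)]) (.sq [(1, -7), (2, -84), (3, 100), (5, 60), (7, 74), (11, 17), (13, -8), (17, -89), (19, -91)])) (.add (.mul (.pp [(1, 10179000)]) (.sq [(1, -5), (2, 69), (3, -100), (5, 33), (7, -42), (11, -57), (13, 58), (17, 18), (19, 8)])) (.mul (.pp [(1, 4823700)]) (.sq [(1, 4), (2, 100), (3, -5), (5, -21), (7, -50), (11, 5), (13, 27), (17, -7), (19, -59)])))) (.add (.mul (.pp [(1, 17784600)]) (.sq [(1, 18), (2, 8), (3, -32), (5, -42), (7, -26), (11, 100), (13, -35), (17, -80), (19, 8)])) (.add (.mul (.g 13) (.add (.mul (.g 4) (.pp [(1, 112777800000)])) (.mul (.g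 8) (.pp [(1, 6408180000)])))) (.mul (.g 7) (.mul (.g 15) (.pp [(1, 77614800000)]))))))) (.add (.mul (.g 16) (.add (.add (.mul (.pp [(1, 1744800)]) (.sq [(1, 7), (2, -7), (3, -29), (5, -49), (7, -19), (11, 7), (13, 10), (17, -2), (19, 100)])) (.mul (.pp [(1, 23244600)]) (.sq [(1, -23), (2, 9), (3, 27), (5, -13), (7, 13), (11, 100), (13, -59), (17, 86), (19, 29)]))) (.add (.mul (.pp [(1, 126852300)]) (.sq [(13, -71), (17, -71), (19, 100)])) (.add (.mul (.pp [(1, 8118900)]) (.sq [(1, -26), (2, 44), (3, -4), (5, 20), (7, 88), (11, 70), (13, -10), (17, -75), (19, -100)])) (.mul (.g 8) (.add (.mul (.g 0) (.pp [(1, 25655100000)])) (.mul (.g 16) (.pp [(1, 15091800000)])))))))) (.mul (.g 13) (.add (.add (.mul (.pp [(1, 15892320)]) (.sq [(1, -24), (2, 15), (3, -43), (5, -13), (7, 100), (11, -50), (13, -38), (17, -3), (19, -5)])) (.mul (.pp [(1, 6491700)]) (.sq [(1, 15), (2, 25), (3, -24), (5, -4), (7, -3), (11, 58), (13, 8), (17, -10), (19,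 -100)]))) (.add (.mul (.pp [(1, 1735200)]) (.sq [(1, -58), (2, -10), (3, -3), (5, 47), (7, 100), (11, 38), (13, 20), (17, -3), (19, 9)])) (.add (.mul (.pp [(1, 2292480)]) (.sq [(2, -21), (3, -74), (5, 95), (7, 71), (11, 33), (13, -100), (17, 92), (19, 40)])) (.mul (.pp [(1, 132420)]) (.sq [(1, -32), (2, 12), (3, 25), (5, -7), (7, 42), (11, 100), (13, -23), (17, 22), (19, -9)])))))))))) (.add (.add (.add (.mul (.g 0) (.add (.add (.mul (.pp [(1, 37563000)]) (.sq [(1, -15), (2, -24), (3, 50), (5, 12), (7, 12), (11, -45), (13, -48), (17, 100), (19, 52)])) (.mul (.pp [(1, 12571800)]) (.sq [(1, -25), (2, -26), (3, 100), (5, -28), (7, 39), (11, 73), (13, -59), (17, -43), (19, -27)]))) (.add (.mul (.pp [(1, 2100900)]) (.sq [(1, -16), (2, -42), (3, 87), (5, 17), (7, 7), (11, 82), (13, -100), (17, -17), (19, 87)])) (.mul (.pp [(1, 2470800)]) (.sq [(2, -48), (3, 61), (5, -42), (7, 74), (11, -75), (13, -42), (17, 100), (19, -13)]))))) (.mul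 (.g 4) (.add (.add (.mul (.pp [(1, 5768700)]) (.sq [(1, -3), (2, -61), (3, -22), (5, 8), (7, 15), (11, 100), (13, -19), (17, -90), (19, 9)])) (.mul (.pp [(1, 44029200)]) (.sq [(2, 13), (3, 13), (5, 13), (7, 13), (11, 13), (13, -50), (17, -50), (19, 13)]))) (.add (.mul (.pp [(1, 2424000)]) (.sq [(1, -3), (2, -4), (3, 65), (5, -71), (7, 46), (11, -95), (13, 14), (17, 100), (19, -74)])) (.mul (.g 4) (.mul (.g 11) (.pp [(1, 35322000000)]))))))) (.add (.mul (.g 14) (.add (.add (.mul (.pp [(1, 8318160)]) (.sq [(1, 45), (2, -51), (3, -29), (5, -22), (7, -38), (11, 100), (13, -50), (17, -27), (19, 67)])) (.mul (.pp [(1, 4060860)]) (.sq [(1, -51), (2, 20), (3, 39), (5, 1), (7, 24), (11, 100), (13, -52), (17, -40), (19, 17)]))) (.add (.mul (.pp [(1, 2547180)]) (.sq [(2, 41), (11, 100), (13, -100), (17, -41)])) (.mul (.pp [(1, 2907060)]) (.sq [(1, -19), (2, 16), (3, -34), (5, 22), (7, 37), (11, 100), (13, -25), (17, 64), (19, -75)]))))) (.add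 (.mul (.g 8) (.add (.mul (.pp [(1, 1983195)]) (.sq [(1, 5), (2, -4), (3, 12), (5, -29), (7, -18), (11, -40), (13, 18), (17, 100), (19, 17)])) (.add (.mul (.pp [(1, 1710195)]) (.sq [(1, 39), (2, -45), (3, -16), (5, 42), (7, -45), (11, -77), (13, 48), (17, 100), (19, -17)])) (.mul (.pp [(1, 597315)]) (.sq [(1, -28), (2, 95), (3, 37), (5, 11), (7, -27), (11, -48), (13, 100), (17, -33), (19, 50)]))))) (.mul (.g 11) (.add (.mul (.pp [(1, 13620300)]) (.sq [(1, -13), (2, 9), (3, -31), (5, 18), (7, 48), (11, 45), (13, 100), (17, -51), (19, -87)])) (.add (.mul (.pp [(1, 12493500)]) (.sq [(1, -33), (2, -27), (3, -33), (5, -22), (7, 100), (11, 52), (13, 84), (17, -3), (19, -15)])) (.mul (.pp [(1, 7368600)]) (.sq [(1, 39), (2, 14), (3, -2), (5, -10), (7, -74), (11, 100), (13, -69), (17, -10), (19, -68)])))))))) (.add (.add (.mul (.g 1) (.add (.mul (.pp [(1, 3280200)]) (.sq [(1, -13), (2, -1), (3, -16), (5, 3), (7, 15), (11, 100), (13, -27),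 (17, -36), (19, -17)])) (.mul (.pp [(1, 1763400)]) (.sq [(1, -74), (2, 100), (3, 55), (5, -68), (7, 82), (11, 74), (13, -51), (17, -3), (19, -73)])))) (.mul (.g 3) (.add (.mul (.pp [(1, 28426200)]) (.sq [(1, -12), (2, 12), (3, 13), (5, 5), (7, -15), (11, 100), (13, -21), (17, -42), (19, -26)])) (.mul (.pp [(1, 7159500)]) (.sq [(1, -29), (2, 19), (5, -18), (7, 92), (11, 7), (13, -100), (17, 1), (19, -6)]))))) (.add (.mul (.g 15) (.add (.mul (.pp [(1, 846840)]) (.sq [(1, 9), (2, -47), (3, -5), (5, 63), (7, -38), (11, 2), (13, 9), (17, -25), (19, 100)])) (.mul (.pp [(1, 3129180)]) (.sq [(1, -68), (2, 69), (3, 40), (5, 38), (7, 23), (11, -55), (13, 100), (17, -73)])))) (.add (.mul (.g 12) (.mul (.pp [(1, 8703300)]) (.sq [(1, -47), (2, 30), (3, 30), (5, 32), (7, 18), (11, 100), (13, -41), (19, -28)]))) (.mul (.g 18) (.pp [(1, 994542000000)]))))))) (.pp [(1, 23926806282), (2, 29050170), (3, 29294580), (4, 27837090), (5, 28984758), (6,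 24346590), (7, 27635550), (8, 31806200), (9, 31514325), (10, 31671390), (11, 29029674), (12, 32337300), (13, 30872340), (14, 31951560), (15, 30827790), (17, 31451700), (18, 35966400), (19, 27990564), (20, 28978200), (21, 29545050), (22, 30500370), (25, 34422018), (26, 32610480), (27, 30381900), (28, 29612400), (30, 26497200), (33, 31234080), (34, 26261010), (35, 29499750), (38, 32941110), (39, 32555640), (42, 33622200), (44, 25800300), (45, 29577300), (49, 30251490), (50, 28531200), (51, 27759030), (52, 33444900), (55, 30497988), (57, 32352900), (63, 26655300), (65, 31780860), (66, 29524200), (68, 33059700), (70, 33342600), (75, 25134300), (76, 29469900), (77, 29530050), (78, 30088200), (85, 29932530), (91, 23965560), (95, 31315878), (98, 29136000), (99, 28938600), (102, 28005000), (105, 32553000), (110, 31343400), (114, 27750000), (117, 35895900), (119, 33241950), (121, 30806997), (125, 29357700), (130, 28861200), (133, 32506050),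 (143, 23415000), (147, 32900100), (153, 32937600), (154, 30735600), (165, 31051800), (169, 33283200), (170, 27697800), (171, 27779700), (175, 33243600), (182, 26343600), (187, 29561040), (190, 29955600), (195, 30168600), (209, 33595434), (221, 31162440), (231, 30694200), (238, 31354800), (242, 32212200), (245, 28980000), (247, 30375300), (255, 29607600), (266, 25755600), (273, 19481400), (275, 30178800), (285, 28813800), (286, 31600800), (289, 33732105), (323, 27673980), (325, 27316200), (338, 31061100), (343, 30472200), (357, 28747800), (361, 31026102), (363, 30714600), (374, 34149600), (385, 29060400), (399, 27594600), (418, 31585800), (425, 29703000), (429, 34689600), (442, 25882200), (455, 27754800), (475, 28949700), (494, 24415800), (507, 26489700), (539, 29535300), (561, 28104000), (578, 30075000), (595, 32056200), (605, 28879200), (627, 30414600), (637, 38200500), (646, 28732200), (663, 29692800), (665, 28234800), (715,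 31599600), (722, 30354900), (741, 28499400), (833, 32437800), (845, 28321800), (847, 31851300), (867, 27997500), (931, 29837700), (935, 31239000), (969, 32446200), (1001, 28822800), (1045, 28540200), (1083, 31341000), (1105, 25480200), (1183, 30791100), (1235, 31272000), (1309, 28226400), (1331, 28465200), (1445, 29690400), (1463, 28565400), (1547, 24941400), (1573, 34365900), (1615, 30914400), (1729, 27997200), (1805, 31485000), (1859, 29931600), (2023, 28219200), (2057, 31077600), (2197, 28685100), (2261, 30063000), (2299, 29601600), (2431, 25035000), (2527, 34373400), (2717, 28983600), (2873, 33119700), (3179, 27915000), (3211, 27633000), (3553, 26311800), (3757, 31524900), (3971, 30115500), (4199, 37350600), (4693, 32214300), (4913, 30176400), (5491, 29944200), (6137, 32485500), (6859, 25489300)])))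
    (by decide +kernel) (yv_nonneg h1 h2 h3 h4 h5 h6 h7 h8 (le_refl 0))
    (by
      simp only [List.forall_mem_cons, exadd, exsub, exmul, exc, exv2, exv3, exv5, exv7, exv11, exv13, exv17, exv19]
      push_cast
      refine ⟨?_, ?_, ?_, ?_, ?_, ?_, ?_, ?_, ?_, ?_, ?_, ?_, ?_, ?_, ?_, ?_, ?_, ?_, ?_, ?_, fun _ hh => absurd hh List.not_mem_nil⟩
      · linarith [h1]
      · linarith [h2]
      · linarith [h3]
      · linarith [h4]
      · linarith [h5]
      · linarith [h6]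
      · linarith [h7]
      · linarith [h8]
      · linarith [kw]
      · linarith [kal]
      · linarith [kf]
      · linarith [kua]
      · linarith [kub]
      · linarith [kda]
      · linarith [kdb]
      · linarith [kde]
      · linarith [s1]
      · linarith [s3]
      · linarith [s2]
      · linarith [s4]
    )
  simp only [exadd, exsub, exmul, exc, exv2, exv3, exv5, exv7, exv11, exv13, exv17, exv19] at h
  push_cast at h
  linarith [h]

theorem colA1p {w al f ua ub da db de : ℝ} (h1 : 0 ≤ w) (h2 : 0 ≤ al) (h3 : 0 ≤ f) (h4 : 0 ≤ ua) (h5 : 0 ≤ ub) (h6 : 0 ≤ da) (h7 : 0 ≤ db) (h8 : 0 ≤ de) (kw : 0 ≤ 13 / 20 - w) (kal : 0 ≤ 1 - al) (kf : 0 ≤ 9 / 25 - f) (kua : 0 ≤ 1 - ua) (kub : 0 ≤ 1 - ub) (kda : 0 ≤ 3 / 5 - da) (kdb : 0 ≤ 3 / 5 - db) (kde : 0 ≤ 3 / 5 - de) (s1 : 0 ≤ -w + de) (s3 : 0 ≤ -1 + w + al) (s2 : 0 ≤ -1 / 3 + w + al - f - w * al - al ^ 2 + 1 / 3 * al ^ 3) (s4 : 0 ≤ al - ua + da) :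
    0 ≤ 333 / 1000 + 173 / 1000 * w - f - 153 / 200 * ua - 1 / 40 * ub + 39 / 125 * da + 39 / 125 * db + 63 / 500 * de + 1 / 2 * w ^ 2 + 123 / 500 * w * da + 123 / 500 * w * db - 81 / 125 * w * de + 1 / 2 * ua ^ 2 + 7 / 50 * ua * da + 1 / 2 * ub ^ 2 - 493 / 1000 * ub * da - 353 / 1000 * ub * db + 297 / 1000 * da ^ 2 + 167 / 1000 * da * db - 177 / 500 * da * de + 297 / 1000 * db ^ 2 - 177 / 500 * db * de + 173 / 500 * de ^ 2 - 1 / 2 * w ^ 2 * de + 107 / 500 * w * da ^ 2 - 273 / 500 * w * da * de + 107 / 500 * w * db ^ 2 - 273 / 500 * w * db * de + 357 / 250 * w * de ^ 2 - 1 / 2 * ua ^ 2 * da - 1 / 2 * ub ^ 2 * db + 99 / 500 * ub * da * db - 107 / 500 * da ^ 2 * de + 273 / 500 * da * de ^ 2 - 107 / 500 * db ^ 2 * de + 273 / 500 * db * de ^ 2 - 116 / 125 * de ^ 3 := by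
  have h := cert (y := yv w al f ua ub da db de 0)
    (gs := [(.v 2),
      (.v 3),
      (.v 5),
      (.v 7),
      (.v 11),
      (.v 13),
      (.v 17),
      (.v 19),
      (.add (.c (13)) (.mul (.c (-20)) (.v 2))),
      (.add (.c (1)) (.mul (.c (-1)) (.v 3))),
      (.add (.c (9)) (.mul (.c (-25)) (.v 5))),
      (.add (.c (1)) (.mul (.c (-1)) (.v 7))),
      (.add (.c (1)) (.mul (.c (-1)) (.v 11))),
      (.add (.c (3)) (.mul (.c (-5)) (.v 13))),
      (.add (.c (3)) (.mul (.c (-5)) (.v 17))),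
      (.add (.c (3)) (.mul (.c (-5)) (.v 19))),
      (.add (.mul (.c (-1)) (.v 2)) (.v 19)),
      (.add (.c (-1)) (.add (.v 2) (.v 3))),
      (.add (.add (.c (-1)) (.add (.mul (.c (3)) (.v 2)) (.mul (.c (3)) (.v 3)))) (.add (.add (.mul (.c (-3)) (.v 5)) (.mul (.c (-3)) (.mul (.v 2) (.v 3)))) (.add (.mul (.c (-3)) (.mul (.v 3) (.v 3))) (.mul (.mul (.v 3) (.v 3)) (.v 3))))),
      (.add (.v 3) (.add (.mul (.c (-1)) (.v 7)) (.v 13)))])
    (p := .mul (.c 600000000) (.add (.add (.add (.add (.add (.c (333)) (.mul (.c (173)) (.v 2))) (.add (.mul (.c (500)) (.mul (.v 2) (.v 2))) (.mul (.c (-1000)) (.v 5)))) (.add (.add (.mul (.c (-765)) (.v 7)) (.mul (.c (-25)) (.v 11))) (.add (.mul (.c (312)) (.v 13)) (.add (.mul (.c (312)) (.v 17)) (.mul (.c (126)) (.v 19)))))) (.add (.add (.add (.mul (.c (246)) (.mul (.v 2) (.v 13))) (.mul (.c (246)) (.mul (.v 2) (.v 17)))) (.add (.mul (.c (-648)) (.mul (.v 2) (.v 19))) (.mul (.c (500)) (.mul (.v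 7) (.v 7))))) (.add (.add (.mul (.c (-500)) (.mul (.mul (.v 2) (.v 2)) (.v 19))) (.mul (.c (140)) (.mul (.v 7) (.v 13)))) (.add (.mul (.c (500)) (.mul (.v 11) (.v 11))) (.add (.mul (.c (-493)) (.mul (.v 11) (.v 13))) (.mul (.c (297)) (.mul (.v 13) (.v 13)))))))) (.add (.add (.add (.add (.mul (.c (-353)) (.mul (.v 11) (.v 17))) (.mul (.c (167)) (.mul (.v 13) (.v 17)))) (.add (.mul (.c (-354)) (.mul (.v 13) (.v 19))) (.mul (.c (297)) (.mul (.v 17) (.v 17))))) (.add (.add (.mul (.c (-354)) (.mul (.v 17) (.v 19))) (.mul (.c (214)) (.mul (.mul (.v 2) (.v 13)) (.v 13)))) (.add (.mul (.c (346)) (.mul (.v 19) (.v 19))) (.add (.mul (.c (-546)) (.mul (.mul (.v 2) (.v 13)) (.v 19))) (.mul (.c (214)) (.mul (.mul (.v 2) (.v 17)) (.v 17))))))) (.add (.add (.add (.mul (.c (-500)) (.mul (.mul (.v 7) (.v 7)) (.v 13))) (.mul (.c (-546)) (.mul (.mul (.v 2) (.v 17)) (.v 19)))) (.add (.mul (.c (1428)) (.mul (.mul (.v 2) (.v 19)) (.v 19))) (.add (.mul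 (.c (-500)) (.mul (.mul (.v 11) (.v 11)) (.v 17))) (.mul (.c (198)) (.mul (.mul (.v 11) (.v 13)) (.v 17)))))) (.add (.add (.mul (.c (-214)) (.mul (.mul (.v 13) (.v 13)) (.v 19))) (.mul (.c (546)) (.mul (.mul (.v 13) (.v 19)) (.v 19)))) (.add (.mul (.c (-214)) (.mul (.mul (.v 17) (.v 17)) (.v 19))) (.add (.mul (.c (546)) (.mul (.mul (.v 17) (.v 19)) (.v 19))) (.mul (.c (-928)) (.mul (.mul (.v 19) (.v 19)) (.v 19))))))))))
    (e := (.add (.add (.add (.add (.add (.mul (.pp [(1, 254700)]) (.sq [(1, -14), (2, -7), (3, 18), (5, -39), (7, 13), (11, 100), (13, -91), (17, -64), (19, 16)])) (.mul (.pp [(1, 1091880)]) (.sq [(1, -18), (2, -28), (3, -61), (5, -2), (7, 43), (11, 100), (13, -89), (17, -62), (19, 76)]))) (.add (.mul (.g 6) (.add (.add (.add (.add (.mul (.pp [(1, 199320)]) (.sq [(2, -77), (3, 100), (5, 100), (7, 100), (11, -77), (13, -77), (17, -77), (19, -77)])) (.mul (.pp [(1, 157320)]) (.sq [(1, 29), (2, -38), (3, 83), (5,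 33), (7, -100), (11, -21), (13, -37), (17, -65), (19, 83)]))) (.add (.mul (.pp [(1, 1963200)]) (.sq [(1, -11), (2, -4), (3, 52), (5, -26), (7, 10), (11, -57), (13, -17), (17, 100), (19, 6)])) (.mul (.pp [(1, 2377860)]) (.sq [(1, -27), (2, -100), (3, 63), (5, -73), (7, -10), (11, -36), (13, 53), (17, -37), (19, 40)])))) (.add (.add (.mul (.pp [(1, 822060)]) (.sq [(1, 8), (2, -52), (3, -35), (5, -100), (7, -70), (11, 45), (13, 29), (17, -56), (19, 40)])) (.mul (.pp [(1, 197220)]) (.sq [(2, 84), (3, -72), (5, 11), (7, 93), (11, -51), (13, 45), (17, -33), (19, 100)]))) (.add (.mul (.pp [(1, 12187680)]) (.sq [(1, -1), (2, 15), (3, -6), (5, 100), (7, -4), (11, -23), (13, 10), (17, 19), (19, -8)])) (.add (.mul (.pp [(1, 301680)]) (.sq [(2, -8), (3, -16), (5, 96), (7, -26), (11, -2), (13, 100), (17, 45), (19, -23)])) (.mul (.g 13) (.add (.add (.mul (.g 11) (.pp [(1, 12398520000)])) (.mul (.g 13) (.pp [(1, 2502936000)]))) (.add (.mul (.g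 14) (.pp [(1, 3093216000)])) (.add (.mul (.g 15) (.pp [(1, 2493408000)])) (.mul (.g 17) (.pp [(1, 5341920000)])))))))))) (.add (.add (.add (.mul (.g 6) (.add (.add (.mul (.g 0) (.pp [(1, 1074000000)])) (.mul (.g 5) (.pp [(1, 18783600000)]))) (.add (.mul (.g 10) (.pp [(1, 2376000000)])) (.mul (.g 12) (.pp [(1, 115297800000)]))))) (.mul (.g 9) (.add (.add (.mul (.g 10) (.pp [(1, 791640000)])) (.mul (.g 11) (.pp [(1, 62109600000)]))) (.add (.mul (.g 12) (.pp [(1, 67102200000)])) (.mul (.g 15) (.pp [(1, 371760000)])))))) (.add (.mul (.g 17) (.add (.mul (.g 1) (.pp [(1, 65010000000)])) (.add (.mul (.g 14) (.pp [(1, 1087200000)])) (.mul (.g 15) (.pp [(1, 26746560000)]))))) (.add (.mul (.g 2) (.add (.mul (.g 10) (.pp [(1, 4487520000)])) (.mul (.g 11) (.pp [(1, 8305800000)])))) (.mul (.g 5) (.add (.mul (.g 12) (.pp [(1, 134164200000)])) (.mul (.g 19) (.pp [(1, 4575600000)]))))))) (.add (.add (.mul (.g 16) (.add (.mul (.g 7) (.pp [(1, 112597200000)]))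 (.mul (.g 14) (.pp [(1, 16268400000)])))) (.mul (.g 0) (.mul (.g 10) (.pp [(1, 4215120000)])))) (.add (.mul (.g 3) (.mul (.g 12) (.pp [(1, 25611600000)]))) (.add (.mul (.g 11) (.pp [(1, 11168400000)])) (.mul (.g 15) (.mul (.g 15) (.pp [(1, 4769616000)]))))))))) (.add (.mul (.g 15) (.add (.add (.add (.mul (.pp [(1, 37884)]) (.sq [(1, -36), (2, -87), (3, -39), (5, -13), (7, 100), (11, 14), (13, -14), (17, 18), (19, -57)])) (.add (.mul (.pp [(1, 774396)]) (.sq [(1, 34), (2, 72), (3, -16), (7, -9), (11, 48), (13, 68), (17, 63), (19, -100)])) (.mul (.pp [(1, 7680)]) (.sq [(2, -31), (3, 65), (5, 4), (7, -100), (11, 8), (13, -65), (17, 5), (19, 65)])))) (.add (.add (.mul (.pp [(1, 22968)]) (.sq [(1, -18), (2, -50), (3, 39), (5, -15), (7, -31), (11, 27), (13, 99), (17, -100), (19, -40)])) (.mul (.pp [(1, 98112)]) (.sq [(2, 32), (3, -56), (5, 74), (7, 22), (11, 100), (13, -7), (17, 78), (19, 45)]))) (.add (.mul (.pp [(1, 974760)]) (.sq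 [(1, 13), (2, -16), (3, -16), (5, -43), (7, 8), (11, -42), (13, 100), (17, 86), (19, -7)])) (.mul (.pp [(1, 71820)]) (.sq [(1, -10), (2, -21), (3, 15), (5, -8), (7, -16), (11, 100), (13, -55), (17, -18), (19, 36)]))))) (.add (.add (.mul (.g 4) (.add (.add (.mul (.g 10) (.pp [(1, 169564800)])) (.mul (.g 12) (.pp [(1, 736320000)]))) (.add (.mul (.g 14) (.pp [(1, 1353792000)])) (.add (.mul (.g 15) (.pp [(1, 94560000)])) (.mul (.g 17) (.pp [(1, 2612520000)])))))) (.add (.mul (.g 5) (.add (.add (.mul (.g 2) (.pp [(1, 9089520000)])) (.mul (.g 3) (.pp [(1, 2917680000)]))) (.add (.mul (.g 11) (.pp [(1, 38603760000)])) (.mul (.g 17) (.pp [(1, 46580640000)]))))) (.mul (.g 16) (.add (.add (.mul (.g 2) (.pp [(1, 1106760000)])) (.mul (.g 7) (.pp [(1, 48959880000)]))) (.add (.mul (.g 13) (.pp [(1, 10835496000)])) (.mul (.g 16) (.pp [(1, 56900040000)]))))))) (.add (.add (.mul (.g 9) (.add (.pp [(1, 22248840000)]) (.add (.mul (.g 7) (.pp [(1,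 2485680000)])) (.mul (.g 19) (.pp [(1, 14316120000)]))))) (.mul (.g 10) (.add (.mul (.g 2) (.pp [(1, 79603200)])) (.add (.mul (.g 7) (.pp [(1, 86174400)])) (.mul (.g 19) (.pp [(1, 4814400)])))))) (.add (.mul (.g 0) (.add (.mul (.g 11) (.pp [(1, 24951600000)])) (.mul (.g 12) (.pp [(1, 2317800000)])))) (.mul (.g 17) (.add (.pp [(1, 32697240000)]) (.mul (.g 11) (.pp [(1, 1700040000)]))))))))) (.mul (.g 19) (.add (.add (.add (.mul (.pp [(1, 1404360)]) (.sq [(1, -69), (2, -58), (3, 89), (5, 34), (7, -22), (11, 99), (13, -38), (17, -100), (19, 1)])) (.mul (.pp [(1, 2448720)]) (.sq [(1, 2), (2, 100), (3, 20), (5, 3), (7, -5), (11, -34), (13, -5), (17, 45), (19, 7)]))) (.add (.mul (.pp [(1, 353520)]) (.sq [(3, 60), (5, 100), (7, -83), (11, -32), (13, 15), (17, 66), (19, 55)])) (.add (.mul (.pp [(1, 1932960)]) (.sq [(1, -31), (2, 61), (3, -32), (5, -9), (7, 35), (11, 100), (13, 7), (17, -45), (19, 31)])) (.mul (.pp [(1, 1917000000)]) (.sq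 [(2, 1), (11, -1), (13, 1), (17, -1)]))))) (.add (.add (.mul (.g 9) (.add (.add (.pp [(1, 91338000000)]) (.mul (.g 1) (.pp [(1, 45526800000)]))) (.add (.mul (.g 4) (.pp [(1, 17520000000)])) (.add (.mul (.g 11) (.pp [(1, 31356600000)])) (.mul (.g 13) (.pp [(1, 14236440000)])))))) (.mul (.g 0) (.add (.add (.mul (.g 2) (.pp [(1, 7944600000)])) (.mul (.g 16) (.pp [(1, 12554400000)]))) (.add (.mul (.g 17) (.pp [(1, 144987600000)])) (.mul (.g 19) (.pp [(1, 42708000000)])))))) (.add (.mul (.g 11) (.add (.add (.mul (.g 3) (.pp [(1, 60983400000)])) (.mul (.g 12) (.pp [(1, 5527800000)]))) (.add (.mul (.g 13) (.pp [(1, 2517480000)])) (.mul (.g 19) (.pp [(1, 41809800000)]))))) (.add (.mul (.g 2) (.add (.mul (.g 4) (.pp [(1, 4082400000)])) (.add (.mul (.g 5) (.pp [(1, 8457000000)])) (.mul (.g 10) (.pp [(1, 835584000)]))))) (.mul (.g 5) (.mul (.g 13) (.pp [(1, 4848600000)]))))))))))) (.add (.add (.mul (.g 17) (.add (.add (.add (.mul (.pp [(1,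 1406220)]) (.sq [(2, 12), (3, 30), (5, 50), (7, 53), (11, -50), (13, -19), (17, -100), (19, -41)])) (.mul (.pp [(1, 926580)]) (.sq [(1, -41), (2, 11), (3, 100), (5, -29), (7, 70), (11, -83), (13, 27), (17, -8), (19, 32)]))) (.add (.mul (.pp [(1, 411960)]) (.sq [(1, 23), (2, 22), (3, -67), (5, 100), (7, -2), (11, -79), (13, 11), (17, 94), (19, -2)])) (.add (.mul (.pp [(1, 1053720)]) (.sq [(1, -22), (2, 100), (3, -45), (5, 88), (7, 4), (11, 29), (13, -4), (17, 40), (19, -24)])) (.mul (.pp [(1, 929460)]) (.sq [(2, -13), (3, -30), (5, 71), (7, 54), (11, 100), (17, 2), (19, 58)]))))) (.add (.add (.mul (.g 17) (.add (.add (.pp [(1, 174408600000)]) (.mul (.g 3) (.pp [(1, 57702000000)]))) (.add (.mul (.g 4) (.pp [(1, 7089600000)])) (.add (.mul (.g 9) (.pp [(1, 138480000000)])) (.mul (.g 10) (.pp [(1, 366744000)])))))) (.mul (.g 4) (.add (.mul (.g 9) (.pp [(1, 28953600000)])) (.add (.mul (.g 13) (.pp [(1, 12274200000)])) (.mul (.g 14) (.pp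 [(1, 13378800000)])))))) (.add (.mul (.g 16) (.add (.pp [(1, 175004400000)]) (.add (.mul (.g 5) (.pp [(1, 117622200000)])) (.mul (.g 14) (.pp [(1, 2972400000)]))))) (.add (.mul (.g 2) (.add (.mul (.g 1) (.pp [(1, 6336600000)])) (.mul (.g 2) (.pp [(1, 3919200000)])))) (.mul (.g 3) (.mul (.g 13) (.pp [(1, 15000120000)])))))))) (.mul (.g 11) (.add (.add (.add (.mul (.pp [(1, 1354680)]) (.sq [(2, -8), (3, 100), (5, -92), (7, -64), (11, -2), (13, -15), (17, 37), (19, -69)])) (.mul (.pp [(1, 308580)]) (.sq [(1, -58), (2, -25), (3, -6), (5, -49), (7, 100), (11, 47), (13, 64), (17, -47), (19, -28)]))) (.add (.mul (.g 5) (.add (.add (.mul (.g 2) (.pp [(1, 14925600000)])) (.mul (.g 3) (.pp [(1, 2805000000)]))) (.add (.mul (.g 4) (.pp [(1, 20584800000)])) (.add (.mul (.g 5) (.pp [(1, 71584800000)])) (.mul (.g 16) (.pp [(1, 200393400000)])))))) (.mul (.g 10) (.add (.pp [(1, 572808000)]) (.add (.mul (.g 7) (.pp [(1, 790464000)])) (.mul (.g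 9) (.pp [(1, 531576000)]))))))) (.add (.add (.mul (.g 8) (.add (.mul (.g 4) (.pp [(1, 209940000)])) (.mul (.g 11) (.pp [(1, 1723740000)])))) (.mul (.g 16) (.add (.mul (.g 0) (.pp [(1, 107821800000)])) (.mul (.g 2) (.pp [(1, 1995600000)]))))) (.add (.mul (.g 9) (.mul (.g 9) (.pp [(1, 25616400000)]))) (.mul (.g 11) (.mul (.g 11) (.pp [(1, 8679600000)])))))))) (.add (.mul (.g 16) (.add (.add (.mul (.pp [(1, 1046520)]) (.sq [(1, -17), (2, 100), (3, 20), (5, 4), (7, -21), (11, 31), (13, 20), (17, -27), (19, 3)])) (.add (.mul (.pp [(1, 254700)]) (.sq [(1, -38), (2, -18), (3, 35), (5, -75), (7, 100), (11, -76), (13, -77), (17, 25), (19, 14)])) (.mul (.pp [(1, 166140)]) (.sq [(1, -18), (2, -56), (3, 17), (5, -42), (7, -89), (11, 100), (13, 25), (17, 18), (19, 29)])))) (.add (.add (.mul (.g 9) (.add (.add (.pp [(1, 9142200000)]) (.mul (.g 1) (.pp [(1, 67669800000)]))) (.add (.mul (.g 4) (.pp [(1, 33350400000)])) (.add (.mul (.g 13) (.pp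 [(1, 16539480000)])) (.mul (.g 14) (.pp [(1, 17520600000)])))))) (.mul (.g 0) (.mul (.g 2) (.pp [(1, 6613200000)])))) (.add (.mul (.g 4) (.mul (.g 4) (.pp [(1, 4450800000)]))) (.mul (.g 5) (.mul (.g 13) (.pp [(1, 13341600000)]))))))) (.add (.mul (.g 2) (.add (.mul (.pp [(1, 1887600)]) (.sq [(1, -3), (2, 15), (3, -27), (5, 100), (7, -11), (11, 64), (13, -32), (17, 32)])) (.mul (.g 10) (.add (.add (.pp [(1, 753744000)]) (.mul (.g 0) (.pp [(1, 866400000)]))) (.add (.mul (.g 2) (.pp [(1, 755280000)])) (.add (.mul (.g 4) (.pp [(1, 1144344000)])) (.mul (.g 13) (.pp [(1, 178603200)])))))))) (.mul (.g 14) (.add (.add (.mul (.pp [(1, 876948)]) (.sq [(2, 10), (3, -8), (5, 96), (7, 4), (11, -100), (13, 3), (19, -12)])) (.add (.mul (.pp [(1, 1789068)]) (.sq [(1, -3), (2, -67), (3, -21), (5, 24), (7, 19), (11, 100), (13, -25), (17, -25), (19, -4)])) (.mul (.pp [(1, 153108)]) (.sq [(1, -19), (2, -23), (3, 11), (5, -61), (7, 33), (11, 50), (13,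 -26), (17, -100), (19, -1)])))) (.add (.mul (.pp [(1, 490380)]) (.sq [(1, -22), (2, -2), (3, -17), (5, -15), (7, 71), (11, -100), (13, -15), (17, -11), (19, 9)])) (.add (.mul (.pp [(1, 2260536)]) (.sq [(2, 41), (11, 100), (13, -100), (17, -41)])) (.mul (.g 4) (.mul (.g 4) (.pp [(1, 7840560000)]))))))))))) (.add (.add (.add (.mul (.g 9) (.add (.add (.mul (.pp [(1, 2205780)]) (.sq [(2, 39), (3, 1), (5, 2), (7, -14), (11, 100), (13, -32), (17, -81), (19, 2)])) (.mul (.pp [(1, 611880)]) (.sq [(1, 18), (2, -28), (3, 34), (5, -4), (7, 87), (11, -29), (13, -54), (17, 67), (19, -100)]))) (.add (.mul (.pp [(1, 4100400)]) (.sq [(1, -49), (2, -55), (3, 100), (5, -8), (7, 63), (11, -41), (13, 3), (17, 68), (19, -10)])) (.mul (.pp [(1, 4477560)]) (.sq [(1, 31), (2, -65), (3, -37), (5, 14), (7, 65), (11, 92), (13, -100), (17, 19), (19, -32)]))))) (.mul (.g 5) (.add (.mul (.pp [(1, 624240)]) (.sq [(1, 19), (2, -3), (3, -37), (5, 82), (7, -80),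 (11, 84), (13, 100), (17, 14), (19, -8)])) (.add (.mul (.pp [(1, 1881180)]) (.sq [(1, -100), (2, 29), (3, 30), (5, -48), (7, 10), (11, 42), (13, 91), (17, 52), (19, -6)])) (.mul (.pp [(1, 524460)]) (.sq [(1, -11), (2, -13), (3, 39), (5, -26), (7, -14), (11, 91), (13, -37), (17, -100), (19, -7)])))))) (.add (.mul (.g 13) (.add (.mul (.pp [(1, 996084)]) (.sq [(2, 44), (3, -44), (5, -17), (7, 100), (11, 38), (13, 1), (17, 11), (19, -66)])) (.add (.mul (.pp [(1, 1218192)]) (.sq [(1, 46), (2, -76), (3, 16), (5, -3), (7, -100), (11, 93), (13, 15), (17, -49), (19, 25)])) (.mul (.pp [(1, 3455088)]) (.sq [(1, -44), (2, -20), (3, -17), (5, -11), (7, 100), (13, -8), (17, 4), (19, 13)]))))) (.add (.mul (.g 4) (.add (.mul (.pp [(1, 341700)]) (.sq [(1, 3), (2, 28), (3, -8), (5, -9), (7, 37), (11, -63), (13, -100), (17, 87), (19, 29)])) (.mul (.pp [(1, 493860)]) (.sq [(1, -33), (2, -54), (3, 13), (5, -100), (7, 37), (11, 57), (13, 88), (17, -37),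 (19, -43)])))) (.mul (.g 1) (.mul (.pp [(1, 974520)]) (.sq [(1, -20), (2, 32), (3, 62), (5, -42), (7, -41), (11, -80), (13, 100), (17, 23), (19, -25)])))))) (.add (.add (.mul (.g 3) (.mul (.pp [(1, 4087200)]) (.sq [(1, -20), (2, -11), (3, -4), (5, 14), (7, 30), (11, 88), (13, -100), (17, -32), (19, 33)]))) (.mul (.g 7) (.mul (.pp [(1, 2247360)]) (.sq [(1, -48), (2, -44), (3, -1), (5, 6), (7, 29), (11, -91), (13, 57), (17, 100), (19, 78)])))) (.add (.mul (.g 8) (.mul (.pp [(1, 43041)]) (.sq [(1, -19), (2, 13), (3, -51), (5, 93), (7, 61), (11, 100), (13, -93), (17, -35)]))) (.add (.mul (.g 12) (.mul (.pp [(1, 383100)]) (.sq [(1, -30), (2, -18), (3, -12), (5, -37), (7, 100), (11, -88), (13, 5), (17, -23), (19, -16)]))) (.mul (.g 18) (.pp [(1, 197391800000)]))))))) (.pp [(1, 4657117751), (2, 6894174), (3, 6339882), (4, 6110391), (5, 6412758), (6, 5394366), (7, 6500718), (8, 5937180), (9, 5921379), (10, 5526342), (11, 5068296), (12,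 5092380), (13, 5290038), (14, 4880838), (15, 5286870), (17, 5950386), (18, 6052260), (19, 6683880), (20, 6362520), (21, 6891342), (22, 6981024), (25, 6097431), (26, 5465394), (27, 5833780), (28, 7055340), (30, 6168240), (33, 6458760), (34, 5822358), (35, 5571630), (38, 5973792), (39, 6259602), (42, 6392880), (44, 5575080), (45, 6311280), (49, 5484867), (50, 5915640), (51, 5762070), (52, 5207400), (55, 5318160), (57, 5451288), (63, 5908680), (65, 5768754), (66, 5753880), (68, 5757960), (70, 6347280), (75, 5959560), (76, 6092040), (77, 6818808), (78, 5570520), (85, 6383238), (91, 6285498), (95, 6306168), (98, 6085020), (99, 6030540), (102, 7218360), (105, 5635680), (110, 6411960), (114, 6333240), (117, 5840700), (119, 6004350), (121, 6802608), (125, 6000000), (130, 5428200), (133, 5580456), (143, 4902744), (147, 5353500), (153, 6133260), (154, 5372040), (165, 5956680), (169, 6418023), (170, 5997720), (171, 5981160), (175, 6189300),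 (182, 7289400), (187, 5173920), (190, 6109560), (195, 6494520), (209, 6594864), (221, 7212138), (231, 5936520), (238, 5600640), (242, 6052980), (245, 6399120), (247, 6944904), (255, 6381720), (266, 5465520), (273, 6468360), (275, 5506200), (285, 6485280), (286, 5415120), (289, 6505551), (323, 6534432), (325, 5916420), (338, 5692740), (343, 6292800), (357, 5212440), (361, 5520840), (363, 5038740), (374, 6321360), (385, 6435600), (399, 6006720), (418, 6437280), (425, 5084400), (429, 7273920), (442, 6504600), (455, 5987520), (475, 5602800), (494, 6588240), (507, 5358000), (539, 5743320), (561, 6675360), (578, 5472240), (595, 5025840), (605, 5653800), (627, 5725080), (637, 5569440), (646, 5411640), (663, 6086640), (665, 5238240), (715, 5255880), (722, 5602800), (741, 5373720), (833, 6108600), (845, 5766600), (847, 6596220), (867, 5584260), (931, 6448560), (935, 7105320), (969, 6253320), (1001, 5470320), (1045, 6119880), (1083, 6276660),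 (1105, 6416400), (1183, 7157880), (1235, 6996840), (1309, 6129600), (1331, 5967960), (1445, 5686200), (1463, 6260640), (1547, 5929560), (1573, 5938620), (1615, 6262440), (1729, 5508360), (1805, 5753640), (1859, 6232740), (2023, 6243780), (2057, 5435760), (2197, 5266380), (2261, 6172200), (2299, 5569440), (2431, 5630280), (2527, 5760360), (2717, 6041400), (2873, 5528400), (3179, 6657660), (3211, 5833620), (3553, 5330640), (3757, 5878980), (3971, 5729880), (4199, 5854320), (4693, 6059700), (4913, 5579640), (5491, 5915760), (6137, 5708880), (6859, 6401520)])))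
    (by decide +kernel) (yv_nonneg h1 h2 h3 h4 h5 h6 h7 h8 (le_refl 0))
    (by
      simp only [List.forall_mem_cons, exadd, exsub, exmul, exc, exv2, exv3, exv5, exv7, exv11, exv13, exv17, exv19]
      push_cast
      refine ⟨?_, ?_, ?_, ?_, ?_, ?_, ?_, ?_, ?_, ?_, ?_, ?_, ?_, ?_, ?_, ?_, ?_, ?_, ?_, ?_, fun _ hh => absurd hh List.not_mem_nil⟩
      · linarith [h1]
      · linarith [h2]
      · linarith [h3]
      · linarith [h4]
      · linarith [h5]
      · linarith [h6]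
      · linarith [h7]
      · linarith [h8]
      · linarith [kw]
      · linarith [kal]
      · linarith [kf]
      · linarith [kua]
      · linarith [kub]
      · linarith [kda]
      · linarith [kdb]
      · linarith [kde]
      · linarith [s1]
      · linarith [s3]
      · linarith [s2]
      · linarith [s4]
    )
  simp only [exadd, exsub, exmul, exc, exv2, exv3, exv5, exv7, exv11, exv13, exv17, exv19] at h
  push_cast at h
  linarith [h]

theorem colA1m {w al f ua ub da db de : ℝ} (h1 : 0 ≤ w) (h2 : 0 ≤ al) (h3 : 0 ≤ f) (h4 : 0 ≤ ua) (h5 : 0 ≤ ub) (h6 : 0 ≤ da) (h7 : 0 ≤ db) (h8 : 0 ≤ de) (kw : 0 ≤ 13 / 20 - w) (kal : 0 ≤ 1 - al) (kf : 0 ≤ 9 / 25 - f) (kua : 0 ≤ 1 - ua) (kub : 0 ≤ 1 - ub) (kda : 0 ≤ 3 / 5 - da) (kdb : 0 ≤ 3 / 5 - db) (kde : 0 ≤ 3 / 5 - de) (s1 : 0 ≤ w - de) (s3 : 0 ≤ -1 + w + al) (s2 : 0 ≤ -1 / 3 + w + al - f - w * al - al ^ 2 + 1 / 3 * al ^ 3) (s4 : 0 ≤ al - ua + da) :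
    0 ≤ 333 / 1000 + 173 / 1000 * w - f - 153 / 200 * ua - 1 / 40 * ub + 39 / 125 * da + 39 / 125 * db + 63 / 500 * de + 1 / 2 * w ^ 2 + 123 / 500 * w * da + 123 / 500 * w * db - 81 / 125 * w * de + 1 / 2 * ua ^ 2 + 7 / 50 * ua * da + 1 / 2 * ub ^ 2 - 493 / 1000 * ub * da - 353 / 1000 * ub * db + 297 / 1000 * da ^ 2 + 167 / 1000 * da * db - 177 / 500 * da * de + 297 / 1000 * db ^ 2 - 177 / 500 * db * de + 173 / 500 * de ^ 2 - 1 / 3 * w ^ 3 + 1 / 2 * w ^ 2 * de + 107 / 500 * w * da ^ 2 - 273 / 500 * w * da * de + 107 / 500 * w * db ^ 2 - 273 / 500 * w * db * de + 107 / 250 * w * de ^ 2 - 1 / 2 * ua ^ 2 * da - 1 / 2 * ub ^ 2 * db + 99 / 500 * ub * da * db - 107 / 500 * da ^ 2 * de + 273 / 500 * da * de ^ 2 - 107 / 500 * db ^ 2 * de + 273 / 500 * db * de ^ 2 - 223 / 375 * de ^ 3 := by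
  have h := cert (y := yv w al f ua ub da db de 0)
    (gs := [(.v 2),
      (.v 3),
      (.v 5),
      (.v 7),
      (.v 11),
      (.v 13),
      (.v 17),
      (.v 19),
      (.add (.c (13)) (.mul (.c (-20)) (.v 2))),
      (.add (.c (1)) (.mul (.c (-1)) (.v 3))),
      (.add (.c (9)) (.mul (.c (-25)) (.v 5))),
      (.add (.c (1)) (.mul (.c (-1)) (.v 7))),
      (.add (.c (1)) (.mul (.c (-1)) (.v 11))),
      (.add (.c (3)) (.mul (.c (-5)) (.v 13))),
      (.add (.c (3)) (.mul (.c (-5)) (.v 17))),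
      (.add (.c (3)) (.mul (.c (-5)) (.v 19))),
      (.add (.v 2) (.mul (.c (-1)) (.v 19))),
      (.add (.c (-1)) (.add (.v 2) (.v 3))),
      (.add (.add (.c (-1)) (.add (.mul (.c (3)) (.v 2)) (.mul (.c (3)) (.v 3)))) (.add (.add (.mul (.c (-3)) (.v 5)) (.mul (.c (-3)) (.mul (.v 2) (.v 3)))) (.add (.mul (.c (-3)) (.mul (.v 3) (.v 3))) (.mul (.mul (.v 3) (.v 3)) (.v 3))))),
      (.add (.v 3) (.add (.mul (.c (-1)) (.v 7)) (.v 13)))])
    (p := .mul (.c 1000000000) (.add (.add (.add (.add (.add (.c (999)) (.mul (.c (519)) (.v 2))) (.add (.mul (.c (1500)) (.mul (.v 2) (.v 2))) (.mul (.c (-3000)) (.v 5)))) (.add (.add (.mul (.c (-2295)) (.v 7)) (.mul (.c (-1000)) (.mul (.mul (.v 2) (.v 2)) (.v 2)))) (.add (.mul (.c (-75)) (.v 11)) (.add (.mul (.c (936)) (.v 13)) (.mul (.c (936)) (.v 17)))))) (.add (.add (.add (.mul (.c (378)) (.v 19)) (.mul (.c (738)) (.mul (.v 2) (.v 13)))) (.add (.mul (.c (738)) (.mul (.v 2) (.v 17))) (.add (.mul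 (.c (-1944)) (.mul (.v 2) (.v 19))) (.mul (.c (1500)) (.mul (.v 7) (.v 7)))))) (.add (.add (.mul (.c (1500)) (.mul (.mul (.v 2) (.v 2)) (.v 19))) (.mul (.c (420)) (.mul (.v 7) (.v 13)))) (.add (.mul (.c (1500)) (.mul (.v 11) (.v 11))) (.add (.mul (.c (-1479)) (.mul (.v 11) (.v 13))) (.mul (.c (891)) (.mul (.v 13) (.v 13)))))))) (.add (.add (.add (.add (.mul (.c (-1059)) (.mul (.v 11) (.v 17))) (.mul (.c (501)) (.mul (.v 13) (.v 17)))) (.add (.mul (.c (-1062)) (.mul (.v 13) (.v 19))) (.mul (.c (891)) (.mul (.v 17) (.v 17))))) (.add (.add (.mul (.c (-1062)) (.mul (.v 17) (.v 19))) (.mul (.c (642)) (.mul (.mul (.v 2) (.v 13)) (.v 13)))) (.add (.mul (.c (1038)) (.mul (.v 19) (.v 19))) (.add (.mul (.c (-1638)) (.mul (.mul (.v 2) (.v 13)) (.v 19))) (.mul (.c (642)) (.mul (.mul (.v 2) (.v 17)) (.v 17))))))) (.add (.add (.add (.mul (.c (-1500)) (.mul (.mul (.v 7) (.v 7)) (.v 13))) (.mul (.c (-1638)) (.mul (.mul (.v 2) (.v 17)) (.v 19))))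 (.add (.mul (.c (1284)) (.mul (.mul (.v 2) (.v 19)) (.v 19))) (.add (.mul (.c (-1500)) (.mul (.mul (.v 11) (.v 11)) (.v 17))) (.mul (.c (594)) (.mul (.mul (.v 11) (.v 13)) (.v 17)))))) (.add (.add (.mul (.c (-642)) (.mul (.mul (.v 13) (.v 13)) (.v 19))) (.mul (.c (1638)) (.mul (.mul (.v 13) (.v 19)) (.v 19)))) (.add (.mul (.c (-642)) (.mul (.mul (.v 17) (.v 17)) (.v 19))) (.add (.mul (.c (1638)) (.mul (.mul (.v 17) (.v 19)) (.v 19))) (.mul (.c (-1784)) (.mul (.mul (.v 19) (.v 19)) (.v 19))))))))))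
    (e := (.add (.add (.add (.add (.add (.mul (.pp [(1, 8595300)]) (.sq [(1, -28), (2, -10), (3, 49), (5, -22), (7, 13), (11, 100), (13, -67), (17, -67), (19, 21)])) (.mul (.pp [(1, 31125300)]) (.sq [(1, -51), (2, 20), (3, -26), (5, 55), (7, 75), (11, 95), (13, -100), (17, -8), (19, -32)]))) (.add (.mul (.g 6) (.add (.add (.add (.add (.mul (.pp [(1, 3059400)]) (.sq [(2, -11), (3, 20), (5, -67), (7, 56), (11, -30), (13, 100), (17, 30), (19, 59)])) (.mul (.pp [(1, 6204000)]) (.sq [(1, 7), (2, -13), (3, -2), (5, -16), (7, -22), (11, -1), (13, 26), (17, 100), (19, 16)]))) (.add (.mul (.pp [(1, 766500)]) (.sq [(1, 8), (2, 17), (3, 96), (5, -25), (7, -73), (11, -38), (13, -21), (17, -29), (19, 100)])) (.mul (.pp [(1, 11986500)]) (.sq [(2, 13), (3, 100), (5, -26), (7, -12), (11, -13), (13, -33), (17, 17), (19, -8)])))) (.add (.add (.mul (.pp [(1, 3911400)]) (.sq [(1, -22), (2, 26), (3, -15), (5, -23), (7, -87), (11, 100), (13, -35), (17,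 -77), (19, 16)])) (.mul (.pp [(1, 5831700)]) (.sq [(1, -5), (2, 100), (3, 1), (5, -39), (7, 3), (11, -11), (13, -10), (17, -14)]))) (.add (.mul (.g 12) (.add (.add (.add (.pp [(1, 276384000000)]) (.mul (.g 1) (.pp [(1, 26091000000)]))) (.add (.mul (.g 2) (.pp [(1, 133326000000)])) (.mul (.g 3) (.pp [(1, 194064000000)])))) (.add (.add (.mul (.g 4) (.pp [(1, 564156000000)])) (.mul (.g 6) (.pp [(1, 419121000000)]))) (.add (.mul (.g 15) (.pp [(1, 75023400000)])) (.mul (.g 16) (.pp [(1, 202161000000)])))))) (.mul (.g 10) (.add (.add (.pp [(1, 993480000)]) (.mul (.g 0) (.pp [(1, 1496400000)]))) (.add (.mul (.g 2) (.pp [(1, 1023720000)])) (.add (.mul (.g 3) (.pp [(1, 2416440000)])) (.mul (.g 13) (.pp [(1, 2550456000)]))))))))) (.add (.add (.add (.mul (.g 6) (.add (.add (.mul (.g 1) (.pp [(1, 8208000000)])) (.mul (.g 2) (.pp [(1, 112581000000)]))) (.add (.mul (.g 3) (.pp [(1, 79998000000)])) (.mul (.g 5) (.pp [(1, 31758000000)]))))) (.mul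 (.g 11) (.add (.add (.mul (.g 8) (.pp [(1, 836700000)])) (.mul (.g 9) (.pp [(1, 531510000000)]))) (.add (.mul (.g 11) (.pp [(1, 93420000000)])) (.mul (.g 13) (.pp [(1, 35845200000)])))))) (.add (.mul (.g 19) (.add (.mul (.g 0) (.pp [(1, 140076000000)])) (.add (.mul (.g 7) (.pp [(1, 149253000000)])) (.mul (.g 19) (.pp [(1, 168333000000)]))))) (.mul (.g 15) (.add (.mul (.g 2) (.pp [(1, 22759200000)])) (.mul (.g 17) (.pp [(1, 27187200000)])))))) (.add (.add (.mul (.g 0) (.mul (.g 14) (.pp [(1, 24317400000)]))) (.mul (.g 1) (.mul (.g 17) (.pp [(1, 46890000000)])))) (.add (.mul (.g 5) (.mul (.g 5) (.pp [(1, 9102000000)]))) (.add (.mul (.g 9) (.pp [(1, 30591000000)])) (.mul (.g 13) (.mul (.g 16) (.pp [(1, 109808400000)]))))))))) (.add (.mul (.g 8) (.add (.add (.add (.mul (.pp [(1, 1192635)]) (.sq [(1, -7), (2, -12), (3, 42), (5, -4), (7, -54), (11, -44), (13, 100), (17, 61), (19, 21)])) (.mul (.pp [(1, 28575)]) (.sq [(1, 15), (2, 97),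 (3, -47), (5, 60), (7, 40), (11, 100), (13, -44), (17, -62), (19, 7)]))) (.add (.mul (.pp [(1, 102630)]) (.sq [(1, -47), (2, -37), (3, 1), (5, -62), (7, 66), (11, 67), (13, -40), (17, 6), (19, -100)])) (.add (.mul (.g 5) (.add (.add (.pp [(1, 5159700000)]) (.mul (.g 4) (.pp [(1, 851400000)]))) (.add (.mul (.g 10) (.pp [(1, 114324000)])) (.add (.mul (.g 11) (.pp [(1, 11260500000)])) (.mul (.g 17) (.pp [(1, 11274750000)])))))) (.mul (.g 0) (.add (.add (.mul (.g 4) (.pp [(1, 9599550000)])) (.mul (.g 10) (.pp [(1, 41598000)]))) (.add (.mul (.g 11) (.pp [(1, 13982850000)])) (.mul (.g 16) (.pp [(1, 55185450000)])))))))) (.add (.add (.mul (.g 7) (.add (.add (.pp [(1, 10940700000)]) (.mul (.g 7) (.pp [(1, 1451550000)]))) (.add (.mul (.g 11) (.pp [(1, 19707750000)])) (.mul (.g 13) (.pp [(1, 1554600000)]))))) (.add (.mul (.g 16) (.add (.mul (.g 4) (.pp [(1, 3589650000)])) (.add (.mul (.g 15) (.pp [(1, 536640000)])) (.mul (.g 17) (.pp [(1,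 15647850000)]))))) (.mul (.g 2) (.add (.mul (.g 9) (.pp [(1, 2219550000)])) (.mul (.g 10) (.pp [(1, 246798000)])))))) (.add (.mul (.g 11) (.add (.mul (.g 4) (.pp [(1, 7827000000)])) (.mul (.g 11) (.pp [(1, 9682350000)])))) (.add (.mul (.g 17) (.add (.mul (.g 1) (.pp [(1, 16116000000)])) (.mul (.g 3) (.pp [(1, 4702650000)])))) (.mul (.g 9) (.pp [(1, 1217700000)]))))))) (.mul (.g 19) (.add (.add (.add (.mul (.pp [(1, 8522700)]) (.sq [(1, -18), (2, -20), (3, -7), (5, 2), (7, -13), (11, 100), (13, -13), (19, 38)])) (.add (.mul (.pp [(1, 22097400)]) (.sq [(1, 72), (2, 18), (3, 18), (5, -100), (7, -77), (11, 9), (13, -53), (17, -15), (19, -52)])) (.mul (.pp [(1, 5079375000)]) (.sq [(2, -1), (11, -1), (13, -1), (17, -1), (19, 4)])))) (.add (.mul (.pp [(1, 12343200)]) (.sq [(1, -9), (2, 15), (3, -10), (5, 10), (7, -7), (11, 31), (13, -4), (17, 5), (19, 100)])) (.add (.mul (.pp [(1, 63702000000)]) (.sq [(2, 1), (11, -1), (13, 1), (17, -1)]))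 (.mul (.g 16) (.add (.add (.pp [(1, 236253000000)]) (.add (.mul (.g 0) (.pp [(1, 43536000000)])) (.mul (.g 2) (.pp [(1, 169809000000)])))) (.add (.mul (.g 4) (.pp [(1, 867000000)])) (.add (.mul (.g 5) (.pp [(1, 70614000000)])) (.mul (.g 7) (.pp [(1, 339036000000)]))))))))) (.add (.add (.mul (.g 19) (.add (.add (.mul (.g 0) (.pp [(1, 126270000000)])) (.mul (.g 3) (.pp [(1, 18306000000)]))) (.add (.mul (.g 4) (.pp [(1, 61416000000)])) (.add (.mul (.g 7) (.pp [(1, 44355000000)])) (.mul (.g 13) (.pp [(1, 30630600000)])))))) (.add (.mul (.g 9) (.add (.pp [(1, 183801000000)]) (.add (.mul (.g 1) (.pp [(1, 431229000000)])) (.mul (.g 13) (.pp [(1, 114984600000)]))))) (.mul (.g 0) (.add (.mul (.g 10) (.pp [(1, 5051160000)])) (.mul (.g 12) (.pp [(1, 155463000000)])))))) (.add (.mul (.g 2) (.add (.mul (.g 4) (.pp [(1, 5706000000)])) (.mul (.g 11) (.pp [(1, 421866000000)])))) (.add (.mul (.g 5) (.add (.mul (.g 10) (.pp [(1, 7706760000)])) (.mul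 (.g 17) (.pp [(1, 30087000000)])))) (.mul (.g 1) (.mul (.g 7) (.pp [(1, 42375000000)]))))))))))) (.add (.add (.mul (.g 5) (.add (.add (.add (.mul (.pp [(1, 3280800)]) (.sq [(1, -10), (2, -46), (3, 65), (5, -13), (7, 62), (11, -100), (13, -14), (17, 53), (19, 17)])) (.mul (.pp [(1, 2985900)]) (.sq [(2, -77), (3, 100), (5, 100), (7, 100), (11, -77), (13, -77), (17, -77), (19, -77)]))) (.add (.mul (.pp [(1, 16704000000)]) (.sq [(2, -1), (13, -1), (19, 2)])) (.mul (.pp [(1, 2321100)]) (.sq [(1, 13), (2, -19), (3, -33), (5, -15), (7, -10), (11, -84), (13, 100), (17, 73), (19, -8)])))) (.add (.add (.mul (.g 11) (.add (.add (.mul (.g 3) (.pp [(1, 297390000000)])) (.mul (.g 4) (.pp [(1, 228879000000)]))) (.add (.mul (.g 5) (.pp [(1, 236298000000)])) (.mul (.g 15) (.pp [(1, 81351000000)]))))) (.mul (.g 10) (.add (.mul (.g 2) (.pp [(1, 1552320000)])) (.add (.mul (.g 15) (.pp [(1, 720480000)])) (.mul (.g 17) (.pp [(1, 1286400000)])))))) (.add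 (.mul (.g 15) (.add (.mul (.g 9) (.pp [(1, 20958000000)])) (.mul (.g 16) (.pp [(1, 47728200000)])))) (.mul (.g 17) (.add (.mul (.g 13) (.pp [(1, 68587200000)])) (.mul (.g 14) (.pp [(1, 20162400000)])))))))) (.add (.mul (.g 10) (.add (.add (.mul (.pp [(1, 34068)]) (.sq [(1, 23), (2, -55), (3, 35), (7, -16), (11, 100), (13, -74), (17, -4), (19, 47)])) (.mul (.pp [(1, 182820)]) (.sq [(2, -29), (3, 26), (5, 78), (7, 9), (11, -51), (13, 67), (17, 100), (19, -15)]))) (.add (.mul (.g 2) (.add (.add (.pp [(1, 5533560000)]) (.mul (.g 2) (.pp [(1, 2788560000)]))) (.add (.mul (.g 7) (.pp [(1, 1612560000)])) (.add (.mul (.g 11) (.pp [(1, 8156880000)])) (.mul (.g 17) (.pp [(1, 3838680000)])))))) (.mul (.g 7) (.add (.mul (.g 4) (.pp [(1, 909120000)])) (.add (.mul (.g 13) (.pp [(1, 256776000)])) (.mul (.g 15) (.pp [(1, 1263552000)])))))))) (.mul (.g 4) (.add (.add (.mul (.pp [(1, 1453500)]) (.sq [(2, 55), (3, -77), (5, -74), (7, 87), (11, -4),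 (13, -58), (17, 100), (19, -40)])) (.mul (.pp [(1, 3393300)]) (.sq [(1, 2), (2, -28), (3, -28), (5, 54), (7, 53), (11, 77), (13, -100), (17, -42), (19, 18)]))) (.add (.mul (.pp [(1, 2729400)]) (.sq [(2, 22), (3, -54), (5, 100), (7, 17), (11, -84), (13, 20), (17, 79), (19, -77)])) (.add (.mul (.g 4) (.add (.mul (.g 7) (.pp [(1, 18633000000)])) (.add (.mul (.g 13) (.pp [(1, 8809800000)])) (.mul (.g 14) (.pp [(1, 45810000000)]))))) (.mul (.g 17) (.add (.mul (.g 0) (.pp [(1, 256038000000)])) (.mul (.g 12) (.pp [(1, 69258000000)])))))))))) (.add (.mul (.g 17) (.add (.add (.mul (.pp [(1, 43365000000)]) (.sq [(13, 1), (17, -1)])) (.mul (.pp [(1, 152400)]) (.sq [(1, -5), (2, -8), (3, 6), (5, 43), (7, -4), (11, -10), (13, 100), (17, 7), (19, 43)]))) (.add (.mul (.pp [(1, 2510400)]) (.sq [(1, -32), (2, -15), (3, 100), (5, 58), (7, 45), (11, -60), (13, -17), (17, -56), (19, -63)])) (.mul (.g 17) (.add (.pp [(1, 955872000000)]) (.add (.mul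 (.g 0) (.pp [(1, 422445000000)])) (.mul (.g 9) (.pp [(1, 267963000000)])))))))) (.add (.mul (.g 9) (.add (.add (.mul (.pp [(1, 13019400)]) (.sq [(1, -40), (2, -39), (3, 100), (5, -54), (7, 44), (11, -48), (13, 25), (17, 75), (19, 9)])) (.mul (.pp [(1, 14433000)]) (.sq [(1, -78), (2, -21), (3, 85), (5, 40), (7, 100), (11, -56), (13, 21), (17, 93), (19, -62)]))) (.add (.mul (.pp [(1, 10361700)]) (.sq [(2, -62), (3, 77), (5, 19), (7, -12), (11, 20), (13, -15), (17, -100), (19, 18)])) (.mul (.pp [(1, 20255100)]) (.sq [(1, -25), (2, -19), (3, 39), (5, -23), (7, 20), (11, 100), (13, -32), (17, -27), (19, -8)]))))) (.mul (.g 11) (.add (.add (.mul (.pp [(1, 20967300)]) (.sq [(1, -7), (2, -13), (3, 6), (5, -3), (7, -13), (11, -40), (13, -36), (17, -5), (19, 100)])) (.mul (.pp [(1, 619800)]) (.sq [(1, -23), (2, 5), (3, 100), (5, 30), (7, -79), (11, 36), (13, -76), (17, -63), (19, 59)]))) (.add (.mul (.pp [(1, 278100)]) (.sq [(2, -9), (3,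 19), (5, -39), (7, -12), (11, 33), (13, 11), (17, 58), (19, 100)])) (.mul (.pp [(1, 11607900)]) (.sq [(1, -24), (2, 40), (3, -5), (5, -43), (7, 67), (11, -12), (13, 71), (17, -33), (19, -100)]))))))))) (.add (.add (.add (.mul (.g 14) (.add (.add (.mul (.pp [(1, 7458480)]) (.sq [(1, 11), (2, -23), (3, 42), (5, -12), (7, -40), (11, 100), (13, -54), (17, -27), (19, 50)])) (.mul (.pp [(1, 5964120)]) (.sq [(1, -7), (2, 11), (3, -7), (5, -12), (7, -5), (11, 100), (13, -22), (17, -46), (19, -6)]))) (.add (.mul (.pp [(1, 773580)]) (.sq [(1, -71), (2, 22), (3, 100), (5, 35), (7, -12), (11, -50), (13, 15), (17, -4), (19, 56)])) (.mul (.pp [(1, 4051920)]) (.sq [(1, -67), (2, 49), (3, 13), (5, -39), (7, 100), (11, -28), (13, -50), (17, -12), (19, -38)]))))) (.mul (.g 15) (.add (.add (.mul (.pp [(1, 2486520)]) (.sq [(1, 4), (2, -19), (3, 3), (5, 33), (7, -26), (11, -54), (13, 27), (17, -12), (19, 100)])) (.mul (.pp [(1, 1112400)]) (.sq [(1,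 -26), (2, -2), (3, 7), (5, -90), (7, 93), (11, 100), (13, -25), (17, 49), (19, 64)]))) (.add (.mul (.pp [(1, 4740180)]) (.sq [(1, -100), (2, 40), (3, 88), (5, 40), (7, 20), (11, 7), (13, -7), (17, -4), (19, 29)])) (.mul (.g 7) (.mul (.g 7) (.pp [(1, 39202800000)]))))))) (.add (.mul (.g 3) (.add (.mul (.pp [(1, 10793400)]) (.sq [(1, -51), (2, 26), (3, -5), (5, -37), (7, 100), (11, -20), (13, -82), (17, 3), (19, 6)])) (.add (.mul (.pp [(1, 11487300)]) (.sq [(1, -6), (2, -26), (3, -11), (5, -41), (7, 76), (11, 37), (13, -100), (17, -26), (19, 24)])) (.mul (.pp [(1, 4304400)]) (.sq [(1, 13), (2, 1), (3, -23), (5, -19), (11, 100), (13, -28), (17, -60), (19, -39)]))))) (.add (.mul (.g 12) (.add (.mul (.pp [(1, 12504900)]) (.sq [(1, -43), (2, 14), (3, -35), (5, 13), (7, 100), (11, -55), (13, -16), (17, -2), (19, -11)])) (.add (.mul (.pp [(1, 1487100)]) (.sq [(1, -100), (2, 54), (3, 34), (5, -18), (7, 87), (11, 19), (13, -61), (17, 6),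 (19, 10)])) (.mul (.pp [(1, 7400700)]) (.sq [(1, 31), (2, -28), (3, 10), (5, 50), (7, -60), (11, -12), (13, 100), (17, 37), (19, -42)]))))) (.mul (.g 16) (.add (.mul (.pp [(1, 126924000000)]) (.sq [(13, 1), (17, -1)])) (.add (.mul (.pp [(1, 125847300)]) (.sq [(13, -71), (17, -71), (19, 100)])) (.mul (.pp [(1, 16552200)]) (.sq [(1, 39), (2, 1), (3, -48), (5, 42), (7, -82), (11, 26), (13, -33), (17, 3), (19, 100)])))))))) (.add (.add (.mul (.g 0) (.add (.mul (.pp [(1, 3502200)]) (.sq [(1, 3), (2, -12), (3, 20), (5, -6), (7, -18), (11, 100), (13, -37), (17, -9), (19, -5)])) (.mul (.pp [(1, 8919900)]) (.sq [(1, -35), (2, -23), (3, 38), (5, 26), (7, 56), (11, -100), (13, -1), (17, 94), (19, 19)])))) (.add (.mul (.g 1) (.add (.mul (.pp [(1, 21092400)]) (.sq [(1, 2), (2, 10), (3, -23), (5, -10), (7, 5), (11, 100), (13, -17), (17, -47), (19, -47)])) (.mul (.pp [(1, 2809800)]) (.sq [(1, -39), (2, 10), (3, -44), (5, 25), (7, 100), (11, -17),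 (13, 8), (17, 73), (19, -70)])))) (.mul (.g 13) (.add (.mul (.pp [(1, 8900640)]) (.sq [(1, -50), (2, -5), (5, 10), (7, 67), (11, 9), (13, -5), (17, 6), (19, 100)])) (.mul (.pp [(1, 6317640)]) (.sq [(1, -55), (2, -5), (3, -2), (5, 14), (7, 100), (11, -63), (13, 34), (17, 19), (19, -1)])))))) (.add (.mul (.g 2) (.mul (.pp [(1, 9749100)]) (.sq [(1, -8), (2, -42), (3, -23), (5, 100), (7, 6), (11, -31), (13, -80), (17, 55), (19, 79)]))) (.add (.mul (.g 7) (.mul (.pp [(1, 10443900)]) (.sq [(1, 13), (2, -85), (3, 77), (5, -11), (7, 35), (11, 78), (13, -100), (17, -72), (19, 17)]))) (.mul (.g 18) (.pp [(1, 975357000000)]))))))) (.pp [(1, 6782276652), (2, 31646070), (3, 30908970), (4, 29783715), (5, 30164580), (6, 24761310), (7, 26363232), (8, 28952000), (9, 25869015), (10, 28701840), (11, 30518940), (12, 33411900), (13, 27680628), (14, 31854960), (15, 35297880), (17, 25356918), (18, 34435500), (19, 28862496), (20, 29664600), (21, 35536560),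 (22, 31960620), (25, 27685920), (26, 29334840), (27, 31322700), (28, 28909800), (30, 31176000), (33, 29718780), (34, 33829980), (35, 26237040), (38, 33373710), (39, 32314080), (42, 27095400), (44, 25960500), (45, 28974600), (49, 32493228), (50, 31950000), (51, 33043560), (52, 33165600), (55, 28071720), (57, 26371050), (63, 30353400), (65, 35701560), (66, 27528600), (68, 32075400), (70, 29381400), (75, 29151000), (76, 30291300), (77, 30822720), (78, 32193000), (85, 34034160), (91, 30218544), (95, 29695320), (98, 30076200), (99, 29670600), (102, 26367000), (105, 25837800), (110, 27265800), (114, 30302400), (117, 28932600), (119, 35420364), (121, 29161770), (125, 29922000), (130, 31388400), (133, 30098748), (143, 31811280), (147, 27243900), (153, 29628900), (154, 32014800), (165, 32716800), (169, 32239968), (170, 29843400), (171, 32210700), (175, 30791400), (182, 26125800), (187, 28655760), (190, 29086200), (195, 28894800), (209,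 31664400), (221, 32185416), (231, 29278200), (238, 26755200), (242, 29547000), (245, 33202500), (247, 33869832), (255, 25098600), (266, 30793800), (273, 31149000), (275, 30191700), (285, 29503800), (286, 27892200), (289, 29711193), (323, 30618822), (325, 27959700), (338, 32410200), (343, 29547900), (357, 27858000), (361, 27322362), (363, 27940800), (374, 33226200), (385, 30449400), (399, 30007800), (418, 31576800), (425, 27047700), (429, 32750400), (442, 31848600), (455, 29733000), (475, 30360300), (494, 25278000), (507, 26280000), (539, 30132900), (561, 33556200), (578, 29449800), (595, 30757200), (605, 30727200), (627, 29074200), (637, 30405900), (646, 26058600), (663, 22176600), (665, 30766800), (715, 28391400), (722, 31487100), (741, 33229200), (833, 28440600), (845, 27435300), (847, 28083600), (867, 28655700), (931, 30016500), (935, 30799200), (969, 33409200), (1001, 30709200), (1045, 33159000), (1083, 26950800), (1105, 27695400),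 (1183, 29261700), (1235, 24634200), (1309, 31765800), (1331, 29088300), (1445, 27824700), (1463, 29148000), (1547, 31608000), (1573, 31188900), (1615, 28731000), (1729, 26140800), (1805, 33141300), (1859, 30023700), (2023, 31585800), (2057, 31008600), (2197, 29302200), (2261, 28935600), (2299, 27471900), (2431, 30464400), (2527, 31683600), (2717, 33928800), (2873, 27941700), (3179, 30061500), (3211, 29084400), (3553, 30870000), (3757, 28914000), (3971, 27298500), (4199, 26372400), (4693, 30491700), (4913, 29929200), (5491, 27971100), (6137, 32031000), (6859, 31121800)])))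
    (by decide +kernel) (yv_nonneg h1 h2 h3 h4 h5 h6 h7 h8 (le_refl 0))
    (by
      simp only [List.forall_mem_cons, exadd, exsub, exmul, exc, exv2, exv3, exv5, exv7, exv11, exv13, exv17, exv19]
      push_cast
      refine ⟨?_, ?_, ?_, ?_, ?_, ?_, ?_, ?_, ?_, ?_, ?_, ?_, ?_, ?_, ?_, ?_, ?_, ?_, ?_, ?_, fun _ hh => absurd hh List.not_mem_nil⟩
      · linarith [h1]
      · linarith [h2]
      · linarith [h3]
      · linarith [h4]
      · linarith [h5]
      · linarith [h6]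
      · linarith [h7]
      · linarith [h8]
      · linarith [kw]
      · linarith [kal]
      · linarith [kf]
      · linarith [kua]
      · linarith [kub]
      · linarith [kda]
      · linarith [kdb]
      · linarith [kde]
      · linarith [s1]
      · linarith [s3]
      · linarith [s2]
      · linarith [s4]
    )
  simp only [exadd, exsub, exmul, exc, exv2, exv3, exv5, exv7, exv11, exv13, exv17, exv19] at h
  push_cast at h
  linarith [h]

theorem colB1p {w f ua ub da db de : ℝ} (h1 : 0 ≤ w) (h2 : 0 ≤ f) (h3 : 0 ≤ ua) (h4 : 0 ≤ ub) (h5 : 0 ≤ da) (h6 : 0 ≤ db) (h7 : 0 ≤ de) (kw : 0 ≤ 13 / 20 - w) (kf : 0 ≤ 9 / 25 - f) (kua : 0 ≤ 1 - ua) (kub : 0 ≤ 1 - ub) (kda : 0 ≤ 3 / 5 - da) (kdb : 0 ≤ 3 / 5 - db) (kde : 0 ≤ 3 / 5 - de) (s1 : 0 ≤ -w + de) (s2 : 0 ≤ 1 / 4 * w - f + 1 / 2 * w ^ 2 - 1 / 12 * w ^ 3) :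
    0 ≤ 333 / 1000 + 321 / 1000 * w - f - 617 / 1000 * ua - 1 / 40 * ub + 39 / 125 * da + 39 / 125 * db + 63 / 500 * de + 1 / 2 * w ^ 2 + 123 / 1000 * w * da + 123 / 500 * w * db - 771 / 1000 * w * de + 1 / 2 * ua ^ 2 + 17 / 1000 * ua * da - 123 / 1000 * ua * de + 1 / 2 * ub ^ 2 - 493 / 1000 * ub * da - 353 / 1000 * ub * db + 297 / 1000 * da ^ 2 + 167 / 1000 * da * db - 177 / 500 * da * de + 297 / 1000 * db ^ 2 - 177 / 500 * db * de + 173 / 500 * de ^ 2 - 1 / 2 * w ^ 2 * de + 107 / 1000 * w * da ^ 2 - 273 / 1000 * w * da * de + 107 / 500 * w * db ^ 2 - 273 / 500 * w * db * de + 1321 / 1000 * w * de ^ 2 - 1 / 2 * ua ^ 2 * da - 107 / 1000 * ua * da ^ 2 + 273 / 1000 * ua * da * de - 107 / 1000 * ua * de ^ 2 - 1 / 2 * ub ^ 2 * db + 99 / 500 * ub * da * db - 107 / 500 * da ^ 2 * de + 273 / 500 * da * de ^ 2 - 107 / 500 * db ^ 2 * de + 273 / 500 * db * de ^ 2 - 116 / 125 * de ^ 3 := by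
  have h := cert (y := yv w f ua ub da db de 0 0)
    (gs := [(.v 2),
      (.v 3),
      (.v 5),
      (.v 7),
      (.v 11),
      (.v 13),
      (.v 17),
      (.add (.c (13)) (.mul (.c (-20)) (.v 2))),
      (.add (.c (9)) (.mul (.c (-25)) (.v 3))),
      (.add (.c (1)) (.mul (.c (-1)) (.v 5))),
      (.add (.c (1)) (.mul (.c (-1)) (.v 7))),
      (.add (.c (3)) (.mul (.c (-5)) (.v 11))),
      (.add (.c (3)) (.mul (.c (-5)) (.v 13))),
      (.add (.c (3)) (.mul (.c (-5)) (.v 17))),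
      (.add (.mul (.c (-1)) (.v 2)) (.v 17)),
      (.add (.add (.mul (.c (3)) (.v 2)) (.mul (.c (-12)) (.v 3))) (.add (.mul (.c (6)) (.mul (.v 2) (.v 2))) (.mul (.c (-1)) (.mul (.mul (.v 2) (.v 2)) (.v 2)))))])
    (p := .mul (.c 500000000) (.add (.add (.add (.add (.add (.c (333)) (.mul (.c (321)) (.v 2))) (.add (.mul (.c (-1000)) (.v 3)) (.add (.mul (.c (500)) (.mul (.v 2) (.v 2))) (.mul (.c (-617)) (.v 5))))) (.add (.add (.mul (.c (-25)) (.v 7)) (.mul (.c (312)) (.v 11))) (.add (.mul (.c (312)) (.v 13)) (.add (.mul (.c (126)) (.v 17)) (.mul (.c (123)) (.mul (.v 2) (.v 11))))))) (.add (.add (.add (.mul (.c (500)) (.mul (.v 5) (.v 5))) (.mul (.c (246)) (.mul (.v 2) (.v 13)))) (.add (.mul (.c (-771)) (.mul (.v 2) (.v 17))) (.add (.mul (.c (500)) (.mul (.v 7) (.v 7))) (.mul (.c (17)) (.mul (.v 5) (.v 11)))))) (.add (.add (.mul (.c (-500)) (.mul (.mul (.v 2) (.v 2)) (.v 17))) (.mul (.c (-493)) (.mul (.v 7) (.v 11)))) (.add (.mul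 (.c (-123)) (.mul (.v 5) (.v 17))) (.add (.mul (.c (-353)) (.mul (.v 7) (.v 13))) (.mul (.c (297)) (.mul (.v 11) (.v 11)))))))) (.add (.add (.add (.add (.mul (.c (167)) (.mul (.v 11) (.v 13))) (.mul (.c (297)) (.mul (.v 13) (.v 13)))) (.add (.mul (.c (-354)) (.mul (.v 11) (.v 17))) (.add (.mul (.c (-354)) (.mul (.v 13) (.v 17))) (.mul (.c (107)) (.mul (.mul (.v 2) (.v 11)) (.v 11)))))) (.add (.add (.mul (.c (-500)) (.mul (.mul (.v 5) (.v 5)) (.v 11))) (.mul (.c (346)) (.mul (.v 17) (.v 17)))) (.add (.mul (.c (214)) (.mul (.mul (.v 2) (.v 13)) (.v 13))) (.add (.mul (.c (-273)) (.mul (.mul (.v 2) (.v 11)) (.v 17))) (.mul (.c (-546)) (.mul (.mul (.v 2) (.v 13)) (.v 17))))))) (.add (.add (.add (.mul (.c (1321)) (.mul (.mul (.v 2) (.v 17)) (.v 17))) (.mul (.c (-107)) (.mul (.mul (.v 5) (.v 11)) (.v 11)))) (.add (.mul (.c (-500)) (.mul (.mul (.v 7) (.v 7)) (.v 13))) (.add (.mul (.c (273)) (.mul (.mul (.v 5) (.v 11)) (.v 17))) (.mul (.c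 (198)) (.mul (.mul (.v 7) (.v 11)) (.v 13)))))) (.add (.add (.mul (.c (-107)) (.mul (.mul (.v 5) (.v 17)) (.v 17))) (.add (.mul (.c (-214)) (.mul (.mul (.v 11) (.v 11)) (.v 17))) (.mul (.c (-214)) (.mul (.mul (.v 13) (.v 13)) (.v 17))))) (.add (.mul (.c (546)) (.mul (.mul (.v 11) (.v 17)) (.v 17))) (.add (.mul (.c (546)) (.mul (.mul (.v 13) (.v 17)) (.v 17))) (.mul (.c (-928)) (.mul (.mul (.v 17) (.v 17)) (.v 17))))))))))
    (e := (.add (.add (.add (.add (.add (.mul (.pp [(1, 8650900)]) (.sq [(1, -37), (2, -7), (3, -8), (5, 80), (7, -23), (11, -15), (13, 100), (17, -30)])) (.mul (.pp [(1, 8460400)]) (.sq [(1, 19), (2, -28), (3, -33), (5, -9), (7, -100), (11, 55), (13, 63), (17, 28)]))) (.add (.mul (.pp [(1, 3835900)]) (.sq [(1, -45), (2, -20), (3, 13), (5, 100), (7, -38), (11, -26), (13, -2), (17, -23)])) (.add (.mul (.pp [(1, 401250)]) (.sq [(1, -20), (3, -7), (5, 92), (7, 83), (11, -6), (13, -100), (17, -90)])) (.mul (.pp [(1,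 2636250)]) (.sq [(1, -38), (2, -30), (3, 22), (5, 46), (7, 100), (11, -89), (13, -40), (17, 7)]))))) (.add (.add (.mul (.pp [(1, 2230000)]) (.sq [(1, 36), (2, -29), (3, 60), (5, -73), (7, -79), (11, 100), (13, 81), (17, 4)])) (.add (.mul (.g 13) (.add (.add (.add (.add (.mul (.pp [(1, 43360)]) (.sq [(2, -29), (3, 29), (5, 67), (7, 29), (11, -67), (13, -29), (17, 100)])) (.mul (.pp [(1, 768590)]) (.sq [(2, -3), (5, 1), (7, 100), (11, -99), (13, -58), (17, 22)]))) (.add (.mul (.pp [(1, 243270)]) (.sq [(2, 3), (5, 100), (7, 21), (11, -14), (13, 31), (17, -81)])) (.mul (.pp [(1, 317960)]) (.sq [(2, -9), (3, -9), (5, -30), (7, 100), (11, 72), (13, -29), (17, -64)])))) (.add (.add (.mul (.pp [(1, 163920)]) (.sq [(2, 6), (3, 7), (5, 43), (7, -38), (11, 94), (13, -100), (17, 71)])) (.mul (.pp [(1, 61930)]) (.sq [(1, 87), (2, 87), (3, -64), (5, 11), (7, -53), (11, 3), (13, 82), (17, -100)]))) (.add (.mul (.pp [(1, 370400)]) (.sq [(2, 55),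 (3, -55), (5, 100), (7, -55), (11, -100), (13, 55), (17, -71)])) (.mul (.pp [(1, 1121370)]) (.sq [(1, 61), (2, 51), (3, 3), (5, -56), (7, -40), (11, 86), (13, 79), (17, -100)]))))) (.add (.add (.add (.mul (.pp [(1, 79700)]) (.sq [(2, 46), (5, 17), (7, 42), (13, 100), (17, 72)])) (.mul (.g 0) (.add (.add (.pp [(1, 35893600000)]) (.add (.mul (.g 0) (.pp [(1, 2734300000)])) (.mul (.g 1) (.pp [(1, 3725900000)])))) (.add (.mul (.g 3) (.pp [(1, 17735700000)])) (.add (.mul (.g 5) (.pp [(1, 2634700000)])) (.mul (.g 11) (.pp [(1, 3439420000)]))))))) (.add (.mul (.g 11) (.add (.add (.pp [(1, 707840000)]) (.mul (.g 1) (.pp [(1, 1978740000)]))) (.add (.mul (.g 5) (.pp [(1, 1354420000)])) (.mul (.g 14) (.pp [(1, 6377200000)]))))) (.mul (.g 3) (.add (.mul (.g 8) (.pp [(1, 356628000)])) (.add (.mul (.g 12) (.pp [(1, 2282900000)])) (.mul (.g 13) (.pp [(1, 1584100000)]))))))) (.add (.add (.mul (.g 6) (.add (.mul (.g 9) (.pp [(1, 9779000000)]))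 (.add (.mul (.g 10) (.pp [(1, 8367600000)])) (.mul (.g 14) (.pp [(1, 40576000000)]))))) (.mul (.g 8) (.add (.mul (.g 9) (.pp [(1, 146380000)])) (.mul (.g 12) (.pp [(1, 14134400)]))))) (.add (.mul (.g 14) (.add (.mul (.g 12) (.pp [(1, 4956440000)])) (.mul (.g 14) (.pp [(1, 36381700000)])))) (.mul (.g 9) (.mul (.g 10) (.pp [(1, 15820900000)])))))))) (.mul (.g 5) (.add (.add (.mul (.g 9) (.add (.add (.add (.mul (.g 2) (.pp [(1, 11250500000)])) (.mul (.g 3) (.pp [(1, 86044000000)]))) (.add (.mul (.g 7) (.pp [(1, 58800000)])) (.mul (.g 8) (.pp [(1, 1692180000)])))) (.add (.add (.mul (.g 9) (.pp [(1, 36221000000)])) (.mul (.g 11) (.pp [(1, 1583300000)]))) (.add (.mul (.g 12) (.pp [(1, 681300000)])) (.mul (.g 14) (.pp [(1, 10058000000)])))))) (.add (.mul (.g 10) (.add (.add (.pp [(1, 26192000000)]) (.add (.mul (.g 0) (.pp [(1, 19295000000)])) (.mul (.g 1) (.pp [(1, 39760000000)])))) (.add (.mul (.g 3) (.pp [(1, 138060500000)])) (.add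 (.mul (.g 5) (.pp [(1, 4340000000)])) (.mul (.g 14) (.pp [(1, 17619000000)])))))) (.mul (.g 12) (.add (.add (.pp [(1, 9428100000)]) (.mul (.g 1) (.pp [(1, 1142000000)]))) (.add (.mul (.g 11) (.pp [(1, 1546740000)])) (.mul (.g 14) (.pp [(1, 10473100000)]))))))) (.add (.mul (.g 0) (.add (.mul (.g 0) (.pp [(1, 3708500000)])) (.add (.mul (.g 1) (.pp [(1, 54363500000)])) (.mul (.g 4) (.pp [(1, 21580500000)]))))) (.add (.mul (.g 8) (.add (.mul (.g 1) (.pp [(1, 156520000)])) (.add (.mul (.g 6) (.pp [(1, 1593080000)])) (.mul (.g 11) (.pp [(1, 92392000)]))))) (.mul (.g 11) (.pp [(1, 5097200000)])))))))) (.add (.mul (.g 14) (.add (.add (.mul (.pp [(1, 300150)]) (.sq [(2, -85), (3, -48), (5, -100), (7, 20), (11, 64), (13, 1), (17, 83)])) (.add (.mul (.pp [(1, 2630700)]) (.sq [(1, 63), (2, 63), (3, 19), (5, -100), (7, -92), (11, 47), (13, 53), (17, 46)])) (.mul (.g 0) (.add (.add (.mul (.g 1) (.pp [(1, 16733000000)])) (.mul (.g 3) (.pp [(1,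 108347500000)]))) (.add (.mul (.g 11) (.pp [(1, 6590500000)])) (.add (.mul (.g 12) (.pp [(1, 24305800000)])) (.mul (.g 14) (.pp [(1, 7919000000)])))))))) (.add (.mul (.g 3) (.add (.mul (.g 3) (.pp [(1, 31273000000)])) (.add (.mul (.g 11) (.pp [(1, 853300000)])) (.mul (.g 12) (.pp [(1, 6484300000)]))))) (.add (.mul (.g 1) (.add (.pp [(1, 3350000000)]) (.mul (.g 11) (.pp [(1, 7624800000)])))) (.mul (.g 4) (.mul (.g 11) (.pp [(1, 695600000)]))))))) (.add (.mul (.g 9) (.add (.add (.mul (.pp [(1, 2138150)]) (.sq [(1, -11), (2, 62), (3, 79), (5, 14), (7, -2), (11, 93), (13, 43), (17, -100)])) (.mul (.g 4) (.add (.add (.pp [(1, 30689500000)]) (.mul (.g 2) (.pp [(1, 174563000000)]))) (.add (.mul (.g 3) (.pp [(1, 15523500000)])) (.mul (.g 4) (.pp [(1, 38023500000)])))))) (.add (.mul (.g 9) (.add (.add (.pp [(1, 13433500000)]) (.mul (.g 2) (.pp [(1, 401000000)]))) (.add (.mul (.g 3) (.pp [(1, 2006500000)])) (.mul (.g 7) (.pp [(1, 1655375000)])))))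 (.mul (.g 8) (.add (.mul (.g 1) (.pp [(1, 335000000)])) (.mul (.g 7) (.pp [(1, 65207000)]))))))) (.mul (.g 8) (.add (.mul (.pp [(1, 17252)]) (.sq [(1, -76), (2, 46), (3, -78), (5, 34), (7, 100), (11, 8), (13, -13), (17, -26)])) (.add (.mul (.g 1) (.add (.add (.pp [(1, 1173680000)]) (.mul (.g 0) (.pp [(1, 328260000)]))) (.add (.mul (.g 1) (.pp [(1, 169240000)])) (.add (.mul (.g 6) (.pp [(1, 267560000)])) (.mul (.g 10) (.pp [(1, 38440000)])))))) (.mul (.g 3) (.add (.mul (.g 0) (.pp [(1, 2062640000)])) (.mul (.g 11) (.pp [(1, 36476000)]))))))))))) (.add (.add (.add (.mul (.g 11) (.add (.add (.mul (.pp [(1, 1374950)]) (.sq [(1, -23), (2, -28), (3, -22), (5, 100), (7, -2), (13, -28), (17, -38)])) (.mul (.pp [(1, 556830)]) (.sq [(1, -19), (2, 45), (3, -8), (5, 21), (7, -68), (11, -16), (13, 100), (17, -33)]))) (.add (.mul (.pp [(1, 112110)]) (.sq [(2, 41), (7, 100), (11, -41), (13, -100)])) (.mul (.g 4) (.add (.pp [(1, 7010400000)])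 (.add (.mul (.g 7) (.pp [(1, 505210000)])) (.mul (.g 11) (.pp [(1, 42820000)])))))))) (.mul (.g 3) (.add (.add (.mul (.pp [(1, 247450)]) (.sq [(2, -31), (3, -31), (5, -31), (7, -31), (11, 100), (13, 100), (17, -31)])) (.mul (.pp [(1, 151750)]) (.sq [(1, -32), (2, 7), (3, 80), (5, -45), (7, 55), (11, 100), (13, -6), (17, 8)]))) (.add (.mul (.pp [(1, 825100)]) (.sq [(2, 58), (3, 34), (5, -17), (7, 8), (11, 56), (13, 71), (17, -100)])) (.mul (.pp [(1, 1218500)]) (.sq [(1, -60), (2, 19), (3, -6), (5, 36), (7, 100), (11, -15), (13, -49), (17, 29)])))))) (.add (.mul (.g 0) (.add (.mul (.pp [(1, 4463150)]) (.sq [(1, -91), (2, 74), (3, 52), (5, 81), (7, 91), (11, -53), (13, -100), (17, -50)])) (.mul (.pp [(1, 4891200)]) (.sq [(1, -25), (2, -67), (3, 14), (5, 100), (7, -23), (11, -26), (13, 60), (17, -13)])))) (.add (.mul (.g 1) (.add (.mul (.pp [(1, 495900)]) (.sq [(1, -50), (2, -15), (3, 2), (5, 100), (7, -25), (11, 7), (13, -57), (17,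 -23)])) (.mul (.pp [(1, 684800)]) (.sq [(1, -35), (2, -42), (3, 100), (5, 11), (7, -51), (11, 21), (13, 78), (17, 27)])))) (.mul (.g 2) (.add (.mul (.pp [(1, 31000)]) (.sq [(1, -48), (2, 23), (3, -93), (5, 2), (7, 100), (11, -33), (13, -34), (17, 77)])) (.mul (.pp [(1, 132000)]) (.sq [(1, -26), (2, 25), (3, 73), (5, 10), (7, 100), (11, -52), (13, -62), (17, -32)]))))))) (.add (.add (.mul (.g 6) (.add (.mul (.pp [(1, 1707800)]) (.sq [(1, 3), (2, 25), (3, 78), (5, -100), (7, -74), (11, 77), (13, 69), (17, 61)])) (.mul (.pp [(1, 270750)]) (.sq [(1, -17), (2, 3), (3, 9), (5, -12), (7, 100), (11, -5), (13, -34), (17, 7)])))) (.add (.mul (.g 7) (.add (.mul (.pp [(1, 2415)]) (.sq [(1, -68), (2, -18), (3, 100), (5, 97), (7, -31), (11, 3), (13, -50), (17, -17)])) (.mul (.pp [(1, 77195)]) (.sq [(1, 15), (2, -30), (3, -3), (5, -87), (7, -5), (11, 100), (13, 8), (17, 76)])))) (.mul (.g 10) (.add (.mul (.pp [(1, 517750)]) (.sq [(2, -24), (3,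 60), (5, -35), (7, 78), (11, -28), (13, 100), (17, 23)])) (.mul (.pp [(1, 979000)]) (.sq [(1, -14), (2, -32), (3, -32), (5, 65), (7, 100), (11, -86), (13, -7), (17, -11)])))))) (.add (.mul (.g 12) (.add (.mul (.pp [(1, 1851980)]) (.sq [(1, 36), (2, -18), (3, -25), (5, -49), (7, 100), (11, -20), (17, 19)])) (.mul (.pp [(1, 100)]) (.sq [(2, 7), (5, 15), (7, 44), (11, -14), (13, 100), (17, -8)])))) (.add (.mul (.g 4) (.mul (.pp [(1, 501300)]) (.sq [(2, -7), (3, -12), (5, -22), (7, -66), (11, -34), (13, 18), (17, 100)]))) (.mul (.g 15) (.pp [(1, 40305375000)]))))))) (.pp [(1, 9836608027), (2, 4565146), (3, 4767062), (4, 5697332), (5, 4543164), (6, 5651808), (7, 4859950), (8, 4560050), (9, 4771883), (10, 5655176), (11, 5419028), (12, 4696700), (13, 5244032), (14, 5105820), (15, 5251022), (17, 4920494), (18, 4655800), (20, 4211800), (21, 5280530), (22, 4695952), (25, 5635362), (26, 5148488), (27, 5045600), (28, 4575700), (30, 3977200),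 (33, 5554924), (34, 4415896), (35, 4627460), (39, 4905576), (42, 4611500), (44, 5693400), (45, 5111950), (49, 5387080), (50, 4483050), (51, 5088832), (52, 5257200), (55, 4937838), (63, 4984950), (65, 4966152), (66, 5073600), (68, 5817700), (70, 5271100), (75, 5121800), (77, 5211650), (78, 5248000), (85, 5115354), (91, 3306720), (98, 5033450), (99, 5069800), (102, 5602400), (105, 4448900), (110, 5043400), (117, 5299100), (119, 5570630), (121, 5062423), (125, 4753400), (130, 4429600), (143, 5383984), (147, 4784400), (153, 4992400), (154, 5366500), (165, 4770900), (169, 5741498), (170, 6250000), (175, 5159250), (182, 5500000), (187, 4621378), (195, 4540100), (221, 4711172), (231, 4715800), (238, 5035900), (242, 5261950), (245, 5428400), (255, 5115600), (273, 5475000), (275, 4795550), (286, 4776200), (289, 5284437), (325, 4861000), (338, 4876050), (343, 5341400), (357, 4799700), (363, 4988900), (374, 4306400), (385, 4781000), (425,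 5158300), (429, 5126600), (442, 5073200), (455, 5242600), (507, 5387400), (539, 4064200), (561, 4851300), (578, 4406950), (595, 4971700), (605, 4778750), (637, 5099400), (663, 5289300), (715, 4777300), (833, 4652900), (845, 5195350), (847, 4889900), (867, 4702800), (935, 5427700), (1001, 5430600), (1105, 5449000), (1183, 4960400), (1309, 4838900), (1331, 5024150), (1445, 4376400), (1547, 4533300), (1573, 4879200), (1859, 4482800), (2023, 5027700), (2057, 4887750), (2197, 5000000), (2431, 5653200), (2873, 4624950), (3179, 4902850), (3757, 5003900), (4913, 4855450)])))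
    (by decide +kernel) (yv_nonneg h1 h2 h3 h4 h5 h6 h7 (le_refl 0) (le_refl 0))
    (by
      simp only [List.forall_mem_cons, exadd, exsub, exmul, exc, exv2, exv3, exv5, exv7, exv11, exv13, exv17]
      push_cast
      refine ⟨?_, ?_, ?_, ?_, ?_, ?_, ?_, ?_, ?_, ?_, ?_, ?_, ?_, ?_, ?_, ?_, fun _ hh => absurd hh List.not_mem_nil⟩
      · linarith [h1]
      · linarith [h2]
      · linarith [h3]
      · linarith [h4]
      · linarith [h5]
      · linarith [h6]
      · linarith [h7]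
      · linarith [kw]
      · linarith [kf]
      · linarith [kua]
      · linarith [kub]
      · linarith [kda]
      · linarith [kdb]
      · linarith [kde]
      · linarith [s1]
      · linarith [s2]
    )
  simp only [exadd, exsub, exmul, exc, exv2, exv3, exv5, exv7, exv11, exv13, exv17] at h
  push_cast at h
  linarith [h]

theorem colB1m {w f ua ub da db de : ℝ} (h1 : 0 ≤ w) (h2 : 0 ≤ f) (h3 : 0 ≤ ua) (h4 : 0 ≤ ub) (h5 : 0 ≤ da) (h6 : 0 ≤ db) (h7 : 0 ≤ de) (kw : 0 ≤ 13 / 20 - w) (kf : 0 ≤ 9 / 25 - f) (kua : 0 ≤ 1 - ua) (kub : 0 ≤ 1 - ub) (kda : 0 ≤ 3 / 5 - da) (kdb : 0 ≤ 3 / 5 - db) (kde : 0 ≤ 3 / 5 - de) (s1 : 0 ≤ w - de) (s2 : 0 ≤ 1 / 4 * w - f + 1 / 2 * w ^ 2 - 1 / 12 * w ^ 3) :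
    0 ≤ 333 / 1000 + 321 / 1000 * w - f - 617 / 1000 * ua - 1 / 40 * ub + 39 / 125 * da + 39 / 125 * db + 63 / 500 * de + 1 / 2 * w ^ 2 + 123 / 1000 * w * da + 123 / 500 * w * db - 771 / 1000 * w * de + 1 / 2 * ua ^ 2 + 17 / 1000 * ua * da - 123 / 1000 * ua * de + 1 / 2 * ub ^ 2 - 493 / 1000 * ub * da - 353 / 1000 * ub * db + 297 / 1000 * da ^ 2 + 167 / 1000 * da * db - 177 / 500 * da * de + 297 / 1000 * db ^ 2 - 177 / 500 * db * de + 173 / 500 * de ^ 2 - 1 / 3 * w ^ 3 + 1 / 2 * w ^ 2 * de + 107 / 1000 * w * da ^ 2 - 273 / 1000 * w * da * de + 107 / 500 * w * db ^ 2 - 273 / 500 * w * db * de + 321 / 1000 * w * de ^ 2 - 1 / 2 * ua ^ 2 * da - 107 / 1000 * ua * da ^ 2 + 273 / 1000 * ua * da * de - 107 / 1000 * ua * de ^ 2 - 1 / 2 * ub ^ 2 * db + 99 / 500 * ub * da * db - 107 / 500 * da ^ 2 * de + 273 / 500 * da * de ^ 2 - 107 / 500 * db ^ 2 * de + 273 / 500 * db * de ^ 2 - 223 / 375 * de ^ 3 := by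
  have h := cert (y := yv w f ua ub da db de 0 0)
    (gs := [(.v 2),
      (.v 3),
      (.v 5),
      (.v 7),
      (.v 11),
      (.v 13),
      (.v 17),
      (.add (.c (13)) (.mul (.c (-20)) (.v 2))),
      (.add (.c (9)) (.mul (.c (-25)) (.v 3))),
      (.add (.c (1)) (.mul (.c (-1)) (.v 5))),
      (.add (.c (1)) (.mul (.c (-1)) (.v 7))),
      (.add (.c (3)) (.mul (.c (-5)) (.v 11))),
      (.add (.c (3)) (.mul (.c (-5)) (.v 13))),
      (.add (.c (3)) (.mul (.c (-5)) (.v 17))),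
      (.add (.v 2) (.mul (.c (-1)) (.v 17))),
      (.add (.add (.mul (.c (3)) (.v 2)) (.mul (.c (-12)) (.v 3))) (.add (.mul (.c (6)) (.mul (.v 2) (.v 2))) (.mul (.c (-1)) (.mul (.mul (.v 2) (.v 2)) (.v 2)))))])
    (p := .mul (.c 1000000000) (.add (.add (.add (.add (.add (.c (999)) (.mul (.c (963)) (.v 2))) (.add (.mul (.c (-3000)) (.v 3)) (.add (.mul (.c (1500)) (.mul (.v 2) (.v 2))) (.mul (.c (-1851)) (.v 5))))) (.add (.add (.mul (.c (-75)) (.v 7)) (.mul (.c (-1000)) (.mul (.mul (.v 2) (.v 2)) (.v 2)))) (.add (.mul (.c (936)) (.v 11)) (.add (.mul (.c (936)) (.v 13)) (.mul (.c (378)) (.v 17)))))) (.add (.add (.add (.mul (.c (369)) (.mul (.v 2) (.v 11))) (.mul (.c (1500)) (.mul (.v 5) (.v 5)))) (.add (.mul (.c (738)) (.mul (.v 2) (.v 13))) (.add (.mul (.c (-2313)) (.mul (.v 2) (.v 17))) (.mul (.c (1500)) (.mul (.v 7) (.v 7)))))) (.add (.add (.mul (.c (51)) (.mul (.v 5) (.v 11))) (.add (.mul (.c (1500)) (.mul (.mul (.v 2) (.v 2))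 (.v 17))) (.mul (.c (-1479)) (.mul (.v 7) (.v 11))))) (.add (.mul (.c (-369)) (.mul (.v 5) (.v 17))) (.add (.mul (.c (-1059)) (.mul (.v 7) (.v 13))) (.mul (.c (891)) (.mul (.v 11) (.v 11)))))))) (.add (.add (.add (.add (.mul (.c (501)) (.mul (.v 11) (.v 13))) (.mul (.c (891)) (.mul (.v 13) (.v 13)))) (.add (.mul (.c (-1062)) (.mul (.v 11) (.v 17))) (.add (.mul (.c (-1062)) (.mul (.v 13) (.v 17))) (.mul (.c (321)) (.mul (.mul (.v 2) (.v 11)) (.v 11)))))) (.add (.add (.mul (.c (-1500)) (.mul (.mul (.v 5) (.v 5)) (.v 11))) (.mul (.c (1038)) (.mul (.v 17) (.v 17)))) (.add (.mul (.c (642)) (.mul (.mul (.v 2) (.v 13)) (.v 13))) (.add (.mul (.c (-819)) (.mul (.mul (.v 2) (.v 11)) (.v 17))) (.mul (.c (-1638)) (.mul (.mul (.v 2) (.v 13)) (.v 17))))))) (.add (.add (.add (.mul (.c (963)) (.mul (.mul (.v 2) (.v 17)) (.v 17))) (.mul (.c (-321)) (.mul (.mul (.v 5) (.v 11)) (.v 11)))) (.add (.mul (.c (-1500)) (.mul (.mul (.v 7) (.v 7)) (.v 13)))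 (.add (.mul (.c (819)) (.mul (.mul (.v 5) (.v 11)) (.v 17))) (.mul (.c (594)) (.mul (.mul (.v 7) (.v 11)) (.v 13)))))) (.add (.add (.mul (.c (-321)) (.mul (.mul (.v 5) (.v 17)) (.v 17))) (.add (.mul (.c (-642)) (.mul (.mul (.v 11) (.v 11)) (.v 17))) (.mul (.c (-642)) (.mul (.mul (.v 13) (.v 13)) (.v 17))))) (.add (.mul (.c (1638)) (.mul (.mul (.v 11) (.v 17)) (.v 17))) (.add (.mul (.c (1638)) (.mul (.mul (.v 13) (.v 17)) (.v 17))) (.mul (.c (-1784)) (.mul (.mul (.v 17) (.v 17)) (.v 17))))))))))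
    (e := (.add (.add (.add (.add (.add (.mul (.pp [(1, 59664300)]) (.sq [(1, -49), (2, -23), (3, -14), (5, 100), (7, -19), (11, -43), (13, 16), (17, 9)])) (.mul (.pp [(1, 82327500)]) (.sq [(1, 3), (2, 14), (3, 5), (5, -14), (7, -79), (11, 29), (13, 100), (17, 4)]))) (.add (.mul (.pp [(1, 36353700)]) (.sq [(1, -53), (2, -19), (3, -6), (5, 60), (7, 100), (11, -51), (13, -8), (17, 19)])) (.mul (.pp [(1, 9447900)]) (.sq [(1, -11), (2, 32), (3, -59), (5, 100), (7, -65), (11, -34), (13, 10), (17, -78)])))) (.add (.add (.mul (.g 5) (.add (.add (.add (.mul (.pp [(1, 11558400)]) (.sq [(1, -22), (2, -16), (3, -30), (5, 100), (7, 21), (11, -21), (13, -12), (17, -8)])) (.add (.mul (.pp [(1, 1701000)]) (.sq [(1, 37), (2, -17), (3, 55), (5, -10), (7, 39), (11, -64), (13, -100), (17, -43)])) (.mul (.pp [(1, 5004000)]) (.sq [(2, -6), (5, -56), (7, 86), (11, -63), (13, -100), (17, 25)])))) (.add (.add (.mul (.pp [(1, 3738000)]) (.sq [(2, -27),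 (3, 50), (5, 50), (7, -27), (11, -27), (13, -27), (17, -27)])) (.mul (.pp [(1, 630900)]) (.sq [(2, -29), (7, 79), (11, 79), (13, -29), (17, -100)]))) (.add (.mul (.pp [(1, 12771000)]) (.sq [(2, -83), (7, 33), (11, 33), (13, -83), (17, 100)])) (.mul (.g 10) (.add (.add (.pp [(1, 216060000000)]) (.add (.mul (.g 2) (.pp [(1, 162747000000)])) (.mul (.g 3) (.pp [(1, 1159746000000)])))) (.add (.add (.mul (.g 5) (.pp [(1, 114546000000)])) (.mul (.g 7) (.pp [(1, 15186600000)]))) (.add (.mul (.g 8) (.pp [(1, 968280000)])) (.mul (.g 13) (.pp [(1, 44109600000)]))))))))) (.add (.add (.add (.mul (.g 14) (.add (.add (.mul (.g 3) (.pp [(1, 8109000000)])) (.add (.mul (.g 4) (.pp [(1, 138597000000)])) (.mul (.g 5) (.pp [(1, 234234000000)])))) (.add (.mul (.g 9) (.pp [(1, 520713000000)])) (.add (.mul (.g 13) (.pp [(1, 99882600000)])) (.mul (.g 14) (.pp [(1, 326373000000)])))))) (.mul (.g 1) (.add (.pp [(1, 71229000000)]) (.add (.mul (.g 2) (.pp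 [(1, 13890000000)])) (.mul (.g 8) (.pp [(1, 966840000)])))))) (.add (.mul (.g 4) (.add (.mul (.g 3) (.pp [(1, 129459000000)])) (.add (.mul (.g 8) (.pp [(1, 4697400000)])) (.mul (.g 13) (.pp [(1, 14433600000)]))))) (.mul (.g 6) (.add (.mul (.g 8) (.pp [(1, 3229200000)])) (.add (.mul (.g 9) (.pp [(1, 23379000000)])) (.mul (.g 12) (.pp [(1, 29616600000)]))))))) (.add (.add (.mul (.g 9) (.add (.mul (.g 9) (.pp [(1, 341946000000)])) (.mul (.g 12) (.pp [(1, 98018400000)])))) (.mul (.g 0) (.mul (.g 7) (.pp [(1, 18481350000)])))) (.add (.mul (.g 2) (.mul (.g 13) (.pp [(1, 76133400000)]))) (.mul (.g 11) (.mul (.g 12) (.pp [(1, 9541560000)])))))))) (.mul (.g 8) (.add (.add (.mul (.pp [(1, 276)]) (.sq [(1, -12), (2, 95), (3, -30), (5, 13), (7, -100), (11, 52), (13, 48), (17, -4)])) (.add (.mul (.g 9) (.add (.add (.pp [(1, 8373000000)]) (.add (.mul (.g 0) (.pp [(1, 2041560000)])) (.mul (.g 2) (.pp [(1, 108480000)])))) (.add (.mul (.g 6) (.pp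 [(1, 9348240000)])) (.add (.mul (.g 10) (.pp [(1, 12240000)])) (.mul (.g 11) (.pp [(1, 438312000)])))))) (.mul (.g 1) (.add (.add (.pp [(1, 2977080000)]) (.mul (.g 1) (.pp [(1, 960000)]))) (.add (.mul (.g 4) (.pp [(1, 921480000)])) (.add (.mul (.g 7) (.pp [(1, 25596000)])) (.mul (.g 13) (.pp [(1, 57600000)])))))))) (.add (.mul (.g 4) (.add (.mul (.g 6) (.pp [(1, 6243720000)])) (.add (.mul (.g 10) (.pp [(1, 5746080000)])) (.mul (.g 14) (.pp [(1, 1267560000)]))))) (.add (.mul (.g 7) (.add (.pp [(1, 21198000)]) (.add (.mul (.g 3) (.pp [(1, 51690000)])) (.mul (.g 6) (.pp [(1, 202470000)]))))) (.mul (.g 13) (.add (.pp [(1, 1013520000)]) (.add (.mul (.g 3) (.pp [(1, 300168000)])) (.mul (.g 6) (.pp [(1, 2141928000)])))))))))) (.add (.mul (.g 4) (.add (.add (.mul (.pp [(1, 13929000)]) (.sq [(1, 14), (2, -32), (3, 54), (5, 7), (7, -100), (11, 83), (13, 44), (17, -49)])) (.add (.mul (.pp [(1, 8119200)]) (.sq [(2, 50), (3, -2), (5, -14),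 (7, 87), (11, -100), (13, -55), (17, -37)])) (.mul (.g 9) (.add (.add (.mul (.g 2) (.pp [(1, 1292130000000)])) (.mul (.g 4) (.pp [(1, 266826000000)]))) (.add (.mul (.g 10) (.pp [(1, 131634000000)])) (.add (.mul (.g 12) (.pp [(1, 44236200000)])) (.mul (.g 14) (.pp [(1, 202836000000)])))))))) (.add (.mul (.g 11) (.add (.add (.mul (.g 1) (.pp [(1, 3541800000)])) (.mul (.g 2) (.pp [(1, 35210400000)]))) (.add (.mul (.g 4) (.pp [(1, 933000000)])) (.add (.mul (.g 7) (.pp [(1, 2650740000)])) (.mul (.g 10) (.pp [(1, 26173800000)])))))) (.add (.mul (.g 13) (.add (.mul (.g 3) (.pp [(1, 62496000000)])) (.mul (.g 14) (.pp [(1, 114158400000)])))) (.mul (.g 7) (.mul (.g 14) (.pp [(1, 1905300000)]))))))) (.add (.mul (.g 7) (.add (.add (.add (.mul (.pp [(1, 748080)]) (.sq [(1, 33), (2, -59), (3, -24), (5, -42), (7, -86), (11, 47), (13, 21), (17, 100)])) (.mul (.pp [(1, 489855)]) (.sq [(1, -21), (2, -41), (3, -17), (5, 27), (7, 100), (11, -44),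 (13, -7), (17, 99)]))) (.add (.mul (.pp [(1, 1210230)]) (.sq [(1, -10), (2, 1), (3, -3), (5, 20), (7, -4), (11, -17), (13, 100), (17, -4)])) (.mul (.pp [(1, 1225920)]) (.sq [(1, -49), (2, -75), (3, 7), (5, 100), (7, -9), (11, -41), (13, 19), (17, 35)])))) (.add (.add (.mul (.g 14) (.add (.mul (.g 2) (.pp [(1, 10204650000)])) (.add (.mul (.g 13) (.pp [(1, 8722140000)])) (.mul (.g 14) (.pp [(1, 2328600000)]))))) (.mul (.g 0) (.add (.mul (.g 0) (.pp [(1, 26237700000)])) (.mul (.g 11) (.pp [(1, 1768080000)]))))) (.add (.mul (.g 3) (.add (.mul (.g 6) (.pp [(1, 11269650000)])) (.mul (.g 9) (.pp [(1, 22347000000)])))) (.add (.mul (.g 6) (.pp [(1, 5968500000)])) (.mul (.g 9) (.pp [(1, 32499600000)]))))))) (.mul (.g 13) (.add (.add (.mul (.pp [(1, 2095380)]) (.sq [(2, 95), (5, -100), (7, 84), (11, 16), (13, 43), (17, -75)])) (.add (.mul (.pp [(1, 7380480)]) (.sq [(1, 29), (2, -58), (3, -10), (5, 1), (7, 2), (11, -31), (13, -2), (17, 100)]))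 (.mul (.pp [(1, 10354500)]) (.sq [(2, -23), (3, 22), (5, 65), (7, 22), (11, -75), (13, -36), (17, 100)])))) (.add (.add (.mul (.pp [(1, 1970820)]) (.sq [(1, -39), (2, 11), (3, -20), (5, -9), (7, 4), (11, 100), (13, 15), (17, -48)])) (.mul (.pp [(1, 944400)]) (.sq [(2, 14), (5, -28), (7, 4), (11, -30), (13, -3), (17, 100)]))) (.add (.mul (.g 6) (.add (.mul (.g 6) (.pp [(1, 47587800000)])) (.add (.mul (.g 9) (.pp [(1, 83698200000)])) (.mul (.g 10) (.pp [(1, 37240200000)]))))) (.mul (.g 13) (.mul (.g 14) (.pp [(1, 27819480000)]))))))))))) (.add (.add (.add (.mul (.g 3) (.add (.add (.mul (.pp [(1, 13800)]) (.sq [(1, -22), (2, 33), (3, -35), (5, -31), (7, -100), (11, 75), (13, -5), (17, 60)])) (.mul (.g 11) (.add (.mul (.g 1) (.pp [(1, 13542600000)])) (.add (.mul (.g 3) (.pp [(1, 23211000000)])) (.mul (.g 14) (.pp [(1, 21391800000)])))))) (.add (.mul (.g 14) (.add (.pp [(1, 225225000000)]) (.mul (.g 3) (.pp [(1, 17898000000)])))) (.mul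 (.g 6) (.mul (.g 9) (.pp [(1, 82743000000)])))))) (.mul (.g 9) (.add (.mul (.pp [(1, 6866700)]) (.sq [(2, -56), (3, 2), (5, 100), (7, -7), (11, 95), (17, -74)])) (.add (.mul (.pp [(1, 1200)]) (.sq [(1, 15), (2, -5), (3, -81), (5, 25), (7, -5), (11, 100), (13, -19), (17, -24)])) (.mul (.g 9) (.add (.mul (.g 2) (.pp [(1, 68640000000)])) (.add (.mul (.g 10) (.pp [(1, 9585000000)])) (.mul (.g 11) (.pp [(1, 9853800000)]))))))))) (.add (.mul (.g 6) (.add (.mul (.pp [(1, 7104000)]) (.sq [(1, -7), (2, -50), (5, 96), (7, -89), (11, -15), (13, 100), (17, -24)])) (.add (.mul (.pp [(1, 18913500)]) (.sq [(1, 23), (2, 47), (3, 5), (5, -100), (7, -55), (11, 54), (13, 87), (17, 26)])) (.mul (.pp [(1, 39983400)]) (.sq [(1, -100), (2, 78), (3, -25), (5, 33), (7, -10), (11, -14), (13, 5), (17, 65)]))))) (.mul (.g 12) (.add (.mul (.pp [(1, 4874137500)]) (.sq [(2, 1), (7, 4), (11, -4), (13, -1)])) (.mul (.pp [(1, 9655380)]) (.sq [(1, -46), (2, -48),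 (3, -4), (5, 100), (7, -18), (11, 16), (13, 53), (17, 1)])))))) (.add (.add (.mul (.g 14) (.add (.mul (.pp [(1, 16985700)]) (.sq [(5, -65), (11, 88), (13, -100), (17, 35)])) (.mul (.g 1) (.mul (.g 14) (.pp [(1, 30171000000)]))))) (.mul (.g 0) (.mul (.pp [(1, 19335300)]) (.sq [(2, -27), (5, 85), (7, -100), (11, 33), (13, 12), (17, -91)])))) (.add (.mul (.g 10) (.mul (.pp [(1, 16800)]) (.sq [(1, -34), (2, 56), (3, 17), (5, -65), (7, 100), (11, -6), (13, -4), (17, 25)]))) (.add (.mul (.g 11) (.mul (.pp [(1, 13801200)]) (.sq [(1, -18), (2, 23), (3, -16), (5, 21), (7, 35), (11, -50), (13, 23), (17, -13)]))) (.mul (.g 15) (.pp [(1, 236308250000)]))))))) (.pp [(1, 17378521929), (2, 29554350), (3, 28056810), (4, 30813675), (5, 28831458), (6, 29930790), (7, 27386160), (8, 29275600), (9, 29175735), (10, 30011010), (11, 30391752), (12, 30133500), (13, 29857518), (14, 32123280), (15, 30878850), (17, 32824146), (18, 31156500), (20, 27122400),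 (21, 29755320), (22, 28194060), (25, 32683209), (26, 32006070), (27, 30210000), (28, 27336600), (30, 30930000), (33, 29160060), (34, 27246930), (35, 33259800), (39, 29537670), (42, 30702000), (44, 32489400), (45, 29958000), (49, 32143440), (50, 30723300), (51, 31341690), (52, 30418800), (55, 30562272), (63, 29350200), (65, 31516758), (66, 29619600), (68, 33640800), (70, 30666000), (75, 30986100), (77, 26932920), (78, 28215000), (85, 25537506), (91, 32797080), (98, 28497600), (99, 31567200), (102, 27088800), (105, 29690400), (110, 29040600), (117, 30473400), (119, 29290200), (121, 31227774), (125, 27750000), (130, 28081800), (143, 30609912), (147, 29520000), (153, 28963500), (154, 31750800), (165, 31203600), (169, 28423749), (170, 30487800), (175, 29038200), (182, 29735400), (187, 27113304), (195, 32284800), (221, 28555806), (231, 30224400), (238, 37468200), (242, 29565300), (245, 32538300), (255, 30292800), (273, 30412800), (275,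 30061800), (286, 29533800), (289, 28183821), (325, 30216000), (338, 29099100), (343, 30000000), (357, 30513000), (363, 30021600), (374, 28021200), (385, 27154200), (425, 33540900), (429, 28809600), (442, 29547600), (455, 27474000), (507, 28044000), (539, 29965200), (561, 30420000), (578, 28224300), (595, 25437600), (605, 30109500), (637, 27348300), (663, 28534200), (715, 28860000), (833, 28862100), (845, 29533200), (847, 28459800), (867, 30722400), (935, 32214600), (1001, 27375000), (1105, 29971800), (1183, 30450000), (1309, 33427200), (1331, 31119000), (1445, 30673800), (1547, 32309400), (1573, 31976100), (1859, 32856600), (2023, 27207600), (2057, 30959700), (2197, 31082100), (2431, 33248400), (2873, 33276300), (3179, 30712200), (3757, 29235300), (4913, 31596400)])))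
    (by decide +kernel) (yv_nonneg h1 h2 h3 h4 h5 h6 h7 (le_refl 0) (le_refl 0))
    (by
      simp only [List.forall_mem_cons, exadd, exsub, exmul, exc, exv2, exv3, exv5, exv7, exv11, exv13, exv17]
      push_cast
      refine ⟨?_, ?_, ?_, ?_, ?_, ?_, ?_, ?_, ?_, ?_, ?_, ?_, ?_, ?_, ?_, ?_, fun _ hh => absurd hh List.not_mem_nil⟩
      · linarith [h1]
      · linarith [h2]
      · linarith [h3]
      · linarith [h4]
      · linarith [h5]
      · linarith [h6]
      · linarith [h7]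
      · linarith [kw]
      · linarith [kf]
      · linarith [kua]
      · linarith [kub]
      · linarith [kda]
      · linarith [kdb]
      · linarith [kde]
      · linarith [s1]
      · linarith [s2]
    )
  simp only [exadd, exsub, exmul, exc, exv2, exv3, exv5, exv7, exv11, exv13, exv17] at h
  push_cast at h
  linarith [h]

theorem colB2p {w dF f ua ub da db de : ℝ} (h1 : 0 ≤ w) (h2 : 0 ≤ dF) (h3 : 0 ≤ f) (h4 : 0 ≤ ua) (h5 : 0 ≤ ub) (h6 : 0 ≤ da) (h7 : 0 ≤ db) (h8 : 0 ≤ de) (kw : 0 ≤ 13 / 20 - w) (kdF : 0 ≤ 1 - dF) (kf : 0 ≤ 9 / 25 - f) (kua : 0 ≤ 1 - ua) (kub : 0 ≤ 1 - ub) (kda : 0 ≤ 3 / 5 - da) (kdb : 0 ≤ 3 / 5 - db) (kde : 0 ≤ 3 / 5 - de) (s1 : 0 ≤ dF - de) (s2 : 0 ≤ 1 / 4 * w - f + 1 / 2 * w ^ 2 - 1 / 2 * w * dF - 1 / 2 * w ^ 2 * dF + 1 / 4 * w * dF ^ 2) (s3 : 0 ≤ w - dF + ua + de) :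
    0 ≤ 333 / 1000 + 321 / 1000 * w - 37 / 250 * dF - f - 617 / 1000 * ua - 1 / 40 * ub + 39 / 125 * da + 39 / 125 * db + 447 / 1000 * de + 1 / 2 * w ^ 2 + 123 / 1000 * w * da + 123 / 500 * w * db + 229 / 1000 * w * de + 123 / 1000 * dF * da + 123 / 1000 * dF * de + 1 / 2 * ua ^ 2 + 17 / 1000 * ua * da - 123 / 1000 * ua * de + 1 / 2 * ub ^ 2 - 493 / 1000 * ub * da - 353 / 1000 * ub * db + 297 / 1000 * da ^ 2 + 167 / 1000 * da * db - 231 / 1000 * da * de + 297 / 1000 * db ^ 2 - 27 / 250 * db * de + 3 / 40 * de ^ 2 - 1 / 3 * w ^ 3 - 1 / 2 * w ^ 2 * de + 107 / 1000 * w * da ^ 2 - 273 / 1000 * w * da * de + 107 / 500 * w * db ^ 2 - 273 / 500 * w * db * de + 321 / 1000 * w * de ^ 2 + 107 / 1000 * dF * da ^ 2 - 273 / 1000 * dF * da * de + 107 / 1000 * dF * de ^ 2 - 1 / 2 * ua ^ 2 * da - 107 / 1000 * ua * da ^ 2 + 273 / 1000 * ua * da * de - 107 / 1000 * ua * de ^ 2 - 1 / 2 * ub ^ 2 * db + 99 / 500 * ub * da * db - 107 / 1000 * da ^ 2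 * de + 273 / 1000 * da * de ^ 2 - 107 / 1000 * de ^ 3 := by
  have h := cert (y := yv w dF f ua ub da db de 0)
    (gs := [(.v 2),
      (.v 3),
      (.v 5),
      (.v 7),
      (.v 11),
      (.v 13),
      (.v 17),
      (.v 19),
      (.add (.c (13)) (.mul (.c (-20)) (.v 2))),
      (.add (.c (1)) (.mul (.c (-1)) (.v 3))),
      (.add (.c (9)) (.mul (.c (-25)) (.v 5))),
      (.add (.c (1)) (.mul (.c (-1)) (.v 7))),
      (.add (.c (1)) (.mul (.c (-1)) (.v 11))),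
      (.add (.c (3)) (.mul (.c (-5)) (.v 13))),
      (.add (.c (3)) (.mul (.c (-5)) (.v 17))),
      (.add (.c (3)) (.mul (.c (-5)) (.v 19))),
      (.add (.v 3) (.mul (.c (-1)) (.v 19))),
      (.add (.add (.v 2) (.add (.mul (.c (2)) (.mul (.v 2) (.v 2))) (.mul (.c (-4)) (.v 5)))) (.add (.mul (.c (-2)) (.mul (.v 2) (.v 3))) (.add (.mul (.c (-2)) (.mul (.mul (.v 2) (.v 2)) (.v 3))) (.mul (.mul (.v 2) (.v 3)) (.v 3))))),
      (.add (.add (.v 2) (.mul (.c (-1)) (.v 3))) (.add (.v 7) (.v 19)))])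
    (p := .mul (.c 500000000) (.add (.add (.add (.add (.add (.c (999)) (.mul (.c (963)) (.v 2))) (.add (.mul (.c (-444)) (.v 3)) (.add (.mul (.c (1500)) (.mul (.v 2) (.v 2))) (.mul (.c (-3000)) (.v 5))))) (.add (.add (.mul (.c (-1851)) (.v 7)) (.add (.mul (.c (-1000)) (.mul (.mul (.v 2) (.v 2)) (.v 2))) (.mul (.c (-75)) (.v 11)))) (.add (.mul (.c (936)) (.v 13)) (.add (.mul (.c (936)) (.v 17)) (.mul (.c (1341)) (.v 19)))))) (.add (.add (.add (.mul (.c (369)) (.mul (.v 2) (.v 13))) (.add (.mul (.c (738)) (.mul (.v 2) (.v 17))) (.mul (.c (687)) (.mul (.v 2) (.v 19))))) (.add (.mul (.c (369)) (.mul (.v 3) (.v 13))) (.add (.mul (.c (1500)) (.mul (.v 7) (.v 7))) (.mul (.c (369)) (.mul (.v 3) (.v 19)))))) (.add (.add (.mul (.c (-1500)) (.mul (.mul (.v 2) (.v 2)) (.v 19))) (.add (.mul (.c (51)) (.mul (.v 7) (.v 13))) (.mul (.c (1500)) (.mul (.v 11) (.v 11))))) (.add (.mul (.c (-369)) (.mul (.v 7) (.v 19))) (.add (.mul (.c (-1479)) (.mul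 (.v 11) (.v 13))) (.mul (.c (891)) (.mul (.v 13) (.v 13)))))))) (.add (.add (.add (.add (.mul (.c (-1059)) (.mul (.v 11) (.v 17))) (.mul (.c (501)) (.mul (.v 13) (.v 17)))) (.add (.mul (.c (-693)) (.mul (.v 13) (.v 19))) (.add (.mul (.c (891)) (.mul (.v 17) (.v 17))) (.mul (.c (-324)) (.mul (.v 17) (.v 19)))))) (.add (.add (.mul (.c (321)) (.mul (.mul (.v 2) (.v 13)) (.v 13))) (.add (.mul (.c (225)) (.mul (.v 19) (.v 19))) (.mul (.c (-819)) (.mul (.mul (.v 2) (.v 13)) (.v 19))))) (.add (.mul (.c (321)) (.mul (.mul (.v 3) (.v 13)) (.v 13))) (.add (.mul (.c (642)) (.mul (.mul (.v 2) (.v 17)) (.v 17))) (.mul (.c (-1500)) (.mul (.mul (.v 7) (.v 7)) (.v 13))))))) (.add (.add (.add (.mul (.c (-1638)) (.mul (.mul (.v 2) (.v 17)) (.v 19))) (.add (.mul (.c (963)) (.mul (.mul (.v 2) (.v 19)) (.v 19))) (.mul (.c (-819)) (.mul (.mul (.v 3) (.v 13)) (.v 19))))) (.add (.mul (.c (321)) (.mul (.mul (.v 3) (.v 19)) (.v 19))) (.add (.mul (.c (-321))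 (.mul (.mul (.v 7) (.v 13)) (.v 13))) (.mul (.c (819)) (.mul (.mul (.v 7) (.v 13)) (.v 19)))))) (.add (.add (.mul (.c (-1500)) (.mul (.mul (.v 11) (.v 11)) (.v 17))) (.add (.mul (.c (594)) (.mul (.mul (.v 11) (.v 13)) (.v 17))) (.mul (.c (-321)) (.mul (.mul (.v 7) (.v 19)) (.v 19))))) (.add (.mul (.c (-321)) (.mul (.mul (.v 13) (.v 13)) (.v 19))) (.add (.mul (.c (819)) (.mul (.mul (.v 13) (.v 19)) (.v 19))) (.mul (.c (-321)) (.mul (.mul (.v 19) (.v 19)) (.v 19))))))))))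
    (e := (.add (.add (.add (.add (.add (.mul (.pp [(1, 2179050)]) (.sq [(1, 1), (2, -18), (3, -34), (5, 44), (7, 10), (11, 100), (13, -70), (17, -14), (19, -2)])) (.mul (.pp [(1, 13354650)]) (.sq [(1, -85), (2, 59), (3, 22), (5, 29), (7, 100), (11, -19), (13, -23), (17, 4)]))) (.add (.mul (.pp [(1, 12225000)]) (.sq [(1, -3), (2, -21), (5, -28), (7, 19), (11, 90), (13, -100), (17, -96), (19, 21)])) (.add (.mul (.g 6) (.add (.add (.add (.mul (.pp [(1, 3682800)]) (.sq [(1, -18), (2, -65), (3, -32), (5, -26), (7, 66), (11, -61), (13, 100), (17, 75), (19, 2)])) (.add (.mul (.pp [(1, 9159900)]) (.sq [(1, -4), (2, -34), (3, 40), (5, 13), (7, -36), (11, -17), (13, 4), (17, 1), (19, 100)])) (.mul (.pp [(1, 2909700)]) (.sq [(1, -1), (2, -6), (3, -2), (5, 4), (7, -17), (13, -13), (17, 100), (19, -37)])))) (.add (.add (.mul (.pp [(1, 4189200)]) (.sq [(2, 57), (3, 100), (7, -21), (11, -70), (13, 97), (17, 48), (19, -10)])) (.mul (.pp [(1,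 2538150)]) (.sq [(3, -100), (5, -1), (7, -57), (11, -6), (13, 99), (17, 15), (19, 43)]))) (.add (.mul (.g 10) (.add (.add (.mul (.g 0) (.pp [(1, 1090500000)])) (.add (.mul (.g 2) (.pp [(1, 49560000)])) (.mul (.g 4) (.pp [(1, 503940000)])))) (.add (.add (.mul (.g 5) (.pp [(1, 4860000)])) (.mul (.g 12) (.pp [(1, 1692720000)]))) (.add (.mul (.g 16) (.pp [(1, 1378380000)])) (.mul (.g 18) (.pp [(1, 1363200000)])))))) (.mul (.g 18) (.add (.add (.mul (.g 0) (.pp [(1, 84441000000)])) (.mul (.g 7) (.pp [(1, 168334500000)]))) (.add (.mul (.g 11) (.pp [(1, 15876000000)])) (.add (.mul (.g 13) (.pp [(1, 20553300000)])) (.mul (.g 16) (.pp [(1, 81508500000)]))))))))) (.add (.add (.add (.mul (.g 5) (.add (.add (.mul (.g 5) (.pp [(1, 4933500000)])) (.mul (.g 6) (.pp [(1, 115288500000)]))) (.add (.mul (.g 7) (.pp [(1, 43167000000)])) (.mul (.g 9) (.pp [(1, 8631000000)]))))) (.mul (.g 11) (.add (.pp [(1, 58999500000)]) (.add (.mul (.g 7) (.pp [(1,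 119865000000)])) (.mul (.g 16) (.pp [(1, 89017500000)])))))) (.add (.mul (.g 12) (.add (.pp [(1, 257674500000)]) (.add (.mul (.g 4) (.pp [(1, 221983500000)])) (.mul (.g 9) (.pp [(1, 144255000000)]))))) (.mul (.g 15) (.add (.mul (.g 6) (.pp [(1, 33105000000)])) (.add (.mul (.g 7) (.pp [(1, 24651900000)])) (.mul (.g 13) (.pp [(1, 2288040000)]))))))) (.add (.add (.mul (.g 0) (.add (.pp [(1, 78919500000)]) (.mul (.g 14) (.pp [(1, 13620300000)])))) (.mul (.g 4) (.mul (.g 14) (.pp [(1, 23553600000)])))) (.add (.mul (.g 6) (.pp [(1, 56236500000)])) (.mul (.g 13) (.mul (.g 16) (.pp [(1, 29275200000)])))))))) (.mul (.g 0) (.add (.add (.add (.mul (.pp [(1, 4731150)]) (.sq [(1, -18), (2, -43), (3, -7), (5, -5), (7, 56), (11, 100), (13, -11), (17, 27), (19, -16)])) (.add (.mul (.pp [(1, 8012700)]) (.sq [(2, 5), (3, -7), (5, 20), (7, 20), (11, 100), (13, -100), (17, 1), (19, -10)])) (.mul (.pp [(1, 2729550)]) (.sq [(13, 100), (17, -43), (19,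 -57)])))) (.add (.mul (.pp [(1, 4806300)]) (.sq [(2, 33), (3, -23), (5, -27), (7, -1), (11, -50), (13, -100), (17, -100), (19, 16)])) (.add (.mul (.pp [(1, 587380800)]) (.sq [(13, 2), (17, -25), (19, 23)])) (.mul (.g 7) (.add (.add (.mul (.g 3) (.pp [(1, 102663000000)])) (.add (.mul (.g 4) (.pp [(1, 229899000000)])) (.mul (.g 7) (.pp [(1, 47446500000)])))) (.add (.mul (.g 8) (.pp [(1, 795450000)])) (.add (.mul (.g 10) (.pp [(1, 282960000)])) (.mul (.g 13) (.pp [(1, 114564300000)]))))))))) (.add (.add (.mul (.g 8) (.add (.add (.mul (.g 0) (.pp [(1, 14099700000)])) (.mul (.g 4) (.pp [(1, 1932000000)]))) (.add (.mul (.g 5) (.pp [(1, 14104950000)])) (.add (.mul (.g 11) (.pp [(1, 15661350000)])) (.mul (.g 18) (.pp [(1, 12226800000)])))))) (.add (.mul (.g 16) (.add (.add (.mul (.g 0) (.pp [(1, 536892000000)])) (.mul (.g 5) (.pp [(1, 322899000000)]))) (.add (.mul (.g 9) (.pp [(1, 203226000000)])) (.add (.mul (.g 12) (.pp [(1, 46888500000)]))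 (.mul (.g 15) (.pp [(1, 6017400000)])))))) (.mul (.g 1) (.add (.mul (.g 9) (.pp [(1, 172560000000)])) (.add (.mul (.g 10) (.pp [(1, 2555640000)])) (.mul (.g 18) (.pp [(1, 28474500000)]))))))) (.add (.mul (.g 2) (.add (.mul (.g 0) (.pp [(1, 22395000000)])) (.add (.mul (.g 5) (.pp [(1, 3988500000)])) (.mul (.g 10) (.pp [(1, 1766220000)]))))) (.add (.mul (.g 4) (.mul (.g 10) (.pp [(1, 2445900000)]))) (.mul (.g 11) (.pp [(1, 63126000000)])))))))))) (.add (.add (.mul (.g 7) (.add (.add (.add (.mul (.pp [(1, 3936900)]) (.sq [(2, -24), (3, 35), (5, 67), (11, -77), (13, -1), (17, -24), (19, 100)])) (.mul (.pp [(1, 4317600)]) (.sq [(1, -10), (2, -26), (3, -45), (5, -6), (7, -41), (11, -50), (13, 15), (17, 97), (19, 100)]))) (.add (.mul (.pp [(1, 17875350)]) (.sq [(2, -12), (3, 22), (5, -21), (7, -10), (11, -24), (13, -58), (17, 100), (19, 8)])) (.add (.mul (.pp [(1, 18659625000)]) (.sq [(2, 1), (3, 1), (5, -1), (11, -1), (13, 1), (17, -1),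 (19, 2)])) (.mul (.g 16) (.add (.add (.mul (.g 2) (.pp [(1, 67359000000)])) (.mul (.g 7) (.pp [(1, 137605500000)]))) (.add (.mul (.g 8) (.pp [(1, 2770200000)])) (.add (.mul (.g 9) (.pp [(1, 32962500000)])) (.mul (.g 13) (.pp [(1, 13928400000)]))))))))) (.add (.add (.mul (.g 5) (.add (.add (.mul (.g 4) (.pp [(1, 96615000000)])) (.mul (.g 7) (.pp [(1, 45985500000)]))) (.add (.mul (.g 10) (.pp [(1, 2724000000)])) (.mul (.g 18) (.pp [(1, 157953000000)]))))) (.add (.mul (.g 2) (.add (.pp [(1, 32778000000)]) (.add (.mul (.g 10) (.pp [(1, 2111640000)])) (.mul (.g 18) (.pp [(1, 101299500000)]))))) (.mul (.g 12) (.add (.mul (.g 11) (.pp [(1, 25332000000)])) (.add (.mul (.g 15) (.pp [(1, 52585200000)])) (.mul (.g 18) (.pp [(1, 143824500000)]))))))) (.add (.mul (.g 7) (.mul (.g 15) (.pp [(1, 32635800000)]))) (.add (.mul (.g 11) (.pp [(1, 399390000000)])) (.mul (.g 13) (.mul (.g 14) (.pp [(1, 6839880000)])))))))) (.add (.mul (.g 11) (.add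 (.add (.add (.mul (.pp [(1, 6610500)]) (.sq [(2, 37), (3, 1), (5, 4), (11, -65), (13, -1), (17, 81), (19, -100)])) (.mul (.pp [(1, 3310200)]) (.sq [(2, 25), (3, 32), (5, -26), (7, -25), (11, -10), (13, 100), (17, -87), (19, 25)]))) (.add (.mul (.pp [(1, 3085050)]) (.sq [(2, 69), (3, 2), (5, -96), (7, 1), (11, 100), (13, 12), (17, 83), (19, 23)])) (.mul (.pp [(1, 90228000000)]) (.sq [(13, 1), (19, -1)])))) (.add (.add (.mul (.g 5) (.add (.add (.pp [(1, 191548500000)]) (.mul (.g 3) (.pp [(1, 547339500000)]))) (.add (.mul (.g 12) (.pp [(1, 181759500000)])) (.add (.mul (.g 16) (.pp [(1, 80308500000)])) (.mul (.g 18) (.pp [(1, 214290000000)])))))) (.mul (.g 2) (.add (.add (.pp [(1, 44926500000)]) (.mul (.g 4) (.pp [(1, 46185000000)]))) (.add (.mul (.g 8) (.pp [(1, 1476000000)])) (.mul (.g 11) (.pp [(1, 48031500000)])))))) (.add (.mul (.g 11) (.add (.pp [(1, 80980500000)]) (.add (.mul (.g 1) (.pp [(1, 81355500000)])) (.mul (.g 11) (.pp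 [(1, 138601500000)]))))) (.mul (.g 1) (.mul (.g 18) (.pp [(1, 30412500000)]))))))) (.mul (.g 18) (.add (.add (.add (.mul (.pp [(1, 3522000)]) (.sq [(1, -32), (2, 18), (3, -21), (5, -45), (7, 100), (11, -10), (13, -15), (17, 5), (19, -4)])) (.mul (.pp [(1, 2674650)]) (.sq [(2, -23), (3, 1), (5, 91), (7, -83), (11, 100), (13, 3), (17, 41), (19, -57)]))) (.add (.mul (.pp [(1, 670500)]) (.sq [(1, -27), (2, -9), (3, 17), (5, 70), (7, 100), (11, 26), (13, -67), (17, 18), (19, -27)])) (.mul (.pp [(1, 155550)]) (.sq [(1, -30), (2, 100), (3, 56), (5, 13), (7, -25), (11, 73), (13, 28), (17, -22), (19, -44)])))) (.add (.add (.mul (.pp [(1, 5152650)]) (.sq [(2, -76), (3, 55), (5, 6), (7, 100), (11, 4), (13, 19), (17, 3), (19, -25)])) (.mul (.g 13) (.add (.mul (.g 5) (.pp [(1, 1718100000)])) (.add (.mul (.g 8) (.pp [(1, 3491535000)])) (.mul (.g 16) (.pp [(1, 4697100000)])))))) (.add (.mul (.g 1) (.mul (.g 10) (.pp [(1, 298680000)]))) (.add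 (.mul (.g 2) (.mul (.g 5) (.pp [(1, 14004000000)]))) (.mul (.g 4) (.mul (.g 16) (.pp [(1, 14881500000)])))))))))) (.add (.mul (.g 2) (.add (.add (.mul (.pp [(1, 5403000)]) (.sq [(1, -15), (2, -32), (3, -49), (5, -17), (7, 100), (11, 11), (13, -29), (17, -3), (19, -4)])) (.mul (.pp [(1, 101850)]) (.sq [(2, -12), (3, 7), (5, -38), (7, -12), (11, 100), (17, -3), (19, -1)]))) (.add (.mul (.pp [(1, 82500)]) (.sq [(2, -33), (3, 90), (7, -1), (11, 63), (17, -100), (19, 1)])) (.add (.mul (.g 10) (.add (.add (.pp [(1, 2901300000)]) (.mul (.g 5) (.pp [(1, 67200000)]))) (.add (.mul (.g 9) (.pp [(1, 655980000)])) (.mul (.g 12) (.pp [(1, 926700000)]))))) (.mul (.g 4) (.add (.mul (.g 5) (.pp [(1, 41193000000)])) (.mul (.g 16) (.pp [(1, 36642000000)])))))))) (.add (.mul (.g 5) (.add (.mul (.pp [(1, 7027050)]) (.sq [(1, -27), (2, 28), (3, -13), (5, -42), (11, 100), (13, -53), (17, -45), (19, 23)])) (.add (.mul (.pp [(1, 10793850)]) (.sq [(2, -37),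 (3, -37), (5, -4), (7, 61), (11, -11), (13, -51), (17, -11), (19, 100)])) (.mul (.g 5) (.add (.add (.mul (.g 1) (.pp [(1, 8716500000)])) (.mul (.g 10) (.pp [(1, 3022680000)]))) (.add (.mul (.g 13) (.pp [(1, 3539400000)])) (.mul (.g 16) (.pp [(1, 54487500000)])))))))) (.mul (.g 4) (.add (.mul (.pp [(1, 689400)]) (.sq [(1, -50), (2, -50), (3, 36), (5, -15), (7, 100), (11, -5), (13, -81), (17, 17), (19, -2)])) (.add (.mul (.pp [(1, 15507150)]) (.sq [(2, -18), (3, -37), (5, -7), (7, 72), (11, 3), (13, -53), (17, 12), (19, 100)])) (.mul (.g 4) (.add (.mul (.g 4) (.pp [(1, 1672500000)])) (.add (.mul (.g 14) (.pp [(1, 61253100000)])) (.mul (.g 16) (.pp [(1, 1581000000)])))))))))))) (.add (.add (.add (.mul (.g 13) (.add (.add (.mul (.pp [(1, 13088700000)]) (.sq [(11, 1), (17, -1)])) (.mul (.pp [(1, 417480)]) (.sq [(1, -54), (2, -29), (3, 27), (5, 76), (7, 33), (11, 25), (13, -100), (17, 44), (19, -85)]))) (.add (.mul (.pp [(1, 183810)])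 (.sq [(1, -15), (2, -8), (3, 87), (5, 13), (7, -60), (11, 23), (13, -88), (17, 49), (19, 100)])) (.mul (.pp [(1, 970680)]) (.sq [(1, -100), (2, 68), (3, 62), (5, 14), (7, 75), (11, 32), (13, -21), (17, -4), (19, 22)]))))) (.mul (.g 14) (.add (.add (.mul (.pp [(1, 591960)]) (.sq [(2, 72), (3, 34), (5, -23), (7, -11), (11, -100), (13, 3), (17, 88), (19, 11)])) (.mul (.pp [(1, 1295520)]) (.sq [(1, -17), (2, 10), (3, 12), (5, 16), (7, -10), (11, 100), (13, -22), (17, 7)]))) (.add (.mul (.pp [(1, 3313740)]) (.sq [(2, 41), (11, 100), (13, -100), (17, -41)])) (.mul (.pp [(1, 1179330)]) (.sq [(2, 78), (3, 27), (5, -1), (7, -40), (11, 2), (13, 39), (17, 39), (19, 100)])))))) (.add (.mul (.g 1) (.add (.mul (.pp [(1, 2971950)]) (.sq [(2, -40), (3, 11), (5, 2), (7, 8), (11, -95), (13, 51), (17, 100), (19, 34)])) (.add (.mul (.pp [(1, 1349850)]) (.sq [(3, -1), (5, 58), (7, -1), (11, 100), (13, -4), (17, 19), (19, -1)])) (.mul (.pp [(1, 1148700)])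 (.sq [(1, -51), (2, -100), (3, 97), (5, -29), (7, -11), (11, 4), (13, -10), (17, -14), (19, 47)]))))) (.add (.mul (.g 8) (.add (.mul (.pp [(1, 19635)]) (.sq [(1, -79), (2, -85), (3, 88), (5, 24), (7, 6), (11, -94), (13, 100), (17, 91), (19, 14)])) (.add (.mul (.pp [(1, 762975)]) (.sq [(1, -28), (2, -35), (3, 19), (5, -2), (7, 4), (11, 100), (13, -19), (19, -1)])) (.mul (.pp [(1, 359400)]) (.sq [(1, -89), (2, 3), (3, 33), (5, -25), (7, 100), (11, -41), (13, -29), (17, 9), (19, 13)]))))) (.mul (.g 15) (.add (.mul (.pp [(1, 1881990)]) (.sq [(1, -18), (2, 8), (3, 16), (5, 8), (7, -11), (11, 100), (13, -22), (17, -16), (19, 29)])) (.add (.mul (.pp [(1, 1426800)]) (.sq [(1, -98), (2, 76), (3, 43), (5, 19), (7, 100), (11, -23), (13, -5), (17, 16), (19, 12)])) (.mul (.pp [(1, 671340)]) (.sq [(1, -5), (2, 43), (3, 88), (5, -73), (7, -74), (11, -16), (13, 100), (17, 32), (19, 78)])))))))) (.add (.add (.mul (.g 3) (.add (.mul (.pp [(1, 2812050)])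 (.sq [(1, -40), (2, -4), (3, -14), (5, -76), (7, 100), (11, 1), (13, -28), (17, 2), (19, -4)])) (.mul (.pp [(1, 4657500)]) (.sq [(1, -1), (2, -19), (3, -15), (5, 10), (7, 11), (11, -73), (13, 50), (17, 100), (19, -34)])))) (.add (.mul (.g 9) (.add (.mul (.pp [(1, 746550)]) (.sq [(2, -62), (3, -8), (5, -2), (7, 22), (11, 100), (13, -77), (17, 87), (19, 65)])) (.mul (.pp [(1, 412800)]) (.sq [(2, 2), (5, -92), (11, 72), (13, 1), (17, -100)])))) (.mul (.g 12) (.add (.mul (.pp [(1, 336900)]) (.sq [(1, 29), (2, 31), (3, -29), (5, -11), (7, -4), (11, -74), (13, 100), (17, 7), (19, 14)])) (.mul (.pp [(1, 3370050)]) (.sq [(1, -78), (2, 45), (3, -1), (5, 84), (7, 100), (13, -30), (17, -2), (19, 1)])))))) (.add (.mul (.g 16) (.add (.mul (.pp [(1, 1648200)]) (.sq [(1, -36), (2, 9), (3, -35), (5, -40), (7, 100), (11, 9), (13, -32), (17, -23), (19, 18)])) (.mul (.pp [(1, 748050)]) (.sq [(1, -100), (2, -4), (3, 79), (5, -58), (7, 85), (11, 39),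 (13, -36), (17, -12), (19, -35)])))) (.add (.mul (.g 10) (.mul (.pp [(1, 6894)]) (.sq [(2, -97), (3, -7), (5, 100), (7, 13), (11, -73), (13, 89), (17, 6), (19, -32)]))) (.mul (.g 17) (.pp [(1, 382459875000)]))))))) (.pp [(1, 39145539735), (2, 15549330), (3, 13876860), (4, 14855106), (5, 15796080), (6, 16270662), (7, 15317580), (8, 15027700), (9, 15312681), (10, 13945800), (11, 15819840), (12, 15411150), (13, 13896780), (14, 13332492), (15, 15011700), (17, 14058630), (18, 13876050), (19, 15358140), (20, 14608050), (21, 15662772), (22, 15896748), (25, 15072990), (26, 16749306), (27, 15302250), (28, 15084000), (30, 15364800), (33, 14278728), (34, 14334654), (35, 14326680), (38, 13843842), (39, 16148886), (42, 16101300), (44, 13758750), (45, 14450400), (49, 15318066), (50, 15080550), (51, 16394664), (52, 15223350), (55, 11040120), (57, 15797142), (63, 13557900), (65, 15501600), (66, 17178300), (68, 15398700), (70, 14806200), (75, 14581500),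 (76, 16770450), (77, 14791188), (78, 14093100), (85, 15211080), (91, 15358956), (95, 14854860), (98, 15512100), (99, 15643200), (102, 15523200), (105, 15962400), (110, 16884600), (114, 13904400), (117, 14815050), (119, 14879664), (121, 15116826), (125, 14961600), (130, 14652900), (133, 12835632), (143, 15766284), (147, 15321300), (153, 14818350), (154, 11945100), (165, 13736100), (169, 15907569), (170, 16002600), (171, 15164550), (175, 14496000), (182, 13860300), (187, 15979896), (190, 14775000), (195, 14844300), (209, 15744048), (221, 15322752), (231, 14851200), (238, 15374100), (242, 14723850), (245, 14509050), (247, 15693966), (255, 14792700), (266, 15672600), (273, 14550600), (275, 15844350), (285, 15128700), (286, 16520100), (289, 16627809), (323, 15930204), (325, 15462450), (338, 15267450), (343, 15019950), (357, 15720600), (361, 14134701), (363, 14511450), (374, 15856200), (385, 18663600), (399, 16680300), (418, 13419300),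 (425, 14699400), (429, 15068400), (442, 16691400), (455, 15159600), (475, 15544650), (494, 14043300), (507, 14950800), (539, 14697300), (561, 13502400), (578, 15888600), (595, 16754400), (605, 15111150), (627, 14045700), (637, 15364650), (646, 14243400), (663, 15693900), (665, 14238300), (715, 14538300), (722, 15454050), (741, 12851400), (833, 13579950), (845, 14878350), (847, 14682600), (867, 14800500), (931, 16165200), (935, 15495000), (969, 15198600), (1001, 14678100), (1045, 16040700), (1083, 14627250), (1105, 15631500), (1183, 13959000), (1235, 15618300), (1309, 15249600), (1331, 15565050), (1445, 14581350), (1463, 15395400), (1547, 15022800), (1573, 14367900), (1615, 14822700), (1729, 15825900), (1805, 14661150), (1859, 15053550), (2023, 13868550), (2057, 15878100), (2197, 14685300), (2261, 14202900), (2299, 13821600), (2431, 14577000), (2527, 15275550), (2717, 15994800), (2873, 15848400), (3179, 15767100), (3211, 14038200),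 (3553, 14998200), (3757, 15095550), (3971, 15713550), (4199, 13438200), (4693, 15823350), (4913, 13972500), (5491, 15433800), (6137, 15679950), (6859, 13947000)])))
    (by decide +kernel) (yv_nonneg h1 h2 h3 h4 h5 h6 h7 h8 (le_refl 0))
    (by
      simp only [List.forall_mem_cons, exadd, exsub, exmul, exc, exv2, exv3, exv5, exv7, exv11, exv13, exv17, exv19]
      push_cast
      refine ⟨?_, ?_, ?_, ?_, ?_, ?_, ?_, ?_, ?_, ?_, ?_, ?_, ?_, ?_, ?_, ?_, ?_, ?_, ?_, fun _ hh => absurd hh List.not_mem_nil⟩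
      · linarith [h1]
      · linarith [h2]
      · linarith [h3]
      · linarith [h4]
      · linarith [h5]
      · linarith [h6]
      · linarith [h7]
      · linarith [h8]
      · linarith [kw]
      · linarith [kdF]
      · linarith [kf]
      · linarith [kua]
      · linarith [kub]
      · linarith [kda]
      · linarith [kdb]
      · linarith [kde]
      · linarith [s1]
      · linarith [s2]
      · linarith [s3]
    )
  simp only [exadd, exsub, exmul, exc, exv2, exv3, exv5, exv7, exv11, exv13, exv17, exv19] at h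
  push_cast at h
  linarith [h]

theorem colB2m {w dF f ua ub da db de : ℝ} (h1 : 0 ≤ w) (h2 : 0 ≤ dF) (h3 : 0 ≤ f) (h4 : 0 ≤ ua) (h5 : 0 ≤ ub) (h6 : 0 ≤ da) (h7 : 0 ≤ db) (h8 : 0 ≤ de) (kw : 0 ≤ 13 / 20 - w) (kdF : 0 ≤ 1 - dF) (kf : 0 ≤ 9 / 25 - f) (kua : 0 ≤ 1 - ua) (kub : 0 ≤ 1 - ub) (kda : 0 ≤ 3 / 5 - da) (kdb : 0 ≤ 3 / 5 - db) (kde : 0 ≤ 3 / 5 - de) (s1 : 0 ≤ dF - de) (s2 : 0 ≤ 1 / 4 * w - f + 1 / 2 * w ^ 2 - 1 / 2 * w * dF - 1 / 2 * w ^ 2 * dF + 1 / 4 * w * dF ^ 2) (s3 : 0 ≤ -w + dF - ua - de) :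
    0 ≤ 333 / 1000 + 173 / 1000 * w - f - 153 / 200 * ua - 1 / 40 * ub + 39 / 125 * da + 39 / 125 * db + 299 / 1000 * de + 1 / 2 * w ^ 2 + 123 / 500 * w * da + 123 / 500 * w * db + 44 / 125 * w * de + 1 / 2 * ua ^ 2 + 7 / 50 * ua * da + 1 / 2 * ub ^ 2 - 493 / 1000 * ub * da - 353 / 1000 * ub * db + 297 / 1000 * da ^ 2 + 167 / 1000 * da * db - 27 / 250 * da * de + 297 / 1000 * db ^ 2 - 27 / 250 * db * de + 99 / 500 * de ^ 2 - 1 / 3 * w ^ 3 - 1 / 2 * w ^ 2 * de + 107 / 500 * w * da ^ 2 - 273 / 500 * w * da * de + 107 / 500 * w * db ^ 2 - 273 / 500 * w * db * de + 107 / 250 * w * de ^ 2 - 1 / 2 * ua ^ 2 * da - 1 / 2 * ub ^ 2 * db + 99 / 500 * ub * da * db := by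
  have h := cert (y := yv w dF f ua ub da db de 0)
    (gs := [(.v 2),
      (.v 3),
      (.v 5),
      (.v 7),
      (.v 11),
      (.v 13),
      (.v 17),
      (.v 19),
      (.add (.c (13)) (.mul (.c (-20)) (.v 2))),
      (.add (.c (1)) (.mul (.c (-1)) (.v 3))),
      (.add (.c (9)) (.mul (.c (-25)) (.v 5))),
      (.add (.c (1)) (.mul (.c (-1)) (.v 7))),
      (.add (.c (1)) (.mul (.c (-1)) (.v 11))),
      (.add (.c (3)) (.mul (.c (-5)) (.v 13))),
      (.add (.c (3)) (.mul (.c (-5)) (.v 17))),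
      (.add (.c (3)) (.mul (.c (-5)) (.v 19))),
      (.add (.v 3) (.mul (.c (-1)) (.v 19))),
      (.add (.add (.v 2) (.add (.mul (.c (2)) (.mul (.v 2) (.v 2))) (.mul (.c (-4)) (.v 5)))) (.add (.mul (.c (-2)) (.mul (.v 2) (.v 3))) (.add (.mul (.c (-2)) (.mul (.mul (.v 2) (.v 2)) (.v 3))) (.mul (.mul (.v 2) (.v 3)) (.v 3))))),
      (.add (.add (.mul (.c (-1)) (.v 2)) (.v 3)) (.add (.mul (.c (-1)) (.v 7)) (.mul (.c (-1)) (.v 19))))])
    (p := .mul (.c 500000000) (.add (.add (.add (.add (.add (.c (999)) (.mul (.c (519)) (.v 2))) (.add (.mul (.c (1500)) (.mul (.v 2) (.v 2))) (.mul (.c (-3000)) (.v 5)))) (.add (.add (.mul (.c (-2295)) (.v 7)) (.mul (.c (-1000)) (.mul (.mul (.v 2) (.v 2)) (.v 2)))) (.add (.mul (.c (-75)) (.v 11)) (.mul (.c (936)) (.v 13))))) (.add (.add (.add (.mul (.c (936)) (.v 17)) (.mul (.c (897)) (.v 19))) (.add (.mul (.c (738)) (.mul (.v 2) (.v 13))) (.mul (.c (738)) (.mul (.v 2) (.v 17))))) (.add (.add (.mul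 (.c (1056)) (.mul (.v 2) (.v 19))) (.mul (.c (1500)) (.mul (.v 7) (.v 7)))) (.add (.mul (.c (-1500)) (.mul (.mul (.v 2) (.v 2)) (.v 19))) (.mul (.c (420)) (.mul (.v 7) (.v 13))))))) (.add (.add (.add (.add (.mul (.c (1500)) (.mul (.v 11) (.v 11))) (.mul (.c (-1479)) (.mul (.v 11) (.v 13)))) (.add (.mul (.c (891)) (.mul (.v 13) (.v 13))) (.mul (.c (-1059)) (.mul (.v 11) (.v 17))))) (.add (.add (.mul (.c (501)) (.mul (.v 13) (.v 17))) (.mul (.c (-324)) (.mul (.v 13) (.v 19)))) (.add (.mul (.c (891)) (.mul (.v 17) (.v 17))) (.mul (.c (-324)) (.mul (.v 17) (.v 19)))))) (.add (.add (.add (.mul (.c (642)) (.mul (.mul (.v 2) (.v 13)) (.v 13))) (.mul (.c (594)) (.mul (.v 19) (.v 19)))) (.add (.mul (.c (-1638)) (.mul (.mul (.v 2) (.v 13)) (.v 19))) (.mul (.c (642)) (.mul (.mul (.v 2) (.v 17)) (.v 17))))) (.add (.add (.mul (.c (-1500)) (.mul (.mul (.v 7) (.v 7)) (.v 13))) (.mul (.c (-1638)) (.mul (.mul (.v 2) (.v 17)) (.v 19)))) (.add (.mul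 (.c (1284)) (.mul (.mul (.v 2) (.v 19)) (.v 19))) (.add (.mul (.c (-1500)) (.mul (.mul (.v 11) (.v 11)) (.v 17))) (.mul (.c (594)) (.mul (.mul (.v 11) (.v 13)) (.v 17))))))))))
    (e := (.add (.add (.add (.add (.add (.mul (.pp [(1, 3774900)]) (.sq [(1, 48), (2, 41), (3, 48), (5, 2), (7, -90), (11, -100), (13, 91), (17, 1), (19, 6)])) (.mul (.g 0) (.add (.add (.add (.mul (.pp [(1, 185666400)]) (.sq [(13, 2), (17, -25), (19, 23)])) (.add (.mul (.pp [(1, 3710400)]) (.sq [(2, 100), (3, 24), (5, -3), (7, 33), (11, 65), (13, 85), (17, 18), (19, -46)])) (.mul (.pp [(1, 11385000)]) (.sq [(13, 100), (17, -43), (19, -57)])))) (.add (.add (.mul (.pp [(1, 12473100)]) (.sq [(1, 1), (2, 100), (5, 100), (7, -5), (11, -5), (19, -1)])) (.mul (.g 3) (.add (.add (.pp [(1, 31467000000)]) (.add (.mul (.g 0) (.pp [(1, 253008000000)])) (.mul (.g 2) (.pp [(1, 58830000000)])))) (.add (.add (.mul (.g 5) (.pp [(1, 307851000000)])) (.mul (.g 9) (.pp [(1,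 750570000000)]))) (.add (.mul (.g 14) (.pp [(1, 13624500000)])) (.mul (.g 18) (.pp [(1, 378367500000)]))))))) (.add (.mul (.g 4) (.add (.add (.mul (.g 5) (.pp [(1, 89653500000)])) (.add (.mul (.g 6) (.pp [(1, 203223000000)])) (.mul (.g 7) (.pp [(1, 102166500000)])))) (.add (.add (.mul (.g 8) (.pp [(1, 1393425000)])) (.mul (.g 10) (.pp [(1, 532920000)]))) (.add (.mul (.g 11) (.pp [(1, 22500000)])) (.mul (.g 18) (.pp [(1, 9231000000)])))))) (.mul (.g 5) (.add (.add (.pp [(1, 408291000000)]) (.mul (.g 0) (.pp [(1, 117085500000)]))) (.add (.mul (.g 2) (.pp [(1, 18621000000)])) (.add (.mul (.g 5) (.pp [(1, 268300500000)])) (.mul (.g 16) (.pp [(1, 158122500000)]))))))))) (.add (.add (.mul (.g 6) (.add (.add (.pp [(1, 710848500000)]) (.mul (.g 0) (.pp [(1, 75136500000)]))) (.add (.mul (.g 10) (.pp [(1, 8633580000)])) (.add (.mul (.g 14) (.pp [(1, 2179800000)])) (.mul (.g 16) (.pp [(1, 229546500000)])))))) (.add (.mul (.g 18) (.add (.add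 (.mul (.g 0) (.pp [(1, 902199000000)])) (.mul (.g 7) (.pp [(1, 236092500000)]))) (.add (.mul (.g 9) (.pp [(1, 890814000000)])) (.add (.mul (.g 10) (.pp [(1, 3053160000)])) (.mul (.g 18) (.pp [(1, 240823500000)])))))) (.mul (.g 2) (.add (.pp [(1, 62610000000)]) (.add (.mul (.g 1) (.pp [(1, 114514500000)])) (.mul (.g 10) (.pp [(1, 104197620000)]))))))) (.add (.add (.mul (.g 11) (.add (.mul (.g 8) (.pp [(1, 18647550000)])) (.mul (.g 16) (.pp [(1, 36357000000)])))) (.mul (.g 0) (.mul (.g 10) (.pp [(1, 13084980000)])))) (.add (.mul (.g 7) (.pp [(1, 836547000000)])) (.mul (.g 15) (.mul (.g 16) (.pp [(1, 29406900000)]))))))))) (.add (.mul (.g 5) (.add (.add (.add (.mul (.pp [(1, 3726450)]) (.sq [(2, -43), (3, -51), (5, -20), (7, -75), (11, 100), (13, -9), (17, -65), (19, 64)])) (.add (.mul (.pp [(1, 1504800)]) (.sq [(1, -16), (2, 58), (3, -77), (5, -1), (7, 29), (11, 76), (13, 100), (17, -82), (19, -16)])) (.mul (.pp [(1, 1590600)]) (.sq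 [(1, 15), (2, -90), (3, -28), (7, 41), (11, -42), (13, 90), (17, 25), (19, 100)])))) (.add (.mul (.pp [(1, 3049800)]) (.sq [(2, -19), (3, -34), (5, 96), (7, -21), (11, -40), (13, -12), (17, 100), (19, 5)])) (.add (.mul (.g 7) (.add (.add (.pp [(1, 36583500000)]) (.add (.mul (.g 4) (.pp [(1, 132726000000)])) (.mul (.g 7) (.pp [(1, 304936500000)])))) (.add (.mul (.g 10) (.pp [(1, 987600000)])) (.add (.mul (.g 14) (.pp [(1, 5158500000)])) (.mul (.g 18) (.pp [(1, 97122000000)])))))) (.mul (.g 6) (.add (.add (.mul (.g 5) (.pp [(1, 331615500000)])) (.mul (.g 9) (.pp [(1, 175753500000)]))) (.add (.mul (.g 12) (.pp [(1, 457257000000)])) (.mul (.g 18) (.pp [(1, 252715500000)])))))))) (.add (.add (.mul (.g 2) (.add (.mul (.g 10) (.pp [(1, 11612340000)])) (.add (.mul (.g 12) (.pp [(1, 3696000000)])) (.mul (.g 18) (.pp [(1, 128722500000)]))))) (.add (.mul (.g 9) (.add (.pp [(1, 401644500000)]) (.add (.mul (.g 1) (.pp [(1, 90834000000)])) (.mul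 (.g 13) (.pp [(1, 10148700000)]))))) (.mul (.g 5) (.add (.mul (.g 5) (.pp [(1, 2269500000)])) (.mul (.g 10) (.pp [(1, 464760000)])))))) (.add (.mul (.g 18) (.add (.mul (.g 1) (.pp [(1, 122407500000)])) (.mul (.g 3) (.pp [(1, 314890500000)])))) (.add (.mul (.g 11) (.mul (.g 14) (.pp [(1, 75210900000)]))) (.mul (.g 12) (.mul (.g 12) (.pp [(1, 11835000000)])))))))) (.add (.mul (.g 2) (.add (.add (.add (.mul (.pp [(1, 81531750)]) (.sq [(2, -7), (3, 50), (5, 71), (7, -55), (11, -6), (13, 5), (19, 100)])) (.add (.mul (.pp [(1, 8901900)]) (.sq [(3, 19), (5, -30), (7, 89), (11, 100), (13, 46), (17, -36), (19, 54)])) (.mul (.g 3) (.add (.add (.pp [(1, 197427000000)]) (.mul (.g 6) (.pp [(1, 84097500000)]))) (.add (.mul (.g 12) (.pp [(1, 225433500000)])) (.mul (.g 18) (.pp [(1, 144646500000)]))))))) (.add (.mul (.g 10) (.add (.add (.mul (.g 7) (.pp [(1, 322644600000)])) (.mul (.g 9) (.pp [(1, 9004500000)]))) (.add (.mul (.g 10) (.pp [(1,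 2573462400)])) (.mul (.g 18) (.pp [(1, 103871160000)]))))) (.add (.mul (.g 4) (.add (.mul (.g 2) (.pp [(1, 199861500000)])) (.add (.mul (.g 13) (.pp [(1, 31256400000)])) (.mul (.g 18) (.pp [(1, 21303000000)]))))) (.mul (.g 11) (.add (.mul (.g 14) (.pp [(1, 20415900000)])) (.mul (.g 16) (.pp [(1, 134295000000)]))))))) (.add (.add (.mul (.g 12) (.add (.pp [(1, 81781500000)]) (.mul (.g 15) (.pp [(1, 3662700000)])))) (.add (.mul (.g 2) (.mul (.g 2) (.pp [(1, 1815772500000)]))) (.mul (.g 9) (.pp [(1, 427702500000)])))) (.add (.mul (.g 13) (.mul (.g 16) (.pp [(1, 5551800000)]))) (.add (.mul (.g 14) (.mul (.g 18) (.pp [(1, 16018800000)]))) (.mul (.g 15) (.pp [(1, 93873300000)]))))))) (.mul (.g 6) (.add (.add (.add (.mul (.pp [(1, 6597150)]) (.sq [(2, 100), (3, -6), (5, 94), (7, -43), (11, 46), (13, -8), (17, 14), (19, 22)])) (.mul (.pp [(1, 13094700)]) (.sq [(2, -60), (3, -7), (5, -4), (7, -15), (11, -19), (13, 4), (17, 100), (19, -2)])))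 (.add (.mul (.pp [(1, 4250550)]) (.sq [(2, -75), (3, -49), (7, -43), (11, 88), (13, 31), (17, 45), (19, 100)])) (.add (.mul (.pp [(1, 6169950)]) (.sq [(2, 80), (3, -50), (5, -17), (7, -22), (11, -10), (13, 13), (17, 36), (19, -100)])) (.mul (.pp [(1, 418500)]) (.sq [(2, -8), (3, 42), (5, -5), (7, 21), (11, -11), (13, 4), (17, 54), (19, 100)]))))) (.add (.add (.mul (.g 18) (.add (.add (.mul (.g 1) (.pp [(1, 158319000000)])) (.mul (.g 3) (.pp [(1, 81460500000)]))) (.add (.mul (.g 4) (.pp [(1, 60196500000)])) (.mul (.g 7) (.pp [(1, 59173500000)]))))) (.add (.mul (.g 6) (.add (.mul (.g 3) (.pp [(1, 238243500000)])) (.add (.mul (.g 6) (.pp [(1, 101850000000)])) (.mul (.g 10) (.pp [(1, 84540000)]))))) (.mul (.g 7) (.add (.mul (.g 10) (.pp [(1, 3640980000)])) (.mul (.g 12) (.pp [(1, 33274500000)])))))) (.add (.mul (.g 9) (.add (.pp [(1, 138457500000)]) (.mul (.g 16) (.pp [(1, 191838000000)])))) (.add (.mul (.g 13) (.add (.mul (.g 3) (.pp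 [(1, 420600000)])) (.mul (.g 14) (.pp [(1, 2515860000)])))) (.mul (.g 12) (.pp [(1, 311937000000)])))))))))) (.add (.add (.mul (.g 4) (.add (.add (.mul (.pp [(1, 6112800)]) (.sq [(1, 24), (2, 14), (3, 29), (5, -8), (7, -100), (11, -57), (13, 53), (17, -5), (19, 25)])) (.add (.mul (.pp [(1, 1444650)]) (.sq [(2, 30), (3, 16), (5, -15), (7, 32), (11, 100), (13, 15), (17, -48), (19, -10)])) (.mul (.pp [(1, 4489950)]) (.sq [(2, 35), (3, 21), (5, 49), (7, 8), (11, -82), (13, 100), (17, -22), (19, -21)])))) (.add (.add (.mul (.g 4) (.add (.add (.mul (.g 3) (.pp [(1, 10218000000)])) (.mul (.g 4) (.pp [(1, 4687500000)]))) (.add (.mul (.g 14) (.pp [(1, 102075900000)])) (.mul (.g 18) (.pp [(1, 5982000000)]))))) (.mul (.g 7) (.add (.mul (.g 10) (.pp [(1, 731580000)])) (.add (.mul (.g 12) (.pp [(1, 30196500000)])) (.mul (.g 16) (.pp [(1, 33910500000)])))))) (.add (.mul (.g 11) (.add (.mul (.g 12) (.pp [(1, 34156500000)])) (.mul (.g 18) (.pp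 [(1, 124980000000)])))) (.mul (.g 3) (.mul (.g 18) (.pp [(1, 72400500000)]))))))) (.mul (.g 7) (.add (.add (.add (.mul (.pp [(1, 1784850)]) (.sq [(2, -50), (3, 14), (5, -10), (7, 3), (11, 67), (13, 55), (17, 37), (19, 100)])) (.mul (.pp [(1, 75585150)]) (.sq [(5, 100), (11, -1), (17, -1), (19, 1)]))) (.add (.mul (.g 3) (.add (.pp [(1, 167497500000)]) (.add (.mul (.g 3) (.pp [(1, 52020000000)])) (.mul (.g 18) (.pp [(1, 58447500000)]))))) (.mul (.g 1) (.mul (.g 18) (.pp [(1, 24265500000)]))))) (.add (.add (.mul (.g 7) (.mul (.g 7) (.pp [(1, 33697500000)]))) (.mul (.g 8) (.mul (.g 16) (.pp [(1, 17932425000)])))) (.add (.mul (.g 9) (.pp [(1, 819979500000)])) (.mul (.g 15) (.pp [(1, 52395000000)]))))))) (.add (.mul (.g 9) (.add (.add (.add (.mul (.pp [(1, 1217400)]) (.sq [(2, 47), (3, 50), (5, 50), (7, 50), (11, 50), (13, 50), (17, 50), (19, 50)])) (.mul (.pp [(1, 422550)]) (.sq [(2, -58), (3, 100), (5, 54), (7, -40), (11, -3), (13,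 6), (17, 28), (19, -21)]))) (.add (.mul (.pp [(1, 389250)]) (.sq [(2, -46), (3, 26), (5, -100), (7, 45), (11, 19), (13, -91), (17, 36), (19, 52)])) (.mul (.pp [(1, 3233550)]) (.sq [(3, 5), (5, 10), (7, -81), (11, 100), (13, -44), (17, -2), (19, 12)])))) (.add (.add (.mul (.pp [(1, 853050)]) (.sq [(2, 82), (3, 77), (5, -31), (7, 15), (11, 49), (13, -100), (17, 27), (19, 29)])) (.mul (.pp [(1, 1357050)]) (.sq [(2, -100), (3, -36), (5, 70), (7, 41), (11, -25), (13, 64), (17, 75), (19, 98)]))) (.add (.mul (.g 9) (.pp [(1, 331228500000)])) (.mul (.g 18) (.pp [(1, 694590000000)])))))) (.add (.mul (.g 11) (.add (.add (.mul (.pp [(1, 6207000)]) (.sq [(2, -6), (3, -23), (5, -16), (7, 19), (11, 100), (13, -47), (17, -17), (19, -16)])) (.mul (.pp [(1, 1334550)]) (.sq [(2, 16), (3, 68), (5, 100), (7, -95), (11, -26), (13, -28), (17, 71), (19, 43)]))) (.add (.mul (.pp [(1, 10228050)]) (.sq [(1, 5), (2, 18), (3, -8), (5, 100), (7, 3), (11, -17),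 (13, -1), (17, 30), (19, -2)])) (.mul (.pp [(1, 7867050)]) (.sq [(1, -20), (2, 9), (3, -4), (5, 5), (7, 50), (11, 58), (13, -28), (17, -100), (19, 9)]))))) (.mul (.g 18) (.add (.add (.mul (.pp [(1, 5004300)]) (.sq [(2, -5), (3, 4), (5, -74), (13, 100), (17, -65), (19, -6)])) (.mul (.pp [(1, 133500)]) (.sq [(2, 3), (3, 42), (5, -79), (7, -7), (11, 21), (13, -7), (17, 100), (19, 4)]))) (.add (.mul (.pp [(1, 1832550)]) (.sq [(1, -100), (3, 69), (7, 8), (11, 39), (17, 80)])) (.mul (.g 18) (.pp [(1, 251230500000)]))))))))) (.add (.add (.add (.mul (.g 13) (.add (.mul (.pp [(1, 7501470)]) (.sq [(1, -76), (2, -11), (3, 25), (7, 100), (11, 9), (13, 7), (17, 8), (19, -52)])) (.add (.mul (.pp [(1, 768930)]) (.sq [(1, 32), (2, -66), (3, -84), (5, 1), (7, 37), (11, 100), (13, -87), (17, 17), (19, 7)])) (.mul (.pp [(1, 3802350)]) (.sq [(2, 100), (3, 14), (5, -13), (7, -20), (11, 53), (13, -1), (17, -62), (19, 86)]))))) (.mul (.g 14) (.add (.mul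 (.pp [(1, 3945840)]) (.sq [(2, 100), (11, -41), (13, 41), (17, -100)])) (.add (.mul (.pp [(1, 1481610)]) (.sq [(1, 38), (2, 17), (3, 49), (5, -19), (7, -100), (11, 4), (13, 9), (17, -29), (19, 84)])) (.mul (.pp [(1, 5759340)]) (.sq [(2, 41), (11, 100), (13, -100), (17, -41)])))))) (.add (.mul (.g 1) (.add (.mul (.pp [(1, 2251800)]) (.sq [(1, -4), (2, 29), (3, -1), (5, -100), (7, -24), (11, 90), (13, 5), (17, -68), (19, -12)])) (.mul (.pp [(1, 2065200)]) (.sq [(1, -100), (2, 14), (3, 51), (5, -11), (7, 74), (11, 33), (13, -98), (17, 49), (19, -65)])))) (.add (.mul (.g 12) (.add (.mul (.pp [(1, 67204500000)]) (.sq [(13, 1), (17, -1)])) (.mul (.pp [(1, 6920100)]) (.sq [(2, -21), (3, -29), (5, 41), (7, 19), (11, 100), (13, -98), (17, -17), (19, -27)])))) (.mul (.g 3) (.mul (.pp [(1, 16140600)]) (.sq [(2, 100), (3, -6), (5, 8), (7, 46), (11, -25), (13, -67), (17, 22), (19, 29)])))))) (.add (.add (.mul (.g 8) (.mul (.pp [(1, 693645)])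 (.sq [(2, 5), (3, 14), (5, -23), (7, -30), (11, 26), (13, -2), (17, 100), (19, 71)]))) (.mul (.g 10) (.mul (.pp [(1, 15372858)]) (.sq [(1, 2), (3, -23), (5, 100), (7, 23), (11, 1), (13, -3), (17, 1), (19, -47)])))) (.add (.mul (.g 15) (.mul (.pp [(1, 885390)]) (.sq [(1, -48), (2, -20), (3, -20), (5, 1), (7, 100), (11, 19), (13, -47), (17, -19), (19, -55)]))) (.add (.mul (.g 16) (.mul (.pp [(1, 78640800)]) (.sq [(2, 25), (19, -22)]))) (.mul (.g 17) (.pp [(1, 677376000000)]))))))) (.pp [(1, 10732410942), (2, 15900180), (3, 12642144), (4, 13235985), (5, 14614080), (6, 12304500), (7, 16182606), (8, 13631500), (9, 15832182), (10, 13661310), (11, 14671452), (12, 17160000), (13, 15884364), (14, 13879260), (15, 13795620), (17, 14682192), (18, 16949550), (19, 15254256), (20, 13820250), (21, 14217516), (22, 13011600), (25, 14112495), (26, 14209500), (27, 15271650), (28, 14008050), (30, 15462600), (33, 15202572), (34, 14425140), (35, 13270140),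 (38, 13010190), (39, 11094924), (42, 16452600), (44, 14456550), (45, 16134450), (49, 13588152), (50, 15150300), (51, 13858212), (52, 16328700), (55, 13763760), (57, 14670036), (63, 16152150), (65, 12109980), (66, 17615400), (68, 15806400), (70, 14326200), (75, 16798350), (76, 13485000), (77, 11626488), (78, 17682600), (85, 13707840), (91, 13003956), (95, 14055810), (98, 14601000), (99, 16027950), (102, 15930000), (105, 16489200), (110, 15059100), (114, 14558400), (117, 16118100), (119, 13694868), (121, 14616438), (125, 14738250), (130, 14033700), (133, 11820444), (143, 16473912), (147, 15551400), (153, 15477300), (154, 15476400), (165, 14990700), (169, 12645432), (170, 14256900), (171, 16590450), (175, 14173650), (182, 14605500), (187, 14823816), (190, 14529600), (195, 18617100), (209, 12372948), (221, 12146472), (231, 16120200), (238, 15045900), (242, 14016750), (245, 15271800), (247, 13591176), (255, 17968500), (266, 13670700),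 (273, 18779400), (275, 15293700), (285, 17452800), (286, 15686700), (289, 12636858), (323, 11450628), (325, 15120300), (338, 14765100), (343, 15033300), (357, 18437700), (361, 12860937), (363, 15731250), (374, 14737200), (385, 17036700), (399, 17781900), (418, 15419700), (425, 14981400), (429, 17340000), (442, 15314700), (455, 15379500), (475, 16838250), (494, 16017000), (507, 17377350), (539, 16525800), (561, 13687800), (578, 15374700), (595, 13553700), (605, 15313050), (627, 16568400), (637, 15184500), (646, 12421200), (663, 17220900), (665, 14980800), (715, 16541700), (722, 16881600), (741, 16420800), (833, 14418000), (845, 14692500), (847, 14139900), (867, 15757800), (931, 14643150), (935, 14326500), (969, 18913500), (1001, 13748700), (1045, 15304500), (1083, 16223400), (1105, 14554800), (1183, 14562150), (1235, 14274900), (1309, 15502800), (1331, 16089000), (1445, 14700150), (1463, 15390900), (1547, 16846500), (1573, 12685500),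 (1615, 15378600), (1729, 13219800), (1805, 15794550), (1859, 15287550), (2023, 15401550), (2057, 15429600), (2197, 14654100), (2261, 16315800), (2299, 13886400), (2431, 13338000), (2527, 15428400), (2717, 16125000), (2873, 16807350), (3179, 15728700), (3211, 14753700), (3553, 16872300), (3757, 15189600), (3971, 14502750), (4199, 14015100), (4693, 14997750), (4913, 15416400), (5491, 16477650), (6137, 15061200), (6859, 14376600)])))
    (by decide +kernel) (yv_nonneg h1 h2 h3 h4 h5 h6 h7 h8 (le_refl 0))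
    (by
      simp only [List.forall_mem_cons, exadd, exsub, exmul, exc, exv2, exv3, exv5, exv7, exv11, exv13, exv17, exv19]
      push_cast
      refine ⟨?_, ?_, ?_, ?_, ?_, ?_, ?_, ?_, ?_, ?_, ?_, ?_, ?_, ?_, ?_, ?_, ?_, ?_, ?_, fun _ hh => absurd hh List.not_mem_nil⟩
      · linarith [h1]
      · linarith [h2]
      · linarith [h3]
      · linarith [h4]
      · linarith [h5]
      · linarith [h6]
      · linarith [h7]
      · linarith [h8]
      · linarith [kw]
      · linarith [kdF]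
      · linarith [kf]
      · linarith [kua]
      · linarith [kub]
      · linarith [kda]
      · linarith [kdb]
      · linarith [kde]
      · linarith [s1]
      · linarith [s2]
      · linarith [s3]
    )
  simp only [exadd, exsub, exmul, exc, exv2, exv3, exv5, exv7, exv11, exv13, exv17, exv19] at h
  push_cast at h
  linarith [h]

theorem colX1p {w f ua ub ue da db de : ℝ} (h1 : 0 ≤ w) (h2 : 0 ≤ f) (h3 : 0 ≤ ua) (h4 : 0 ≤ ub) (h5 : 0 ≤ ue) (h6 : 0 ≤ da) (h7 : 0 ≤ db) (h8 : 0 ≤ de) (kw : 0 ≤ 13 / 20 - w) (kf : 0 ≤ 9 / 25 - f) (kua : 0 ≤ 1 - ua) (kub : 0 ≤ 1 - ub) (kue : 0 ≤ 1 - ue) (kda : 0 ≤ 3 / 5 - da) (kdb : 0 ≤ 3 / 5 - db) (kde : 0 ≤ 3 / 5 - de) (s1 : 0 ≤ -w - ua + da) (s3 : 0 ≤ -w - ue + da) (s2 : 0 ≤ 1 / 4 * w - f + 1 / 2 * w ^ 2 - 1 / 12 * w ^ 3) :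
    0 ≤ 333 / 1000 - f - 1 / 40 * ua - 153 / 200 * ub - 173 / 1000 * ue + 39 / 125 * da + 39 / 125 * db + 299 / 1000 * de + 1 / 2 * ua ^ 2 - 353 / 1000 * ua * da - 493 / 1000 * ua * db + 1 / 2 * ub ^ 2 + 7 / 50 * ub * db + 1 / 2 * ue ^ 2 - 123 / 500 * ue * da - 123 / 500 * ue * db - 44 / 125 * ue * de + 297 / 1000 * da ^ 2 + 167 / 1000 * da * db - 27 / 250 * da * de + 297 / 1000 * db ^ 2 - 27 / 250 * db * de + 99 / 500 * de ^ 2 - 1 / 2 * ua ^ 2 * da + 99 / 500 * ua * da * db - 1 / 2 * ub ^ 2 * db - 1 / 2 * ue ^ 2 * de - 107 / 500 * ue * da ^ 2 + 273 / 500 * ue * da * de - 107 / 500 * ue * db ^ 2 + 273 / 500 * ue * db * de - 107 / 250 * ue * de ^ 2 := by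
  have h := cert (y := yv w f ua ub ue da db de 0)
    (gs := [(.v 2),
      (.v 3),
      (.v 5),
      (.v 7),
      (.v 11),
      (.v 13),
      (.v 17),
      (.v 19),
      (.add (.c (13)) (.mul (.c (-20)) (.v 2))),
      (.add (.c (9)) (.mul (.c (-25)) (.v 3))),
      (.add (.c (1)) (.mul (.c (-1)) (.v 5))),
      (.add (.c (1)) (.mul (.c (-1)) (.v 7))),
      (.add (.c (1)) (.mul (.c (-1)) (.v 11))),
      (.add (.c (3)) (.mul (.c (-5)) (.v 13))),
      (.add (.c (3)) (.mul (.c (-5)) (.v 17))),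
      (.add (.c (3)) (.mul (.c (-5)) (.v 19))),
      (.add (.mul (.c (-1)) (.v 2)) (.add (.mul (.c (-1)) (.v 5)) (.v 13))),
      (.add (.mul (.c (-1)) (.v 2)) (.add (.mul (.c (-1)) (.v 11)) (.v 13))),
      (.add (.add (.mul (.c (3)) (.v 2)) (.mul (.c (-12)) (.v 3))) (.add (.mul (.c (6)) (.mul (.v 2) (.v 2))) (.mul (.c (-1)) (.mul (.mul (.v 2) (.v 2)) (.v 2)))))])
    (p := .mul (.c 750000000) (.add (.add (.add (.add (.add (.c (333)) (.mul (.c (-1000)) (.v 3))) (.add (.mul (.c (-25)) (.v 5)) (.mul (.c (-765)) (.v 7)))) (.add (.add (.mul (.c (-173)) (.v 11)) (.mul (.c (312)) (.v 13))) (.add (.mul (.c (312)) (.v 17)) (.mul (.c (299)) (.v 19))))) (.add (.add (.add (.mul (.c (500)) (.mul (.v 5) (.v 5))) (.mul (.c (500)) (.mul (.v 7) (.v 7)))) (.add (.mul (.c (-353)) (.mul (.v 5) (.v 13))) (.mul (.c (-493)) (.mul (.v 5) (.v 17))))) (.add (.add (.mul (.c (140)) (.mul (.v 7) (.v 17))) (.mul (.c (500)) (.mul (.v 11) (.v 11)))) (.add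 (.mul (.c (-246)) (.mul (.v 11) (.v 13))) (.mul (.c (297)) (.mul (.v 13) (.v 13))))))) (.add (.add (.add (.add (.mul (.c (-246)) (.mul (.v 11) (.v 17))) (.mul (.c (-352)) (.mul (.v 11) (.v 19)))) (.add (.mul (.c (167)) (.mul (.v 13) (.v 17))) (.mul (.c (-108)) (.mul (.v 13) (.v 19))))) (.add (.add (.mul (.c (297)) (.mul (.v 17) (.v 17))) (.mul (.c (-108)) (.mul (.v 17) (.v 19)))) (.add (.mul (.c (-500)) (.mul (.mul (.v 5) (.v 5)) (.v 13))) (.mul (.c (198)) (.mul (.v 19) (.v 19)))))) (.add (.add (.add (.mul (.c (-500)) (.mul (.mul (.v 7) (.v 7)) (.v 17))) (.mul (.c (198)) (.mul (.mul (.v 5) (.v 13)) (.v 17)))) (.add (.mul (.c (-214)) (.mul (.mul (.v 11) (.v 13)) (.v 13))) (.mul (.c (-500)) (.mul (.mul (.v 11) (.v 11)) (.v 19))))) (.add (.add (.mul (.c (546)) (.mul (.mul (.v 11) (.v 13)) (.v 19))) (.mul (.c (-214)) (.mul (.mul (.v 11) (.v 17)) (.v 17)))) (.add (.mul (.c (546)) (.mul (.mul (.v 11) (.v 17)) (.v 19))) (.mul (.c (-428))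 (.mul (.mul (.v 11) (.v 19)) (.v 19)))))))))
    (e := (.add (.add (.add (.add (.add (.mul (.g 17) (.add (.add (.add (.mul (.pp [(1, 12842625)]) (.sq [(2, -9), (5, 5), (7, -6), (11, -26), (13, -17), (17, 100), (19, -2)])) (.add (.mul (.pp [(1, 603225)]) (.sq [(2, 70), (3, 78), (5, 100), (7, 78), (11, 94), (13, 62), (17, 87), (19, 65)])) (.mul (.pp [(1, 3116925)]) (.sq [(2, 100), (5, 25), (7, -62), (11, -56), (13, 4), (17, -91), (19, -70)])))) (.add (.add (.mul (.pp [(1, 887700)]) (.sq [(2, 3), (3, 3), (5, -34), (7, 3), (11, 58), (13, -51), (17, -69), (19, 100)])) (.mul (.pp [(1, 90750)]) (.sq [(2, -1), (5, -70), (7, -88), (11, 7), (13, -7), (17, 100), (19, 85)]))) (.add (.mul (.pp [(1, 766650)]) (.sq [(2, -2), (3, -80), (5, 100), (7, -23), (11, -3), (13, 6), (17, 9), (19, 54)])) (.mul (.g 17) (.add (.add (.add (.pp [(1, 180528000000)]) (.mul (.g 1) (.pp [(1, 7214250000)]))) (.add (.mul (.g 3) (.pp [(1, 9512250000)])) (.mul (.g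 4) (.pp [(1, 19536000000)])))) (.add (.add (.mul (.g 10) (.pp [(1, 2938500000)])) (.mul (.g 13) (.pp [(1, 5352750000)]))) (.add (.mul (.g 14) (.pp [(1, 2275800000)])) (.mul (.g 15) (.pp [(1, 17650950000)]))))))))) (.add (.add (.mul (.g 7) (.add (.add (.mul (.g 4) (.pp [(1, 164807250000)])) (.mul (.g 7) (.pp [(1, 311326500000)]))) (.add (.mul (.g 9) (.pp [(1, 715500000)])) (.mul (.g 11) (.pp [(1, 88122000000)]))))) (.add (.mul (.g 0) (.add (.pp [(1, 400979250000)]) (.add (.mul (.g 2) (.pp [(1, 89257500000)])) (.mul (.g 15) (.pp [(1, 26855550000)]))))) (.mul (.g 3) (.add (.mul (.g 6) (.pp [(1, 25275750000)])) (.add (.mul (.g 11) (.pp [(1, 53349750000)])) (.mul (.g 15) (.pp [(1, 1761450000)]))))))) (.add (.add (.mul (.g 14) (.add (.mul (.g 1) (.pp [(1, 10863600000)])) (.add (.mul (.g 2) (.pp [(1, 4570050000)])) (.mul (.g 11) (.pp [(1, 1296600000)]))))) (.mul (.g 16) (.add (.pp [(1, 103374000000)]) (.add (.mul (.g 4) (.pp [(1, 11187000000)]))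 (.mul (.g 6) (.pp [(1, 129441750000)])))))) (.add (.mul (.g 9) (.add (.pp [(1, 2336910000)]) (.mul (.g 9) (.pp [(1, 924000)])))) (.mul (.g 13) (.add (.pp [(1, 42020250000)]) (.mul (.g 4) (.pp [(1, 50995200000)]))))))))) (.mul (.g 7) (.add (.add (.add (.mul (.pp [(1, 1779900)]) (.sq [(2, 34), (5, -48), (7, 69), (11, -1), (13, -20), (17, 100), (19, 79)])) (.mul (.pp [(1, 4954275)]) (.sq [(1, -8), (2, -11), (5, 100), (7, -3), (11, -44), (13, 79), (17, -9), (19, -13)]))) (.add (.mul (.pp [(1, 3658500)]) (.sq [(1, -48), (2, -5), (3, 27), (5, -4), (7, 100), (11, -38), (13, -41), (17, 27), (19, 28)])) (.add (.mul (.g 15) (.add (.add (.mul (.g 4) (.pp [(1, 9073350000)])) (.add (.mul (.g 5) (.pp [(1, 35017800000)])) (.mul (.g 7) (.pp [(1, 2105250000)])))) (.add (.mul (.g 9) (.pp [(1, 813102000)])) (.add (.mul (.g 14) (.pp [(1, 3408210000)])) (.mul (.g 16) (.pp [(1, 13853100000)])))))) (.mul (.g 0) (.add (.add (.pp [(1, 32967000000)]) (.mul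 (.g 4) (.pp [(1, 119757000000)]))) (.add (.mul (.g 7) (.pp [(1, 332843250000)])) (.add (.mul (.g 8) (.pp [(1, 4561687500)])) (.mul (.g 16) (.pp [(1, 1384500000)]))))))))) (.add (.add (.mul (.g 9) (.add (.add (.mul (.g 1) (.pp [(1, 4135950000)])) (.mul (.g 2) (.pp [(1, 1136970000)]))) (.add (.mul (.g 3) (.pp [(1, 2106030000)])) (.mul (.g 6) (.pp [(1, 1264440000)]))))) (.add (.mul (.g 11) (.add (.pp [(1, 10716000000)]) (.add (.mul (.g 4) (.pp [(1, 25928250000)])) (.mul (.g 13) (.pp [(1, 27794250000)]))))) (.mul (.g 1) (.add (.pp [(1, 120833250000)]) (.mul (.g 5) (.pp [(1, 12142500000)])))))) (.add (.mul (.g 6) (.add (.mul (.g 3) (.pp [(1, 11574750000)])) (.mul (.g 4) (.pp [(1, 26579250000)])))) (.add (.mul (.g 13) (.add (.pp [(1, 37683450000)]) (.mul (.g 7) (.pp [(1, 19267500000)])))) (.mul (.g 12) (.mul (.g 16) (.pp [(1, 65393250000)]))))))))) (.add (.mul (.g 6) (.add (.add (.add (.mul (.pp [(1, 28617375)]) (.sq [(2, -100), (5,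 -87), (7, -12), (11, 46), (13, 57), (17, -4), (19, 16)])) (.mul (.pp [(1, 894375)]) (.sq [(1, 13), (2, -13), (3, -5), (5, 8), (7, 4), (11, -57), (13, -36), (17, -42), (19, 100)]))) (.add (.mul (.pp [(1, 2316000)]) (.sq [(2, -39), (3, -39), (5, 50), (7, -39), (11, 50), (13, 50), (17, -39), (19, 50)])) (.add (.mul (.g 9) (.add (.add (.mul (.g 0) (.pp [(1, 2831580000)])) (.add (.mul (.g 2) (.pp [(1, 1390380000)])) (.mul (.g 6) (.pp [(1, 119880000)])))) (.add (.mul (.g 9) (.pp [(1, 24403200)])) (.add (.mul (.g 11) (.pp [(1, 1378680000)])) (.mul (.g 13) (.pp [(1, 211032000)])))))) (.mul (.g 16) (.add (.add (.pp [(1, 82620750000)]) (.mul (.g 0) (.pp [(1, 370831500000)]))) (.add (.mul (.g 2) (.pp [(1, 75080250000)])) (.add (.mul (.g 3) (.pp [(1, 44233500000)])) (.mul (.g 15) (.pp [(1, 24596250000)]))))))))) (.add (.add (.mul (.g 11) (.add (.add (.pp [(1, 151059000000)]) (.mul (.g 3) (.pp [(1, 205720500000)]))) (.add (.mul (.g 6) (.pp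 [(1, 97365000000)])) (.mul (.g 12) (.pp [(1, 46421250000)]))))) (.add (.mul (.g 0) (.add (.pp [(1, 80611500000)]) (.mul (.g 6) (.pp [(1, 190092000000)])))) (.mul (.g 1) (.mul (.g 1) (.pp [(1, 27809250000)]))))) (.add (.mul (.g 3) (.mul (.g 13) (.pp [(1, 17498550000)]))) (.add (.mul (.g 4) (.mul (.g 4) (.pp [(1, 95980500000)]))) (.mul (.g 10) (.mul (.g 12) (.pp [(1, 14220000000)])))))))) (.mul (.g 2) (.add (.add (.add (.mul (.pp [(1, 2182950)]) (.sq [(2, 12), (5, -23), (7, 55), (11, 100), (13, -54), (17, -56), (19, -3)])) (.add (.mul (.pp [(1, 1171800)]) (.sq [(2, 100), (7, -31), (11, 43), (13, -9), (17, 78), (19, -5)])) (.mul (.pp [(1, 93600)]) (.sq [(2, 13), (3, 13), (5, 13), (7, 13), (11, 13), (13, -50), (17, -50), (19, 13)])))) (.add (.mul (.pp [(1, 178575)]) (.sq [(1, -27), (2, 19), (3, 69), (5, 35), (7, -6), (11, 100), (13, 76), (17, -91), (19, -78)])) (.add (.mul (.pp [(1, 18947700)]) (.sq [(2, 21), (5, -11), (7, 16), (11,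 -22), (13, 22), (17, -50), (19, 31)])) (.mul (.pp [(1, 2135550)]) (.sq [(1, -44), (2, -28), (3, 19), (5, -3), (7, 100), (11, -15), (13, -82), (17, 53), (19, 20)]))))) (.add (.add (.mul (.g 13) (.add (.add (.mul (.g 0) (.pp [(1, 46987500000)])) (.mul (.g 2) (.pp [(1, 59557500000)]))) (.add (.mul (.g 9) (.pp [(1, 133380000)])) (.mul (.g 11) (.pp [(1, 15499500000)]))))) (.add (.mul (.g 14) (.add (.mul (.g 2) (.pp [(1, 526950000)])) (.add (.mul (.g 8) (.pp [(1, 1053427500)])) (.mul (.g 15) (.pp [(1, 1169280000)]))))) (.mul (.g 0) (.add (.mul (.g 4) (.pp [(1, 94447500000)])) (.mul (.g 9) (.pp [(1, 895200000)])))))) (.add (.mul (.g 1) (.add (.pp [(1, 28273500000)]) (.mul (.g 5) (.pp [(1, 1047000000)])))) (.add (.mul (.g 2) (.mul (.g 15) (.pp [(1, 4541250000)]))) (.mul (.g 10) (.mul (.g 16) (.pp [(1, 26826000000)])))))))))) (.add (.add (.mul (.g 16) (.add (.add (.add (.mul (.pp [(1, 2652525)]) (.sq [(2, 32), (5, -8), (7, -100), (11, -6),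 (13, 89), (17, -1), (19, -33)])) (.add (.mul (.pp [(1, 1085625)]) (.sq [(1, -5), (2, -55), (3, -19), (5, 1), (7, 84), (11, 100), (13, 6), (17, -18), (19, -42)])) (.mul (.pp [(1, 5450025)]) (.sq [(2, 7), (3, 10), (5, -64), (7, 10), (11, 40), (13, 84), (17, -100), (19, 40)])))) (.add (.mul (.pp [(1, 4771650)]) (.sq [(2, -2), (5, -16), (7, -24), (11, -23), (13, 9), (17, 46), (19, 100)])) (.add (.mul (.pp [(1, 1120725)]) (.sq [(2, 31), (3, 9), (5, 78), (7, -91), (11, 100), (13, -36), (17, -58), (19, 32)])) (.mul (.g 1) (.add (.add (.mul (.g 4) (.pp [(1, 3944250000)])) (.mul (.g 9) (.pp [(1, 1009980000)]))) (.add (.mul (.g 11) (.pp [(1, 8850000000)])) (.mul (.g 16) (.pp [(1, 1500750000)])))))))) (.add (.add (.mul (.g 15) (.add (.mul (.g 4) (.pp [(1, 10186200000)])) (.add (.mul (.g 10) (.pp [(1, 10344900000)])) (.mul (.g 11) (.pp [(1, 4608000000)]))))) (.add (.mul (.g 0) (.add (.pp [(1, 256911750000)]) (.mul (.g 9) (.pp [(1, 341460000)]))))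 (.mul (.g 4) (.mul (.g 4) (.pp [(1, 27384750000)]))))) (.add (.mul (.g 11) (.pp [(1, 55107750000)])) (.add (.mul (.g 13) (.pp [(1, 6230400000)])) (.mul (.g 14) (.mul (.g 16) (.pp [(1, 22274400000)])))))))) (.mul (.g 9) (.add (.add (.add (.mul (.pp [(1, 117369)]) (.sq [(2, -14), (3, 4), (5, 54), (7, -19), (11, 35), (13, 45), (17, -24), (19, -100)])) (.mul (.pp [(1, 311484)]) (.sq [(1, -53), (2, -4), (3, 73), (5, -7), (7, 73), (11, 2), (13, -23), (17, 30), (19, -100)]))) (.add (.mul (.pp [(1, 27129)]) (.sq [(1, 67), (2, -13), (3, 100), (5, 71), (7, -78), (11, -58), (13, 36), (17, -74), (19, -57)])) (.mul (.g 0) (.add (.mul (.g 4) (.pp [(1, 810150000)])) (.add (.mul (.g 11) (.pp [(1, 1094040000)])) (.mul (.g 13) (.pp [(1, 238974000)]))))))) (.add (.add (.mul (.g 1) (.add (.mul (.g 3) (.pp [(1, 502140000)])) (.add (.mul (.g 9) (.pp [(1, 34366800)])) (.mul (.g 13) (.pp [(1, 152070000)]))))) (.mul (.g 4) (.add (.mul (.g 4) (.pp [(1,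 592740000)])) (.mul (.g 11) (.pp [(1, 1878840000)]))))) (.add (.mul (.g 11) (.mul (.g 11) (.pp [(1, 315420000)]))) (.mul (.g 13) (.pp [(1, 70992000)]))))))) (.add (.mul (.g 13) (.add (.add (.mul (.pp [(1, 1052670)]) (.sq [(2, -74), (3, -17), (5, 100), (7, 11), (11, -78), (13, -87), (17, 49), (19, 32)])) (.add (.mul (.pp [(1, 365835)]) (.sq [(5, 27), (11, 100), (17, -27), (19, -100)])) (.mul (.pp [(1, 1585470)]) (.sq [(2, 66), (5, -5), (7, -16), (11, -7), (13, 20), (17, 100), (19, -7)])))) (.add (.add (.mul (.pp [(1, 2246985)]) (.sq [(5, 100), (11, -27), (17, -100), (19, 27)])) (.mul (.g 0) (.add (.mul (.g 8) (.pp [(1, 1273327500)])) (.mul (.g 13) (.pp [(1, 2457330000)]))))) (.add (.mul (.g 4) (.mul (.g 4) (.pp [(1, 34174800000)]))) (.mul (.g 10) (.mul (.g 11) (.pp [(1, 7995300000)]))))))) (.mul (.g 4) (.add (.add (.mul (.pp [(1, 2217225)]) (.sq [(1, -36), (2, 5), (3, 95), (5, -39), (7, 28), (11, 10), (13, 100), (17, -55), (19,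 4)])) (.mul (.pp [(1, 6444900)]) (.sq [(2, -33), (3, -33), (5, -33), (7, -33), (11, -33), (13, 67), (17, 67), (19, 100)]))) (.add (.mul (.g 11) (.add (.mul (.g 0) (.pp [(1, 21109500000)])) (.add (.mul (.g 3) (.pp [(1, 32381250000)])) (.mul (.g 14) (.pp [(1, 27289350000)]))))) (.mul (.g 4) (.mul (.g 15) (.pp [(1, 8838600000)]))))))))) (.add (.add (.add (.mul (.g 0) (.add (.mul (.pp [(1, 8235975)]) (.sq [(1, 1), (2, 100), (3, -6), (5, 60), (7, -45), (11, -16), (13, -32), (17, -2), (19, 10)])) (.add (.mul (.pp [(1, 556200)]) (.sq [(1, -85), (2, 22), (3, -34), (5, 19), (7, 59), (11, 23), (13, 100), (17, 8)])) (.mul (.g 8) (.mul (.g 8) (.pp [(1, 53870625)])))))) (.mul (.g 11) (.add (.mul (.pp [(1, 8329875)]) (.sq [(1, -57), (2, -12), (3, -27), (5, -12), (7, 100), (11, -12), (13, -12), (17, -12), (19, -12)])) (.mul (.g 11) (.add (.mul (.g 11) (.pp [(1, 33263250000)])) (.mul (.g 12) (.pp [(1, 104757750000)]))))))) (.add (.mul (.g 14)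 (.add (.mul (.pp [(1, 45539040)]) (.sq [(5, -1), (11, 25), (13, 1), (19, -25)])) (.mul (.pp [(1, 255540)]) (.sq [(1, 45), (2, -69), (3, -19), (5, 63), (7, -52), (11, 100), (13, 46), (17, 66), (19, -1)])))) (.mul (.g 15) (.add (.mul (.pp [(1, 122040)]) (.sq [(1, -4), (2, -50), (3, -5), (5, 53), (7, 11), (11, 100), (13, 36), (17, -37), (19, 5)])) (.mul (.pp [(1, 2139780)]) (.sq [(1, -77), (2, 23), (3, 6), (5, -1), (7, 100), (11, -9), (13, 14), (19, 20)])))))) (.add (.add (.mul (.g 1) (.mul (.pp [(1, 6552600)]) (.sq [(1, -59), (2, -27), (3, 64), (5, -27), (7, 100), (11, -27), (13, -27), (17, -27), (19, -27)]))) (.mul (.g 3) (.mul (.pp [(1, 11655525)]) (.sq [(1, -43), (2, -12), (3, -24), (5, -1), (7, 100), (11, 31), (13, -12), (17, -83), (19, 18)])))) (.add (.mul (.g 10) (.mul (.pp [(1, 486675)]) (.sq [(1, -78), (2, 16), (3, 24), (5, 1), (7, 100), (13, 16), (17, 1), (19, 3)]))) (.mul (.g 18) (.pp [(1, 61645625000)])))))) (.pp [(1,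 4373645412), (2, 7924323), (3, 7827363), (4, 6861729), (5, 7598364), (6, 8395716), (7, 6288810), (8, 8231750), (9, 7117515), (10, 8029992), (11, 6972924), (12, 7069425), (13, 7555383), (14, 7335654), (15, 8156370), (17, 7630461), (18, 6900750), (19, 7570518), (20, 7796400), (21, 7293114), (22, 5986848), (25, 6719529), (26, 7170342), (27, 7953900), (28, 6185550), (30, 6834450), (33, 8136468), (34, 6971994), (35, 7182030), (38, 7176138), (39, 6856398), (42, 6280950), (44, 6905250), (45, 7318725), (49, 8867301), (50, 7597875), (51, 7442022), (52, 6666300), (55, 7703964), (57, 7797570), (63, 7716075), (65, 7829946), (66, 6748650), (68, 5845425), (70, 6334650), (75, 7976025), (76, 6679125), (77, 8747820), (78, 7291500), (85, 7720350), (91, 7093314), (95, 7519404), (98, 7575300), (99, 6910275), (102, 7073850), (105, 6983550), (110, 6686400), (114, 7237650), (117, 8340900), (119, 7685514), (121, 7406082), (125, 7424625), (130, 6723450),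 (133, 7095528), (143, 8437698), (147, 7727025), (153, 7186725), (154, 7089000), (165, 6735750), (169, 6629805), (170, 5792700), (171, 7099500), (175, 7538175), (182, 9108150), (187, 6963726), (190, 7831500), (195, 7969050), (209, 7087998), (221, 7917648), (231, 6777150), (238, 7933500), (242, 7664850), (245, 7889775), (247, 7478364), (255, 7132050), (266, 7232850), (273, 7970700), (275, 7760325), (285, 7582050), (286, 7082550), (289, 7071738), (323, 7729434), (325, 8688750), (338, 9050400), (343, 6750000), (357, 7366200), (361, 7669491), (363, 7410825), (374, 6133800), (385, 7027350), (399, 7752300), (418, 5893800), (425, 6756225), (429, 7383150), (442, 9622950), (455, 8807700), (475, 7570050), (494, 7573800), (507, 8243325), (539, 6624750), (561, 7327800), (578, 7167825), (595, 7670250), (605, 7158600), (627, 7093200), (637, 7830075), (646, 7258650), (663, 7900200), (665, 7250400), (715, 7299150), (722, 6828450), (741, 7965600),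 (833, 7567800), (845, 6905625), (847, 7085175), (867, 7237200), (931, 7551825), (935, 7235700), (969, 7503900), (1001, 7098000), (1045, 6549900), (1083, 7781625), (1105, 8956500), (1183, 7390800), (1235, 6645750), (1309, 8323950), (1331, 7738200), (1445, 7390275), (1463, 7312200), (1547, 6906300), (1573, 5941725), (1615, 8025000), (1729, 8096850), (1805, 7345350), (1859, 8861475), (2023, 7427475), (2057, 6003225), (2197, 7773300), (2261, 7061850), (2299, 7095000), (2431, 8064900), (2527, 7330650), (2717, 7769850), (2873, 6739875), (3179, 7959075), (3211, 8062575), (3553, 7907250), (3757, 8219700), (3971, 7340775), (4199, 7696950), (4693, 8204325), (4913, 7469700), (5491, 7538625), (6137, 6583350), (6859, 7172625)])))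
    (by decide +kernel) (yv_nonneg h1 h2 h3 h4 h5 h6 h7 h8 (le_refl 0))
    (by
      simp only [List.forall_mem_cons, exadd, exsub, exmul, exc, exv2, exv3, exv5, exv7, exv11, exv13, exv17, exv19]
      push_cast
      refine ⟨?_, ?_, ?_, ?_, ?_, ?_, ?_, ?_, ?_, ?_, ?_, ?_, ?_, ?_, ?_, ?_, ?_, ?_, ?_, fun _ hh => absurd hh List.not_mem_nil⟩
      · linarith [h1]
      · linarith [h2]
      · linarith [h3]
      · linarith [h4]
      · linarith [h5]
      · linarith [h6]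
      · linarith [h7]
      · linarith [h8]
      · linarith [kw]
      · linarith [kf]
      · linarith [kua]
      · linarith [kub]
      · linarith [kue]
      · linarith [kda]
      · linarith [kdb]
      · linarith [kde]
      · linarith [s1]
      · linarith [s3]
      · linarith [s2]
    )
  simp only [exadd, exsub, exmul, exc, exv2, exv3, exv5, exv7, exv11, exv13, exv17, exv19] at h
  push_cast at h
  linarith [h]

theorem colX1m {w f ub da db de : ℝ} (h1 : 0 ≤ w) (h2 : 0 ≤ f) (h3 : 0 ≤ ub) (h4 : 0 ≤ da) (h5 : 0 ≤ db) (h6 : 0 ≤ de) (kw : 0 ≤ 13 / 20 - w) (kf : 0 ≤ 9 / 25 - f) (kub : 0 ≤ 1 - ub) (kda : 0 ≤ 3 / 5 - da) (kdb : 0 ≤ 3 / 5 - db) (kde : 0 ≤ 3 / 5 - de) (s1 : 0 ≤ w - da) (s2 : 0 ≤ 1 / 4 * w - f + 1 / 2 * w ^ 2 - 1 / 12 * w ^ 3) :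
    0 ≤ 333 / 1000 + 99 / 500 * w - f - 153 / 200 * ub + 57 / 500 * da + 39 / 125 * db + 299 / 1000 * de + w ^ 2 - 1401 / 1000 * w * da + 739 / 1000 * w * db + 44 / 125 * w * de + 1 / 2 * ub ^ 2 + 7 / 50 * ub * db + 349 / 500 * da ^ 2 - 143 / 250 * da * db - 23 / 50 * da * de + 297 / 1000 * db ^ 2 - 27 / 250 * db * de + 99 / 500 * de ^ 2 - 2 / 3 * w ^ 3 + 3 / 2 * w ^ 2 * da - 1 / 2 * w ^ 2 * de - 393 / 500 * w * da ^ 2 - 99 / 500 * w * da * db + 227 / 500 * w * da * de + 107 / 500 * w * db ^ 2 - 273 / 500 * w * db * de + 107 / 250 * w * de ^ 2 - 1 / 2 * ub ^ 2 * db - 71 / 1500 * da ^ 3 + 99 / 500 * da ^ 2 * db + 23 / 500 * da ^ 2 * de - 107 / 500 * da * db ^ 2 + 273 / 500 * da * db * de - 107 / 250 * da * de ^ 2 := by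
  have h := cert (y := yv w f ub da db de 0 0 0)
    (gs := [(.v 2),
      (.v 3),
      (.v 5),
      (.v 7),
      (.v 11),
      (.v 13),
      (.add (.c (13)) (.mul (.c (-20)) (.v 2))),
      (.add (.c (9)) (.mul (.c (-25)) (.v 3))),
      (.add (.c (1)) (.mul (.c (-1)) (.v 5))),
      (.add (.c (3)) (.mul (.c (-5)) (.v 7))),
      (.add (.c (3)) (.mul (.c (-5)) (.v 11))),
      (.add (.c (3)) (.mul (.c (-5)) (.v 13))),
      (.add (.v 2) (.mul (.c (-1)) (.v 7))),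
      (.add (.add (.mul (.c (3)) (.v 2)) (.mul (.c (-12)) (.v 3))) (.add (.mul (.c (6)) (.mul (.v 2) (.v 2))) (.mul (.c (-1)) (.mul (.mul (.v 2) (.v 2)) (.v 2)))))])
    (p := .mul (.c 1000000000) (.add (.add (.add (.add (.add (.c (999)) (.mul (.c (594)) (.v 2))) (.add (.mul (.c (-3000)) (.v 3)) (.mul (.c (3000)) (.mul (.v 2) (.v 2))))) (.add (.add (.mul (.c (-2295)) (.v 5)) (.mul (.c (342)) (.v 7))) (.add (.mul (.c (-2000)) (.mul (.mul (.v 2) (.v 2)) (.v 2))) (.mul (.c (936)) (.v 11))))) (.add (.add (.add (.mul (.c (897)) (.v 13)) (.mul (.c (-4203)) (.mul (.v 2) (.v 7)))) (.add (.mul (.c (2217)) (.mul (.v 2) (.v 11))) (.mul (.c (1500)) (.mul (.v 5) (.v 5))))) (.add (.add (.mul (.c (1056)) (.mul (.v 2) (.v 13))) (.mul (.c (4500)) (.mul (.mul (.v 2) (.v 2)) (.v 7)))) (.add (.mul (.c (2094)) (.mul (.v 7) (.v 7))) (.add (.mul (.c (-1500)) (.mul (.mul (.v 2) (.v 2)) (.v 13))) (.mul (.c (420)) (.mul (.v 5) (.v 11)))))))) (.add (.add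 (.add (.add (.mul (.c (-1716)) (.mul (.v 7) (.v 11))) (.mul (.c (-1380)) (.mul (.v 7) (.v 13)))) (.add (.mul (.c (-2358)) (.mul (.mul (.v 2) (.v 7)) (.v 7))) (.mul (.c (891)) (.mul (.v 11) (.v 11))))) (.add (.add (.mul (.c (-324)) (.mul (.v 11) (.v 13))) (.mul (.c (-594)) (.mul (.mul (.v 2) (.v 7)) (.v 11)))) (.add (.mul (.c (594)) (.mul (.v 13) (.v 13))) (.add (.mul (.c (1362)) (.mul (.mul (.v 2) (.v 7)) (.v 13))) (.mul (.c (642)) (.mul (.mul (.v 2) (.v 11)) (.v 11))))))) (.add (.add (.add (.mul (.c (-1500)) (.mul (.mul (.v 5) (.v 5)) (.v 11))) (.mul (.c (-1638)) (.mul (.mul (.v 2) (.v 11)) (.v 13)))) (.add (.mul (.c (1284)) (.mul (.mul (.v 2) (.v 13)) (.v 13))) (.mul (.c (-142)) (.mul (.mul (.v 7) (.v 7)) (.v 7))))) (.add (.add (.mul (.c (594)) (.mul (.mul (.v 7) (.v 7)) (.v 11))) (.mul (.c (138)) (.mul (.mul (.v 7) (.v 7)) (.v 13)))) (.add (.mul (.c (-642)) (.mul (.mul (.v 7) (.v 11)) (.v 11))) (.add (.mul (.c (1638)) (.mul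 (.mul (.v 7) (.v 11)) (.v 13))) (.mul (.c (-1284)) (.mul (.mul (.v 7) (.v 13)) (.v 13))))))))))
    (e := (.add (.add (.add (.add (.mul (.pp [(1, 5526300)]) (.sq [(1, -76), (2, 7), (3, 22), (5, 100), (7, 21), (11, -9)])) (.add (.mul (.g 4) (.add (.add (.mul (.g 8) (.add (.add (.pp [(1, 216735000000)]) (.add (.mul (.g 0) (.pp [(1, 1344351000000)])) (.mul (.g 1) (.pp [(1, 471054000000)])))) (.add (.add (.mul (.g 2) (.pp [(1, 1031292000000)])) (.mul (.g 4) (.pp [(1, 30000000)]))) (.add (.mul (.g 9) (.pp [(1, 130195200000)])) (.mul (.g 11) (.pp [(1, 64822800000)])))))) (.add (.mul (.g 12) (.add (.add (.mul (.g 1) (.pp [(1, 485928000000)])) (.add (.mul (.g 2) (.pp [(1, 569469000000)])) (.mul (.g 4) (.pp [(1, 552909000000)])))) (.add (.mul (.g 6) (.pp [(1, 54437550000)])) (.add (.mul (.g 11) (.pp [(1, 327594000000)])) (.mul (.g 12) (.pp [(1, 413523000000)])))))) (.mul (.g 5) (.add (.add (.mul (.g 6) (.pp [(1, 3150000)])) (.mul (.g 7)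 (.pp [(1, 1200000)]))) (.add (.mul (.g 10) (.pp [(1, 6000000)])) (.mul (.g 11) (.pp [(1, 6000000)]))))))) (.add (.add (.mul (.g 0) (.add (.pp [(1, 54453000000)]) (.add (.mul (.g 4) (.pp [(1, 1203843000000)])) (.mul (.g 7) (.pp [(1, 14219040000)]))))) (.mul (.g 1) (.add (.mul (.g 1) (.pp [(1, 134079000000)])) (.mul (.g 10) (.pp [(1, 3043200000)]))))) (.add (.mul (.g 4) (.add (.mul (.g 7) (.pp [(1, 9374760000)])) (.mul (.g 10) (.pp [(1, 6000000)])))) (.mul (.g 3) (.mul (.g 3) (.pp [(1, 252330000000)]))))))) (.mul (.g 5) (.add (.add (.add (.mul (.g 5) (.add (.add (.mul (.g 2) (.pp [(1, 593871000000)])) (.add (.mul (.g 6) (.pp [(1, 3000000)])) (.mul (.g 7) (.pp [(1, 1200000)])))) (.add (.mul (.g 8) (.pp [(1, 593901000000)])) (.add (.mul (.g 11) (.pp [(1, 6000000)])) (.mul (.g 12) (.pp [(1, 1284030000000)])))))) (.mul (.g 0) (.add (.add (.mul (.g 2) (.pp [(1, 80922000000)])) (.mul (.g 3) (.pp [(1, 349887000000)]))) (.add (.mul (.g 6)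 (.pp [(1, 75001500000)])) (.mul (.g 8) (.pp [(1, 80946000000)])))))) (.add (.mul (.g 7) (.add (.add (.pp [(1, 2760000)]) (.mul (.g 1) (.pp [(1, 1200000)]))) (.add (.mul (.g 2) (.pp [(1, 720000)])) (.mul (.g 3) (.pp [(1, 1080000)]))))) (.mul (.g 2) (.add (.pp [(1, 288372000000)]) (.mul (.g 10) (.pp [(1, 64829400000)])))))) (.add (.add (.mul (.g 3) (.add (.mul (.g 8) (.pp [(1, 18000000)])) (.mul (.g 12) (.pp [(1, 1012083000000)])))) (.mul (.g 1) (.mul (.g 6) (.pp [(1, 1500000)])))) (.add (.mul (.g 8) (.pp [(1, 482943000000)])) (.mul (.g 9) (.mul (.g 9) (.pp [(1, 46002240000)]))))))))) (.add (.add (.mul (.g 7) (.add (.add (.mul (.pp [(1, 270372)]) (.sq [(1, -30), (2, 99), (5, 29), (7, -100), (11, 43)])) (.add (.mul (.pp [(1, 1045368)]) (.sq [(1, -8), (2, 100), (5, -37), (7, -35), (11, 50)])) (.mul (.g 8) (.add (.add (.mul (.g 0) (.pp [(1, 4578600000)])) (.mul (.g 1) (.pp [(1, 10025040000)]))) (.add (.mul (.g 3) (.pp [(1, 6716160000)]))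 (.mul (.g 8) (.pp [(1, 15208920000)]))))))) (.add (.add (.mul (.g 1) (.add (.mul (.g 6) (.pp [(1, 102540000)])) (.mul (.g 9) (.pp [(1, 1549632000)])))) (.mul (.g 3) (.mul (.g 6) (.pp [(1, 812826000)])))) (.add (.mul (.g 7) (.mul (.g 7) (.pp [(1, 2178624)]))) (.mul (.g 9) (.mul (.g 12) (.pp [(1, 1434600000)]))))))) (.mul (.g 6) (.add (.add (.mul (.pp [(1, 3790815)]) (.sq [(1, -57), (2, -42), (3, -17), (5, 100), (7, -11), (11, -2)])) (.add (.mul (.pp [(1, 5440965)]) (.sq [(1, -24), (2, 40), (3, -1), (5, 24), (7, -53), (11, -100)])) (.mul (.pp [(1, 4548045)]) (.sq [(1, 7), (2, -48), (3, 36), (5, -10), (7, 100), (11, -17)])))) (.add (.mul (.g 3) (.add (.mul (.g 6) (.pp [(1, 551670000)])) (.mul (.g 8) (.pp [(1, 5685450000)])))) (.add (.mul (.g 8) (.mul (.g 8) (.pp [(1, 10997250000)]))) (.mul (.g 12) (.mul (.g 12) (.pp [(1, 62859150000)])))))))) (.add (.mul (.g 9) (.add (.add (.mul (.pp [(1, 2961000)]) (.sq [(2, 99), (3, 2), (5, -1),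 (7, -100)])) (.mul (.pp [(1, 1743300)]) (.sq [(1, -52), (2, 33), (3, -5), (5, 25), (7, 32), (11, 100)]))) (.add (.mul (.pp [(1, 10861560)]) (.sq [(1, -98), (2, 33), (3, 39), (5, 100), (7, -16), (11, -6)])) (.mul (.g 8) (.mul (.g 12) (.pp [(1, 7797600000)])))))) (.mul (.g 1) (.add (.mul (.pp [(1, 31589400)]) (.sq [(1, -54), (2, 15), (3, -19), (5, 40), (7, 52), (11, 100)])) (.add (.mul (.pp [(1, 36161100)]) (.sq [(1, -69), (2, -19), (3, -25), (5, 100), (7, 20)])) (.mul (.pp [(1, 5937900)]) (.sq [(1, -2), (2, 100), (3, -1), (5, -40), (7, -84), (11, 44)])))))))) (.add (.add (.mul (.g 3) (.add (.mul (.pp [(1, 54866100)]) (.sq [(1, -58), (2, -23), (3, -20), (5, 100), (7, 7)])) (.add (.mul (.pp [(1, 19814700)]) (.sq [(1, -31), (2, 100), (3, -18), (5, -27), (7, -14)])) (.mul (.pp [(1, 42124200)]) (.sq [(1, -44), (2, 100), (3, 13), (5, 3), (7, -47)]))))) (.add (.mul (.g 0) (.add (.mul (.pp [(1, 43485900)]) (.sq [(1, -27), (2, -15), (3,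 -13), (5, 100), (7, -64)])) (.mul (.pp [(1, 60001800)]) (.sq [(1, -75), (2, -12), (3, -17), (5, 100), (7, 19)])))) (.mul (.g 8) (.add (.mul (.pp [(1, 13272000)]) (.sq [(2, 73), (3, 41), (7, -100)])) (.mul (.g 8) (.mul (.g 8) (.pp [(1, 30000000)]))))))) (.add (.add (.mul (.g 10) (.mul (.pp [(1, 9374760)]) (.sq [(1, -62), (2, -27), (3, -17), (5, 100), (7, 11)]))) (.mul (.g 11) (.mul (.pp [(1, 600)]) (.sq [(1, -76), (2, 7), (3, 22), (5, 100), (7, 21), (11, -9)])))) (.add (.mul (.g 12) (.mul (.pp [(1, 7077600)]) (.sq [(1, -67), (2, 7), (3, -83), (5, 46), (7, 100)]))) (.mul (.g 13) (.pp [(1, 244193500000)])))))) (.pp [(1, 43868449956), (2, 30208080), (3, 30040470), (4, 30908592), (5, 29141556), (6, 27448740), (7, 28914810), (8, 29857700), (9, 29010840), (10, 29724384), (11, 26969730), (12, 32325000), (13, 29328000), (14, 30802620), (15, 29249760), (18, 28325700), (20, 29133600), (21, 33526260), (22, 30020928), (25, 30520284), (26, 31308000),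 (27, 30601200), (28, 31945200), (30, 31531800), (33, 30167220), (35, 30188400), (39, 28668000), (42, 29188200), (44, 29927400), (45, 30588000), (49, 30172440), (50, 30805200), (52, 30147000), (55, 32655588), (63, 31677300), (65, 30720000), (66, 30335400), (70, 25810200), (75, 30611100), (77, 32813460), (78, 30924000), (91, 29904000), (98, 29665200), (99, 29783400), (105, 27011400), (110, 31026000), (117, 31452000), (121, 29717523), (125, 30000000), (130, 28200000), (143, 30354000), (147, 28492200), (154, 28411200), (165, 30442200), (169, 31200000), (175, 31785000), (182, 30882000), (195, 31200000), (231, 28165200), (242, 31965300), (245, 30931200), (273, 29772000), (275, 30000000), (286, 32622000), (325, 30000000), (338, 30000000), (343, 30014900), (363, 28671300), (385, 28500000), (429, 28812000), (455, 30600000), (507, 30000000), (539, 31427400), (605, 30000000), (637, 28323000), (715, 27600000), (845, 30000000), (847, 29080800),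 (1001, 28866000), (1183, 30000000), (1331, 30000000), (1573, 30243000), (1859, 30000000), (2197, 30000000)])))
    (by decide +kernel) (yv_nonneg h1 h2 h3 h4 h5 h6 (le_refl 0) (le_refl 0) (le_refl 0))
    (by
      simp only [List.forall_mem_cons, exadd, exsub, exmul, exc, exv2, exv3, exv5, exv7, exv11, exv13]
      push_cast
      refine ⟨?_, ?_, ?_, ?_, ?_, ?_, ?_, ?_, ?_, ?_, ?_, ?_, ?_, ?_, fun _ hh => absurd hh List.not_mem_nil⟩
      · linarith [h1]
      · linarith [h2]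
      · linarith [h3]
      · linarith [h4]
      · linarith [h5]
      · linarith [h6]
      · linarith [kw]
      · linarith [kf]
      · linarith [kub]
      · linarith [kda]
      · linarith [kdb]
      · linarith [kde]
      · linarith [s1]
      · linarith [s2]
    )
  simp only [exadd, exsub, exmul, exc, exv2, exv3, exv5, exv7, exv11, exv13] at h
  push_cast at h
  linarith [h]

theorem colX2p {w f ua ub ue da db de : ℝ} (h1 : 0 ≤ w) (h2 : 0 ≤ f) (h3 : 0 ≤ ua) (h4 : 0 ≤ ub) (h5 : 0 ≤ ue) (h6 : 0 ≤ da) (h7 : 0 ≤ db) (h8 : 0 ≤ de) (kw : 0 ≤ 13 / 20 - w) (kf : 0 ≤ 9 / 25 - f) (kua : 0 ≤ 1 - ua) (kub : 0 ≤ 1 - ub) (kue : 0 ≤ 1 - ue) (kda : 0 ≤ 3 / 5 - da) (kdb : 0 ≤ 3 / 5 - db) (kde : 0 ≤ 3 / 5 - de) (s1 : 0 ≤ -w - ua + da) (s3 : 0 ≤ -w - ue + da) (s4 : 0 ≤ -w - ub + da) (s2 : 0 ≤ 1 / 4 * w - f + 1 / 2 * w ^ 2 - 1 / 12 * w ^ 3) :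
    0 ≤ 333 / 1000 - f - 153 / 200 * ua - 1 / 40 * ub - 173 / 1000 * ue + 39 / 125 * da + 39 / 125 * db + 299 / 1000 * de + 1 / 2 * ua ^ 2 + 7 / 50 * ua * da + 1 / 2 * ub ^ 2 - 493 / 1000 * ub * da - 353 / 1000 * ub * db + 1 / 2 * ue ^ 2 - 123 / 500 * ue * da - 123 / 500 * ue * db - 44 / 125 * ue * de + 297 / 1000 * da ^ 2 + 167 / 1000 * da * db - 27 / 250 * da * de + 297 / 1000 * db ^ 2 - 27 / 250 * db * de + 99 / 500 * de ^ 2 - 1 / 2 * ua ^ 2 * da - 1 / 2 * ub ^ 2 * db + 99 / 500 * ub * da * db - 1 / 2 * ue ^ 2 * de - 107 / 500 * ue * da ^ 2 + 273 / 500 * ue * da * de - 107 / 500 * ue * db ^ 2 + 273 / 500 * ue * db * de - 107 / 250 * ue * de ^ 2 := by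
  have h := cert (y := yv w f ua ub ue da db de 0)
    (gs := [(.v 2),
      (.v 3),
      (.v 5),
      (.v 7),
      (.v 11),
      (.v 13),
      (.v 17),
      (.v 19),
      (.add (.c (13)) (.mul (.c (-20)) (.v 2))),
      (.add (.c (9)) (.mul (.c (-25)) (.v 3))),
      (.add (.c (1)) (.mul (.c (-1)) (.v 5))),
      (.add (.c (1)) (.mul (.c (-1)) (.v 7))),
      (.add (.c (1)) (.mul (.c (-1)) (.v 11))),
      (.add (.c (3)) (.mul (.c (-5)) (.v 13))),
      (.add (.c (3)) (.mul (.c (-5)) (.v 17))),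
      (.add (.c (3)) (.mul (.c (-5)) (.v 19))),
      (.add (.mul (.c (-1)) (.v 2)) (.add (.mul (.c (-1)) (.v 5)) (.v 13))),
      (.add (.mul (.c (-1)) (.v 2)) (.add (.mul (.c (-1)) (.v 11)) (.v 13))),
      (.add (.mul (.c (-1)) (.v 2)) (.add (.mul (.c (-1)) (.v 7)) (.v 13))),
      (.add (.add (.mul (.c (3)) (.v 2)) (.mul (.c (-12)) (.v 3))) (.add (.mul (.c (6)) (.mul (.v 2) (.v 2))) (.mul (.c (-1)) (.mul (.mul (.v 2) (.v 2)) (.v 2)))))])
    (p := .mul (.c 200000000) (.add (.add (.add (.add (.add (.c (333)) (.mul (.c (-1000)) (.v 3))) (.add (.mul (.c (-765)) (.v 5)) (.mul (.c (-25)) (.v 7)))) (.add (.add (.mul (.c (-173)) (.v 11)) (.mul (.c (312)) (.v 13))) (.add (.mul (.c (312)) (.v 17)) (.mul (.c (299)) (.v 19))))) (.add (.add (.add (.mul (.c (500)) (.mul (.v 5) (.v 5))) (.mul (.c (500)) (.mul (.v 7) (.v 7)))) (.add (.mul (.c (140)) (.mul (.v 5) (.v 13))) (.mul (.c (-493)) (.mul (.v 7) (.v 13))))) (.add (.add (.mul (.c (-353))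 (.mul (.v 7) (.v 17))) (.mul (.c (500)) (.mul (.v 11) (.v 11)))) (.add (.mul (.c (-246)) (.mul (.v 11) (.v 13))) (.mul (.c (297)) (.mul (.v 13) (.v 13))))))) (.add (.add (.add (.add (.mul (.c (-246)) (.mul (.v 11) (.v 17))) (.mul (.c (-352)) (.mul (.v 11) (.v 19)))) (.add (.mul (.c (167)) (.mul (.v 13) (.v 17))) (.mul (.c (-108)) (.mul (.v 13) (.v 19))))) (.add (.add (.mul (.c (297)) (.mul (.v 17) (.v 17))) (.mul (.c (-108)) (.mul (.v 17) (.v 19)))) (.add (.mul (.c (-500)) (.mul (.mul (.v 5) (.v 5)) (.v 13))) (.mul (.c (198)) (.mul (.v 19) (.v 19)))))) (.add (.add (.add (.mul (.c (-500)) (.mul (.mul (.v 7) (.v 7)) (.v 17))) (.mul (.c (198)) (.mul (.mul (.v 7) (.v 13)) (.v 17)))) (.add (.mul (.c (-214)) (.mul (.mul (.v 11) (.v 13)) (.v 13))) (.mul (.c (-500)) (.mul (.mul (.v 11) (.v 11)) (.v 19))))) (.add (.add (.mul (.c (546)) (.mul (.mul (.v 11) (.v 13)) (.v 19))) (.mul (.c (-214)) (.mul (.mul (.v 11) (.v 17)) (.v 17)))) (.add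 (.mul (.c (546)) (.mul (.mul (.v 11) (.v 17)) (.v 19))) (.mul (.c (-428)) (.mul (.mul (.v 11) (.v 19)) (.v 19)))))))))
    (e := (.add (.add (.add (.add (.add (.mul (.g 0) (.add (.add (.add (.add (.mul (.pp [(1, 179460)]) (.sq [(2, 3), (3, 26), (5, -18), (7, -31), (11, -19), (13, -15), (17, -100), (19, 35)])) (.mul (.pp [(1, 1276080)]) (.sq [(2, 26), (3, 100), (5, 66), (7, -6), (11, 20), (13, 29), (17, 32), (19, 66)]))) (.add (.mul (.pp [(1, 162620)]) (.sq [(2, -90), (5, 91), (7, 3), (11, 90), (13, 31), (17, -100), (19, 33)])) (.mul (.pp [(1, 176340)]) (.sq [(2, 88), (5, -26), (7, 100), (11, 26), (13, -10), (17, 39), (19, 37)])))) (.add (.add (.mul (.pp [(1, 103540)]) (.sq [(2, -70), (5, -56), (7, -16), (11, 100), (13, -14), (17, 26), (19, 69)])) (.mul (.pp [(1, 4482940)]) (.sq [(2, 100), (3, -13), (5, -13), (7, -13), (11, -13), (13, -13), (17, -13), (19, -13)]))) (.add (.mul (.pp [(1, 4166780)]) (.sq [(2, -71), (5, -31), (7, 100),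 (11, -63), (13, 54), (17, -14), (19, -38)])) (.mul (.g 9) (.add (.add (.mul (.g 2) (.pp [(1, 943888000)])) (.add (.mul (.g 3) (.pp [(1, 1220120000)])) (.mul (.g 4) (.pp [(1, 363336000)])))) (.add (.mul (.g 6) (.pp [(1, 184376000)])) (.add (.mul (.g 7) (.pp [(1, 1397272000)])) (.mul (.g 18) (.pp [(1, 1536000)]))))))))) (.add (.add (.add (.mul (.g 7) (.add (.add (.pp [(1, 45372200000)]) (.mul (.g 4) (.pp [(1, 73191800000)]))) (.add (.mul (.g 7) (.pp [(1, 26328600000)])) (.mul (.g 17) (.pp [(1, 56794400000)]))))) (.mul (.g 0) (.add (.mul (.g 2) (.pp [(1, 93262200000)])) (.add (.mul (.g 14) (.pp [(1, 12961760000)])) (.mul (.g 17) (.pp [(1, 27307200000)])))))) (.add (.mul (.g 13) (.add (.pp [(1, 53234480000)]) (.add (.mul (.g 2) (.pp [(1, 28620920000)])) (.mul (.g 8) (.pp [(1, 14462000)]))))) (.mul (.g 18) (.add (.pp [(1, 102811000000)]) (.add (.mul (.g 8) (.pp [(1, 315020000)])) (.mul (.g 18) (.pp [(1, 12709400000)]))))))) (.add (.add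 (.mul (.g 17) (.add (.mul (.g 2) (.pp [(1, 79146200000)])) (.mul (.g 11) (.pp [(1, 62956200000)])))) (.mul (.g 1) (.pp [(1, 4974200000)]))) (.add (.mul (.g 3) (.mul (.g 4) (.pp [(1, 3059800000)]))) (.add (.mul (.g 6) (.pp [(1, 129263200000)])) (.mul (.g 16) (.pp [(1, 110597400000)])))))))) (.mul (.g 16) (.add (.add (.add (.mul (.pp [(1, 233200)]) (.sq [(2, 35), (3, 39), (5, 39), (7, 50), (11, 50), (13, 39), (17, 50), (19, 50)])) (.add (.mul (.pp [(1, 487840)]) (.sq [(2, -10), (3, 62), (5, -11), (7, 100), (11, -22), (13, 41), (17, -43), (19, 93)])) (.mul (.pp [(1, 47900)]) (.sq [(2, 41), (3, -93), (5, 19), (7, -12), (11, 12), (13, 15), (17, 48), (19, 100)])))) (.add (.add (.mul (.pp [(1, 566540)]) (.sq [(2, -80), (5, -60), (7, -66), (11, 48), (13, 65), (17, 100), (19, 3)])) (.mul (.pp [(1, 940160)]) (.sq [(2, -68), (5, 34), (7, -29), (11, 24), (13, -55), (17, -31), (19, 100)]))) (.add (.mul (.g 3) (.add (.add (.mul (.g 2) (.pp [(1,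 2926200000)])) (.mul (.g 8) (.pp [(1, 2722330000)]))) (.add (.mul (.g 9) (.pp [(1, 418776000)])) (.add (.mul (.g 11) (.pp [(1, 5193200000)])) (.mul (.g 16) (.pp [(1, 4886600000)])))))) (.mul (.g 4) (.add (.add (.pp [(1, 21402800000)]) (.mul (.g 13) (.pp [(1, 17539160000)]))) (.add (.mul (.g 15) (.pp [(1, 1791960000)])) (.mul (.g 16) (.pp [(1, 39997200000)])))))))) (.add (.add (.add (.mul (.g 6) (.add (.pp [(1, 104200000)]) (.add (.mul (.g 6) (.pp [(1, 8985600000)])) (.mul (.g 18) (.pp [(1, 58931600000)]))))) (.mul (.g 12) (.add (.mul (.g 8) (.pp [(1, 454510000)])) (.add (.mul (.g 10) (.pp [(1, 34258000000)])) (.mul (.g 17) (.pp [(1, 46400000)])))))) (.add (.mul (.g 2) (.add (.pp [(1, 17244800000)]) (.mul (.g 16) (.pp [(1, 3548200000)])))) (.mul (.g 7) (.add (.mul (.g 9) (.pp [(1, 229576000)])) (.mul (.g 15) (.pp [(1, 3357000000)])))))) (.add (.add (.mul (.g 11) (.add (.pp [(1, 45604000000)]) (.mul (.g 17) (.pp [(1, 5468400000)]))))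 (.mul (.g 13) (.add (.pp [(1, 22317560000)]) (.mul (.g 10) (.pp [(1, 235160000)]))))) (.add (.mul (.g 9) (.pp [(1, 137984000)])) (.mul (.g 15) (.pp [(1, 2545680000)])))))))) (.add (.mul (.g 6) (.add (.add (.add (.mul (.pp [(1, 166180)]) (.sq [(2, -26), (3, 51), (5, 34), (7, -55), (11, 54), (13, 43), (17, -100), (19, -11)])) (.add (.mul (.pp [(1, 1166220)]) (.sq [(1, -35), (2, 43), (3, -39), (5, 13), (7, -33), (11, 100), (13, 26), (17, -2), (19, -17)])) (.mul (.pp [(1, 5134700)]) (.sq [(2, -100), (5, 9), (7, -12), (11, 10), (13, -8), (17, -8), (19, 47)])))) (.add (.mul (.g 6) (.add (.add (.mul (.g 6) (.pp [(1, 51298800000)])) (.mul (.g 7) (.pp [(1, 32511200000)]))) (.add (.mul (.g 9) (.pp [(1, 229984000)])) (.add (.mul (.g 17) (.pp [(1, 51419200000)])) (.mul (.g 18) (.pp [(1, 49222600000)])))))) (.add (.mul (.g 9) (.add (.add (.mul (.g 1) (.pp [(1, 68624000)])) (.mul (.g 2) (.pp [(1, 217616000)]))) (.add (.mul (.g 4) (.pp [(1, 35712000)]))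 (.mul (.g 7) (.pp [(1, 224776000)]))))) (.mul (.g 18) (.add (.add (.pp [(1, 6623600000)]) (.mul (.g 2) (.pp [(1, 84858400000)]))) (.add (.mul (.g 3) (.pp [(1, 4157400000)])) (.mul (.g 15) (.pp [(1, 952280000)])))))))) (.add (.add (.mul (.g 1) (.add (.pp [(1, 4961600000)]) (.mul (.g 5) (.pp [(1, 7389200000)])))) (.add (.mul (.g 7) (.add (.pp [(1, 11909600000)]) (.mul (.g 3) (.pp [(1, 41788600000)])))) (.mul (.g 2) (.mul (.g 5) (.pp [(1, 5207000000)]))))) (.add (.add (.mul (.g 4) (.pp [(1, 2008600000)])) (.mul (.g 11) (.mul (.g 15) (.pp [(1, 2423160000)])))) (.add (.mul (.g 13) (.pp [(1, 15301000000)])) (.mul (.g 14) (.mul (.g 14) (.pp [(1, 915632000)])))))))) (.mul (.g 7) (.add (.add (.mul (.pp [(1, 1340600)]) (.sq [(2, -67), (5, 100), (7, 34), (11, 27), (13, -63), (17, -85), (19, -30)])) (.add (.mul (.pp [(1, 692620)]) (.sq [(2, 33), (3, 33), (5, 33), (7, 33), (11, -100), (13, -67), (17, -67), (19, 33)])) (.mul (.g 17) (.add (.add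 (.pp [(1, 42509000000)]) (.add (.mul (.g 4) (.pp [(1, 48126200000)])) (.mul (.g 5) (.pp [(1, 19619600000)])))) (.add (.mul (.g 7) (.pp [(1, 20735600000)])) (.add (.mul (.g 9) (.pp [(1, 127264000)])) (.mul (.g 10) (.pp [(1, 3498200000)])))))))) (.add (.add (.mul (.g 15) (.add (.pp [(1, 4660560000)]) (.add (.mul (.g 4) (.pp [(1, 4066560000)])) (.mul (.g 18) (.pp [(1, 213800000)]))))) (.mul (.g 1) (.add (.pp [(1, 549800000)]) (.mul (.g 9) (.pp [(1, 1128000)]))))) (.add (.mul (.g 13) (.add (.pp [(1, 15351920000)]) (.mul (.g 2) (.pp [(1, 10815640000)])))) (.mul (.g 18) (.add (.mul (.g 9) (.pp [(1, 53344000)])) (.mul (.g 12) (.pp [(1, 2338000000)])))))))))) (.add (.add (.mul (.g 13) (.add (.add (.add (.mul (.pp [(1, 315040)]) (.sq [(2, 11), (3, -28), (5, 94), (7, -44), (11, 80), (13, -63), (17, -31), (19, 100)])) (.mul (.pp [(1, 112992)]) (.sq [(2, 50), (3, 50), (5, 50), (7, 39), (11, 39), (13, 50), (17, 39), (19, 39)]))) (.add (.mul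 (.pp [(1, 1519940)]) (.sq [(2, -34), (5, 100), (7, -1), (11, 38), (13, -9), (17, 36), (19, -66)])) (.add (.mul (.pp [(1, 311232)]) (.sq [(2, 1), (5, -100), (7, -4), (11, 49), (13, -36), (17, 73), (19, -71)])) (.mul (.pp [(1, 18604)]) (.sq [(2, -26), (3, -100), (5, 49), (7, 78), (11, -3), (13, 27), (17, 94), (19, 1)]))))) (.add (.add (.mul (.g 2) (.add (.mul (.g 12) (.pp [(1, 2936040000)])) (.mul (.g 17) (.pp [(1, 1246200000)])))) (.add (.mul (.g 1) (.pp [(1, 1057360000)])) (.mul (.g 3) (.mul (.g 8) (.pp [(1, 314850000)]))))) (.add (.mul (.g 13) (.pp [(1, 4962648000)])) (.add (.mul (.g 17) (.pp [(1, 11695760000)])) (.mul (.g 18) (.pp [(1, 4803000000)]))))))) (.mul (.g 1) (.add (.add (.mul (.pp [(1, 162340)]) (.sq [(2, -21), (3, 13), (5, -27), (7, 100), (11, -10), (13, 99), (17, -3), (19, 4)])) (.mul (.g 9) (.add (.add (.pp [(1, 306208000)]) (.mul (.g 1) (.pp [(1, 1176000)]))) (.add (.mul (.g 3) (.pp [(1, 331728000)])) (.mul (.g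 5) (.pp [(1, 182160000)])))))) (.add (.mul (.g 4) (.add (.pp [(1, 5207000000)]) (.mul (.g 1) (.pp [(1, 1348000000)])))) (.add (.mul (.g 18) (.add (.pp [(1, 496400000)]) (.mul (.g 18) (.pp [(1, 2053200000)])))) (.mul (.g 11) (.mul (.g 17) (.pp [(1, 10527400000)])))))))) (.add (.mul (.g 14) (.add (.add (.mul (.pp [(1, 82108)]) (.sq [(2, 92), (5, -65), (7, -27), (11, 10), (13, 100), (17, 60), (19, -77)])) (.add (.mul (.pp [(1, 1712800000)]) (.sq [(11, 1), (19, -1)])) (.mul (.pp [(1, 467060)]) (.sq [(2, -75), (5, -34), (7, 98), (11, -42), (13, 72), (17, 100), (19, 69)])))) (.add (.add (.mul (.pp [(1, 679440000)]) (.sq [(7, 1), (13, -1)])) (.mul (.pp [(1, 67524)]) (.sq [(1, 20), (2, -24), (3, 26), (5, 100), (7, -57), (11, 5), (13, -73), (17, -4), (19, -74)]))) (.add (.mul (.pp [(1, 1027000)]) (.sq [(2, -94), (3, -7), (5, 3), (7, -88), (11, -2), (13, 70), (17, 100), (19, -9)])) (.mul (.g 18) (.mul (.g 18) (.pp [(1, 6129440000)])))))))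 (.mul (.g 15) (.add (.add (.mul (.pp [(1, 12560)]) (.sq [(2, -8), (3, 50), (5, -39), (7, -3), (11, 18), (13, -58), (17, -51), (19, 100)])) (.add (.mul (.pp [(1, 11840)]) (.sq [(1, -3), (2, -29), (3, -21), (5, -12), (7, -36), (11, 100), (13, 50), (17, 7), (19, 96)])) (.mul (.pp [(1, 159336)]) (.sq [(2, -33), (5, -68), (7, -30), (11, 21), (13, 100), (17, -69), (19, 16)])))) (.add (.mul (.pp [(1, 24064)]) (.sq [(2, 32), (5, -68), (7, 91), (11, -100), (13, 21), (17, 10), (19, -4)])) (.add (.mul (.pp [(1, 928776)]) (.sq [(2, 11), (3, 11), (5, 11), (7, 11), (11, 100), (13, -62), (17, -62), (19, 11)])) (.mul (.pp [(1, 67044)]) (.sq [(2, -64), (5, -92), (7, 55), (11, 100), (13, -61), (17, 45), (19, -8)]))))))))) (.add (.add (.add (.mul (.g 17) (.add (.add (.mul (.pp [(1, 568760)]) (.sq [(2, 22), (5, -83), (7, 26), (11, 58), (13, 20), (17, 100), (19, -44)])) (.mul (.pp [(1, 1177640)]) (.sq [(2, 20), (3, -55), (5, 8), (7, -24), (11, 3),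 (13, 9), (17, 23), (19, 100)]))) (.add (.mul (.pp [(1, 650320)]) (.sq [(2, 3), (3, 3), (5, 3), (7, -34), (11, 58), (13, -51), (17, -69), (19, 100)])) (.add (.mul (.g 11) (.add (.mul (.g 3) (.pp [(1, 2173200000)])) (.mul (.g 17) (.pp [(1, 166400000)])))) (.mul (.g 17) (.pp [(1, 35759000000)])))))) (.mul (.g 8) (.add (.add (.mul (.pp [(1, 222265)]) (.sq [(2, -86), (5, -22), (7, -100), (11, -31), (13, 63), (17, 57), (19, 35)])) (.mul (.pp [(1, 14686)]) (.sq [(2, 84), (5, 48), (7, -82), (11, 100), (13, 4), (17, 35), (19, -51)]))) (.add (.mul (.pp [(1, 33666)]) (.sq [(2, -11), (5, 100), (7, 19), (11, -92), (13, -51), (17, 23), (19, 61)])) (.mul (.pp [(1, 35395)]) (.sq [(1, 26), (2, 2), (3, 100), (5, -11), (7, -99), (11, 15), (13, 3), (17, -10), (19, 15)])))))) (.add (.mul (.g 2) (.add (.mul (.pp [(1, 278360)]) (.sq [(2, 30), (3, 95), (5, -5), (7, -17), (11, -4), (13, 3), (17, 100), (19, 23)])) (.add (.mul (.pp [(1, 361180)]) (.sq [(2,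 16), (3, 26), (5, 1), (7, 87), (11, -17), (13, -20), (17, 8), (19, -100)])) (.mul (.g 4) (.mul (.g 9) (.pp [(1, 20752000)])))))) (.mul (.g 3) (.add (.mul (.pp [(1, 17980)]) (.sq [(1, -10), (2, 40), (3, -10), (5, -59), (7, 6), (11, 88), (13, 66), (17, -89), (19, 100)])) (.add (.mul (.pp [(1, 812900)]) (.sq [(2, 16), (3, 100), (5, -22), (7, -14), (11, -35), (13, 93), (17, 22), (19, -16)])) (.mul (.g 3) (.mul (.g 9) (.pp [(1, 39544000)])))))))) (.add (.add (.mul (.g 12) (.add (.mul (.pp [(1, 79300)]) (.sq [(1, 7), (2, 9), (3, 32), (5, -47), (7, -46), (11, 100), (13, -1), (17, -32), (19, 20)])) (.add (.mul (.pp [(1, 649520)]) (.sq [(2, 11), (3, 11), (5, 11), (7, 11), (11, 11), (13, -62), (17, -62), (19, 100)])) (.mul (.pp [(1, 519360)]) (.sq [(2, -46), (5, 64), (7, 49), (11, 34), (13, -100), (17, 13), (19, 21)]))))) (.mul (.g 4) (.add (.mul (.pp [(1, 557920)]) (.sq [(3, 3), (5, -8), (7, -7), (11, 100), (13, -35), (17, 5)])) (.mul (.pp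 [(1, 256700)]) (.sq [(2, -32), (3, -97), (5, 13), (7, 32), (11, -3), (13, -42), (17, -100), (19, -9)]))))) (.add (.mul (.g 5) (.add (.mul (.pp [(1, 1287720)]) (.sq [(1, 2), (2, -40), (3, -31), (5, 10), (7, -7), (11, 100), (13, -37), (17, 46), (19, -94)])) (.mul (.pp [(1, 2883600000)]) (.sq [(7, -1), (11, 1), (17, -1), (19, 1)])))) (.add (.mul (.g 18) (.mul (.pp [(1, 70300)]) (.sq [(2, 23), (3, -61), (5, 34), (7, -48), (11, 4), (13, 48), (17, -30), (19, 100)]))) (.mul (.g 19) (.pp [(1, 17381100000)]))))))) (.pp [(1, 21539882560), (2, 2191200), (3, 1869200), (4, 1917958), (5, 2097180), (6, 2060000), (7, 2088020), (8, 1709440), (9, 2019120), (10, 1622036), (11, 2038000), (12, 2065260), (13, 1818500), (14, 1920248), (15, 2022984), (17, 1960460), (18, 1947260), (19, 2056140), (20, 1774140), (21, 2023272), (22, 1946256), (25, 1938225), (26, 2012708), (27, 1964540), (28, 1632340), (30, 1966720), (33, 1963240), (34, 1691024), (35, 2023914),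 (38, 1914180), (39, 1928904), (42, 1591920), (44, 2368340), (45, 1847260), (49, 1997711), (50, 1592900), (51, 1978008), (52, 2463880), (55, 1895026), (57, 1898520), (63, 1904300), (65, 1702482), (66, 1958200), (68, 2029960), (70, 2015240), (75, 2016820), (76, 2166340), (77, 2055814), (78, 1994680), (85, 2013056), (91, 1810914), (95, 1862602), (98, 1873400), (99, 1905820), (102, 2015160), (105, 1908480), (110, 1998000), (114, 2027280), (117, 2153280), (119, 1829512), (121, 1974540), (125, 1866520), (130, 2275200), (133, 1999218), (143, 1981580), (147, 1954400), (153, 2053840), (154, 1844360), (165, 1922360), (169, 2140646), (170, 2227280), (171, 2070140), (175, 2059180), (182, 2265280), (187, 1950842), (190, 1819200), (195, 2021000), (209, 2073724), (221, 2219850), (231, 1973600), (238, 2602080), (242, 1923900), (245, 1927180), (247, 1790828), (255, 1864800), (266, 1937800), (273, 2049200), (275, 1837880), (285, 1888520), (286,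 1951720), (289, 2171659), (323, 2069342), (325, 2426560), (338, 1858180), (343, 1995520), (357, 1971440), (361, 1949816), (363, 2008600), (374, 2096960), (385, 2076360), (399, 2071000), (418, 1634640), (425, 2037420), (429, 2123360), (442, 1540400), (455, 1813360), (475, 1971740), (494, 2141320), (507, 2079940), (539, 1923440), (561, 2086400), (578, 1850220), (595, 2218920), (605, 1947660), (627, 2017000), (637, 2270140), (646, 2250320), (663, 1943520), (665, 1722360), (715, 2277280), (722, 1703360), (741, 1965000), (833, 1980400), (845, 2025360), (847, 1928860), (867, 2019660), (931, 1988320), (935, 1793600), (969, 2019160), (1001, 1981000), (1045, 1785720), (1083, 2000760), (1105, 1840560), (1183, 2202500), (1235, 2446200), (1309, 2169160), (1331, 2045660), (1445, 1872240), (1463, 2150400), (1547, 1729280), (1573, 2088100), (1615, 1861600), (1729, 2013280), (1805, 1952620), (1859, 1932340), (2023, 1908500), (2057, 1930820), (2197,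 2155160), (2261, 1853320), (2299, 1858920), (2431, 1947000), (2527, 1944440), (2717, 2570520), (2873, 2312000), (3179, 2134200), (3211, 1947520), (3553, 2215760), (3757, 2045160), (3971, 1877380), (4199, 2010920), (4693, 2274920), (4913, 1660240), (5491, 1975000), (6137, 1904100), (6859, 2022780)])))
    (by decide +kernel) (yv_nonneg h1 h2 h3 h4 h5 h6 h7 h8 (le_refl 0))
    (by
      simp only [List.forall_mem_cons, exadd, exsub, exmul, exc, exv2, exv3, exv5, exv7, exv11, exv13, exv17, exv19]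
      push_cast
      refine ⟨?_, ?_, ?_, ?_, ?_, ?_, ?_, ?_, ?_, ?_, ?_, ?_, ?_, ?_, ?_, ?_, ?_, ?_, ?_, ?_, fun _ hh => absurd hh List.not_mem_nil⟩
      · linarith [h1]
      · linarith [h2]
      · linarith [h3]
      · linarith [h4]
      · linarith [h5]
      · linarith [h6]
      · linarith [h7]
      · linarith [h8]
      · linarith [kw]
      · linarith [kf]
      · linarith [kua]
      · linarith [kub]
      · linarith [kue]
      · linarith [kda]
      · linarith [kdb]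
      · linarith [kde]
      · linarith [s1]
      · linarith [s3]
      · linarith [s4]
      · linarith [s2]
    )
  simp only [exadd, exsub, exmul, exc, exv2, exv3, exv5, exv7, exv11, exv13, exv17, exv19] at h
  push_cast at h
  linarith [h]

theorem colX2m {w f da db de : ℝ} (h1 : 0 ≤ w) (h2 : 0 ≤ f) (h3 : 0 ≤ da) (h4 : 0 ≤ db) (h5 : 0 ≤ de) (kw : 0 ≤ 13 / 20 - w) (kf : 0 ≤ 9 / 25 - f) (kda : 0 ≤ 3 / 5 - da) (kdb : 0 ≤ 3 / 5 - db) (kde : 0 ≤ 3 / 5 - de) (s1 : 0 ≤ w - da) (s2 : 0 ≤ 1 / 4 * w - f + 1 / 2 * w ^ 2 - 1 / 12 * w ^ 3) :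
    0 ≤ 333 / 1000 + 963 / 1000 * w - f - 651 / 1000 * da + 39 / 125 * db + 299 / 1000 * de + 3 / 2 * w ^ 2 - 2401 / 1000 * w * da + 599 / 1000 * w * db + 44 / 125 * w * de + 599 / 500 * da ^ 2 - 54 / 125 * da * db - 23 / 50 * da * de + 297 / 1000 * db ^ 2 - 27 / 250 * db * de + 99 / 500 * de ^ 2 - w ^ 3 + 5 / 2 * w ^ 2 * da - 1 / 2 * w ^ 2 * db - 1 / 2 * w ^ 2 * de - 893 / 500 * w * da ^ 2 + 401 / 500 * w * da * db + 227 / 500 * w * da * de + 107 / 500 * w * db ^ 2 - 273 / 500 * w * db * de + 107 / 250 * w * de ^ 2 + 143 / 500 * da ^ 3 - 151 / 500 * da ^ 2 * db + 23 / 500 * da ^ 2 * de - 107 / 500 * da * db ^ 2 + 273 / 500 * da * db * de - 107 / 250 * da * de ^ 2 := by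
  have h := cert (y := yv w f da db de 0 0 0 0)
    (gs := [(.v 2),
      (.v 3),
      (.v 5),
      (.v 7),
      (.v 11),
      (.add (.c (13)) (.mul (.c (-20)) (.v 2))),
      (.add (.c (9)) (.mul (.c (-25)) (.v 3))),
      (.add (.c (3)) (.mul (.c (-5)) (.v 5))),
      (.add (.c (3)) (.mul (.c (-5)) (.v 7))),
      (.add (.c (3)) (.mul (.c (-5)) (.v 11))),
      (.add (.v 2) (.mul (.c (-1)) (.v 5))),
      (.add (.add (.mul (.c (3)) (.v 2)) (.mul (.c (-12)) (.v 3))) (.add (.mul (.c (6)) (.mul (.v 2) (.v 2))) (.mul (.c (-1)) (.mul (.mul (.v 2) (.v 2)) (.v 2)))))])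
    (p := .mul (.c 1500000) (.add (.add (.add (.add (.add (.c (333)) (.mul (.c (963)) (.v 2))) (.add (.mul (.c (-1000)) (.v 3)) (.mul (.c (1500)) (.mul (.v 2) (.v 2))))) (.add (.add (.mul (.c (-651)) (.v 5)) (.mul (.c (312)) (.v 7))) (.add (.mul (.c (-1000)) (.mul (.mul (.v 2) (.v 2)) (.v 2))) (.mul (.c (-2401)) (.mul (.v 2) (.v 5)))))) (.add (.add (.add (.mul (.c (299)) (.v 11)) (.mul (.c (599)) (.mul (.v 2) (.v 7)))) (.add (.mul (.c (2500)) (.mul (.mul (.v 2) (.v 2)) (.v 5))) (.mul (.c (352)) (.mul (.v 2) (.v 11))))) (.add (.add (.mul (.c (1198)) (.mul (.v 5) (.v 5))) (.mul (.c (-500)) (.mul (.mul (.v 2) (.v 2)) (.v 7)))) (.add (.mul (.c (-432)) (.mul (.v 5) (.v 7))) (.mul (.c (-500)) (.mul (.mul (.v 2) (.v 2)) (.v 11))))))) (.add (.add (.add (.add (.mul (.c (297)) (.mul (.v 7) (.v 7))) (.mul (.c (-1786)) (.mul (.mul (.v 2) (.v 5)) (.v 5)))) (.add (.mul (.c (-460)) (.mul (.v 5) (.v 11))) (.mul (.c (802)) (.mul (.mul (.v 2) (.v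 5)) (.v 7))))) (.add (.add (.mul (.c (-108)) (.mul (.v 7) (.v 11))) (.mul (.c (214)) (.mul (.mul (.v 2) (.v 7)) (.v 7)))) (.add (.mul (.c (454)) (.mul (.mul (.v 2) (.v 5)) (.v 11))) (.mul (.c (198)) (.mul (.v 11) (.v 11)))))) (.add (.add (.add (.mul (.c (286)) (.mul (.mul (.v 5) (.v 5)) (.v 5))) (.mul (.c (-546)) (.mul (.mul (.v 2) (.v 7)) (.v 11)))) (.add (.mul (.c (-302)) (.mul (.mul (.v 5) (.v 5)) (.v 7))) (.mul (.c (428)) (.mul (.mul (.v 2) (.v 11)) (.v 11))))) (.add (.add (.mul (.c (-214)) (.mul (.mul (.v 5) (.v 7)) (.v 7))) (.mul (.c (46)) (.mul (.mul (.v 5) (.v 5)) (.v 11)))) (.add (.mul (.c (546)) (.mul (.mul (.v 5) (.v 7)) (.v 11))) (.mul (.c (-428)) (.mul (.mul (.v 5) (.v 11)) (.v 11)))))))))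
    (e := (.add (.add (.add (.mul (.g 10) (.add (.add (.add (.pp [(1, 749500500)]) (.mul (.g 10) (.add (.add (.pp [(1, 171484500)]) (.mul (.g 2) (.pp [(1, 521512500)]))) (.add (.mul (.g 5) (.pp [(1, 68750475)])) (.add (.mul (.g 8) (.pp [(1, 120298500)])) (.mul (.g 9) (.pp [(1, 68098500)]))))))) (.add (.mul (.g 6) (.add (.add (.pp [(1, 660)]) (.mul (.g 0) (.pp [(1, 600)]))) (.add (.mul (.g 2) (.pp [(1, 1200)])) (.mul (.g 8) (.pp [(1, 120)]))))) (.mul (.g 4) (.add (.pp [(1, 261784500)]) (.add (.mul (.g 1) (.pp [(1, 15000)])) (.mul (.g 4) (.pp [(1, 642015000)]))))))) (.add (.add (.mul (.g 3) (.add (.pp [(1, 541848000)]) (.mul (.g 9) (.pp [(1, 163797000)])))) (.mul (.g 0) (.mul (.g 2) (.pp [(1, 260982000)])))) (.add (.mul (.g 1) (.mul (.g 1) (.pp [(1, 15000)]))) (.mul (.g 8) (.mul (.g 8) (.pp [(1, 12840600)]))))))) (.add (.mul (.g 3) (.add (.add (.pp [(1, 419365500)]) (.add (.mul (.g 3) (.add (.add (.pp [(1, 445441500)]) (.mul (.g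 5) (.pp [(1, 1500)]))) (.add (.mul (.g 6) (.pp [(1, 600)])) (.add (.mul (.g 8) (.pp [(1, 3000)])) (.mul (.g 9) (.pp [(1, 3000)])))))) (.mul (.g 0) (.add (.pp [(1, 153912000)]) (.add (.mul (.g 5) (.pp [(1, 7426125)])) (.mul (.g 9) (.pp [(1, 6000)]))))))) (.add (.add (.mul (.g 1) (.add (.mul (.g 5) (.pp [(1, 1500)])) (.mul (.g 6) (.pp [(1, 600)])))) (.mul (.g 2) (.mul (.g 2) (.pp [(1, 148477500)])))) (.add (.mul (.g 6) (.pp [(1, 1620)])) (.mul (.g 9) (.mul (.g 9) (.pp [(1, 5400480)]))))))) (.mul (.g 4) (.add (.add (.pp [(1, 320005500)]) (.add (.mul (.g 4) (.add (.add (.pp [(1, 215934000)]) (.mul (.g 5) (.pp [(1, 1500)]))) (.add (.mul (.g 6) (.pp [(1, 600)])) (.add (.mul (.g 8) (.pp [(1, 27005400)])) (.mul (.g 9) (.pp [(1, 3000)])))))) (.mul (.g 6) (.add (.pp [(1, 1200)]) (.add (.mul (.g 0) (.pp [(1, 1200)])) (.mul (.g 1) (.pp [(1, 600)]))))))) (.add (.add (.mul (.g 0) (.mul (.g 5) (.pp [(1, 20476125)]))) (.mul (.g 1) (.mul (.g 8)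 (.pp [(1, 3000)])))) (.add (.mul (.g 2) (.mul (.g 2) (.pp [(1, 52618500)]))) (.mul (.g 7) (.mul (.g 7) (.pp [(1, 14274360)]))))))))) (.add (.mul (.g 7) (.add (.add (.pp [(1, 2298300)]) (.mul (.g 0) (.add (.pp [(1, 39860100)]) (.mul (.g 5) (.pp [(1, 2174715)]))))) (.add (.mul (.g 7) (.add (.mul (.g 6) (.pp [(1, 72)])) (.mul (.g 7) (.pp [(1, 740220)])))) (.mul (.g 1) (.pp [(1, 18900)]))))) (.add (.mul (.g 1) (.mul (.g 6) (.add (.pp [(1, 840)]) (.add (.mul (.g 0) (.pp [(1, 1200)])) (.mul (.g 1) (.pp [(1, 600)])))))) (.mul (.g 11) (.pp [(1, 125005250)]))))) (.pp [(1, 472613328), (2, 14985), (3, 14940), (4, 14325), (5, 15720), (6, 14700), (7, 15600), (8, 14750), (9, 15600), (10, 14925), (11, 14460), (12, 15000), (14, 14775), (15, 15000), (18, 15000), (20, 15000), (21, 15600), (22, 15075), (25, 13425), (27, 15000), (28, 15000), (30, 15000), (33, 15600), (35, 15600), (42, 15000), (44, 15000), (45, 15000), (49, 15600), (50, 16500), (55,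 15300), (63, 15000), (66, 15000), (70, 15000), (75, 15000), (77, 14400), (98, 15000), (99, 15000), (105, 15000), (110, 15000), (121, 15900), (125, 15000), (147, 15000), (154, 15000), (165, 15000), (175, 15000), (231, 15000), (242, 15000), (245, 15000), (275, 15000), (343, 15000), (363, 15000), (385, 15000), (539, 15000), (605, 15000), (847, 15000), (1331, 15000)])))
    (by decide +kernel) (yv_nonneg h1 h2 h3 h4 h5 (le_refl 0) (le_refl 0) (le_refl 0) (le_refl 0))
    (by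
      simp only [List.forall_mem_cons, exadd, exsub, exmul, exc, exv2, exv3, exv5, exv7, exv11]
      push_cast
      refine ⟨?_, ?_, ?_, ?_, ?_, ?_, ?_, ?_, ?_, ?_, ?_, ?_, fun _ hh => absurd hh List.not_mem_nil⟩
      · linarith [h1]
      · linarith [h2]
      · linarith [h3]
      · linarith [h4]
      · linarith [h5]
      · linarith [kw]
      · linarith [kf]
      · linarith [kda]
      · linarith [kdb]
      · linarith [kde]
      · linarith [s1]
      · linarith [s2]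
    )
  simp only [exadd, exsub, exmul, exc, exv2, exv3, exv5, exv7, exv11] at h
  push_cast at h
  linarith [h]

theorem colT {d0 d1 d2 d3 : ℝ} (h1 : 0 ≤ d0) (h2 : 0 ≤ d1) (h3 : 0 ≤ d2) (h4 : 0 ≤ d3) (kd0 : 0 ≤ 3 / 5 - d0) (kd1 : 0 ≤ 3 / 5 - d1) (kd2 : 0 ≤ 3 / 5 - d2) (kd3 : 0 ≤ 3 / 5 - d3) :
    0 ≤ 379 / 3000 - 13 / 100 * d0 - 13 / 100 * d1 - 13 / 100 * d2 - 13 / 100 * d3 - 447 / 1000 * d0 ^ 2 + 163 / 250 * d0 * d1 + 177 / 250 * d0 * d2 + 177 / 250 * d0 * d3 - 447 / 1000 * d1 ^ 2 + 177 / 250 * d1 * d2 + 177 / 250 * d1 * d3 - 447 / 1000 * d2 ^ 2 + 163 / 250 * d2 * d3 - 447 / 1000 * d3 ^ 2 + 223 / 375 * d0 ^ 3 - 99 / 500 * d0 ^ 2 * d1 - 83 / 250 * d0 ^ 2 * d2 - 83 / 250 * d0 ^ 2 * d3 - 99 / 500 * d0 * d1 ^ 2 - 83 / 250 * d0 * d2 ^ 2 - 83 / 250 * d0 * d3 ^ 2 + 223 / 375 * d1 ^ 3 - 83 / 250 * d1 ^ 2 * d2 - 83 / 250 * d1 ^ 2 * d3 - 83 / 250 * d1 * d2 ^ 2 - 83 / 250 * d1 * d3 ^ 2 + 223 / 375 * d2 ^ 3 - 99 / 500 * d2 ^ 2 * d3 - 99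 / 500 * d2 * d3 ^ 2 + 223 / 375 * d3 ^ 3 := by
  have h := cert (y := yv d0 d1 d2 d3 0 0 0 0 0)
    (gs := [(.v 2),
      (.v 3),
      (.v 5),
      (.v 7),
      (.add (.c (3)) (.mul (.c (-5)) (.v 2))),
      (.add (.c (3)) (.mul (.c (-5)) (.v 3))),
      (.add (.c (3)) (.mul (.c (-5)) (.v 5))),
      (.add (.c (3)) (.mul (.c (-5)) (.v 7)))])
    (p := .mul (.c 50000000) (.add (.add (.add (.add (.c (379)) (.add (.mul (.c (-390)) (.v 2)) (.mul (.c (-390)) (.v 3)))) (.add (.add (.mul (.c (-1341)) (.mul (.v 2) (.v 2))) (.mul (.c (-390)) (.v 5))) (.add (.mul (.c (1956)) (.mul (.v 2) (.v 3))) (.mul (.c (-390)) (.v 7))))) (.add (.add (.add (.mul (.c (1784)) (.mul (.mul (.v 2) (.v 2)) (.v 2))) (.mul (.c (-1341)) (.mul (.v 3) (.v 3)))) (.add (.mul (.c (2124)) (.mul (.v 2) (.v 5))) (.mul (.c (-594)) (.mul (.mul (.v 2) (.v 2)) (.v 3))))) (.add (.add (.mul (.c (2124)) (.mul (.v 2) (.v 7))) (.mul (.c (2124)) (.mul (.v 3) (.v 5)))) (.add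 (.mul (.c (-594)) (.mul (.mul (.v 2) (.v 3)) (.v 3))) (.mul (.c (-996)) (.mul (.mul (.v 2) (.v 2)) (.v 5))))))) (.add (.add (.add (.add (.mul (.c (2124)) (.mul (.v 3) (.v 7))) (.mul (.c (-1341)) (.mul (.v 5) (.v 5)))) (.add (.mul (.c (1784)) (.mul (.mul (.v 3) (.v 3)) (.v 3))) (.mul (.c (-996)) (.mul (.mul (.v 2) (.v 2)) (.v 7))))) (.add (.add (.mul (.c (1956)) (.mul (.v 5) (.v 7))) (.mul (.c (-996)) (.mul (.mul (.v 3) (.v 3)) (.v 5)))) (.add (.mul (.c (-1341)) (.mul (.v 7) (.v 7))) (.mul (.c (-996)) (.mul (.mul (.v 2) (.v 5)) (.v 5)))))) (.add (.add (.add (.mul (.c (-996)) (.mul (.mul (.v 3) (.v 3)) (.v 7))) (.mul (.c (-996)) (.mul (.mul (.v 3) (.v 5)) (.v 5)))) (.add (.mul (.c (-996)) (.mul (.mul (.v 2) (.v 7)) (.v 7))) (.mul (.c (1784)) (.mul (.mul (.v 5) (.v 5)) (.v 5))))) (.add (.add (.mul (.c (-996)) (.mul (.mul (.v 3) (.v 7)) (.v 7))) (.mul (.c (-594)) (.mul (.mul (.v 5) (.v 5)) (.v 7)))) (.add (.mul (.c (-594)) (.mul (.mul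 (.v 5) (.v 7)) (.v 7))) (.mul (.c (1784)) (.mul (.mul (.v 7) (.v 7)) (.v 7)))))))))
    (e := (.add (.add (.add (.add (.mul (.g 0) (.add (.add (.mul (.pp [(1, 1560030)]) (.sq [(1, -30), (2, 100), (5, -43), (7, -42)])) (.mul (.g 1) (.add (.add (.pp [(1, 7900500000)]) (.mul (.g 2) (.pp [(1, 61861650000)]))) (.add (.mul (.g 3) (.pp [(1, 61677150000)])) (.add (.mul (.g 4) (.pp [(1, 1711230000)])) (.mul (.g 5) (.pp [(1, 1891320000)]))))))) (.add (.mul (.g 2) (.add (.mul (.g 3) (.pp [(1, 66236400000)])) (.add (.mul (.g 4) (.pp [(1, 2901060000)])) (.mul (.g 6) (.pp [(1, 2208720000)]))))) (.add (.mul (.g 3) (.add (.mul (.g 4) (.pp [(1, 2881260000)])) (.mul (.g 7) (.pp [(1, 2379060000)])))) (.mul (.g 4) (.mul (.g 4) (.pp [(1, 3062160000)]))))))) (.mul (.g 2) (.add (.add (.mul (.pp [(1, 1986105)]) (.sq [(1, -30), (2, -43), (3, -42), (5, 100)])) (.mul (.g 3) (.add (.add (.pp [(1, 10902150000)]) (.mul (.g 1) (.pp [(1, 66721050000)]))) (.add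 (.mul (.g 6) (.pp [(1, 1002570000)])) (.mul (.g 7) (.pp [(1, 650370000)])))))) (.add (.mul (.g 1) (.add (.mul (.g 5) (.pp [(1, 2889060000)])) (.mul (.g 6) (.pp [(1, 2174130000)])))) (.mul (.g 6) (.mul (.g 6) (.pp [(1, 2925720000)]))))))) (.add (.mul (.g 7) (.add (.add (.mul (.pp [(1, 631104)]) (.sq [(1, -42), (2, 50), (3, 50), (5, 50), (7, 25)])) (.mul (.pp [(1, 99372)]) (.sq [(1, -41), (2, 50), (3, 100), (5, 50), (7, 48)]))) (.add (.mul (.pp [(1, 87879)]) (.sq [(1, -44), (2, 100), (3, 55), (5, 55), (7, 51)])) (.mul (.g 3) (.add (.mul (.g 1) (.pp [(1, 2448750000)])) (.mul (.g 7) (.pp [(1, 3061188000)]))))))) (.mul (.g 1) (.add (.mul (.pp [(1, 1685340)]) (.sq [(1, -30), (3, 100), (5, -42), (7, -43)])) (.mul (.g 5) (.add (.mul (.g 3) (.pp [(1, 2651910000)])) (.mul (.g 5) (.pp [(1, 3003726000)])))))))) (.add (.add (.mul (.g 4) (.add (.mul (.pp [(1, 655956)]) (.sq [(1, -42), (2, 25), (3, 50), (5, 50), (7, 50)])) (.mul (.pp [(1, 69663)])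 (.sq [(1, -44), (2, 51), (3, 55), (5, 55), (7, 100)])))) (.mul (.g 6) (.add (.mul (.pp [(1, 45006)]) (.sq [(1, -41), (2, 100), (3, 50), (5, 48), (7, 50)])) (.mul (.pp [(1, 1051872)]) (.sq [(1, -42), (2, 50), (3, 50), (5, 25), (7, 50)]))))) (.add (.mul (.g 3) (.mul (.pp [(1, 1692855)]) (.sq [(1, -30), (2, -42), (3, -43), (7, 100)]))) (.mul (.g 5) (.mul (.pp [(1, 879348)]) (.sq [(1, -42), (2, 50), (3, 25), (5, 50), (7, 50)])))))) (.pp [(1, 275760050), (2, 1579392), (3, 1579800), (4, 1436391), (5, 1562658), (6, 1426110), (7, 1603392), (8, 1529815), (9, 1499850), (10, 1475010), (12, 1497150), (14, 1363800), (15, 1461900), (18, 1552875), (20, 1447005), (21, 1164930), (25, 1470798), (27, 1412500), (28, 1518780), (30, 1544490), (35, 1307430), (42, 1867740), (45, 1491780), (49, 1378179), (50, 1398405), (63, 1804980), (70, 1481640), (75, 1386240), (98, 1546080), (105, 1691670), (125, 1519120), (147, 1621290), (175, 1513875), (245, 1558950),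 (343, 1581835)])))
    (by decide +kernel) (yv_nonneg h1 h2 h3 h4 (le_refl 0) (le_refl 0) (le_refl 0) (le_refl 0) (le_refl 0))
    (by
      simp only [List.forall_mem_cons, exadd, exsub, exmul, exc, exv2, exv3, exv5, exv7]
      push_cast
      refine ⟨?_, ?_, ?_, ?_, ?_, ?_, ?_, ?_, fun _ hh => absurd hh List.not_mem_nil⟩
      · linarith [h1]
      · linarith [h2]
      · linarith [h3]
      · linarith [h4]
      · linarith [kd0]
      · linarith [kd1]
      · linarith [kd2]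
      · linarith [kd3]
    )
  simp only [exadd, exsub, exmul, exc, exv2, exv3, exv5, exv7] at h
  push_cast at h
  linarith [h]

end Pool.Agent.Helper19.TS
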