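import Pool.Agent.Helper19.TS.Type2143
import Pool.Agent.Helper84.TS.Cases

/-!
# The case `(2,1,4,3)` of the finite-dimensional problem
-/

set_option autoImplicit false

namespace Pool.Agent.Helper19.TS

open Pool.Agent.Helper84.TS Pool.Agent.Helper36.TS

/-- a far cell with `w ≤ 13/20` is small -/
theorem far_le_small {A : Fin 4 → Fin 4 → Option (Fin 4 → ℝ)} {P : Fin 4 → Fin 4 → ℝ}
    (h : OF A) (hP : ∀ i, A i i = some (P i)) {i m : Fin 4} {F : Fin 4 → ℝ} (hm : m ≠ i)
    (hF : A i m = some F) (hw : 2 + F m ≤ 13 / 20) : fcl i F ≤ 9 / 25 := by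
  obtain ⟨x, y, hn⟩ := exists_rest2 hm.symm
  have hP' : ∀ i, A i (id i) = some (P i) := hP
  have key := farC_rst h hP' hF hn
  have f3 := FarC_le_three key
  have w0 := key.w0
  have w1 : 0 ≤ 13 / 20 - (2 + F m) := by linarith
  generalize 2 + F m = w at *
  nlinarith [mul_nonneg w1 w0.le, mul_nonneg (mul_nonneg w1 w0.le) w0.le, mul_nonneg w1 w1]

theorem caseT2143 : CaseT2143 := by
  intro A P hB hone i j k l hn li lj lk ll
  have ne := hn
  simp only [List.nodup_cons, List.mem_cons, List.not_mem_nil, or_false, not_or] at ne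
  obtain ⟨⟨h1, h2, h3⟩, ⟨h4, h5⟩, h6, -⟩ := ne
  refine type_2143 hB.of hB.hP (fun i => (hB.hd i).le)
    (fun i m F hm hF => ⟨hB.hw i m F hm hF, far_le_small hB.of hB.hP hm hF (hB.hw i m F hm hF)⟩)
    ?_ hn (li.le k (Ne.symm h2)) (li.le l (Ne.symm h3)) (lj.le k (Ne.symm h4))
    (lj.le l (Ne.symm h5)) (lk.le i h2) (lk.le j h4) (ll.le i h3) (ll.le j h5)
  intro m a b ha hb hab
  rcases h : A a m with _ | F
  · exact Or.inl rfl
  · rcases h' : A b m with _ | G
    · exact Or.inr rfl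
    · exact absurd (hone m a b F G ha hb h h') hab

end Pool.Agent.Helper19.TS
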