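import Pool.Agent.Helper19.TS.OL0Fin
import Pool.Agent.Helper70.OL.Modes

/-!
# The case `OL0'`
-/

set_option autoImplicit false

namespace Pool.Agent.Helper19.TS

open Pool.Agent.Helper74.TS

/-- **`OL0'`**: one low class, no cell of kind B. -/
theorem ol0' : OL0' :=
  OL0.ol0_of_modes fun _ _ _ x0 x1 y0 y1 z0 z1 _ =>
    Pool.Agent.Helper70.OL.modes x0 x1.le y0 y1.le z0 z1.le

end Pool.Agent.Helper19.TS
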