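import Pool.Agent.Helper19.TS.OL1ArAsm
import Pool.Agent.Helper36.TZ.ArA
import Pool.Agent.Helper70.OA.Fin

/-!
# The case `OL1Ar`
-/

set_option autoImplicit false

namespace Pool.Agent.Helper19.TS

open Pool.Agent.Helper74.TS

/-- **`OL1Ar`**: the cell of the low class in the column `r` is of kind B on `p`, the entry of `p` is the
least one. -/
theorem ol1Ar : OL1Ar :=
  OL1Ar.ol1Ar_of Pool.Agent.Helper70.OA.hmp Pool.Agent.Helper70.OA.hmr Pool.Agent.Helper70.OA.hms
    fun _ _ _ x0 x1 y0 y1 z0 z1 hs => Pool.Agent.Helper36.TZ.Ar.colN x0 x1 y0 y1 z0 z1 hs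

end Pool.Agent.Helper19.TS
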