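import Pool.Agent.Helper19.TS.Slot
import Pool.Agent.Helper19.TS.C2143

/-!
# The column of the type `(2,1,4,3)`

`e`: the lowest class of the column, `a`, `b` the two other classes; `d` heights, `u` entries.
-/

set_option autoImplicit false
set_option linter.unusedVariables false

namespace Pool.Agent.Helper19.TS

open Pool.Agent.Helper36.TS

/-! ### Multipliers -/

noncomputable def nu (x : ℝ) : ℝ := 153 / 200 - 7 / 50 * x

noncomputable def KK (x y : ℝ) : ℝ := 37 / 50 - 493 / 1000 * (x + y) + 99 / 500 * x * y

noncomputable def kk (x y : ℝ) : ℝ :=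
  37 / 125 - 123 / 500 * (x + y) + 273 / 500 * x * y - 107 / 500 * (x ^ 2 + y ^ 2)

noncomputable def WW (e a b : ℝ) : ℝ :=
  333 / 1000 + 299 / 1000 * e + 39 / 125 * (a + b) + 99 / 500 * e ^ 2
    + 297 / 1000 * (a ^ 2 + b ^ 2) - 27 / 250 * e * (a + b) + 167 / 1000 * a * b

theorem KK_comm (x y : ℝ) : KK x y = KK y x := by unfold KK; ring

theorem kk_comm (x y : ℝ) : kk x y = kk y x := by unfold kk; ring

theorem WW_comm (e a b : ℝ) : WW e a b = WW e b a := by unfold WW; ring

section

variable {x y z : ℝ}

theorem KK_nonneg (hx : 0 ≤ x) (hx' : x ≤ 3 / 5) (hy : 0 ≤ y) (hy' : y ≤ 3 / 5) :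
    0 ≤ KK x y := by
  unfold KK
  nlinarith [mul_nonneg hx hy]

theorem kk_nonneg (hx : 0 ≤ x) (hx' : x ≤ 3 / 5) (hy : 0 ≤ y) (hy' : y ≤ 3 / 5) :
    0 ≤ kk x y := by
  unfold kk
  nlinarith [mul_nonneg hx hy, mul_nonneg (sub_nonneg.2 hx') (sub_nonneg.2 hy'),
    mul_nonneg hx (sub_nonneg.2 hx'), mul_nonneg hy (sub_nonneg.2 hy')]

theorem nuK_nonneg (hx : 0 ≤ x) (hx' : x ≤ 3 / 5) (hy : 0 ≤ y) (hy' : y ≤ 3 / 5) :
    0 ≤ nu y - KK x y := by
  unfold nu KK
  nlinarith [mul_nonneg hx hy, mul_nonneg hx (sub_nonneg.2 hy')]

theorem nuk_nonneg (hx : 0 ≤ x) (hx' : x ≤ 3 / 5) (hy : 0 ≤ y) (hy' : y ≤ 3 / 5) :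
    0 ≤ nu y - kk x y / 2 := by
  unfold nu kk
  nlinarith [mul_nonneg hx (sub_nonneg.2 hy'), mul_nonneg hx (sub_nonneg.2 hx'),
    mul_nonneg hy (sub_nonneg.2 hy'), mul_nonneg hy (sub_nonneg.2 hx')]

theorem nu_nonneg (hx' : x ≤ 3 / 5) : 0 ≤ nu x := by
  unfold nu
  linarith

theorem ce_large (hx : 0 ≤ x) (hx' : x ≤ 3 / 5) (hy : 0 ≤ y) (hy' : y ≤ 3 / 5) (hz : 0 ≤ z)
    (hz' : z ≤ 3 / 5) : (1 - x) * x ≤ nu x - kk x y - kk x z := by
  unfold nu kk
  nlinarith [mul_nonneg hx hy, mul_nonneg hx hz, mul_nonneg hx (sub_nonneg.2 hx'),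
    mul_nonneg hy (sub_nonneg.2 hy'), mul_nonneg hz (sub_nonneg.2 hz'),
    mul_nonneg hx (sub_nonneg.2 hy'), mul_nonneg hx (sub_nonneg.2 hz'),
    mul_nonneg hy (sub_nonneg.2 hx'), mul_nonneg hz (sub_nonneg.2 hx'), sq_nonneg (x - 1 / 3),
    sq_nonneg y, sq_nonneg z]

theorem ce_nonneg (hx : 0 ≤ x) (hx' : x ≤ 3 / 5) (hy : 0 ≤ y) (hy' : y ≤ 3 / 5) (hz : 0 ≤ z)
    (hz' : z ≤ 3 / 5) : 0 ≤ nu x - kk x y - kk x z :=
  (mul_nonneg (by linarith) hx).trans (ce_large hx hx' hy hy' hz hz')

end

/-! ### One row -/

/-- the height and the entry of a main row cell -/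
structure Rw (d u : ℝ) : Prop where
  d0 : 0 ≤ d
  d1 : d ≤ 3 / 5
  lo : -(1 - d) ≤ u
  hi : u ≤ 1

theorem max0_le1 {u : ℝ} (h : u ≤ 1) : max u 0 ≤ 1 := max_le h zero_le_one

section

variable {da db de ua ub ue : ℝ}

/-- the column in the form `min ua ub = ub` -/
noncomputable def HH (da db de ua ub ue : ℝ) : ℝ :=
  sx (nu da) da ua + sx (nu db - KK da db) db ub + sx (nu de - kk de da - kk de db) de ue

/-- **No far cell.** -/
theorem half_N (ra : Rw da ua) (rb : Rw db ub) (re : Rw de ue) (h1 : ue ≤ ua) (h2 : ue ≤ ub) :
    HH da db de ua ub ue ≤ WW de da db := by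
  have ea := sx_le_max (c := nu da) (nu_nonneg ra.d1) (by linarith [ra.d1]) ra.lo ra.hi
  have eb := sx_le_max (c := nu db - KK da db) (nuK_nonneg ra.d0 ra.d1 rb.d0 rb.d1)
    (by linarith [rb.d1]) rb.lo rb.hi
  have ee := sx_le_max (c := nu de - kk de da - kk de db)
    (ce_nonneg re.d0 re.d1 ra.d0 ra.d1 rb.d0 rb.d1) (by linarith [re.d1]) re.lo re.hi
  have k1 := le_max_right ua 0
  have k2 := le_max_right ub 0
  have k3 := le_max_right ue 0
  have l1 := max0_le1 ra.hi
  have l2 := max0_le1 rb.hi
  have l3 := max0_le1 re.hi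
  have m1 : max ue 0 ≤ max ua 0 := max_le_max h1 le_rfl
  have m2 : max ue 0 ≤ max ub 0 := max_le_max h2 le_rfl
  unfold HH
  refine (add_le_add (add_le_add ea eb) ee).trans ?_
  generalize max ua 0 = va at *
  generalize max ub 0 = vb at *
  generalize max ue 0 = ve at *
  have := colN (ua := va) (ub := vb) (ue := ve) (da := da) (db := db) (de := de) k1 k2 k3
    ra.d0 rb.d0 re.d0 (by linarith) (by linarith) (by linarith) (by linarith [ra.d1])
    (by linarith [rb.d1]) (by linarith [re.d1]) (by linarith) (by linarith)
  unfold nu KK kk WW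
  linarith [this]

variable {f w d al be sa sb : ℝ}

/-- the far cell belongs to the lowest class, its kind with respect to the class `a` counts -/
theorem half_E (ra : Rw da ua) (rb : Rw db ub) (re : Rw de ue) (h1 : ue ≤ ua) (h2 : ue ≤ ub)
    (F : FarC f w d al be ue ua ub de da db sa sb) (ho : w ≤ -ue + max (de - d) 0)
    (hw : w ≤ 13 / 20) (hf : f ≤ 9 / 25) (hs : 0 ≤ sa) :
    HH da db de ua ub ue + f ≤ WW de da db + kk de da / 2 * sa := by
  have hk := kk_nonneg re.d0 re.d1 ra.d0 ra.d1
  have hks : 0 ≤ kk de da / 2 * sa := mul_nonneg (by linarith) hs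
  rcases le_total f 0 with hf0 | hf0
  · have := half_N ra rb re h1 h2
    linarith
  have f3 := FarC_le_three F
  have w0 := F.w0
  have d0 := F.d0
  have kda := ra.d0
  have kdb := rb.d0
  have kde := re.d0
  have kda1 := ra.d1
  have kdb1 := rb.d1
  have kde1 := re.d1
  have hce := ce_large re.d0 re.d1 ra.d0 ra.d1 rb.d0 rb.d1
  have hce0 := ce_nonneg re.d0 re.d1 ra.d0 ra.d1 rb.d0 rb.d1
  have eb := sx_le_max (c := nu db - KK da db) (nuK_nonneg ra.d0 ra.d1 rb.d0 rb.d1)
    (by linarith) rb.lo rb.hi
  have k2 := le_max_right ub 0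
  have l2 := max0_le1 rb.hi
  have hU : ue ≤ de - w := by
    rcases max_cases (de - d) 0 with ⟨e, -⟩ | ⟨e, -⟩ <;> rw [e] at ho <;> linarith
  -- the slot of the lowest class
  have eep : 0 ≤ de - w → sx (nu de - kk de da - kk de db) de ue ≤
      (nu de - kk de da - kk de db) * (de - w) - (1 - de) * (de - w) ^ 2 / 2 := by
    intro h0
    refine sx_mono_pos (by linarith) re.lo hU h0 (by linarith) ?_
    refine le_trans ?_ hce
    exact mul_le_mul_of_nonneg_left (by linarith) (by linarith)
  have eem : de - w ≤ 0 → sx (nu de - kk de da - kk de db) de ue ≤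
      (nu de - kk de da - kk de db) * (de - w) - (1 - de) * (de - w) ^ 2 / 2
        + (-(de - w)) ^ 3 / 3 := fun h0 => sx_mono_neg hce0 re.lo hU h0
  unfold HH
  generalize max ub 0 = vb at *
  rcases le_total ua 0 with hua | hua
  · -- `ua ≤ 0`
    have ea := sx_nonpos (c := nu da) (nu_nonneg ra.d1) (by linarith) ra.lo hua
    rcases le_total 0 (de - w) with hc | hc
    · have e1 := eep hc
      have := colZp (w := w) (f := f) (ub := vb) (da := da) (db := db) (de := de) w0.le hf0 k2
        kda kdb kde (by linarith) (by linarith) (by linarith) (by linarith) (by linarith)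
        (by linarith) (by linarith) (by linarith)
      unfold nu KK kk WW at *
      linarith [this]
    · have e1 := eem hc
      have := colZm (w := w) (f := f) (ub := vb) (da := da) (db := db) (de := de) w0.le hf0 k2
        kda kdb kde (by linarith) (by linarith) (by linarith) (by linarith) (by linarith)
        (by linarith) (by linarith) (by linarith)
      unfold nu KK kk WW at *
      linarith [this]
  have ea := (sx_pos (c := nu da) (d := da) hua ra.hi).le
  have lua := ra.hi
  have hmin : min ua (2 - w) = ua := min_eq_left (by linarith)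
  have hmin2 : min ue ua = ue := min_eq_left h1
  have hcap := F.capx
  rw [hmin, hmin2] at hcap
  rcases hcap with hcap | hcap
  · -- kind A
    rcases le_total al 0 with ha | ha
    · have fA := FarC_le_al_neg F ha
      rcases le_total 0 (de - w) with hc | hc
      · have e1 := eep hc
        have := colA0p (w := w) (al := 0) (f := f) (ua := ua) (ub := vb) (da := da) (db := db)
          (de := de) w0.le le_rfl hf0 hua k2 kda kdb kde (by linarith) (by linarith) (by linarith)
          (by linarith) (by linarith) (by linarith) (by linarith) (by linarith) (by linarith)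
          (by linarith) (by linarith) (by linarith)
        unfold nu KK kk WW at *
        linarith [this]
      · have e1 := eem hc
        have := colA0m (w := w) (al := 0) (f := f) (ua := ua) (ub := vb) (da := da) (db := db)
          (de := de) w0.le le_rfl hf0 hua k2 kda kdb kde (by linarith) (by linarith) (by linarith)
          (by linarith) (by linarith) (by linarith) (by linarith) (by linarith) (by linarith)
          (by linarith) (by linarith) (by linarith)
        unfold nu KK kk WW at *
        linarith [this]
    · have fA := FarC_le_al F ha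
      have al1 := F.al1
      rcases le_total (al - 1 + w) 0 with hb | hb
      · rw [max_eq_right hb] at fA
        rcases le_total 0 (de - w) with hc | hc
        · have e1 := eep hc
          have := colA0p (w := w) (al := al) (f := f) (ua := ua) (ub := vb) (da := da) (db := db)
            (de := de) w0.le ha hf0 hua k2 kda kdb kde (by linarith) (by linarith) (by linarith)
            (by linarith) (by linarith) (by linarith) (by linarith) (by linarith) (by linarith)
            (by linarith) (by linarith) (by linarith)
          unfold nu KK kk WW at *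
          linarith [this]
        · have e1 := eem hc
          have := colA0m (w := w) (al := al) (f := f) (ua := ua) (ub := vb) (da := da) (db := db)
            (de := de) w0.le ha hf0 hua k2 kda kdb kde (by linarith) (by linarith) (by linarith)
            (by linarith) (by linarith) (by linarith) (by linarith) (by linarith) (by linarith)
            (by linarith) (by linarith) (by linarith)
          unfold nu KK kk WW at *
          linarith [this]
      · rw [max_eq_left hb] at fA
        rcases le_total 0 (de - w) with hc | hc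
        · have e1 := eep hc
          have := colA1p (w := w) (al := al) (f := f) (ua := ua) (ub := vb) (da := da) (db := db)
            (de := de) w0.le ha hf0 hua k2 kda kdb kde (by linarith) (by linarith) (by linarith)
            (by linarith) (by linarith) (by linarith) (by linarith) (by linarith) (by linarith)
            (by linarith) (by linarith) (by linarith)
          unfold nu KK kk WW at *
          linarith [this]
        · have e1 := eem hc
          have := colA1m (w := w) (al := al) (f := f) (ua := ua) (ub := vb) (da := da) (db := db)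
            (de := de) w0.le ha hf0 hua k2 kda kdb kde (by linarith) (by linarith) (by linarith)
            (by linarith) (by linarith) (by linarith) (by linarith) (by linarith) (by linarith)
            (by linarith) (by linarith) (by linarith)
          unfold nu KK kk WW at *
          linarith [this]
  · -- kind B
    rcases le_total d de with hd | hd
    · rw [max_eq_left (by linarith)] at ho
      have hs' : kk de da / 2 * (ua + w) ≤ kk de da / 2 * sa :=
        mul_le_mul_of_nonneg_left (by linarith) (by linarith)
      rcases le_total 0 (de - w) with hc | hc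
      · have e1 := eep hc
        have := colB1p (w := w) (f := f) (ua := ua) (ub := vb) (da := da) (db := db)
          (de := de) w0.le hf0 hua k2 kda kdb kde (by linarith) (by linarith) (by linarith)
          (by linarith) (by linarith) (by linarith) (by linarith) (by linarith) (by linarith)
        unfold nu KK kk WW at *
        linarith [this]
      · have e1 := eem hc
        have := colB1m (w := w) (f := f) (ua := ua) (ub := vb) (da := da) (db := db)
          (de := de) w0.le hf0 hua k2 kda kdb kde (by linarith) (by linarith) (by linarith)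
          (by linarith) (by linarith) (by linarith) (by linarith) (by linarith) (by linarith)
        unfold nu KK kk WW at *
        linarith [this]
    · rw [max_eq_right (by linarith)] at ho
      have f4 := FarC_le_four F
      have d1 := F.d1
      have e1 := sx_mono_neg (c := nu de - kk de da - kk de db) (d := de) (u := ue) (U := -w)
        hce0 re.lo (by linarith) (by linarith)
      have hs' : kk de da / 2 * (w - d + ua + de) ≤ kk de da / 2 * sa :=
        mul_le_mul_of_nonneg_left (by linarith) (by linarith)
      rcases le_total 0 (w - d + ua + de) with hc | hc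
      · have := colB2p (w := w) (dF := d) (f := f) (ua := ua) (ub := vb) (da := da) (db := db)
          (de := de) w0.le d0 hf0 hua k2 kda kdb kde (by linarith) (by linarith) (by linarith)
          (by linarith) (by linarith) (by linarith) (by linarith) (by linarith) (by linarith)
          (by linarith) (by linarith)
        unfold nu KK kk WW at *
        linarith [this]
      · have := colB2m (w := w) (dF := d) (f := f) (ua := ua) (ub := vb) (da := da) (db := db)
          (de := de) w0.le d0 hf0 hua k2 kda kdb kde (by linarith) (by linarith) (by linarith)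
          (by linarith) (by linarith) (by linarith) (by linarith) (by linarith) (by linarith)
          (by linarith) (by linarith)
        unfold nu KK kk WW at *
        linarith [this]

/-- the far cell belongs to the class `a`, which is not the lowest one; `ua ≤ ub` -/
theorem half_X1 (ra : Rw da ua) (rb : Rw db ub) (re : Rw de ue) (h1 : ue ≤ ua) (h2 : ua ≤ ub)
    (w0 : 0 < w) (hw : w ≤ 13 / 20) (hf : f ≤ 9 / 25) (f3 : f ≤ w * (1 + w) ^ 2 / 4 - w ^ 3 / 3)
    (ho : ua ≤ da - w) : HH db da de ub ua ue + f ≤ WW de da db := by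
  rcases le_total f 0 with hf0 | hf0
  · have := half_N rb ra re (h1.trans h2) h1
    rw [WW_comm] at this
    linarith
  have kda := ra.d0
  have kdb := rb.d0
  have kde := re.d0
  have kda1 := ra.d1
  have kdb1 := rb.d1
  have kde1 := re.d1
  have hce0 := ce_nonneg re.d0 re.d1 ra.d0 ra.d1 rb.d0 rb.d1
  have hce0' := ce_nonneg re.d0 re.d1 rb.d0 rb.d1 ra.d0 ra.d1
  have ha0 := nuK_nonneg rb.d0 rb.d1 ra.d0 ra.d1
  have eb := sx_le_max (c := nu db) (nu_nonneg rb.d1) (by linarith) rb.lo rb.hi
  have k2 := le_max_right ub 0
  have l2 := max0_le1 rb.hi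
  unfold HH
  generalize max ub 0 = vb at *
  rcases le_total 0 (da - w) with hc | hc
  · have ea := sx_le_max (c := nu da - KK db da) ha0 (by linarith) ra.lo ra.hi
    have ee := sx_le_max (c := nu de - kk de db - kk de da) hce0' (by linarith) re.lo re.hi
    have k1 := le_max_right ua 0
    have k3 := le_max_right ue 0
    have l1 := max0_le1 ra.hi
    have l3 := max0_le1 re.hi
    have m1 : max ua 0 ≤ da - w := max_le ho hc
    have m2 : max ue 0 ≤ da - w := max_le (h1.trans ho) hc
    generalize max ua 0 = va at *
    generalize max ue 0 = ve at *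
    have := colX1p (w := w) (f := f) (ua := va) (ub := vb) (ue := ve) (da := da) (db := db)
      (de := de) w0.le hf0 k1 k2 k3 kda kdb kde (by linarith) (by linarith) (by linarith)
      (by linarith) (by linarith) (by linarith) (by linarith) (by linarith) (by linarith)
      (by linarith) (by linarith)
    unfold nu KK kk WW at *
    linarith [this]
  · have ea := sx_mono_neg (c := nu da - KK db da) ha0 ra.lo ho hc
    have ee := sx_mono_neg (c := nu de - kk de db - kk de da) hce0' re.lo (h1.trans ho) hc
    have := colX1m (w := w) (f := f) (ub := vb) (da := da) (db := db)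
      (de := de) w0.le hf0 k2 kda kdb kde (by linarith) (by linarith) (by linarith)
      (by linarith) (by linarith) (by linarith) (by linarith) (by linarith)
    unfold nu KK kk WW at *
    linarith [this]

/-- the far cell belongs to the class `a`, which is not the lowest one; `ub ≤ ua` -/
theorem half_X2 (ra : Rw da ua) (rb : Rw db ub) (re : Rw de ue) (h1 : ue ≤ ub) (h2 : ub ≤ ua)
    (w0 : 0 < w) (hw : w ≤ 13 / 20) (hf : f ≤ 9 / 25) (f3 : f ≤ w * (1 + w) ^ 2 / 4 - w ^ 3 / 3)
    (ho : ua ≤ da - w) : HH da db de ua ub ue + f ≤ WW de da db := by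
  rcases le_total f 0 with hf0 | hf0
  · have := half_N ra rb re (h1.trans h2) h1
    linarith
  have kda := ra.d0
  have kdb := rb.d0
  have kde := re.d0
  have kda1 := ra.d1
  have kdb1 := rb.d1
  have kde1 := re.d1
  have hce0 := ce_nonneg re.d0 re.d1 ra.d0 ra.d1 rb.d0 rb.d1
  have ha0 := nuK_nonneg ra.d0 ra.d1 rb.d0 rb.d1
  have hn := nu_nonneg ra.d1
  unfold HH
  rcases le_total 0 (da - w) with hc | hc
  · have ea := sx_le_max (c := nu da) hn (by linarith) ra.lo ra.hi
    have eb := sx_le_max (c := nu db - KK da db) ha0 (by linarith) rb.lo rb.hi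
    have ee := sx_le_max (c := nu de - kk de da - kk de db) hce0 (by linarith) re.lo re.hi
    have k1 := le_max_right ua 0
    have k2 := le_max_right ub 0
    have k3 := le_max_right ue 0
    have l1 := max0_le1 ra.hi
    have l2 := max0_le1 rb.hi
    have l3 := max0_le1 re.hi
    have m1 : max ua 0 ≤ da - w := max_le ho hc
    have m2 : max ub 0 ≤ da - w := max_le (h2.trans ho) hc
    have m3 : max ue 0 ≤ da - w := max_le ((h1.trans h2).trans ho) hc
    generalize max ua 0 = va at *
    generalize max ub 0 = vb at *
    generalize max ue 0 = ve at *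
    have := colX2p (w := w) (f := f) (ua := va) (ub := vb) (ue := ve) (da := da) (db := db)
      (de := de) w0.le hf0 k1 k2 k3 kda kdb kde (by linarith) (by linarith) (by linarith)
      (by linarith) (by linarith) (by linarith) (by linarith) (by linarith) (by linarith)
      (by linarith) (by linarith) (by linarith)
    unfold nu KK kk WW at *
    linarith [this]
  · have ea := sx_mono_neg (c := nu da) hn ra.lo ho hc
    have eb := sx_mono_neg (c := nu db - KK da db) ha0 rb.lo (h2.trans ho) hc
    have ee := sx_mono_neg (c := nu de - kk de da - kk de db) hce0 re.lo ((h1.trans h2).trans ho)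
      hc
    have := colX2m (w := w) (f := f) (da := da) (db := db)
      (de := de) w0.le hf0 kda kdb kde (by linarith) (by linarith)
      (by linarith) (by linarith) (by linarith) (by linarith) (by linarith)
    unfold nu KK kk WW at *
    linarith [this]

/-! ### The column -/

/-- the column with its lowest class -/
noncomputable def CC (da db de ua ub ue : ℝ) : ℝ :=
  sx (nu da) da ua + sx (nu db) db ub + sx (nu de) de ue - KK da db * min ua ub
    - (kk de da + kk de db) * ue

theorem CC_of_le (h : ub ≤ ua) : CC da db de ua ub ue = HH da db de ua ub ue := by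
  unfold CC HH
  rw [min_eq_right h, sx_sub, sx_sub, sx_sub]
  ring

theorem CC_of_ge (h : ua ≤ ub) : CC da db de ua ub ue = HH db da de ub ua ue := by
  unfold CC HH
  rw [min_eq_left h, sx_sub, sx_sub, sx_sub, KK_comm db da]
  ring

theorem CC_comm : CC da db de ua ub ue = CC db da de ub ua ue := by
  unfold CC
  rw [KK_comm db da, min_comm ub ua]
  ring

/-- **The column without a far cell.** -/
theorem col_N (ra : Rw da ua) (rb : Rw db ub) (re : Rw de ue) (h1 : ue ≤ ua) (h2 : ue ≤ ub) :
    CC da db de ua ub ue ≤ WW de da db := by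
  rcases le_total ub ua with h | h
  · rw [CC_of_le h]
    exact half_N ra rb re h1 h2
  · rw [CC_of_ge h, WW_comm]
    exact half_N rb ra re h2 h1

/-- **A far cell of the lowest class.** -/
theorem col_E (ra : Rw da ua) (rb : Rw db ub) (re : Rw de ue) (h1 : ue ≤ ua) (h2 : ue ≤ ub)
    (F : FarC f w d al be ue ua ub de da db sa sb) (ho : w ≤ -ue + max (de - d) 0)
    (hw : w ≤ 13 / 20) (hf : f ≤ 9 / 25) (hsa : 0 ≤ sa) (hsb : 0 ≤ sb) :
    CC da db de ua ub ue + f ≤ WW de da db + (kk de da / 2 * sa + kk de db / 2 * sb) := by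
  have hka := kk_nonneg re.d0 re.d1 ra.d0 ra.d1
  have hkb := kk_nonneg re.d0 re.d1 rb.d0 rb.d1
  have ta : 0 ≤ kk de da / 2 * sa := mul_nonneg (by linarith) hsa
  have tb : 0 ≤ kk de db / 2 * sb := mul_nonneg (by linarith) hsb
  rcases le_total ub ua with h | h
  · rw [CC_of_le h]
    have := half_E ra rb re h1 h2 F ho hw hf hsa
    linarith
  · rw [CC_of_ge h, WW_comm]
    have := half_E rb ra re h2 h1 (FarC_swap F) ho hw hf hsb
    linarith

/-- **A far cell of the class `a`.** -/
theorem col_X (ra : Rw da ua) (rb : Rw db ub) (re : Rw de ue) (h1 : ue ≤ ua) (h2 : ue ≤ ub)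
    {ux uy dx dy : ℝ} (F : FarC f w d al be ua ux uy da dx dy sa sb)
    (ho : w ≤ -ua + max (da - d) 0)
    (hw : w ≤ 13 / 20) (hf : f ≤ 9 / 25) :
    CC da db de ua ub ue + f ≤ WW de da db := by
  have f3 := FarC_le_three F
  have hU : ua ≤ da - w := by
    have d0 := F.d0
    have a0 := ra.d0
    rcases max_cases (da - d) 0 with ⟨e, -⟩ | ⟨e, -⟩ <;> rw [e] at ho <;> linarith
  rcases le_total ub ua with h | h
  · rw [CC_of_le h]
    exact half_X2 ra rb re h2 h F.w0 hw hf f3 hU
  · rw [CC_of_ge h]
    exact half_X1 ra rb re h1 h F.w0 hw hf f3 hU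

/-- **A far cell of the class `b`.** -/
theorem col_Y (ra : Rw da ua) (rb : Rw db ub) (re : Rw de ue) (h1 : ue ≤ ua) (h2 : ue ≤ ub)
    {ux uy dx dy : ℝ} (F : FarC f w d al be ub ux uy db dx dy sa sb)
    (ho : w ≤ -ub + max (db - d) 0)
    (hw : w ≤ 13 / 20) (hf : f ≤ 9 / 25) :
    CC da db de ua ub ue + f ≤ WW de da db := by
  rw [CC_comm, WW_comm]
  exact col_X rb ra re h2 h1 F ho hw hf

/-- the total -/
theorem total {x y z t : ℝ} (hx : 0 ≤ x) (hx' : x ≤ 3 / 5) (hy : 0 ≤ y) (hy' : y ≤ 3 / 5)
    (hz : 0 ≤ z) (hz' : z ≤ 3 / 5) (ht : 0 ≤ t) (ht' : t ≤ 3 / 5) :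
    rowc (nu x) x + rowc (nu y) y + rowc (nu z) z + rowc (nu t) t
      + KK x y * (x + y) + kk x z * (x + z) + kk x t * (x + t) + kk y z * (y + z)
      + kk y t * (y + t) + KK z t * (z + t)
      + (WW y z t + WW x z t + WW t x y + WW z x y) ≤ 613 / 200 := by
  have := colT (d0 := x) (d1 := y) (d2 := z) (d3 := t) hx hy hz ht (by linarith) (by linarith)
    (by linarith) (by linarith)
  unfold rowc nu KK kk WW
  linarith [this]

end

end Pool.Agent.Helper19.TS
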