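import Mathlib

/-!
# The numbers of the case `OL0'`

`x`, `y`, `z` are heights of rows. `nu`: multiplier of a row; `kk`: multiplier of a pair of rows;
`W1`, `W0`: the bounds of a column with two rows without and with the cell of the low class; `W3`: the
bound of the column of the low class; `ph w x y`: the bound of the gain in the column with the rows
`x`, `y`; `gg`, `τ = 3/100`: the bound of the sum of the gains; `bb w c x y`: the bound of the gain of a
cell that supports `c`. The share of a pair is `2/5` in a column with two rows and `3/5` in the column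
with three rows.
-/

set_option autoImplicit false

namespace Pool.Agent.Helper19.TS.OL0

noncomputable def nu (x : ℝ) : ℝ := 8267 / 10000 - 3603 / 10000 * x - 1667 / 10000 * x ^ 2

noncomputable def kk (x y : ℝ) : ℝ :=
  4076 / 10000 - 4258 / 10000 * (x + y) + 3011 / 10000 * (x * y)

noncomputable def W0 (x y : ℝ) : ℝ :=
  4324 / 10000 + 3387 / 10000 * (x + y) - 1028 / 10000 * (x * y) - 1351 / 10000 * (x ^ 2 + y ^ 2)

noncomputable def W1 (x y : ℝ) : ℝ :=
  4305 / 10000 + 3408 / 10000 * (x + y) - 1219 / 10000 * (x * y) - 1369 / 10000 * (x ^ 2 + y ^ 2)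

noncomputable def W3 (x y z : ℝ) : ℝ :=
  4391 / 10000 + 2159 / 10000 * (x + y + z) + 2300 / 10000 * (x * y + y * z + x * z)
    + 1593 / 10000 * (x ^ 2 + y ^ 2 + z ^ 2)

noncomputable def ph (w x y : ℝ) : ℝ :=
  w * (1046 / 10000 + 1280 / 10000 * (x + y) - 585 / 10000 * (x ^ 2 + y ^ 2)
    + 3631 / 10000 * (x * y)) + w ^ 2 * (1299 / 10000 + 1262 / 10000 * (x + y))
    + 426 / 10000 * w ^ 3

noncomputable def gg (x y z : ℝ) : ℝ :=
  2780 / 10000 + 2578 / 10000 * (x + y + z) + 3631 / 10000 * (x * y + y * z + x * z)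
    - 645 / 10000 * (x ^ 2 + y ^ 2 + z ^ 2)

noncomputable def bb (w c x y : ℝ) : ℝ :=
  w * (1979 / 10000 + 2217 / 10000 * (x + y) + 3609 / 10000 * (x * y)
    - 399 / 10000 * (x ^ 2 + y ^ 2)) + w ^ 2 * (803 / 10000 + 189 / 10000 * (x + y))
    - 1308 / 10000 * (w * c ^ 2) - 1216 / 10000 * (w ^ 2 * c)
    - 2186 / 10000 * (w * c * (x + y))

end Pool.Agent.Helper19.TS.OL0
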