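import Pool.Agent.Helper19.TS.OL0C
import Pool.Agent.Helper78.TS.Piece
import Pool.Agent.Helper78.TS.MGlue
import Pool.Agent.Helper74.TS.OneLowC
import Pool.Agent.Helper8.TS.OL0Hi

/-!
# The case `OL0'` from its lists of polynomial inequalities
-/

set_option autoImplicit false

namespace Pool.Agent.Helper19.TS.OL0

open Pool.Agent.Helper84.TS Pool.Agent.Helper36.TS Pool.Agent.Helper74.TS Pool.Agent.Helper5.TS
open Pool.Agent.Helper78.TS
open Pool.Agent.Helper83.TS (Bd)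

/-! ### Symmetries -/

theorem bb_comm (w c x y : ℝ) : bb w c x y = bb w c y x := by
  unfold bb
  ring

theorem ph_comm (w x y : ℝ) : ph w x y = ph w y x := by
  unfold ph
  ring

theorem gg_sw (x y z : ℝ) : gg x y z = gg x z y := by
  unfold gg
  ring

theorem gg_sw1 (x y z : ℝ) : gg x y z = gg y x z := by
  unfold gg
  ring

theorem W1_le {x y : ℝ} (x0 : 0 ≤ x) (x1 : x ≤ 3 / 5) (y0 : 0 ≤ y) (y1 : y ≤ 3 / 5) :
    W1 x y ≤ W0 x y := by
  unfold W1 W0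
  nlinarith [mul_nonneg (sub_nonneg.2 x1) (sub_nonneg.2 y1), mul_nonneg x0 y0, sq_nonneg x,
    sq_nonneg y]

theorem gg_nonneg {x y z : ℝ} (x0 : 0 ≤ x) (x1 : x ≤ 3 / 5) (y0 : 0 ≤ y) (y1 : y ≤ 3 / 5)
    (z0 : 0 ≤ z) (z1 : z ≤ 3 / 5) : 0 ≤ gg x y z := by
  unfold gg
  nlinarith [mul_nonneg x0 y0, mul_nonneg y0 z0, mul_nonneg x0 z0,
    mul_nonneg x0 (sub_nonneg.2 x1), mul_nonneg y0 (sub_nonneg.2 y1),
    mul_nonneg z0 (sub_nonneg.2 z1)]

theorem sideW_of {x y : ℝ} (x0 : 0 ≤ x) (x1 : x ≤ 3 / 5) (y0 : 0 ≤ y) (y1 : y ≤ 3 / 5) :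
    SideW (nu x - kk x y) x := by
  unfold SideW nu kk
  nlinarith [mul_nonneg x0 y0, mul_nonneg x0 (sub_nonneg.2 x1),
    mul_nonneg (sub_nonneg.2 x1) (sub_nonneg.2 y1), mul_nonneg y0 (sub_nonneg.2 x1)]

/-! ### The column with three rows, symmetric data and any symmetric shares -/

theorem colM_symL {n : ℝ → ℝ} {k l : ℝ → ℝ → ℝ} {W : ℝ → ℝ → ℝ → ℝ} (hk : ∀ a b, k a b = k b a)
    (hl : ∀ a b, l a b = l b a)
    (hW1 : ∀ a b c, W a b c = W b a c) (hW2 : ∀ a b c, W a b c = W a c b)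
    (h1 : ∀ a b c, 0 ≤ a → a < 3 / 5 → 0 ≤ b → b < 3 / 5 → 0 ≤ c → c < 3 / 5 →
      Pool.Agent.Helper83.TS.Col (n a - k a b - k a c) a (n b) b (n c) c (k b c) (l a b) (l a c)
        (l b c) (W a b c))
    (h2 : ∀ a b c, 0 ≤ a → a < 3 / 5 → 0 ≤ b → b < 3 / 5 → 0 ≤ c → c < 3 / 5 →
      Cd (n a) (n b) (n c) (k a b) (k a c) (k b c) (l a c) a b c (W a b c))
    {a b c : ℝ} (a0 : 0 ≤ a) (a1 : a < 3 / 5) (b0 : 0 ≤ b) (b1 : b < 3 / 5) (c0 : 0 ≤ c)
    (c1 : c < 3 / 5) :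
    ColM (n a) (n b) (n c) (k a b) (k a c) (k b c) (l a b) (l a c) (l b c) (W a b c)
      a b c := by
  have x1 := h1 a b c a0 a1 b0 b1 c0 c1
  have x2 := h1 b a c b0 b1 a0 a1 c0 c1
  have x3 := h1 c a b c0 c1 a0 a1 b0 b1
  have y1 := h2 a b c a0 a1 b0 b1 c0 c1
  have y2 := h2 a c b a0 a1 c0 c1 b0 b1
  have y3 := h2 b a c b0 b1 a0 a1 c0 c1
  have y4 := h2 b c a b0 b1 c0 c1 a0 a1
  have y5 := h2 c a b c0 c1 a0 a1 b0 b1
  have y6 := h2 c b a c0 c1 b0 b1 a0 a1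
  rw [hW2 a c b] at y2
  rw [hW1 b a c] at x2 y3
  rw [hW2 b c a, hW1 b a c] at y4
  rw [hW1 c a b, hW2 a c b] at x3 y5
  rw [hW2 c b a, hW1 c a b, hW2 a c b] at y6
  rw [hk b a] at x2 y3 y4
  rw [hl b a] at x2 y4
  rw [hk c a, hk c b] at x3 y5 y6
  rw [hl c a, hl c b] at x3
  rw [hl c b] at y5
  rw [hl c a] at y6
  rw [hk c b] at y2
  rw [hk c a] at y4
  rw [hk b a] at y6
  exact colM_of x1 x2 x3 y1 y2 y3 y4 y5 y6

/-! ### The columns -/

/-- the height of a row -/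
theorem ht0 {A : Fin 4 → Fin 4 → Option (Fin 4 → ℝ)} {P : Fin 4 → Fin 4 → ℝ} {a x y z : Fin 4}
    (h : OLB A P a) (hn : [a, x, y, z].Nodup) : 0 ≤ P x x - 1 := by
  have hx := (nodup_ne hn).1
  have hn' : [x, a, y, z].Nodup := by
    clear * - hn; revert hn; revert a x y z; decide
  obtain ⟨c1, c2, c3, c4, -⟩ := cell_lin (h.of.cell x x _ (h.mn x hx)) hn'
  linarith

private theorem ups_true (X : ℝ) : Ups (fun _ _ => True) X :=
  ⟨fun _ _ _ _ => trivial, fun _ _ _ _ => trivial⟩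

/-- the lists of the column with two rows and no cell of the low class -/
def HB : Prop := ∀ X Y : ℝ, 0 ≤ X → X < 3 / 5 → 0 ≤ Y → Y < 3 / 5 →
  Base1 (nu X) (nu Y) (kk X Y) (2 / 5 * kk X Y) X Y (W1 X Y) (fun _ _ => True)

/-- the lists of the column with two rows, `T` the height of the third row -/
def HM : Prop := ∀ X Y T : ℝ, 0 ≤ X → X < 3 / 5 → 0 ≤ Y → Y < 3 / 5 → 0 ≤ T → T < 3 / 5 →
  X + Y + T < 9 / 10 →
  Modes (nu X) (nu Y) (kk X Y) X Y (W1 X Y) (W0 X Y) 0 (gg X Y T) (3 / 100)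
    (fun _ _ _ _ _ => True) flA (fun w => ph w X Y) (fun w => ph w Y T) (fun w => ph w X T)
    (fun w c => bb w c X Y) (fun w c => bb w c X Y)

/-- the lists of the column with three rows, more than one far cell -/
def HCd : Prop := ∀ X Y Z : ℝ, 0 ≤ X → X < 3 / 5 → 0 ≤ Y → Y < 3 / 5 → 0 ≤ Z → Z < 3 / 5 →
  Cd (nu X) (nu Y) (nu Z) (kk X Y) (kk X Z) (kk Y Z) (3 / 5 * kk X Z) X Y Z (W3 X Y Z)

def Hcyc : Prop := ∀ X Y Z p q r : ℝ, 0 ≤ X → X < 3 / 5 → 0 ≤ Y → Y < 3 / 5 → 0 ≤ Z →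
  Z < 3 / 5 → X + Y + Z < 9 / 10 → 0 ≤ p → p ≤ 1 → 0 ≤ q → q ≤ 1 → 0 ≤ r → r ≤ 1 →
  bb p q Y Z + bb q r X Z + bb r p X Y ≤ gg X Y Z + 3 / 100

def Htot : Prop := ∀ X Y Z : ℝ, 0 ≤ X → X < 3 / 5 → 0 ≤ Y → Y < 3 / 5 → 0 ≤ Z → Z < 3 / 5 →
  X + Y + Z < 9 / 10 →
  rowc (nu X) X + rowc (nu Y) Y + rowc (nu Z) Z + kk X Y * (X + Y) + kk X Z * (X + Z)
    + kk Y Z * (Y + Z) + W3 X Y Z + W0 Y Z + W0 X Z + W0 X Y + gg X Y Z + 3 / 100 ≤ 613 / 200

section

variable {A : Fin 4 → Fin 4 → Option (Fin 4 → ℝ)} {P : Fin 4 → Fin 4 → ℝ} {a z x y : Fin 4}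

/-- the column `z` with the rows `x`, `y` -/
theorem colE (hB : HB) (h : OLB A P a) (hS : ∀ x, ¬ InS A P a x) (hn : [a, z, x, y].Nodup) :
    ColE A P a z x y (nu (P x x - 1)) (nu (P y y - 1)) (kk (P x x - 1) (P y y - 1))
      (2 / 5 * kk (P x x - 1) (P y y - 1)) (W1 (P x x - 1) (P y y - 1))
      (W0 (P x x - 1) (P y y - 1)) (fun _ _ => True) (fun _ _ _ _ _ => True) flA := by
  have n1 : [a, x, y, z].Nodup := by
    clear * - hn; revert hn; revert a z x y; decide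
  have n2 : [a, y, x, z].Nodup := by
    clear * - hn; revert hn; revert a z x y; decide
  have n3 : [a, z, y, x].Nodup := by
    clear * - hn; revert hn; revert a z x y; decide
  have x0 := ht0 h n1
  have y0 := ht0 h n2
  have x1 := h.hd x (nodup_ne n1).1
  have y1 := h.hd y (nodup_ne n2).1
  have k0 : 0 ≤ kk (P x x - 1) (P y y - 1) := by
    have : Bd 0 (P x x - 1) (P y y - 1) := ⟨le_rfl, x0, y0, by norm_num, x1.le, y1.le⟩
    exact OL0.k0 this
  have sx := sideW_of x0 x1.le y0 y1.le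
  have sy := sideW_of y0 y1.le x0 x1.le
  rw [kk_comm (P y y - 1)] at sy
  refine ⟨k0, by linarith, sx, sy, fun _ => ⟨⟨k0, by linarith, sx, sy, ups_true _, ups_true _,
    hB _ _ x0 x1 y0 y1, ?_⟩, trivial, W1_le x0 x1.le y0 y1.le⟩, fun t => absurd trivial t,
    fun _ _ _ => ups_true _, fun _ _ _ => ups_true _, fun _ _ _ => trivial, ?_, ?_,
    fun _ _ t => t.elim, fun _ _ t => t.elim⟩
  · have := hB _ _ y0 y1 x0 x1
    rw [kk_comm (P y y - 1)] at this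
    have e : W1 (P y y - 1) (P x x - 1) = W1 (P x x - 1) (P y y - 1) := by
      unfold W1
      ring
    rw [e] at this
    exact this
  · intro C hC hd _
    exact notInS (hS x) hn hC hd
  · intro C hC hd _
    exact notInS (hS y) n3 hC hd

end

/-- three values on the classes other than `a` -/
theorem three_values {α : Type*} {a p r s : Fin 4} (hn : [a, p, r, s].Nodup) (f g k : α) :
    ∃ φ : Fin 4 → α, φ p = f ∧ φ r = g ∧ φ s = k := by
  have hpr : p ≠ r := by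
    clear * - hn; revert hn; revert a p r s; decide
  have hps : p ≠ s := by
    clear * - hn; revert hn; revert a p r s; decide
  have hrs : r ≠ s := by
    clear * - hn; revert hn; revert a p r s; decide
  exact ⟨fun z => if z = p then f else if z = r then g else k, by simp, by simp [hpr.symm],
    by simp [hps.symm, hrs.symm]⟩

/-- **The case `OL0'`.** -/
theorem ol0_of (hB : HB) (hM : HM) (hCd : HCd) (hcyc : Hcyc) (htot : Htot) : OL0' := by
  intro A P a p r s h hn hs hS _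
  have n1 : [a, r, p, s].Nodup := by
    clear * - hn; revert hn; revert a p r s; decide
  have n2 : [a, s, p, r].Nodup := by
    clear * - hn; revert hn; revert a p r s; decide
  have ne := nodup_ne hn
  unfold Hsm at hs
  have p0 := ht0 h hn
  have r0 := ht0 h n1
  have s0 := ht0 h n2
  have p1 := h.hd p ne.1
  have r1 := h.hd r ne.2.1
  have s1 := h.hd s ne.2.2
  have Ep := colE hB h hS hn
  have Er := colE hB h hS n1
  have Es := colE hB h hS n2
  have Mp := hM _ _ _ r0 r1 s0 s1 p0 p1 (by linarith)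
  have Mr := hM _ _ _ p0 p1 s0 s1 r0 r1 (by linarith)
  have Ms := hM _ _ _ p0 p1 r0 r1 s0 s1 (by linarith)
  have tot := htot _ _ _ p0 p1 r0 r1 s0 s1 (by linarith)
  have ca : ColI A P a p r s (nu (P p p - 1)) (nu (P r r - 1)) (nu (P s s - 1))
      (kk (P p p - 1) (P r r - 1)) (kk (P p p - 1) (P s s - 1)) (kk (P r r - 1) (P s s - 1))
      (3 / 5 * kk (P p p - 1) (P r r - 1)) (3 / 5 * kk (P p p - 1) (P s s - 1))
      (3 / 5 * kk (P r r - 1) (P s s - 1)) (W3 (P p p - 1) (P r r - 1) (P s s - 1)) := by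
    refine multi ⟨h.of, hn, h.mn p ne.1, h.mn r ne.2.1, h.mn s ne.2.2, p1, r1, s1, ?_⟩ ?_
    · intro q F hq hF
      exact h.hw q a F hq hq.symm hF
    · exact colM_symL (n := nu) (k := kk) (l := fun u v => 3 / 5 * kk u v) (W := W3) kk_comm
        (fun u v => by rw [kk_comm u v]) W3_sw1 W3_sw
        (fun a b c a0 a1 b0 b1 c0 c1 => col3 ⟨a0, b0, c0, a1.le, b1.le, c1.le⟩)
        (fun a b c a0 a1 b0 b1 c0 c1 => hCd a b c a0 a1 b0 b1 c0 c1) p0 p1 r0 r1 s0 s1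
  clear hB hM hCd htot
  obtain ⟨φ, φp, φr, φs⟩ := three_values hn (fun w => ph w (P r r - 1) (P s s - 1))
    (fun w => ph w (P p p - 1) (P s s - 1)) (fun w => ph w (P p p - 1) (P r r - 1))
  obtain ⟨b, bp, br, bs⟩ := three_values hn (fun w c => bb w c (P r r - 1) (P s s - 1))
    (fun w c => bb w c (P p p - 1) (P s s - 1)) (fun w c => bb w c (P p p - 1) (P r r - 1))
  have e1 : gg (P r r - 1) (P s s - 1) (P p p - 1) = gg (P p p - 1) (P r r - 1) (P s s - 1) := by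
    rw [gg_sw1 (P p p - 1), gg_sw (P r r - 1)]
  have e2 : gg (P p p - 1) (P s s - 1) (P r r - 1) = gg (P p p - 1) (P r r - 1) (P s s - 1) :=
    gg_sw _ _ _
  have f1 : (fun w => ph w (P s s - 1) (P p p - 1)) = fun w => ph w (P p p - 1) (P s s - 1) :=
    funext fun w => ph_comm w _ _
  have f2 : (fun w => ph w (P r r - 1) (P p p - 1)) = fun w => ph w (P p p - 1) (P r r - 1) :=
    funext fun w => ph_comm w _ _
  have f3 : (fun w => ph w (P s s - 1) (P r r - 1)) = fun w => ph w (P r r - 1) (P s s - 1) :=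
    funext fun w => ph_comm w _ _
  rw [e1, f1, f2, ← φp, ← φr, ← φs, ← bp] at Mp
  rw [e2, f3, ← φp, ← φr, ← φs, ← br] at Mr
  rw [← φp, ← φr, ← φs, ← bs] at Ms
  have Gp := colG_of (B := fun z _ => b z) h hn Ep Mp
  have Gr := colG_of (B := fun z _ => b z) h n1 Er Mr
  have Gs := colG_of (B := fun z _ => b z) h n2 Es Ms
  refine piece (lpr := 3 / 5 * kk (P p p - 1) (P r r - 1))
    (lps := 3 / 5 * kk (P p p - 1) (P s s - 1)) (lrs := 3 / 5 * kk (P r r - 1) (P s s - 1))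
    (Wa := W3 (P p p - 1) (P r r - 1) (P s s - 1)) (tp := 0) (tr := 0) (ts := 0)
    h hn Gp Gr Gs (by norm_num) (gg_nonneg p0 p1.le r0 r1.le s0 s1.le) ?_ ?_ (by simp) (by simp)
    (by simp) ?_ (by linarith) (by linarith) (by linarith) ?_
  · intro z y x hz u v w u0 u1 v0 v1 w0 w1
    have k1 := hcyc _ _ _ u v w p0 p1 r0 r1 s0 s1 (by linarith) u0 u1 v0 v1 w0 w1
    have k2 := hcyc _ _ _ u v w p0 p1 s0 s1 r0 r1 (by linarith) u0 u1 v0 v1 w0 w1
    have k3 := hcyc _ _ _ u v w r0 r1 p0 p1 s0 s1 (by linarith) u0 u1 v0 v1 w0 w1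
    have k4 := hcyc _ _ _ u v w r0 r1 s0 s1 p0 p1 (by linarith) u0 u1 v0 v1 w0 w1
    have k5 := hcyc _ _ _ u v w s0 s1 p0 p1 r0 r1 (by linarith) u0 u1 v0 v1 w0 w1
    have k6 := hcyc _ _ _ u v w s0 s1 r0 r1 p0 p1 (by linarith) u0 u1 v0 v1 w0 w1
    rw [e2, bb_comm u v (P s s - 1)] at k2
    rw [gg_sw1, bb_comm w u (P r r - 1)] at k3
    rw [e1, bb_comm u v (P s s - 1), bb_comm v w (P r r - 1)] at k4
    rw [gg_sw1, gg_sw, bb_comm v w (P s s - 1), bb_comm w u (P s s - 1)] at k5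
    rw [gg_sw1, e1, bb_comm u v (P r r - 1), bb_comm v w (P s s - 1),
      bb_comm w u (P s s - 1)] at k6
    rcases mem4 hn z with rfl | rfl | rfl | rfl <;> rcases mem4 hn y with rfl | rfl | rfl | rfl <;>
      rcases mem4 hn x with rfl | rfl | rfl | rfl <;> first
      | (exfalso; simp at hz; done)
      | (simp only [bp, br, bs]
         first | exact k1 | exact k2 | exact k3 | exact k4 | exact k5 | exact k6)
  · refine Pool.Agent.Helper8.TS.ol0_hi fun m hm => ?_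
    rcases mem4 hn m with rfl | rfl | rfl | rfl
    · exact absurd rfl hm
    · exact ⟨_, _, _, p0, p1.le, r0, r1.le, s0, s1.le, fun w => by rw [φp], rfl⟩
    · exact ⟨_, _, _, r0, r1.le, p0, p1.le, s0, s1.le, fun w => by rw [φr], by rw [gg_sw1]⟩
    · exact ⟨_, _, _, s0, s1.le, p0, p1.le, r0, r1.le, fun w => by rw [φs],
        by unfold gg; ring⟩
  · simpa using ca
  · linarith

end Pool.Agent.Helper19.TS.OL0
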