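import Pool.Agent.Helper19.TS.OL0Asm
import Pool.Agent.Helper36.TY.OLCd
import Pool.Agent.Helper36.TY.OLBase
import Pool.Agent.Helper8.TS.OL0Cyc
import Pool.Agent.Helper8.TS.OL0Tot

/-!
# The case `OL0'` from the modes
-/

set_option autoImplicit false

namespace Pool.Agent.Helper19.TS.OL0

open Pool.Agent.Helper84.TS Pool.Agent.Helper36.TS Pool.Agent.Helper74.TS Pool.Agent.Helper5.TS
open Pool.Agent.Helper78.TS

theorem hB : HB := fun _ _ x0 x1 y0 y1 => Pool.Agent.Helper36.TY.base1 x0 x1.le y0 y1.le _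

theorem hCd : HCd := fun _ _ _ x0 x1 y0 y1 z0 z1 =>
  Pool.Agent.Helper36.TY.cd x0 x1.le y0 y1.le z0 z1.le

theorem hcyc : Hcyc := fun _ _ _ _ _ _ x0 x1 y0 y1 z0 z1 _ p0 p1 q0 q1 r0 r1 =>
  Pool.Agent.Helper8.TS.ol0_hcyc x0 x1.le y0 y1.le z0 z1.le p0 p1 q0 q1 r0 r1

theorem htot : Htot := fun X Y Z x0 x1 y0 y1 z0 z1 _ => by
  have := Pool.Agent.Helper8.TS.ol0_total x0 x1.le y0 y1.le z0 z1.le
  linarith

/-- **`OL0'` from the modes of the two-row columns.** -/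
theorem ol0_of_modes (hM : HM) : OL0' := ol0_of hB hM hCd hcyc htot

end Pool.Agent.Helper19.TS.OL0
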