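import Mathlib

/-!
# The numbers of the case `OL1Ar`

Heights of the rows: `x` of `p`, `y` of `r`, `z` of `s`. `np`, `nr`, `ns`: multipliers of the rows;
`kpr`, `kps`, `krs`: multipliers of the pairs, `Kpr`, `Krs` their parts in the two-row column; `Wp`,
`Wr`, `Ws`: bounds of the two-row columns, `Wp1`, `Ws1` without the cell of the low class; `Wa`: bound
of the column of the low class; `sm`: multiplier of `1 - d` in the witness column; `gg`: bound of the
sum of the gains; `php`, `phr`, `phs`, `Bpr`, ...: bounds of the gains. Numbers found by helper11.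
-/

set_option autoImplicit false

namespace Pool.Agent.Helper19.TS.OL1Ar

noncomputable def np (x : ℝ) : ℝ :=
    6884 / 10000 + 1333 / 10000 * x - 5759 / 10000 * x ^ 2

noncomputable def nr (y : ℝ) : ℝ :=
    8079 / 10000 - 1453 / 10000 * y - 3719 / 10000 * y ^ 2

noncomputable def ns (z : ℝ) : ℝ :=
    8167 / 10000 - 2063 / 10000 * z - 2453 / 10000 * z ^ 2

noncomputable def kpr (x y : ℝ) : ℝ :=
    5250 / 10000 - 5527 / 10000 * x - 5227 / 10000 * y + 7099 / 10000 * (x * y)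

noncomputable def kps (x z : ℝ) : ℝ :=
    5338 / 10000 - 5052 / 10000 * x - 4393 / 10000 * z + 5819 / 10000 * (x * z)

noncomputable def krs (y z : ℝ) : ℝ :=
    3421 / 10000 - 5685 / 10000 * y - 5685 / 10000 * z + 14135 / 10000 * (y * z)

noncomputable def Kpr (x y : ℝ) : ℝ :=
    1921 / 10000 - 928 / 10000 * x - 2030 / 10000 * y + 1619 / 10000 * (x * y)

noncomputable def Krs (y z : ℝ) : ℝ :=
    308 / 10000 - 506 / 10000 * y - 507 / 10000 * z + 1536 / 10000 * (y * z)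

noncomputable def Wp (y z : ℝ) : ℝ :=
    4445 / 10000 + 6193 / 10000 * y + 6563 / 10000 * z - 2307 / 10000 * y ^ 2
      - 2532 / 10000 * z ^ 2 - 909 / 10000 * (y * z)

noncomputable def Wr (x z : ℝ) : ℝ :=
    -(2592 / 10000) + 3869 / 10000 * x + 4916 / 10000 * z + 1314 / 10000 * x ^ 2
      - 1152 / 10000 * z ^ 2 + 1660 / 10000 * (x * z)

noncomputable def Ws (x y : ℝ) : ℝ :=
    3434 / 10000 + 3054 / 10000 * x + 5764 / 10000 * y + 824 / 10000 * x ^ 2
      - 1794 / 10000 * y ^ 2 + 1564 / 10000 * (x * y)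

noncomputable def Wa (x y z : ℝ) : ℝ :=
    5709 / 10000 + 5457 / 10000 * x + 1009 / 10000 * y + 872 / 10000 * z - 3523 / 10000 * x ^ 2
      + 3590 / 10000 * y ^ 2 + 3763 / 10000 * z ^ 2 + 2778 / 10000 * (x * y)
      + 2584 / 10000 * (x * z) - 331 / 10000 * (y * z)

noncomputable def sm (x : ℝ) : ℝ :=
    3373 / 10000 - 2566 / 10000 * x

noncomputable def php (w : ℝ) : ℝ :=
    11 / 10000 + 970 / 10000 * w + 1132 / 10000 * w ^ 2 + 404 / 10000 * w ^ 3

noncomputable def phr (w : ℝ) : ℝ :=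
    3845 / 10000 + 2857 / 10000 * w + 520 / 10000 * w ^ 2 + 256 / 10000 * w ^ 3

noncomputable def phs (w : ℝ) : ℝ :=
    80 / 10000 + 1749 / 10000 * w + 3179 / 10000 * w ^ 2 - 1193 / 10000 * w ^ 3

noncomputable def Bpr (w c : ℝ) : ℝ :=
    68 / 10000 + 2517 / 10000 * w + 479 / 10000 * w ^ 2 - 23 / 10000 * w ^ 3 + 110 / 10000 * c
      - 114 / 10000 * c ^ 2 - 1175 / 10000 * (w * c) - 440 / 10000 * (w ^ 2 * c)
      - 1168 / 10000 * (w * c ^ 2)

noncomputable def Bps (w c : ℝ) : ℝ :=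
    64 / 10000 + 539 / 10000 * w + 1968 / 10000 * w ^ 2 - 73 / 10000 * w ^ 3 - 135 / 10000 * c
      + 86 / 10000 * c ^ 2 + 2130 / 10000 * (w * c) - 2123 / 10000 * (w ^ 2 * c)
      - 2130 / 10000 * (w * c ^ 2)

noncomputable def Brp (w c : ℝ) : ℝ :=
    3930 / 10000 + 2750 / 10000 * w - 2086 / 10000 * w ^ 2 + 3041 / 10000 * w ^ 3
      - 341 / 10000 * c + 213 / 10000 * c ^ 2 + 3045 / 10000 * (w * c)
      - 3279 / 10000 * (w ^ 2 * c) - 2013 / 10000 * (w * c ^ 2)

noncomputable def Brs (w c : ℝ) : ℝ :=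
    4035 / 10000 + 2542 / 10000 * w - 116 / 10000 * w ^ 2 + 769 / 10000 * w ^ 3
      + 1788 / 10000 * c - 3645 / 10000 * c ^ 2 - 3022 / 10000 * (w * c)
      - 1434 / 10000 * (w ^ 2 * c) + 2114 / 10000 * (w * c ^ 2)

noncomputable def Bsp (w c : ℝ) : ℝ :=
    288 / 10000 + 3385 / 10000 * w - 1254 / 10000 * w ^ 2 + 1946 / 10000 * w ^ 3
      + 117 / 10000 * c - 197 / 10000 * c ^ 2 - 209 / 10000 * (w * c)
      + 546 / 10000 * (w ^ 2 * c) - 2495 / 10000 * (w * c ^ 2)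

noncomputable def Bsr (w c : ℝ) : ℝ :=
    308 / 10000 + 2065 / 10000 * w + 1095 / 10000 * w ^ 2 + 119 / 10000 * w ^ 3
      + 368 / 10000 * c - 678 / 10000 * c ^ 2 - 2053 / 10000 * (w * c)
      - 1118 / 10000 * (w ^ 2 * c)

noncomputable def gg (x : ℝ) : ℝ :=
    7772 / 10000 + 273 / 10000 * x

noncomputable def Wp1 (y z : ℝ) : ℝ := Wp y z - 8 / 10000

noncomputable def Ws1 (x y : ℝ) : ℝ := Ws x y - 19 / 10000

end Pool.Agent.Helper19.TS.OL1Ar
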