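import Mathlib

/-!
# The numbers of the case `OL1Br`

Heights of the rows: `x` of `p`, `y` of `r`, `z` of `s`. `np`, `nr`, `ns`: multipliers of the rows;
`kpr`, `kps`, `krs`: multipliers of the pairs, `Kpr`, `Krs` their parts in the two-row column; `Wp`,
`Wr`, `Ws`: bounds of the two-row columns, `Wp1`, `Ws1` without the cell of the low class; `Wa`: bound
of the column of the low class; `sm`: multiplier of `1 - d` in the witness column; `gg`: bound of the
sum of the gains; `php`, `phr`, `phs`, `Bpr`, ...: bounds of the gains. Numbers found by helper11.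
-/

set_option autoImplicit false

namespace Pool.Agent.Helper19.TS.OL1Br

noncomputable def np (x : ℝ) : ℝ :=
    5564 / 10000 - 910 / 10000 * x - 2070 / 10000 * x ^ 2

noncomputable def nr (y : ℝ) : ℝ :=
    8758 / 10000 - 3738 / 10000 * y - 1706 / 10000 * y ^ 2

noncomputable def ns (z : ℝ) : ℝ :=
    8690 / 10000 - 4215 / 10000 * z - 1420 / 10000 * z ^ 2

noncomputable def kpr (x y : ℝ) : ℝ :=
    4428 / 10000 - 4328 / 10000 * x - 4118 / 10000 * y + 3739 / 10000 * (x * y)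

noncomputable def kps (x z : ℝ) : ℝ :=
    4360 / 10000 - 4328 / 10000 * x - 4809 / 10000 * z + 3602 / 10000 * (x * z)

noncomputable def krs (y z : ℝ) : ℝ :=
    4887 / 10000 - 5761 / 10000 * y - 5712 / 10000 * z + 7887 / 10000 * (y * z)

noncomputable def Kpr (x y : ℝ) : ℝ :=
    1741 / 10000 - 1747 / 10000 * x - 1596 / 10000 * y + 1048 / 10000 * (x * y)

noncomputable def Krs (y z : ℝ) : ℝ :=
    1808 / 10000 - 2172 / 10000 * y - 2150 / 10000 * z + 3536 / 10000 * (y * z)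

noncomputable def Wp (y z : ℝ) : ℝ :=
    4687 / 10000 + 5246 / 10000 * y + 5446 / 10000 * z - 2238 / 10000 * y ^ 2
      - 2132 / 10000 * z ^ 2 + 2716 / 10000 * (y * z)

noncomputable def Wr (x z : ℝ) : ℝ :=
    -(1939 / 10000) + 4161 / 10000 * x + 2716 / 10000 * z + 1534 / 10000 * x ^ 2
      + 314 / 10000 * z ^ 2 + 2347 / 10000 * (x * z)

noncomputable def Ws (x y : ℝ) : ℝ :=
    2744 / 10000 + 4266 / 10000 * x + 4237 / 10000 * y - 642 / 10000 * x ^ 2
      - 1578 / 10000 * y ^ 2 + 2941 / 10000 * (x * y)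

noncomputable def Wa (x y z : ℝ) : ℝ :=
    5079 / 10000 + 2424 / 10000 * x + 1222 / 10000 * y + 1928 / 10000 * z - 433 / 10000 * x ^ 2
      + 3228 / 10000 * y ^ 2 + 1988 / 10000 * z ^ 2 + 2021 / 10000 * (x * y)
      + 2244 / 10000 * (x * z) + 1403 / 10000 * (y * z)

noncomputable def sm (x : ℝ) : ℝ :=
    3314 / 10000 - 3139 / 10000 * x

noncomputable def php (w : ℝ) : ℝ :=
    56 / 10000 + 992 / 10000 * w + 1578 / 10000 * w ^ 2 + 132 / 10000 * w ^ 3

noncomputable def phr (w : ℝ) : ℝ :=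
    3662 / 10000 + 2284 / 10000 * w + 583 / 10000 * w ^ 2 + 892 / 10000 * w ^ 3

noncomputable def phs (w : ℝ) : ℝ :=
    127 / 10000 + 2097 / 10000 * w + 3105 / 10000 * w ^ 2 - 1119 / 10000 * w ^ 3

noncomputable def Bpr (w c : ℝ) : ℝ :=
    66 / 10000 + 2312 / 10000 * w + 509 / 10000 * w ^ 2 + 328 / 10000 * w ^ 3 + 1607 / 10000 * c
      - 1636 / 10000 * c ^ 2 - 1536 / 10000 * (w * c) - 1266 / 10000 * (w ^ 2 * c)
      + 17 / 10000 * (w * c ^ 2)

noncomputable def Bps (w c : ℝ) : ℝ :=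
    6 / 10000 + 1410 / 10000 * w + 1228 / 10000 * w ^ 2 + 799 / 10000 * c - 799 / 10000 * c ^ 2
      + 47 / 10000 * (w * c) - 1228 / 10000 * (w ^ 2 * c) - 1447 / 10000 * (w * c ^ 2)

noncomputable def Brp (w c : ℝ) : ℝ :=
    3689 / 10000 + 2166 / 10000 * w - 537 / 10000 * w ^ 2 + 2400 / 10000 * w ^ 3
      - 488 / 10000 * c + 340 / 10000 * c ^ 2 + 3425 / 10000 * (w * c)
      - 3809 / 10000 * (w ^ 2 * c) - 1920 / 10000 * (w * c ^ 2)

noncomputable def Brs (w c : ℝ) : ℝ :=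
    4017 / 10000 + 2930 / 10000 * w - 1099 / 10000 * w ^ 2 + 1410 / 10000 * w ^ 3
      + 880 / 10000 * c - 2647 / 10000 * c ^ 2 - 2329 / 10000 * (w * c)
      - 883 / 10000 * (w ^ 2 * c) + 826 / 10000 * (w * c ^ 2)

noncomputable def Bsp (w c : ℝ) : ℝ :=
    418 / 10000 + 3014 / 10000 * w - 281 / 10000 * w ^ 2 + 1579 / 10000 * w ^ 3
      - 180 / 10000 * c + 17 / 10000 * c ^ 2 - 296 / 10000 * (w * c) - 440 / 10000 * (w ^ 2 * c)
      - 1797 / 10000 * (w * c ^ 2)

noncomputable def Bsr (w c : ℝ) : ℝ :=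
    1588 / 10000 + 91 / 10000 * w + 2570 / 10000 * w ^ 2 - 2759 / 10000 * c
      + 1191 / 10000 * c ^ 2 + 3790 / 10000 * (w * c) - 2570 / 10000 * (w ^ 2 * c)
      - 3871 / 10000 * (w * c ^ 2)

noncomputable def gg (z : ℝ) : ℝ :=
    8044 / 10000 + 36 / 10000 * z

noncomputable def Wp1 (y z : ℝ) : ℝ := Wp y z - 62 / 10000

noncomputable def Ws1 (x y : ℝ) : ℝ := Ws x y - 48 / 10000

end Pool.Agent.Helper19.TS.OL1Br
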