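import Pool.Agent.Helper36.TS.Frame

/-!
# Slots and far cells: elementary bounds in real variables
-/

set_option autoImplicit false

namespace Pool.Agent.Helper19.TS

open Pool.Agent.Helper36.TS

/-! ### Slots -/

/-- the slot function is linear in its multiplier -/
theorem sx_sub (c k d u : ℝ) : sx (c - k) d u = sx c d u - k * u := by
  unfold sx
  ring

theorem sx_pos {c d u : ℝ} (h0 : 0 ≤ u) (h1 : u ≤ 1) : sx c d u = c * u - (1 - d) * u ^ 2 / 2 := by
  rw [sx_of_le h1, max_eq_right (by linarith : -u ≤ 0)]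
  ring

theorem sx_neg {c d u : ℝ} (h0 : u ≤ 0) :
    sx c d u = c * u - (1 - d) * u ^ 2 / 2 + (-u) ^ 3 / 3 := by
  rw [sx_of_le (by linarith), max_eq_left (by linarith : 0 ≤ -u)]

/-- a negative entry contributes nothing -/
theorem sx_nonpos {c d u : ℝ} (hc : 0 ≤ c) (hd : d ≤ 1) (hl : -(1 - d) ≤ u) (hu : u ≤ 0) :
    sx c d u ≤ 0 := by
  rw [sx_neg hu]
  have h1 : c * u ≤ 0 := mul_nonpos_of_nonneg_of_nonpos hc hu
  have h2 : 0 ≤ u ^ 2 * (u + (1 - d)) := mul_nonneg (sq_nonneg u) (by linarith)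
  have h3 : 0 ≤ u ^ 2 * (1 - d) := mul_nonneg (sq_nonneg u) (by linarith)
  nlinarith

/-- an entry may be replaced by its positive part -/
theorem sx_le_max {c d u : ℝ} (hc : 0 ≤ c) (hd : d ≤ 1) (hl : -(1 - d) ≤ u) (hu : u ≤ 1) :
    sx c d u ≤ c * max u 0 - (1 - d) * (max u 0) ^ 2 / 2 := by
  rcases le_total u 0 with h | h
  · rw [max_eq_right h]
    have := sx_nonpos hc hd hl h
    linarith
  · rw [max_eq_left h, sx_pos h hu]

/-- monotone on the negative entries -/
theorem sx_mono_neg {c d u U : ℝ} (hc : 0 ≤ c) (hl : -(1 - d) ≤ u) (h : u ≤ U) (hU : U ≤ 0) :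
    sx c d u ≤ c * U - (1 - d) * U ^ 2 / 2 + (-U) ^ 3 / 3 := by
  rw [sx_neg (h.trans hU)]
  have h1 : 0 ≤ (U - u) * c := mul_nonneg (by linarith) hc
  have h2 : 0 ≤ (U - u) * ((-U + -u) * (u + (1 - d))) :=
    mul_nonneg (by linarith) (mul_nonneg (by linarith) (by linarith))
  have h3 : 0 ≤ (U - u) * ((U - u) * (-u - 2 * U)) :=
    mul_nonneg (by linarith) (mul_nonneg (by linarith) (by linarith))
  nlinarith

/-- monotone up to the cap `U ≥ 0` if the multiplier is large -/
theorem sx_mono_pos {c d u U : ℝ} (hd : d ≤ 1) (hl : -(1 - d) ≤ u) (h : u ≤ U) (hU : 0 ≤ U)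
    (hU1 : U ≤ 1) (hc : (1 - d) * U ≤ c) : sx c d u ≤ c * U - (1 - d) * U ^ 2 / 2 := by
  have h0 : 0 ≤ (1 - d) * U := mul_nonneg (by linarith) hU
  rcases le_total u 0 with h1 | h1
  · have h2 := sx_nonpos (h0.trans hc) hd hl h1
    nlinarith [mul_nonneg hU (sub_nonneg.2 hc), mul_nonneg hU h0]
  · rw [sx_pos h1 (h.trans hU1)]
    have h3 : 0 ≤ (U - u) * (c - (1 - d) * U) := mul_nonneg (by linarith) (by linarith)
    have h4 : 0 ≤ (U - u) * ((1 - d) * (U - u)) :=
      mul_nonneg (by linarith) (mul_nonneg (by linarith) (by linarith))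
    nlinarith

/-! ### Far cells -/

section

variable {f w d al be ui ux uy di dx dy sx' sy : ℝ}

/-- the classes `x`, `y` exchanged -/
theorem FarC_swap (h : FarC f w d al be ui ux uy di dx dy sx' sy) :
    FarC f w d be al ui uy ux di dy dx sy sx' := by
  obtain ⟨h1, h2, h3, h4, h5, h6, h7, h8, h9, h10, h11, h12⟩ := h
  refine ⟨h1, h2, h3, h4, h6, h5, by linarith, h9, h8, ?_, h12, h11⟩
  rw [h10]
  ring

/-- kind A, `al ≥ 0`: the worst height is `0` -/
theorem FarC_le_al (h : FarC f w d al be ui ux uy di dx dy sx' sy) (ha : 0 ≤ al) :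
    f ≤ w * (1 - al) * (w + al) - w ^ 3 / 3 + (max (al - 1 + w) 0) ^ 3 / 3 := by
  have e : 1 - be = w + al - d := by linarith [h.sum]
  have e2 : d - be = al - 1 + w := by linarith [h.sum]
  rw [h.vol, e, e2]
  have hx : (max (d - al) 0) ^ 3 ≤ w * (1 - al) * d := by
    rcases le_total (d - al) 0 with h1 | h1
    · rw [max_eq_right h1]
      have := mul_nonneg (mul_nonneg h.w0.le (by linarith [h.al1] : 0 ≤ 1 - al)) h.d0
      simpa using this
    · rw [max_eq_left h1]
      have a1 : d - al ≤ w := by linarith [h.al0]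
      have a2 : d - al ≤ 1 - al := by linarith [h.d1]
      have a3 : d - al ≤ d := by linarith
      calc (d - al) ^ 3 = (d - al) * (d - al) * (d - al) := by ring
        _ ≤ w * (1 - al) * d := mul_le_mul (mul_le_mul a1 a2 h1 h.w0.le) a3 h1
            (mul_nonneg h.w0.le (by linarith [h.al1]))
  have hm : 0 ≤ w * (1 - al) * d := mul_nonneg (mul_nonneg h.w0.le (by linarith [h.al1])) h.d0
  nlinarith

/-- kind A, `al < 0`: the bound at `al = 0` -/
theorem FarC_le_al_neg (h : FarC f w d al be ui ux uy di dx dy sx' sy) (ha : al ≤ 0) :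
    f ≤ w ^ 2 - w ^ 3 / 3 := by
  have e : 1 - be = w + al - d := by linarith [h.sum]
  have e2 : d - be = al - 1 + w := by linarith [h.sum]
  have h0 := h.d0
  have h1 := h.w0
  have h2 := h.w1
  have h3 := h.al0
  rw [h.vol, e, e2, max_eq_right (by linarith : al - 1 + w ≤ 0),
    max_eq_left (by linarith : 0 ≤ d - al)]
  set t := d - al with ht
  have t0 : 0 ≤ t := by linarith
  have tw : t ≤ w := by linarith
  have ta : -al ≤ t := by linarith
  have e3 : w + al - d = w - t := by rw [ht]; ring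
  rw [e3]
  -- `w (1 - al) (w - t) + t³/3 ≤ w²`
  have k1 : 0 ≤ w * (w - t) * (t + al) :=
    mul_nonneg (mul_nonneg h1.le (by linarith)) (by linarith)
  have k2 : 0 ≤ t * (w - t) * (w + t) :=
    mul_nonneg (mul_nonneg t0 (by linarith)) (by linarith)
  have k3 : 0 ≤ w * t * (1 - w) := mul_nonneg (mul_nonneg h1.le t0) (by linarith)
  have k4 : 0 ≤ w * t * t := mul_nonneg (mul_nonneg h1.le t0) t0
  have k5 : 0 ≤ t * t * (w - t) := mul_nonneg (mul_nonneg t0 t0) (by linarith)
  nlinarith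

/-- in all cases -/
theorem FarC_le_four (h : FarC f w d al be ui ux uy di dx dy sx' sy) :
    f ≤ w * (1 + w - d) ^ 2 / 4 - w ^ 3 / 4 := by
  have h0 := h.d0
  have h01 := h.d1
  have h1 := h.w0
  have h2 := h.w1
  have h3 := h.al0
  have h4 := h.be0
  have hs := h.sum
  rw [h.vol]
  set x := d - al with hx
  set y := d - be with hy
  have xw : x ≤ w := by linarith
  have yw : y ≤ w := by linarith
  have exy : x + y = w - 1 + d := by linarith
  have e1 : 1 - al = 1 - d + x := by rw [hx]; ring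
  have e2 : 1 - be = 1 - d + y := by rw [hy]; ring
  have e3 : w * (1 - al) * (1 - be) = w * (1 + w - d) ^ 2 / 4 - w * (x - y) ^ 2 / 4 := by
    have : 1 + w - d = (1 - al) + (1 - be) := by linarith
    rw [this, e1, e2]
    ring
  rw [e3]
  rcases le_total x 0 with hx0 | hx0 <;> rcases le_total y 0 with hy0 | hy0
  · rw [max_eq_right hx0, max_eq_right hy0]
    nlinarith [mul_nonneg h1.le (sq_nonneg (x - y)), pow_pos h1 3]
  · rw [max_eq_right hx0, max_eq_left hy0]
    have k1 : 0 ≤ w * (w ^ 2 - y ^ 2) := mul_nonneg h1.le (by nlinarith)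
    have k2 : 0 ≤ y ^ 2 * (w - y) := mul_nonneg (sq_nonneg y) (by linarith)
    have k3 : 0 ≤ w * (-x) * (2 * y - x) :=
      mul_nonneg (mul_nonneg h1.le (by linarith)) (by linarith)
    nlinarith
  · rw [max_eq_left hx0, max_eq_right hy0]
    have k1 : 0 ≤ w * (w ^ 2 - x ^ 2) := mul_nonneg h1.le (by nlinarith)
    have k2 : 0 ≤ x ^ 2 * (w - x) := mul_nonneg (sq_nonneg x) (by linarith)
    have k3 : 0 ≤ w * (-y) * (2 * x - y) :=
      mul_nonneg (mul_nonneg h1.le (by linarith)) (by linarith)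
    nlinarith
  · rw [max_eq_left hx0, max_eq_left hy0]
    have hxy : x + y ≤ w := by linarith
    have k1 : 0 ≤ (w - (x + y)) * (x - y) ^ 2 := mul_nonneg (by linarith) (sq_nonneg _)
    have k2 : (x + y) ^ 3 ≤ w ^ 3 := pow_le_pow_left₀ (by linarith) hxy 3
    nlinarith

/-- in all cases, the worst height is `0` -/
theorem FarC_le_three (h : FarC f w d al be ui ux uy di dx dy sx' sy) :
    f ≤ w * (1 + w) ^ 2 / 4 - w ^ 3 / 3 := by
  have h0 := h.d0
  have h01 := h.d1
  have h1 := h.w0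
  have h2 := h.w1
  have h3 := h.al0
  have h4 := h.be0
  have hs := h.sum
  rw [h.vol]
  set x := d - al with hx
  set y := d - be with hy
  have xw : x ≤ w := by linarith
  have yw : y ≤ w := by linarith
  have exy : x + y = w - 1 + d := by linarith
  have e1 : 1 - al = 1 - d + x := by rw [hx]; ring
  have e2 : 1 - be = 1 - d + y := by rw [hy]; ring
  have e3 : w * (1 - al) * (1 - be) = w * (1 + w) ^ 2 / 4 - w * d * (2 + 2 * w - d) / 4
      - w * (x - y) ^ 2 / 4 := by
    have : w * (1 + w) ^ 2 / 4 - w * d * (2 + 2 * w - d) / 4 = w * (1 + w - d) ^ 2 / 4 := by ring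
    rw [this]
    have : 1 + w - d = (1 - al) + (1 - be) := by linarith
    rw [this, e1, e2]
    ring
  have k0 : 0 ≤ w * d * (1 - d) := mul_nonneg (mul_nonneg h1.le h0) (by linarith)
  have k00 : 0 ≤ w * d * w := mul_nonneg (mul_nonneg h1.le h0) h1.le
  have k01 : 0 ≤ w * d := mul_nonneg h1.le h0
  -- one positive excess
  have one : ∀ z t : ℝ, 0 ≤ z → t ≤ 0 → z ≤ w → z + t = w - 1 + d →
      z ^ 3 / 3 ≤ w * d * (2 + 2 * w - d) / 4 + w * (z - t) ^ 2 / 4 := by
    intro z t z0 t0 zw ezt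
    have m1 : 0 ≤ z ^ 2 * (w - z) := mul_nonneg (sq_nonneg z) (by linarith)
    have m3 : 0 ≤ w * (-t) * z := mul_nonneg (mul_nonneg h1.le (by linarith)) z0
    have m4 : 0 ≤ w * t ^ 2 := mul_nonneg h1.le (sq_nonneg t)
    rcases le_total z (-t) with c | c
    · have m2 : 0 ≤ w * (z - t + 2 * z) * (-t - z) :=
        mul_nonneg (mul_nonneg h1.le (by linarith)) (by linarith)
      nlinarith
    · -- `e = z + t ∈ [0, d]`
      have e0 : 0 ≤ z + t := by linarith
      have ed : z + t ≤ d := by linarith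
      have ew : z + t ≤ w := by linarith
      have m5 : 0 ≤ w * (z + t) := mul_nonneg h1.le e0
      have m6 : w * (z + t) ≤ w * d := mul_le_mul_of_nonneg_left ed h1.le
      have m7 : w * (z + t) * (z + t) ≤ w * d * 1 :=
        mul_le_mul m6 (by linarith) e0 k01
      have m8 : 0 ≤ w * (4 * z - 3 * (z + t)) ^ 2 := mul_nonneg h1.le (sq_nonneg _)
      nlinarith
  rw [e3]
  rcases le_total x 0 with hx0 | hx0 <;> rcases le_total y 0 with hy0 | hy0
  · rw [max_eq_right hx0, max_eq_right hy0]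
    have k1 : 0 ≤ w * (x - y) ^ 2 := mul_nonneg h1.le (sq_nonneg _)
    nlinarith
  · rw [max_eq_right hx0, max_eq_left hy0]
    have := one y x hy0 hx0 yw (by linarith)
    have e4 : (y - x) ^ 2 = (x - y) ^ 2 := by ring
    rw [e4] at this
    linarith
  · rw [max_eq_left hx0, max_eq_right hy0]
    have := one x y hx0 hy0 xw exy
    linarith
  · rw [max_eq_left hx0, max_eq_left hy0]
    have hxy : x + y ≤ w := by linarith
    have hxd : x + y ≤ d := by linarith
    have k1 : 0 ≤ (w - (x + y)) * (x - y) ^ 2 := mul_nonneg (by linarith) (sq_nonneg _)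
    have k2 : (x + y) ^ 3 ≤ w * d * 1 := by
      calc (x + y) ^ 3 = (x + y) * (x + y) * (x + y) := by ring
        _ ≤ w * d * 1 := mul_le_mul (mul_le_mul hxy hxd (by linarith) h1.le) (by linarith)
            (by linarith) k01
    nlinarith

end

end Pool.Agent.Helper19.TS
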