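import Pool.Agent.Helper19.TS.Col2143
import Pool.Agent.Helper36.TS.FrameG

/-!
# The type `(2,1,4,3)`: in the columns `i`, `j`, `k`, `l` the classes `j`, `i`, `l`, `k` are lowest
-/

set_option autoImplicit false

namespace Pool.Agent.Helper19.TS

open Pool.Agent.Helper84.TS Pool.Agent.Helper36.TS

theorem six_values {i j k l : Fin 4} (hn : [i, j, k, l].Nodup) (a b c d e f : ℝ) :
    ∃ κ : Fin 4 → Fin 4 → ℝ, κ i j = a ∧ κ i k = b ∧ κ i l = c ∧ κ j k = d ∧ κ j l = e ∧
      κ k l = f := by
  simp only [List.nodup_cons, List.mem_cons, List.not_mem_nil, or_false, not_or] at hn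
  obtain ⟨⟨h1, h2, h3⟩, ⟨h4, h5⟩, h6, -⟩ := hn
  refine ⟨fun x y => if x = i then (if y = j then a else if y = k then b else c)
    else if x = j then (if y = k then d else e) else f, ?_, ?_, ?_, ?_, ?_, ?_⟩
  · simp
  · simp [Ne.symm h4]
  · simp [Ne.symm h5, Ne.symm h6]
  · simp [Ne.symm h1]
  · simp [Ne.symm h1, Ne.symm h6]
  · simp [Ne.symm h2, Ne.symm h4]

theorem four_values {i j k l : Fin 4} (hn : [i, j, k, l].Nodup) (a b c d : ℝ) :
    ∃ W : Fin 4 → ℝ, W i = a ∧ W j = b ∧ W k = c ∧ W l = d := by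
  simp only [List.nodup_cons, List.mem_cons, List.not_mem_nil, or_false, not_or] at hn
  obtain ⟨⟨h1, h2, h3⟩, ⟨h4, h5⟩, h6, -⟩ := hn
  refine ⟨fun x => if x = i then a else if x = j then b else if x = k then c else d,
    ?_, ?_, ?_, ?_⟩
  · simp
  · simp [Ne.symm h1]
  · simp [Ne.symm h2, Ne.symm h4]
  · simp [Ne.symm h3, Ne.symm h5, Ne.symm h6]

section

variable {A : Fin 4 → Fin 4 → Option (Fin 4 → ℝ)} {P : Fin 4 → Fin 4 → ℝ}

/-- the main row cell of a class in a column -/
theorem rw_main (h : OF A) (hP : ∀ i, A i i = some (P i)) (hd : ∀ i, P i i - 1 ≤ 3 / 5)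
    {x m y z : Fin 4} (hn : [x, m, y, z].Nodup) : Rw (P x x - 1) (-P x m) := by
  obtain ⟨c1, c2, c3, c4, -⟩ := cell_lin (h.cell x x _ (hP x)) hn
  exact ⟨by linarith, hd x, by linarith, h.main x _ (hP x) m (nodup_ne hn).1⟩

/-- **One column.** `m` the column, `e` its lowest class, `a`, `b` the others. -/
theorem col_all (h : OF A) (hP : ∀ i, A i i = some (P i)) (hd : ∀ i, P i i - 1 ≤ 3 / 5)
    (hw : ∀ i m F, m ≠ i → A i m = some F → 2 + F m ≤ 13 / 20 ∧ fcl i F ≤ 9 / 25)
    (hcol : ∀ m a b, a ≠ m → b ≠ m → a ≠ b → A a m = none ∨ A b m = none)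
    {m e a b : Fin 4} (hn : [m, e, a, b].Nodup) (h1 : -P e m ≤ -P a m) (h2 : -P e m ≤ -P b m) :
    CC (P a a - 1) (P b b - 1) (P e e - 1) (-P a m) (-P b m) (-P e m)
      + rst A id e m + rst A id a m + rst A id b m ≤
      WW (P e e - 1) (P a a - 1) (P b b - 1) + kk (P e e - 1) (P a a - 1) / 2 * slk P e a m b
        + kk (P e e - 1) (P b b - 1) / 2 * slk P e b m a := by
  have ne : [e, m, a, b].Nodup := by
    clear * - hn; revert hn; revert m e a b; decide
  have na : [a, m, e, b].Nodup := by
    clear * - hn; revert hn; revert m e a b; decide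
  have nb : [b, m, e, a].Nodup := by
    clear * - hn; revert hn; revert m e a b; decide
  have na' : [e, a, m, b].Nodup := by
    clear * - hn; revert hn; revert m e a b; decide
  have nb' : [e, b, m, a].Nodup := by
    clear * - hn; revert hn; revert m e a b; decide
  have hme : m ≠ e := (nodup_ne ne).1
  have hma : m ≠ a := (nodup_ne na).1
  have hmb : m ≠ b := (nodup_ne nb).1
  have hea : e ≠ a := by
    simp only [List.nodup_cons, List.mem_cons, List.not_mem_nil, or_false, not_or] at hn
    exact hn.2.1.1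
  have heb : e ≠ b := by
    simp only [List.nodup_cons, List.mem_cons, List.not_mem_nil, or_false, not_or] at hn
    exact hn.2.1.2
  have hab : a ≠ b := by
    simp only [List.nodup_cons, List.mem_cons, List.not_mem_nil, or_false, not_or] at hn
    exact hn.2.2.1
  have hP' : ∀ i, A i (id i) = some (P i) := hP
  have re := rw_main h hP hd ne
  have ra := rw_main h hP hd na
  have rb := rw_main h hP hd nb
  have sa := slk_nonneg h hP' na'
  have sb := slk_nonneg h hP' nb'
  have hka := kk_nonneg re.d0 re.d1 ra.d0 ra.d1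
  have hkb := kk_nonneg re.d0 re.d1 rb.d0 rb.d1
  have ta : 0 ≤ kk (P e e - 1) (P a a - 1) / 2 * slk P e a m b := mul_nonneg (by linarith) sa
  have tb : 0 ≤ kk (P e e - 1) (P b b - 1) / 2 * slk P e b m a := mul_nonneg (by linarith) sb
  have hne := hcol m e a hme.symm hma.symm hea
  have hnb := hcol m e b hme.symm hmb.symm heb
  have hab' := hcol m a b hma.symm hmb.symm hab
  rcases he : A e m with _ | F
  · rcases ha : A a m with _ | F
    · rcases hb : A b m with _ | F
      · rw [rst_none id he, rst_none id ha, rst_none id hb]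
        have := col_N ra rb re h1 h2
        linarith
      · rw [rst_none id he, rst_none id ha, rst_some (s := id) hmb.symm hb]
        have := col_Y ra rb re h1 h2 (farC_rst h hP' hb nb) (own_rst h hP' hb hmb rfl)
          (hw b m F hmb hb).1 (hw b m F hmb hb).2
        linarith
    · rw [ha] at hab'
      have hb : A b m = none := by simpa using hab'
      rw [rst_none id he, rst_some (s := id) hma.symm ha, rst_none id hb]
      have := col_X ra rb re h1 h2 (farC_rst h hP' ha na) (own_rst h hP' ha hma rfl)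
        (hw a m F hma ha).1 (hw a m F hma ha).2
      linarith
  · rw [he] at hne hnb
    have ha : A a m = none := by simpa using hne
    have hb : A b m = none := by simpa using hnb
    rw [rst_some (s := id) hme.symm he, rst_none id ha, rst_none id hb]
    have := col_E ra rb re h1 h2 (farC_rst h hP' he ne) (own_rst h hP' he hme rfl)
      (hw e m F hme he).1 (hw e m F hme he).2 sa sb
    linarith

/-- **The type `(2,1,4,3)`.** -/
theorem type_2143 (h : OF A) (hP : ∀ i, A i i = some (P i)) (hd : ∀ i, P i i - 1 ≤ 3 / 5)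
    (hw : ∀ i m F, m ≠ i → A i m = some F → 2 + F m ≤ 13 / 20 ∧ fcl i F ≤ 9 / 25)
    (hcol : ∀ m a b, a ≠ m → b ≠ m → a ≠ b → A a m = none ∨ A b m = none)
    {i j k l : Fin 4} (hn : [i, j, k, l].Nodup)
    (i1 : -P j i ≤ -P k i) (i2 : -P j i ≤ -P l i) (j1 : -P i j ≤ -P k j) (j2 : -P i j ≤ -P l j)
    (k1 : -P l k ≤ -P i k) (k2 : -P l k ≤ -P j k) (l1 : -P k l ≤ -P i l) (l2 : -P k l ≤ -P j l) :
    ∑ t, VV A t ≤ 613 / 200 := by
  have hP' : ∀ i, A i (id i) = some (P i) := hP
  have nj : [j, i, k, l].Nodup := by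
    clear * - hn; revert hn; revert i j k l; decide
  have nk : [k, l, i, j].Nodup := by
    clear * - hn; revert hn; revert i j k l; decide
  have nl : [l, k, i, j].Nodup := by
    clear * - hn; revert hn; revert i j k l; decide
  obtain ⟨κ, κij, κik, κil, κjk, κjl, κkl⟩ := six_values hn
    (KK (P i i - 1) (P j j - 1)) (kk (P i i - 1) (P k k - 1)) (kk (P i i - 1) (P l l - 1))
    (kk (P j j - 1) (P k k - 1)) (kk (P j j - 1) (P l l - 1)) (KK (P k k - 1) (P l l - 1))
  obtain ⟨mu', mij, mik, mil, mjk, mjl, mkl⟩ := six_values hn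
    0 (kk (P i i - 1) (P k k - 1) / 2) (kk (P i i - 1) (P l l - 1) / 2)
    (kk (P j j - 1) (P k k - 1) / 2) (kk (P j j - 1) (P l l - 1) / 2) 0
  obtain ⟨W, Wi, Wj, Wk, Wl⟩ := four_values hn
    (WW (P j j - 1) (P k k - 1) (P l l - 1)) (WW (P i i - 1) (P k k - 1) (P l l - 1))
    (WW (P l l - 1) (P i i - 1) (P j j - 1)) (WW (P k k - 1) (P i i - 1) (P j j - 1))
  have ri := rw_main h hP hd hn
  have rj := rw_main h hP hd nj
  have rk := rw_main h hP hd nk
  have rl := rw_main h hP hd nl
  have ci := col_all h hP hd hw hcol hn i1 i2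
  have cj := col_all h hP hd hw hcol nj j1 j2
  have ck := col_all h hP hd hw hcol nk k1 k2
  have cl := col_all h hP hd hw hcol nl l1 l2
  have hK1 := KK_nonneg ri.d0 ri.d1 rj.d0 rj.d1
  have hK2 := KK_nonneg rk.d0 rk.d1 rl.d0 rl.d1
  have key := frameG h hP' hn (fun _ => 1) (fun x => nu (P x x - 1)) W κ (fun _ x y => mu' x y)
    (by
      simp only [colg, κjk, κjl, κkl, mjk, mjl, mkl, Wi]
      rw [min_eq_left i1, min_eq_left i2]
      unfold CC at ci
      linarith [ci])
    (by
      simp only [colg, κik, κil, κkl, mik, mil, mkl, Wj]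
      rw [min_eq_left j1, min_eq_left j2]
      unfold CC at cj
      linarith [cj])
    (by
      simp only [colg, κij, κil, κjl, mij, mil, mjl, Wk]
      rw [min_eq_right k1, min_eq_right k2]
      rw [slk_comm P l i k j, slk_comm' P i l k j, slk_comm P l j k i, slk_comm' P j l k i,
        kk_comm (P l l - 1) (P i i - 1), kk_comm (P l l - 1) (P j j - 1)] at ck
      unfold CC at ck
      rw [kk_comm (P l l - 1) (P i i - 1), kk_comm (P l l - 1) (P j j - 1)] at ck
      linarith [ck])
    (by
      simp only [colg, κij, κik, κjk, mij, mik, mjk, Wl]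
      rw [min_eq_right l1, min_eq_right l2]
      rw [slk_comm P k i l j, slk_comm' P i k l j, slk_comm P k j l i, slk_comm' P j k l i,
        kk_comm (P k k - 1) (P i i - 1), kk_comm (P k k - 1) (P j j - 1)] at cl
      unfold CC at cl
      rw [kk_comm (P k k - 1) (P i i - 1), kk_comm (P k k - 1) (P j j - 1)] at cl
      linarith [cl])
    (by simp only [mij, κij]; linarith) (by simp only [mik, κik]; linarith)
    (by simp only [mil, κil]; linarith) (by simp only [mjk, κjk]; linarith)
    (by simp only [mjl, κjl]; linarith) (by simp only [mkl, κkl]; linarith)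
  have tot := total ri.d0 ri.d1 rj.d0 rj.d1 rk.d0 rk.d1 rl.d0 rl.d1
  have r0 : ∀ x, rst A id x x = 0 := fun x => rst_row A (s := id) rfl
  rw [r0, r0, r0, r0, κij, κik, κil, κjk, κjl, κkl, Wi, Wj, Wk, Wl] at key
  linarith [key, tot]

end

end Pool.Agent.Helper19.TS
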