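import Pool.Agent.Helper70.OL.Wit

/-!
# The lists of a witness column with a known order and a loss

The cell of the low class is of kind B on the row `x` and of kind A on the row `y`; the order of the
entries is known (`k = 0`), so the two rows are independent. The loss `l` does not depend on `w`; the
base `w` is eliminated by the bounds of `T = max w s + w - A - B`. Exact slots for the entries `≥ 0`.
-/

set_option autoImplicit false

namespace Pool.Agent.Helper19.TS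

open Pool.Agent.Helper84.TS Pool.Agent.Helper36.TS Pool.Agent.Helper74.TS Pool.Agent.Helper83.TS
  Pool.Agent.Helper78.TS Pool.Agent.Helper70.OL

/-- **All the lists of a witness column with known order**, kind B on `x`, loss `l`. -/
structure LZ (nx ny X Y W A B l : ℝ) : Prop where
  c1 : ∀ u v, 0 ≤ u → u ≤ 1 → 1 - A + X ≤ u → 0 ≤ v → v ≤ 1 → v ≤ 1 - B + Y →
    st nx X u + st ny Y v + l ≤ W
  c3 : 1 + Y < B → ∀ u, 0 ≤ u → u ≤ 1 → 1 - A + X ≤ u →
    st nx X u + ng ny Y (B - 1 - Y) + l ≤ W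
  x1a : ∀ s v T, 0 < s → s ≤ 13 / 20 → s ≤ A - 1 → s ≤ X → 0 ≤ v → v ≤ 1 → v ≤ 1 - B + Y →
    0 ≤ T → T ≤ 2 - A - B → T ≤ A + B - 9 / 10 → s ≤ T →
    st nx X (X - s) + st ny Y v + (s * T - s ^ 3 / 3) + l ≤ W
  x1b : ∀ s v T, 0 < s → s ≤ 13 / 20 → s ≤ A - 1 → s ≤ X → 0 ≤ v → v ≤ 1 → v ≤ 1 - B + Y →
    0 ≤ T → T ≤ 2 - A - B → T ≤ A + B - 9 / 10 → T ≤ s →
    st nx X (X - s) + st ny Y v + (s * T - T ^ 3 / 3) + l ≤ W
  x2 : ∀ s v T, 0 < s → s ≤ 13 / 20 → s ≤ A - 1 → X ≤ s → 0 ≤ v → v ≤ 1 → v ≤ 1 - B + Y →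
    0 ≤ T → T ≤ 2 - A - B → T ≤ A + B - 9 / 10 →
    mj nx (1 - X) X s + st ny Y v + s * T + l ≤ W
  y1a : ∀ s u T, 0 ≤ s → s ≤ 13 / 20 → B - 1 ≤ s → s ≤ Y → 0 ≤ u → u ≤ 1 → 1 - A + X ≤ u →
    0 ≤ T → T ≤ 2 - A - B → T ≤ A + B - 9 / 10 → s ≤ T →
    st nx X u + st ny Y (Y - s) + (s * T - s ^ 3 / 3) + l ≤ W
  y1b : ∀ s u T, 0 ≤ s → s ≤ 13 / 20 → B - 1 ≤ s → s ≤ Y → 0 ≤ u → u ≤ 1 → 1 - A + X ≤ u →
    0 ≤ T → T ≤ 2 - A - B → T ≤ A + B - 9 / 10 → T ≤ s →
    st nx X u + st ny Y (Y - s) + (s * T - T ^ 3 / 3) + l ≤ W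
  y1c : ∀ s u T, 0 ≤ s → s ≤ 13 / 20 → B - 1 ≤ s → s ≤ Y → 0 ≤ u → u ≤ 1 → 1 - A + X ≤ u →
    0 ≤ T → T ≤ 1 / 5 → T ≤ 13 / 10 - A - B → T ≤ s →
    st nx X u + st ny Y (Y - s) + (s * T - T ^ 3 / 3) + l ≤ W
  y2a : ∀ s u T, 0 ≤ s → s ≤ 13 / 20 → B - 1 ≤ s → Y ≤ s → 0 ≤ u → u ≤ 1 → 1 - A + X ≤ u →
    0 ≤ T → T ≤ 2 - A - B → T ≤ A + B - 9 / 10 → s ≤ T →
    st nx X u + mj ny (1 - Y) Y s + (s * T - s ^ 3 / 3) + l ≤ W
  y2b : ∀ s u T, 0 ≤ s → s ≤ 13 / 20 → B - 1 ≤ s → Y ≤ s → 0 ≤ u → u ≤ 1 → 1 - A + X ≤ u →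
    0 ≤ T → T ≤ 2 - A - B → T ≤ A + B - 9 / 10 → T ≤ s →
    st nx X u + mj ny (1 - Y) Y s + (s * T - T ^ 3 / 3) + l ≤ W
  y2c : ∀ s u T, 0 ≤ s → s ≤ 13 / 20 → B - 1 ≤ s → Y ≤ s → 0 ≤ u → u ≤ 1 → 1 - A + X ≤ u →
    0 ≤ T → T ≤ 1 / 5 → T ≤ 13 / 10 - A - B → T ≤ s →
    st nx X u + mj ny (1 - Y) Y s + (s * T - T ^ 3 / 3) + l ≤ W
  y3 : 13 / 20 < B - 1 → ∀ u T, 0 ≤ u → u ≤ 1 → 1 - A + X ≤ u →
    0 ≤ T → T ≤ 2 - A - B → T ≤ A + B - 9 / 10 →
    st nx X u + mj ny (1 - Y) Y (B - 1) + 13 / 20 * T + l ≤ W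
  r1 : ∀ u d o, 0 ≤ u → u ≤ 1 → 1 - A + X ≤ u → 0 ≤ d → d ≤ 3 / 10 → d ≤ Y → B ≤ d →
    29 / 20 - d ≤ A → 0 ≤ o → o ≤ 13 / 20 → d + o ≤ Y →
    st nx X u + st ny Y (Y - (d + o)) + fo2 o d + l ≤ W
  r2 : ∀ u d o, 0 ≤ u → u ≤ 1 → 1 - A + X ≤ u → 0 ≤ d → d ≤ 3 / 10 → d ≤ Y → B ≤ d →
    29 / 20 - d ≤ A → 0 ≤ o → o ≤ 13 / 20 → Y ≤ d + o →
    st nx X u + mj ny (1 - Y) Y (d + o) + fo2 o d + l ≤ W

section

variable {nx ny X Y W w A B l u v : ℝ}

theorem V2_k0 (nx ny X Y u v : ℝ) : V2 nx ny 0 X Y u v = sx nx X u + sx ny Y v := by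
  unfold V2
  ring

/-- the slot of the entry `d - s` -/
theorem sx_cut {c d s : ℝ} (d0 : 0 ≤ d) (d1 : d ≤ 1) (s0 : 0 ≤ s) :
    (s ≤ d → sx c d (d - s) = st c d (d - s)) ∧ (d ≤ s → sx c d (d - s) ≤ mj c (1 - d) d s) :=
  ⟨fun h => sx_eq_st (by linarith) (by linarith), fun _ => sx_le_mj d0 s0 (by ring) (by linarith)⟩

/-- a negative entry is raised to `0` -/
theorem sx_z {c d u : ℝ} (hc : 0 ≤ c) (d1 : d ≤ 3 / 5) (lo : -(1 - d) ≤ u) :
    sx c d u ≤ sx c d (max u 0) := by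
  rcases le_total u 0 with h | h
  · rw [max_eq_right h]
    exact sx_up hc (by linarith) lo h le_rfl
  · rw [max_eq_left h]

/-- the signs of the symbols -/
structure Sz (nx ny X Y : ℝ) : Prop where
  kx : 0 ≤ nx
  ky : 1 / 4 ≤ ny
  X0 : 0 ≤ X
  X1 : X ≤ 3 / 5
  Y0 : 0 ≤ Y
  Y1 : Y ≤ 3 / 5

/-- the row `x` -/
theorem zx (g : Sz nx ny X Y) (ru : Row X u) (q : 1 - A + X < u) :
    ∃ a, 0 ≤ a ∧ a ≤ 1 ∧ 1 - A + X ≤ a ∧ sx nx X u ≤ st nx X a :=
  ⟨max u 0, le_max_right u 0, max_le ru.hi zero_le_one, q.le.trans (le_max_left _ _),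
    (sx_z g.kx g.X1 ru.lo).trans
      (sx_eq_st (le_max_right u 0) (max_le ru.hi zero_le_one)).le⟩

/-- the row `y` with a nonnegative bound of its entry -/
theorem zy (g : Sz nx ny X Y) (rv : Row Y v) (qy : v ≤ 1 - B + Y) (hB : B ≤ 1 + Y) :
    ∃ b, 0 ≤ b ∧ b ≤ 1 ∧ b ≤ 1 - B + Y ∧ sx ny Y v ≤ st ny Y b :=
  ⟨max v 0, le_max_right v 0, max_le rv.hi zero_le_one, max_le qy (by linarith),
    (sx_z (by linarith [g.ky]) g.Y1 rv.lo).trans
      (sx_eq_st (le_max_right v 0) (max_le rv.hi zero_le_one)).le⟩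

/-- the field `c` -/
theorem zc_of (g : Sz nx ny X Y) (L : LZ nx ny X Y W A B l) (ru : Row X u) (rv : Row Y v)
    (q : 1 - A + X < u) (qy : v ≤ 1 - B + Y) (B1 : B ≤ 2) :
    V2 nx ny 0 X Y u v + vl w A B ≤ W + (vl w A B - l) := by
  have Y1 := g.Y1
  have ky := g.ky
  obtain ⟨a, a0, a1, a2, ha⟩ := zx g ru q
  rw [V2_k0]
  rcases lt_or_ge (1 + Y) B with hB | hB
  · have e2 : sx ny Y v ≤ sx ny Y (-(B - 1 - Y)) :=
      sx_up (by linarith) (by linarith) rv.lo (by linarith) (by linarith)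
    rw [sx_ng (by linarith)] at e2
    have := L.c3 hB a a0 a1 a2
    linarith
  · obtain ⟨b, b0, b1, b2, hb⟩ := zy g rv qy hB
    have := L.c1 a b a0 a1 a2 b0 b1 b2
    linarith

/-- the field `x` of the row `x` -/
theorem zx_of (g : Sz nx ny X Y) (L : LZ nx ny X Y W A B l) (w1 : w ≤ 1) (A0 : 0 ≤ A)
    (B0 : 0 ≤ B) (lo' : w + 9 / 20 < A + B) (hi : A + B ≤ 1 + w) (o : ℝ) (ru : Row X u)
    (rv : Row Y v) (q : 1 - A + X < u) (qy : v ≤ 1 - B + Y) (o0 : 0 < o) (ho : u ≤ X - o)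
    (o1 : o ≤ 13 / 20) (ht : 0 ≤ max w o + w - A - B) :
    V2 nx ny 0 X Y u v + bn o (max w o + w - A - B) + vl w A B ≤ W + (vl w A B - l) := by
  have X0 := g.X0
  have X1 := g.X1
  have Y0 := g.Y0
  have lo := ru.lo
  have hi1 := ru.hi
  have hA : 1 + o < A := by linarith
  have hw : max w o = w := max_eq_left (by linarith)
  rw [hw] at ht ⊢
  rw [show w + w - A - B = 2 * w - A - B by ring] at ht ⊢
  obtain ⟨b, b0, b1, b2, hb⟩ := zy g rv qy (by linarith)
  rw [V2_k0]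
  -- the entry is `X - s`
  have key : ∀ s, sx nx X u ≤ sx nx X (X - s) → s ≤ 13 / 20 → o ≤ s → s ≤ A - 1 →
      sx nx X u + sx ny Y v + bn o (2 * w - A - B) + vl w A B ≤ W + (vl w A B - l) := by
    intro s e1 s1 hos hsA
    have s0' : 0 < s := by linarith
    have s0 : 0 ≤ s := s0'.le
    have hT1 : 2 * w - A - B ≤ 2 - A - B := by linarith
    have hT2 : 2 * w - A - B ≤ A + B - 9 / 10 := by linarith
    have hbn := bn_mono2 o0.le hos (by linarith) ht le_rfl (by linarith)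
    rcases le_total s X with h | h
    · have e2 := (sx_cut (c := nx) X0 (by linarith) s0).1 h
      rcases le_total s (2 * w - A - B) with h' | h'
      · have := L.x1a s b _ s0' s1 hsA h b0 b1 b2 ht hT1 hT2 h'
        have e3 : bn s (2 * w - A - B) = s * (2 * w - A - B) - s ^ 3 / 3 := by
          unfold bn
          rw [min_eq_left h']
        linarith
      · have := L.x1b s b _ s0' s1 hsA h b0 b1 b2 ht hT1 hT2 h'
        have e3 : bn s (2 * w - A - B) = s * (2 * w - A - B) - (2 * w - A - B) ^ 3 / 3 := by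
          unfold bn
          rw [min_eq_right h']
        linarith
    · have e2 := (sx_cut (c := nx) X0 (by linarith) s0).2 h
      have := L.x2 s b _ s0' s1 hsA h b0 b1 b2 ht hT1 hT2
      have e3 := bn_le s0 ht
      linarith
  rcases le_total (X - u) (13 / 20) with h | h
  · refine key (X - u) ?_ h (by linarith) (by linarith)
    rw [show X - (X - u) = u by ring]
  · refine key (13 / 20) ?_ le_rfl o1 (by linarith)
    exact sx_up g.kx (by linarith) lo (by linarith) (by linarith)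

/-- the field `x` of the row `y` -/
theorem zy_of (g : Sz nx ny X Y) (L : LZ nx ny X Y W A B l) (w1 : w ≤ 1) (A0 : 0 ≤ A)
    (B0 : 0 ≤ B) (lo' : w + 9 / 20 < A + B) (hi : A + B ≤ 1 + w) (o : ℝ) (ru : Row X u)
    (rv : Row Y v) (q : 1 - A + X < u) (qy : v ≤ 1 - B + Y) (o0 : 0 < o) (o1 : o ≤ 13 / 20)
    (ho : v ≤ Y - o) (ht : 0 ≤ max w o + w - A - B) :
    V2 nx ny 0 X Y u v + bn o (max w o + w - A - B) + vl w A B ≤ W + (vl w A B - l) := by
  have X0 := g.X0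
  have X1 := g.X1
  have Y0 := g.Y0
  have Y1 := g.Y1
  have ky := g.ky
  have lv := rv.lo
  have hv1 := rv.hi
  obtain ⟨a, a0, a1, a2, ha⟩ := zx g ru q
  rw [V2_k0]
  -- a larger cell
  have big : ∀ p, o ≤ p → p ≤ 13 / 20 → 0 ≤ max w p + w - A - B ∧
      bn o (max w o + w - A - B) ≤ bn p (max w p + w - A - B) := by
    intro p h1 h2
    have h3 := max_le_max_left w h1
    have h4 : max w p ≤ 1 := max_le w1 (by linarith)
    exact ⟨by linarith, bn_mono2 o0.le h1 (by linarith) ht (by linarith) (by linarith)⟩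
  have key : ∀ p, sx ny Y v ≤ sx ny Y (Y - p) → o ≤ p → p ≤ 13 / 20 → B - 1 ≤ p →
      sx nx X u + sx ny Y v + bn o (max w o + w - A - B) + vl w A B ≤ W + (vl w A B - l) := by
    intro p e1 hop p1 hBp
    obtain ⟨T0, hbn⟩ := big p hop p1
    have p0 : 0 ≤ p := by linarith
    rcases le_total p w with hw | hw
    · rw [max_eq_left hw] at T0 hbn
      have hT1 : w + w - A - B ≤ 2 - A - B := by linarith
      have hT2 : w + w - A - B ≤ A + B - 9 / 10 := by linarith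
      rcases le_total p (w + w - A - B) with h' | h'
      · have e3 : bn p (w + w - A - B) = p * (w + w - A - B) - p ^ 3 / 3 := by
          unfold bn
          rw [min_eq_left h']
        rcases le_total p Y with h | h
        · have e2 := (sx_cut (c := ny) Y0 (by linarith) p0).1 h
          have := L.y1a p a _ p0 p1 hBp h a0 a1 a2 T0 hT1 hT2 h'
          linarith
        · have e2 := (sx_cut (c := ny) Y0 (by linarith) p0).2 h
          have := L.y2a p a _ p0 p1 hBp h a0 a1 a2 T0 hT1 hT2 h'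
          linarith
      · have e3 : bn p (w + w - A - B) = p * (w + w - A - B) - (w + w - A - B) ^ 3 / 3 := by
          unfold bn
          rw [min_eq_right h']
        rcases le_total p Y with h | h
        · have e2 := (sx_cut (c := ny) Y0 (by linarith) p0).1 h
          have := L.y1b p a _ p0 p1 hBp h a0 a1 a2 T0 hT1 hT2 h'
          linarith
        · have e2 := (sx_cut (c := ny) Y0 (by linarith) p0).2 h
          have := L.y2b p a _ p0 p1 hBp h a0 a1 a2 T0 hT1 hT2 h'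
          linarith
    · rw [max_eq_right hw] at T0 hbn
      have h' : p + w - A - B ≤ p := by linarith
      have hT1 : p + w - A - B ≤ 1 / 5 := by linarith
      have hT2 : p + w - A - B ≤ 13 / 10 - A - B := by linarith
      have e3 : bn p (p + w - A - B) = p * (p + w - A - B) - (p + w - A - B) ^ 3 / 3 := by
        unfold bn
        rw [min_eq_right h']
      rcases le_total p Y with h | h
      · have e2 := (sx_cut (c := ny) Y0 (by linarith) p0).1 h
        have := L.y1c p a _ p0 p1 hBp h a0 a1 a2 T0 hT1 hT2 h'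
        linarith
      · have e2 := (sx_cut (c := ny) Y0 (by linarith) p0).2 h
        have := L.y2c p a _ p0 p1 hBp h a0 a1 a2 T0 hT1 hT2 h'
        linarith
  rcases le_total (Y - v) (13 / 20) with h | h
  · refine key (Y - v) ?_ (by linarith) h (by linarith)
    rw [show Y - (Y - v) = v by ring]
  · rcases le_or_gt (B - 1) (13 / 20) with hB | hB
    · refine key (13 / 20) ?_ o1 le_rfl hB
      exact sx_up (by linarith) (by linarith) lv (by linarith) (by linarith)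
    · have e2 : sx ny Y v ≤ sx ny Y (Y - (B - 1)) :=
        sx_up (by linarith) (by linarith) lv (by linarith) (by linarith)
      have hw : 13 / 20 ≤ w := by linarith
      obtain ⟨T0, hbn⟩ := big (13 / 20) o1 le_rfl
      rw [max_eq_left hw] at T0 hbn
      have e3 := (sx_cut (c := ny) (s := B - 1) Y0 (by linarith) (by linarith)).2 (by linarith)
      have := L.y3 hB a _ a0 a1 a2 T0 (by linarith) (by linarith)
      have e4 := bn_le (by norm_num : (0 : ℝ) ≤ 13 / 20) T0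
      linarith

/-- the field `r` of the row `y` -/
theorem zr_of (g : Sz nx ny X Y) (L : LZ nx ny X Y W A B l) (w1 : w ≤ 1)
    (lo' : w + 9 / 20 < A + B) (o d : ℝ) (ru : Row X u)
    (rv : Row Y v) (q : 1 - A + X < u) (o0 : 0 < o) (o1 : o ≤ 13 / 20) (d0 : 0 ≤ d)
    (d1 : d ≤ 3 / 10) (dY : d ≤ Y) (hB : B ≤ w + d - 1) (ho : v ≤ Y - d - o) :
    V2 nx ny 0 X Y u v + (o * (1 + o - d) ^ 2 / 4 - o ^ 3 / 3) + vl w A B
      ≤ W + (vl w A B - l) := by
  have Y0 := g.Y0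
  have Y1 := g.Y1
  have ky := g.ky
  have hv1 := rv.hi
  obtain ⟨a, a0, a1, a2, ha⟩ := zx g ru q
  rw [V2_k0]
  have ss : 0 ≤ d + o := by linarith
  have hvs : v ≤ Y - (d + o) := by linarith
  have e2 : sx ny Y v ≤ sx ny Y (Y - (d + o)) := mono_top ky Y1 rv.lo hv1 ss hvs
  have ef : fo2 o d = o * (1 + o - d) ^ 2 / 4 - o ^ 3 / 3 := rfl
  rw [← ef]
  rcases le_total (d + o) Y with h | h
  · have e3 := (sx_cut (c := ny) Y0 (by linarith) ss).1 h
    have := L.r1 a d o a0 a1 a2 d0 d1 dY (by linarith) (by linarith) o0.le o1 h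
    linarith
  · have e3 := (sx_cut (c := ny) Y0 (by linarith) ss).2 h
    have := L.r2 a d o a0 a1 a2 d0 d1 dY (by linarith) (by linarith) o0.le o1 h
    linarith

/-- **A witness column with known order from the lists.** -/
theorem st2_witz (g : Sz nx ny X Y) (S : Side ny Y) (L : LZ nx ny X Y W A B l)
    (w1 : w ≤ 1) (A0 : 0 ≤ A) (B0 : 0 ≤ B) (lo : w + 9 / 20 < A + B) (hi : A + B ≤ 1 + w) :
    St2 nx ny 0 X Y W (fun u _ => 1 - A + X < u) False True w A B (vl w A B - l) := by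
  have hB2 : B ≤ 2 := by linarith
  have S' : Side (ny - 0) Y := by rw [sub_zero]; exact S
  have H' : St1 nx ny 0 X Y W (fun u _ => 1 - A + X < u) False True w A B (vl w A B - l) := by
    refine ⟨fun u v ru rv q _ qy => zc_of g L ru rv q (qy trivial) hB2,
      fun u v o ru rv q _ qy o0 o1 ho ht =>
        zx_of g L w1 A0 B0 lo hi o ru rv q (qy trivial) o0 ho o1 ht, ?_, ?_, ?_⟩
    · intro u v o d ru rv q _ _ o0 o1 d0 d1 dX hA hu
      exfalso
      linarith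
    · intro _ hB u v o p ru rv q _ _ o0 o1 ho
      exfalso
      linarith
    · intro _ hB u v o d p ru rv q _ _ o0 o1 d0 d1 dX hA hu
      exfalso
      linarith
  have H : St1 ny nx 0 Y X W (fun v u => 1 - A + X < u) True False w B A (vl w A B - l) := by
    refine ⟨fun v u rv ru q qy _ => ?_, fun v u o rv ru q qy _ o0 o1 ho ht => ?_,
      fun v u o d rv ru q _ _ o0 o1 d0 d1 dY hB ho => ?_, fun h => h.elim, fun h => h.elim⟩
    · have := zc_of (w := w) g L ru rv q (qy trivial) hB2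
      rw [V2_swap ny nx, vl_comm w B A]
      exact this
    · have := zy_of g L w1 A0 B0 lo hi o ru rv q (qy trivial) o0 o1 ho (by linarith)
      rw [V2_swap ny nx, vl_comm w B A, show max w o + w - B - A = max w o + w - A - B by ring]
      exact this
    · have := zr_of g L w1 lo o d ru rv q o0 o1 d0 d1 dY hB ho
      rw [V2_swap ny nx, vl_comm w B A]
      exact this
  have UY : Ups (fun v u => 1 - A + X < u) Y := ⟨fun _ _ h _ => h, fun _ _ h _ => h⟩
  refine ⟨⟨H'.c, H'.x, ?_, H'.xy, ?_⟩, H.toW S' le_rfl UY H' w1 B0⟩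
  · intro u v o d ru rv q _ _ o0 o1 d0 d1 hA hu
    exfalso
    have h1 : max w o ≤ 1 := max_le w1 (by linarith)
    have h2 : max (X - d) 0 ≤ X := max_le (by linarith) g.X0
    linarith
  · intro _ hB u v o d p ru rv q _ _ o0 o1 d0 d1 hA hu
    exfalso
    have h1 : max w o ≤ 1 := max_le w1 (by linarith)
    have h2 : max (X - d) 0 ≤ X := max_le (by linarith) g.X0
    linarith

end

end Pool.Agent.Helper19.TS
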